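import Pool.Agent.RIG.Alg

/-!
[RIG-A1] The formal Taylor series `expEv ev D f = ∑ m, ev (D^m f) / m! X^m` is a ring
homomorphism in `f` which turns `D` into `d/dX`.
-/

namespace Pool.Agent.RIG

open PowerSeries

variable {R K : Type*} [CommRing R] [Field K] [CharZero K] (ev : R →+* K)
  (D : Derivation ℤ R R)

theorem expEv_coeff (f : R) (m : ℕ) :
    coeff m (expEv ev D f) = ((m.factorial : ℕ) : K)⁻¹ * ev ((⇑D)^[m] f) := by
  simp [expEv]

theorem expEv_constantCoeff (f : R) : constantCoeff (expEv ev D f) = ev f := by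
  rw [← coeff_zero_eq_constantCoeff_apply, expEv_coeff]
  simp

/-- iterates of a derivation are additive -/
theorem a1_iter_add (f g : R) (m : ℕ) : (⇑D)^[m] (f + g) = (⇑D)^[m] f + (⇑D)^[m] g := by
  induction m generalizing f g with
  | zero => rfl
  | succ m ih => rw [Function.iterate_succ_apply, Function.iterate_succ_apply,
      Function.iterate_succ_apply, map_add, ih]

theorem expEv_add (f g : R) : expEv ev D (f + g) = expEv ev D f + expEv ev D g := by
  ext m
  rw [map_add, expEv_coeff, expEv_coeff, expEv_coeff, a1_iter_add, map_add, mul_add]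

/-- `d/dX Γ(f) = Γ(D f)`: compare coefficients of `X^m`:
`(m+1) / (m+1)! = 1 / m!` and `D^{m+1} f = D^m (D f)`. -/
theorem expEv_deriv (f : R) : d⁄dX K (expEv ev D f) = expEv ev D (D f) := by
  ext m
  rw [coeff_derivative, expEv_coeff, expEv_coeff, Function.iterate_succ_apply,
    Nat.factorial_succ, Nat.cast_mul]
  have h1 : ((m + 1 : ℕ) : K) ≠ 0 := Nat.cast_ne_zero.2 (Nat.succ_ne_zero m)
  have h2 : ((m.factorial : ℕ) : K) ≠ 0 := Nat.cast_ne_zero.2 (Nat.factorial_ne_zero m)
  have h3 : ((m : K) + 1) = ((m + 1 : ℕ) : K) := by push_cast; rfl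
  rw [h3, mul_inv]
  field_simp

/-- Multiplicativity.  Proof 1: Leibniz' formula for `D^m (f g)`.  Proof 2 (shorter): show by
induction on `m` that for all `f g` the coefficients of `X^m` agree: for `m = 0` this is
`ev (f g) = ev f * ev g`; for `m + 1`, `(m+1)` times the coefficient of `X^(m+1)` of a series is
the coefficient of `X^m` of its derivative; the derivative of `Γ(f g)` is
`Γ(D f * g + f * D g)`, and the derivative of `Γ f Γ g` is `Γ(D f) Γ g + Γ f Γ(D g)`; use the
induction hypothesis for `(D f, g)` and `(f, D g)` and `m + 1 ≠ 0` in `K`. -/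
theorem expEv_mul (f g : R) : expEv ev D (f * g) = expEv ev D f * expEv ev D g := by
  ext m
  induction m generalizing f g with
  | zero =>
    rw [coeff_zero_eq_constantCoeff_apply, coeff_zero_eq_constantCoeff_apply, map_mul,
      expEv_constantCoeff, expEv_constantCoeff, expEv_constantCoeff, map_mul]
  | succ m ih =>
    have h1 : ((m : K) + 1) ≠ 0 := by
      have h3 : ((m : K) + 1) = ((m + 1 : ℕ) : K) := by push_cast; rfl
      rw [h3]
      exact Nat.cast_ne_zero.2 (Nat.succ_ne_zero m)
    apply mul_right_cancel₀ h1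
    rw [← coeff_derivative, ← coeff_derivative, expEv_deriv, Derivation.leibniz,
      Derivation.leibniz, expEv_deriv, expEv_deriv]
    simp only [smul_eq_mul]
    rw [expEv_add, map_add, map_add, ih f (D g), ih g (D f)]

/-- `D 1 = 0`. -/
theorem expEv_one : expEv ev D 1 = 1 := by
  ext m
  rw [expEv_coeff, coeff_one]
  cases m with
  | zero => simp
  | succ m =>
    rw [Function.iterate_succ_apply, Derivation.map_one_eq_zero, iterate_map_zero, map_zero,
      mul_zero, if_neg (Nat.succ_ne_zero m)]

theorem expEv_zero : expEv ev D 0 = 0 := by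
  ext m
  rw [expEv_coeff, iterate_map_zero, map_zero, mul_zero, map_zero]

/-- The Taylor series as a ring homomorphism `Γ : R → K⟦X⟧`. -/
noncomputable def expHom : R →+* K⟦X⟧ where
  toFun := expEv ev D
  map_one' := expEv_one ev D
  map_mul' := expEv_mul ev D
  map_zero' := expEv_zero ev D
  map_add' := expEv_add ev D

theorem expHom_deriv (f : R) : d⁄dX K (expHom ev D f) = expHom ev D (D f) :=
  expEv_deriv ev D f

theorem expHom_constantCoeff (f : R) : constantCoeff (expHom ev D f) = ev f :=
  expEv_constantCoeff ev D f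

/-- All coefficients vanish iff all `ev (D^m f)` vanish. -/
theorem expHom_eq_zero_iff (f : R) : expHom ev D f = 0 ↔ ∀ m, ev ((⇑D)^[m] f) = 0 := by
  have h0 : expHom ev D f = expEv ev D f := rfl
  rw [h0]
  constructor
  · intro h m
    have h1 := congrArg (coeff m) h
    rw [expEv_coeff, map_zero] at h1
    have h2 : ((m.factorial : ℕ) : K) ≠ 0 := Nat.cast_ne_zero.2 (Nat.factorial_ne_zero m)
    rcases mul_eq_zero.1 h1 with h3 | h3
    · exact absurd h3 (inv_ne_zero h2)
    · exact h3
  · intro h
    ext m
    rw [expEv_coeff, h m, mul_zero, map_zero]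

end Pool.Agent.RIG
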