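import Pool.Agent.RIG.Alg

/-!
[RIG-A2] Linear differential equations over `K⟦X⟧` (`K` a field of characteristic `0`).
-/

namespace Pool.Agent.RIG

open PowerSeries

variable {K : Type*} [Field K] [CharZero K]

/-- Antiderivative with zero constant term: `s = ∑ coeff m f / (m+1) X^(m+1)`. -/
theorem exists_antideriv (f : K⟦X⟧) : ∃ s : K⟦X⟧, d⁄dX K s = f ∧ constantCoeff s = 0 := by
  refine ⟨PowerSeries.mk fun n => coeff (n - 1) f / (n : K), ?_, ?_⟩
  · ext n
    rw [coeff_derivative, coeff_mk, Nat.add_sub_cancel]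
    have h : ((n + 1 : ℕ) : K) ≠ 0 := Nat.cast_ne_zero.2 (Nat.succ_ne_zero n)
    push_cast at h ⊢
    field_simp
  · rw [← coeff_zero_eq_constantCoeff_apply, coeff_mk]
    simp

/-- Uniqueness for linear systems: if `Z' = M Z` and `Z(0) = 0` then `Z = 0`.
Proof: by strong induction on `m` all coefficients `coeff m (Z b)` vanish: `(m+1) coeff (m+1) (Z b)
= coeff m (∑ c, M b c * Z c)` is a sum of products with factors `coeff p (Z c)`, `p ≤ m`. -/
theorem ode_unique {ι : Type*} [Fintype ι] (M : ι → ι → K⟦X⟧) (Z : ι → K⟦X⟧)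
    (h : ∀ b, d⁄dX K (Z b) = ∑ c, M b c * Z c) (h0 : ∀ b, constantCoeff (Z b) = 0) :
    ∀ b, Z b = 0 := by
  have key : ∀ m : ℕ, ∀ b, coeff m (Z b) = 0 := by
    intro m
    induction m using Nat.strong_induction_on with
    | _ m ih =>
      intro b
      rcases m with _ | m
      · rw [coeff_zero_eq_constantCoeff_apply]
        exact h0 b
      · have h1 := congrArg (coeff m) (h b)
        rw [coeff_derivative, map_sum] at h1
        have h2 : ∑ c, coeff m (M b c * Z c) = 0 := by
          refine Finset.sum_eq_zero fun c _ => ?_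
          rw [coeff_mul]
          refine Finset.sum_eq_zero fun p hp => ?_
          have hp2 := Finset.HasAntidiagonal.mem_antidiagonal.1 hp
          rw [ih p.2 (by omega) c, mul_zero]
        rw [h2] at h1
        have h3 : ((m : K) + 1) ≠ 0 := by
          have : ((m + 1 : ℕ) : K) ≠ 0 := Nat.cast_ne_zero.2 (Nat.succ_ne_zero m)
          push_cast at this
          exact this
        exact (mul_eq_zero.1 h1).resolve_right h3
  intro b
  ext m
  rw [key m b]
  simp

/-- The coefficient matrices of the fundamental solution. -/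
noncomputable def a2_phi {ι : Type*} [Fintype ι] [DecidableEq ι] (M : ℕ → Matrix ι ι K) :
    ℕ → Matrix ι ι K
  | 0 => 1
  | m + 1 => ((m + 1 : ℕ) : K)⁻¹ • ∑ p : Fin (m + 1), M (m - p.1) * a2_phi M p.1
termination_by m => m
decreasing_by exact p.2

/-- Existence of a fundamental solution.  Proof: define the coefficient matrices
`Φ_m : Matrix ι ι K` by strong recursion: `Φ_0 = 1`, `(m+1) Φ_{m+1} = ∑_{p ≤ m} M_p Φ_{m-p}`, where
`M_p = (coeff p (M b c))_{b c}`, and put `Φ b c = mk (fun m => Φ_m b c)`.  (Alternatively solve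
columns: first prove `∀ z₀ : ι → K, ∃ Z, Z' = M Z ∧ Z(0) = z₀` and take the unit vectors.) -/
theorem ode_fundamental {ι : Type*} [Fintype ι] [DecidableEq ι] (M : Matrix ι ι K⟦X⟧) :
    ∃ Φ : Matrix ι ι K⟦X⟧, (∀ b c, d⁄dX K (Φ b c) = (M * Φ) b c) ∧
      Φ.map (constantCoeff (R := K)) = 1 := by
  set N : ℕ → Matrix ι ι K := fun p => M.map (coeff (R := K) p) with hN
  refine ⟨Matrix.of fun b c => PowerSeries.mk fun m => a2_phi N m b c, ?_, ?_⟩
  · intro b c
    ext m
    rw [Matrix.of_apply, coeff_derivative, coeff_mk, a2_phi, Matrix.mul_apply, map_sum]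
    have h3 : ((m + 1 : ℕ) : K) ≠ 0 := Nat.cast_ne_zero.2 (Nat.succ_ne_zero m)
    have h4 : ∑ d, coeff m (M b d * (Matrix.of fun b c => PowerSeries.mk fun m => a2_phi N m b c :
        Matrix ι ι K⟦X⟧) d c) = (∑ p : Fin (m + 1), N (m - p.1) * a2_phi N p.1) b c := by
      rw [Matrix.sum_apply, ← Finset.sum_range (fun p => (N (m - p) * a2_phi N p) b c)]
      have h5 : ∀ d, coeff m (M b d * (Matrix.of fun b c => PowerSeries.mk fun m =>
          a2_phi N m b c : Matrix ι ι K⟦X⟧) d c) =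
          ∑ p ∈ Finset.range (m + 1), N (m - p) b d * a2_phi N p d c := by
        intro d
        rw [coeff_mul, ← Finset.Nat.sum_antidiagonal_swap,
          Finset.Nat.sum_antidiagonal_eq_sum_range_succ_mk]
        refine Finset.sum_congr rfl fun p _ => ?_
        simp only [Prod.swap, Matrix.of_apply, coeff_mk, hN, Matrix.map_apply]
      rw [Finset.sum_congr rfl fun d _ => h5 d, Finset.sum_comm]
      refine Finset.sum_congr rfl fun p _ => ?_
      rw [Matrix.mul_apply]
    rw [h4, Matrix.smul_apply, smul_eq_mul]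
    push_cast at h3 ⊢
    field_simp
  · ext b c
    rw [Matrix.map_apply, Matrix.of_apply, ← coeff_zero_eq_constantCoeff_apply, coeff_mk, a2_phi]

/-- The fundamental solution is invertible, with derivative of the inverse `-Ψ M`.
Proof: `constantCoeff (det Φ) = det (Φ.map constantCoeff) = 1` so `det Φ` is a unit of `K⟦X⟧`
(`PowerSeries.isUnit_iff_constantCoeff`), so `Φ` has a two-sided inverse `Ψ`.
From `Ψ Φ = 1`: `Ψ' Φ + Ψ M Φ = 0`, multiply by `Ψ` on the right. `Ψ(0) = 1` from `Ψ Φ = 1`. -/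
theorem ode_gauge {ι : Type*} [Fintype ι] [DecidableEq ι] (M : Matrix ι ι K⟦X⟧) :
    ∃ Φ Ψ : Matrix ι ι K⟦X⟧, (∀ b c, d⁄dX K (Φ b c) = (M * Φ) b c) ∧
      (∀ b c, d⁄dX K (Ψ b c) = -(Ψ * M) b c) ∧ Ψ * Φ = 1 ∧ Φ * Ψ = 1 ∧
      Φ.map (constantCoeff (R := K)) = 1 ∧ Ψ.map (constantCoeff (R := K)) = 1 := by
  obtain ⟨Φ, h1, h2⟩ := ode_fundamental M
  have hdet : IsUnit Φ.det := by
    rw [PowerSeries.isUnit_iff_constantCoeff, RingHom.map_det, RingHom.mapMatrix_apply, h2,
      Matrix.det_one]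
    exact isUnit_one
  have h3 : Φ⁻¹ * Φ = 1 := Matrix.nonsing_inv_mul Φ hdet
  have h4 : Φ * Φ⁻¹ = 1 := Matrix.mul_nonsing_inv Φ hdet
  refine ⟨Φ, Φ⁻¹, h1, ?_, h3, h4, h2, ?_⟩
  · set Ψ := Φ⁻¹ with hΨ
    -- the matrix of derivatives
    set D : Matrix ι ι K⟦X⟧ := Matrix.of fun b c => d⁄dX K (Ψ b c) with hD
    have h5 : D * Φ + Ψ * (M * Φ) = 0 := by
      ext1 b c
      have h6 : d⁄dX K ((Ψ * Φ) b c) = 0 := by
        rw [h3, Matrix.one_apply]
        split_ifs
        · exact Derivation.map_one_eq_zero _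
        · exact map_zero _
      rw [Matrix.mul_apply, map_sum] at h6
      rw [Matrix.add_apply, Matrix.mul_apply, Matrix.mul_apply, ← Finset.sum_add_distrib,
        Matrix.zero_apply, ← h6]
      refine Finset.sum_congr rfl fun e _ => ?_
      rw [Derivation.leibniz, h1 e c, smul_eq_mul, smul_eq_mul, hD, Matrix.of_apply]
      ring
    have h7 : D = -(Ψ * M) := by
      have h8 : (D * Φ + Ψ * (M * Φ)) * Ψ = 0 := by rw [h5, zero_mul]
      rw [add_mul, mul_assoc, h4, mul_one, ← mul_assoc Ψ M Φ, mul_assoc (Ψ * M) Φ Ψ, h4,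
        mul_one] at h8
      exact eq_neg_of_add_eq_zero_left h8
    intro b c
    have h9 := congrFun (congrFun h7 b) c
    rw [hD, Matrix.of_apply] at h9
    rw [h9, Matrix.neg_apply]
  · have h5 : (constantCoeff (R := K)).mapMatrix (Φ⁻¹ * Φ) = 1 := by
      rw [h3, map_one]
    rw [map_mul, RingHom.mapMatrix_apply, RingHom.mapMatrix_apply, h2, mul_one] at h5
    exact h5

end Pool.Agent.RIG
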