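import Mathlib

/-!
RIG (MP_d19687_ag): the algebraic definitions.  Everything here is an algebraic
(formal power series) version of computations with vector fields.
-/

namespace Pool.Agent.RIG

open PowerSeries

section Basic

variable {R : Type*} [CommRing R] {ι : Type*} [Fintype ι]

/-- The derivation `D_Y = ∑_b Y^b ∂_b` attached to a vector field with components `Y b`. -/
noncomputable def DD (pd : ι → Derivation ℤ R R) (Y : ι → R) : Derivation ℤ R R :=
  ∑ b, Y b • pd b

theorem DD_apply (pd : ι → Derivation ℤ R R) (Y : ι → R) (f : R) :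
    DD pd Y f = ∑ b, Y b * pd b f := by
  classical
  unfold DD
  generalize (Finset.univ : Finset ι) = s
  induction s using Finset.induction_on with
  | empty => simp
  | insert a s ha ih => rw [Finset.sum_insert ha, Finset.sum_insert ha, Derivation.add_apply, ih]; rfl

/-- Components of the Lie bracket `[Y, Z]`. -/
noncomputable def br (pd : ι → Derivation ℤ R R) (Y Z : ι → R) : ι → R :=
  fun b => DD pd Y (Z b) - DD pd Z (Y b)

/-- The algebraic data of the rigidity theorem. -/
structure Sys (R : Type*) [CommRing R] (ι : Type*) [Fintype ι] (A : Type*) [Fintype A]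
    (r : ℕ) where
  pd : ι → Derivation ℤ R R
  comm : ∀ b c f, pd b (pd c f) = pd c (pd b f)
  sg : ι → R
  lam : R
  y : Fin r → ι → R
  V : A → ι → R
  th : Fin r → A → ι → R
  ga : Fin r → A → Fin r → R
  E1 : ∀ i b, br pd sg (y i) b = lam * y i b + ∑ a, (∑ d, th i a d * sg d) * V a b
  E2 : ∀ i a, ∑ d, th i a d * y i d = 0
  E3 : ∀ a b, br pd sg (V a) b = 0
  E4 : ∀ i a b, br pd (y i) (V a) b = ∑ j, ga i a j * y j b

/-- The hypotheses on a point (a ring homomorphism to a field). -/
structure Pt {R : Type*} [CommRing R] {ι : Type*} [Fintype ι] {A : Type*} [Fintype A]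
    {r : ℕ} (S : Sys R ι A r) {K : Type*} [Field K] (ev : R →+* K) : Prop where
  sg0 : ∀ b, ev (S.sg b) = 0
  lam0 : ev S.lam = 0
  indep : LinearIndependent K (Sum.elim (fun (i : Fin r) (b : ι) => ev (S.y i b))
    (fun (a : A) (b : ι) => ev (S.V a b)))

/-- Iterated derivatives along a word `w = [i₁, …, i_n]`: `wd D w f = D i₁ (⋯ (D i_n f))`. -/
def wd {r : ℕ} (D : Fin r → Derivation ℤ R R) : List (Fin r) → R → R
  | [], f => f
  | i :: w, f => D i (wd D w f)

end Basic

/-- The formal Taylor series of `f` along the derivation `D` at the point `ev`. -/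
noncomputable def expEv {R K : Type*} [CommRing R] [Field K] (ev : R →+* K)
    (D : Derivation ℤ R R) (f : R) : K⟦X⟧ :=
  PowerSeries.mk fun m => ((m.factorial : ℕ) : K)⁻¹ * ev ((⇑D)^[m] f)

end Pool.Agent.RIG
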