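import Pool.Agent.RIG.Bun

/-!
[RIG-B1] Analyticity and derivatives of the fields on the frame bundle.
-/

namespace Pool.Agent.RIG

open Filter Topology

variable {T : Type*} [NormedAddCommGroup T] [NormedSpace ℂ T] {r : ℕ}

theorem mm_assoc (a b c : Ma r) : mm (mm a b) c = mm a (mm b c) := by
  funext i j
  have h := congrFun (congrFun (Matrix.mul_assoc (Matrix.of a) (Matrix.of b) (Matrix.of c)) i) j
  simpa [Matrix.mul_apply, mm] using h

theorem mm_add (a b c : Ma r) : mm a (b + c) = mm a b + mm a c := by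
  funext i j
  simp [mm, mul_add, Finset.sum_add_distrib]

theorem add_mm (a b c : Ma r) : mm (a + b) c = mm a c + mm b c := by
  funext i j
  simp [mm, add_mul, Finset.sum_add_distrib]

theorem mm_smul (t : ℂ) (a b : Ma r) : mm a (t • b) = t • mm a b := by
  funext i j
  simp only [mm, Pi.smul_apply, smul_eq_mul, Finset.mul_sum]
  exact Finset.sum_congr rfl fun k _ => by ring

theorem smul_mm (t : ℂ) (a b : Ma r) : mm (t • a) b = t • mm a b := by
  funext i j
  simp only [mm, Pi.smul_apply, smul_eq_mul, Finset.mul_sum]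
  exact Finset.sum_congr rfl fun k _ => by ring

theorem mm_neg (a b : Ma r) : mm a (-b) = - mm a b := by
  funext i j
  simp [mm]

theorem neg_mm (a b : Ma r) : mm (-a) b = - mm a b := by
  funext i j
  simp [mm]

theorem mm_one (a : Ma r) : mm a (oneMa r) = a := by
  funext i j
  simp [mm, oneMa]

theorem one_mm (a : Ma r) : mm (oneMa r) a = a := by
  funext i j
  simp [mm, oneMa]

/-- The matrix product as a continuous bilinear map. -/
noncomputable def b1_mmL (r : ℕ) : Ma r →L[ℂ] Ma r →L[ℂ] Ma r :=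
  LinearMap.toContinuousLinearMap
    ((LinearMap.toContinuousLinearMap (𝕜 := ℂ) (E := Ma r) (F' := Ma r)).toLinearMap ∘ₗ
      LinearMap.mk₂ ℂ (fun a b : Ma r => mm a b) add_mm smul_mm mm_add mm_smul)

theorem b1_mmL_apply (a b : Ma r) : b1_mmL r a b = mm a b := rfl

/-- Coordinatewise: finite sums of products of analytic functions. -/
theorem an_mm {E : Type*} [NormedAddCommGroup E] [NormedSpace ℂ E] {P : E} {f g : E → Ma r}
    (hf : AnalyticAt ℂ f P) (hg : AnalyticAt ℂ g P) : AnalyticAt ℂ (fun p => mm (f p) (g p)) P := by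
  have h := AnalyticAt.comp (f := fun p : E => (f p, g p)) (x := P)
    ((b1_mmL r).analyticAt_bilinear (f P, g P)) (hf.prod hg)
  exact h

/-- Leibniz rule for `mm`. -/
theorem hasFDerivAt_mm {E : Type*} [NormedAddCommGroup E] [NormedSpace ℂ E] {p : E}
    {f g : E → Ma r} (hf : DifferentiableAt ℂ f p) (hg : DifferentiableAt ℂ g p) (q : E) :
    DifferentiableAt ℂ (fun p => mm (f p) (g p)) p ∧
    fderiv ℂ (fun p => mm (f p) (g p)) p q = mm (fderiv ℂ f p q) (g p) + mm (f p) (fderiv ℂ g p q) := by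
  have h : HasFDerivAt (fun p => mm (f p) (g p)) _ p :=
    (b1_mmL r).hasFDerivAt_of_bilinear hf.hasFDerivAt hg.hasFDerivAt
  refine ⟨h.differentiableAt, ?_⟩
  rw [h.fderiv]
  simp only [ContinuousLinearMap.add_apply, ContinuousLinearMap.precompR_apply,
    ContinuousLinearMap.precompL_apply, b1_mmL_apply]
  exact add_comm _ _

/-- The entry `g_ij` of the matrix part as a continuous linear map. -/
noncomputable def b1_ent (T : Type*) [NormedAddCommGroup T] [NormedSpace ℂ T] {r : ℕ}
    (i j : Fin r) : T × Ma r →L[ℂ] ℂ :=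
  ((ContinuousLinearMap.proj j : (Fin r → ℂ) →L[ℂ] ℂ).comp
    (ContinuousLinearMap.proj i : (Fin r → Fin r → ℂ) →L[ℂ] (Fin r → ℂ))).comp
    (ContinuousLinearMap.snd ℂ T (Ma r))

theorem b1_ent_apply (i j : Fin r) (p : T × Ma r) : b1_ent T i j p = p.2 i j := rfl

theorem an_hv {X : Fin r → T → T} {P : T × Ma r} (hX : ∀ i, AnalyticAt ℂ (X i) P.1) (i : Fin r) :
    AnalyticAt ℂ (hv X i) P := by
  have h : ∀ j, AnalyticAt ℂ (fun p : T × Ma r => p.2 i j • X j p.1) P := by
    intro j
    have h1 : AnalyticAt ℂ (fun p : T × Ma r => p.2 i j) P := (b1_ent T i j).analyticAt P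
    have h2 : AnalyticAt ℂ (fun p : T × Ma r => X j p.1) P :=
      AnalyticAt.comp (g := X j) (f := fun p : T × Ma r => p.1) (hX j) analyticAt_fst
    exact h1.smul h2
  have h3 : AnalyticAt ℂ (fun p : T × Ma r => ∑ j, p.2 i j • X j p.1) P :=
    Finset.univ.analyticAt_fun_sum (fun j _ => h j)
  exact h3

theorem b1_an_app {E : Type*} [NormedAddCommGroup E] [NormedSpace ℂ E] {P : E}
    {L : E → T →L[ℂ] Ma r} {u : E → T} (hL : AnalyticAt ℂ L P) (hu : AnalyticAt ℂ u P) :
    AnalyticAt ℂ (fun p => L p (u p)) P := by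
  have h := AnalyticAt.comp (f := fun p : E => (L p, u p)) (x := P)
    ((ContinuousLinearMap.id ℂ (T →L[ℂ] Ma r)).analyticAt_bilinear (L P, u P)) (hL.prod hu)
  exact h

theorem an_hB {X : Fin r → T → T} {l : T → T →L[ℂ] Ma r} {P : T × Ma r}
    (hX : ∀ i, AnalyticAt ℂ (X i) P.1) (hl : AnalyticAt ℂ l P.1) (i : Fin r) :
    AnalyticAt ℂ (hB X l i) P := by
  have h1 : AnalyticAt ℂ (fun p : T × Ma r => l p.1) P :=
    AnalyticAt.comp (g := l) (f := fun p : T × Ma r => p.1) hl analyticAt_fst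
  have h2 := an_mm (analyticAt_snd (p := P)) (b1_an_app h1 (an_hv hX i))
  exact (an_hv hX i).prod h2.neg

theorem an_hS {l : T → T →L[ℂ] Ma r} {σ : T → T} {P : T × Ma r}
    (hl : AnalyticAt ℂ l P.1) (hσ : AnalyticAt ℂ σ P.1) :
    AnalyticAt ℂ (hS l σ) P := by
  have h1 : AnalyticAt ℂ (fun p : T × Ma r => l p.1) P :=
    AnalyticAt.comp (g := l) (f := fun p : T × Ma r => p.1) hl analyticAt_fst
  have h0 : AnalyticAt ℂ (fun p : T × Ma r => σ p.1) P :=
    AnalyticAt.comp (g := σ) (f := fun p : T × Ma r => p.1) hσ analyticAt_fst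
  have h2 := an_mm (analyticAt_snd (p := P)) (b1_an_app h1 h0)
  exact h0.prod h2.neg

/-- `hV a` as a linear map. -/
noncomputable def b1_VL (T : Type*) [NormedAddCommGroup T] [NormedSpace ℂ T] {r : ℕ}
    (a : Fin r × Fin r) : Ma r →L[ℂ] T × Ma r :=
  LinearMap.toContinuousLinearMap
    { toFun := fun g => (0, fun i j => if i = a.1 then g a.2 j else 0)
      map_add' := by
        intro g h
        refine Prod.ext ?_ ?_
        · simp
        · funext i j
          by_cases hi : i = a.1 <;> simp [hi]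
      map_smul' := by
        intro t g
        refine Prod.ext ?_ ?_
        · simp
        · funext i j
          by_cases hi : i = a.1 <;> simp [hi] }

theorem b1_hV_eq (a : Fin r × Fin r) :
    hV (T := T) a = ((b1_VL T a).comp (ContinuousLinearMap.snd ℂ T (Ma r)) :
      T × Ma r →L[ℂ] T × Ma r) := by
  funext p
  rfl

theorem an_hV (a : Fin r × Fin r) (P : T × Ma r) : AnalyticAt ℂ (hV (T := T) a) P := by
  rw [b1_hV_eq]
  exact ContinuousLinearMap.analyticAt _ P

/-- Derivative of `v_i`. -/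
theorem fderiv_hv {X : Fin r → T → T} {p : T × Ma r}
    (hX : ∀ i, DifferentiableAt ℂ (X i) p.1) (i : Fin r) (q : T × Ma r) :
    DifferentiableAt ℂ (hv X i) p ∧
    fderiv ℂ (hv X i) p q = ∑ j, (q.2 i j • X j p.1 + p.2 i j • fderiv ℂ (X j) p.1 q.1) := by
  have h : ∀ j, HasFDerivAt (fun p : T × Ma r => p.2 i j • X j p.1)
      (p.2 i j • (fderiv ℂ (X j) p.1).comp (ContinuousLinearMap.fst ℂ T (Ma r)) +
        (b1_ent T i j).smulRight (X j p.1)) p := by
    intro j
    have h1 : HasFDerivAt (fun p : T × Ma r => p.2 i j) (b1_ent T i j) p :=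
      (b1_ent T i j).hasFDerivAt
    have h2 : HasFDerivAt (fun p : T × Ma r => X j p.1)
        ((fderiv ℂ (X j) p.1).comp (ContinuousLinearMap.fst ℂ T (Ma r))) p :=
      HasFDerivAt.comp (g := X j) (f := fun p : T × Ma r => p.1) p (hX j).hasFDerivAt
        hasFDerivAt_fst
    exact h1.smul h2
  have h3 : HasFDerivAt (hv X i) (∑ j, (p.2 i j • (fderiv ℂ (X j) p.1).comp
      (ContinuousLinearMap.fst ℂ T (Ma r)) + (b1_ent T i j).smulRight (X j p.1))) p := by
    have h4 := HasFDerivAt.fun_sum (u := Finset.univ) (fun j _ => h j)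
    exact h4
  refine ⟨h3.differentiableAt, ?_⟩
  rw [h3.fderiv, ContinuousLinearMap.sum_apply]
  refine Finset.sum_congr rfl fun j _ => ?_
  simp only [ContinuousLinearMap.add_apply, ContinuousLinearMap.smul_apply,
    ContinuousLinearMap.comp_apply, ContinuousLinearMap.smulRight_apply, b1_ent_apply,
    ContinuousLinearMap.coe_fst']
  exact add_comm _ _

/-- Derivative of `(y, g) ↦ g ℓ_y (u (y, g))`. -/
theorem fderiv_gl {l : T → T →L[ℂ] Ma r} {u : T × Ma r → T} {p : T × Ma r}
    (hl : DifferentiableAt ℂ l p.1) (hu : DifferentiableAt ℂ u p) (q : T × Ma r) :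
    DifferentiableAt ℂ (fun p : T × Ma r => mm p.2 (l p.1 (u p))) p ∧
    fderiv ℂ (fun p : T × Ma r => mm p.2 (l p.1 (u p))) p q =
      mm q.2 (l p.1 (u p)) + mm p.2 (fderiv ℂ l p.1 q.1 (u p))
        + mm p.2 (l p.1 (fderiv ℂ u p q)) := by
  have h1 : HasFDerivAt (fun p : T × Ma r => l p.1)
      ((fderiv ℂ l p.1).comp (ContinuousLinearMap.fst ℂ T (Ma r))) p :=
    HasFDerivAt.comp (g := l) (f := fun p : T × Ma r => p.1) p hl.hasFDerivAt hasFDerivAt_fst
  have h2 := h1.clm_apply hu.hasFDerivAt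
  have h3 : DifferentiableAt ℂ (fun p : T × Ma r => p.2) p := differentiableAt_snd
  have h4 := hasFDerivAt_mm h3 h2.differentiableAt q
  refine ⟨h4.1, ?_⟩
  rw [h4.2, h2.fderiv]
  have h5 : fderiv ℂ (fun p : T × Ma r => p.2) p q = q.2 := by
    rw [fderiv_snd]
    rfl
  rw [h5]
  simp only [ContinuousLinearMap.add_apply, ContinuousLinearMap.comp_apply,
    ContinuousLinearMap.flip_apply, ContinuousLinearMap.coe_fst', mm_add]
  rw [add_assoc]
  congr 1
  exact add_comm _ _

/-- Derivative of a map `p ↦ (u p, - w p)`. -/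
theorem fderiv_pair {E F G : Type*} [NormedAddCommGroup E] [NormedSpace ℂ E]
    [NormedAddCommGroup F] [NormedSpace ℂ F] [NormedAddCommGroup G] [NormedSpace ℂ G]
    {u : E → F} {w : E → G} {p : E}
    (hu : DifferentiableAt ℂ u p) (hw : DifferentiableAt ℂ w p) (q : E) :
    fderiv ℂ (fun p => (u p, - w p)) p q = (fderiv ℂ u p q, - fderiv ℂ w p q) := by
  have h := hu.hasFDerivAt.prodMk hw.hasFDerivAt.fun_neg
  rw [h.fderiv]
  rfl

/-- `hV a` is (the restriction of) a linear map. -/
theorem fderiv_hV (a : Fin r × Fin r) (p q : T × Ma r) :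
    fderiv ℂ (hV (T := T) a) p q = hV a q := by
  rw [b1_hV_eq, ContinuousLinearMap.fderiv]

end Pool.Agent.RIG
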