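import Pool.Agent.RIG.B1

/-!
[RIG-B2] The brackets with the vertical fields.
-/

namespace Pool.Agent.RIG

open Filter Topology

variable {T : Type*} [NormedAddCommGroup T] [NormedSpace ℂ T] {r : ℕ}

/-- `E_a (g m) = (E_a g) m`. -/
theorem b2_mm (a : Fin r × Fin r) (g m : Ma r) :
    mm (fun i j => if i = a.1 then g a.2 j else 0) m =
      fun i j => if i = a.1 then mm g m a.2 j else 0 := by
  funext i j
  by_cases h : i = a.1
  · simp only [mm, h, if_true]
  · simp only [mm, h, if_false, zero_mul, Finset.sum_const_zero]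

theorem b2_fst {F : Type*} [NormedAddCommGroup F] [NormedSpace ℂ F] {σ : T → F} {p : T × Ma r}
    (hσ : DifferentiableAt ℂ σ p.1) (q : T × Ma r) :
    DifferentiableAt ℂ (fun p : T × Ma r => σ p.1) p ∧
      fderiv ℂ (fun p : T × Ma r => σ p.1) p q = fderiv ℂ σ p.1 q.1 := by
  have h1 : HasFDerivAt (fun p : T × Ma r => σ p.1)
      ((fderiv ℂ σ p.1).comp (ContinuousLinearMap.fst ℂ T (Ma r))) p :=
    hσ.hasFDerivAt.comp p hasFDerivAt_fst
  exact ⟨h1.differentiableAt, by rw [h1.fderiv]; rfl⟩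

/-- `v_i (hV a p) := ∑ j, (hV a p).2 i j • X j = (if i = a.1 then v_{a.2} p else 0)`. -/
theorem hv_hV (X : Fin r → T → T) (i : Fin r) (a : Fin r × Fin r) (p : T × Ma r) :
    ∑ j, (hV a p).2 i j • X j p.1 = if i = a.1 then hv X a.2 p else 0 := by
  by_cases h : i = a.1
  · rw [if_pos h]
    simp only [hV, h, if_true]
    rfl
  · rw [if_neg h]
    simp only [hV, h, if_false, zero_smul, Finset.sum_const_zero]

/-- `[σ̃, V_a] = 0`.  `lieBracket V W p = dW_p (V p) - dV_p (W p)`.  First component `0 - 0`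
(`(hV a p).1 = 0`).  Second: `E_a (- g ℓ(σ)) + (E_a g) ℓ(σ) = 0`, where `E_a h` denotes
`fun i j => if i = a.1 then h a.2 j else 0` and `E_a (g m) = (E_a g) m`. -/
theorem bracket_hS_hV {l : T → T →L[ℂ] Ma r} {σ : T → T} {p : T × Ma r}
    (hl : DifferentiableAt ℂ l p.1) (hσ : DifferentiableAt ℂ σ p.1) (a : Fin r × Fin r) :
    VectorField.lieBracket ℂ (hS l σ) (hV a) p = 0 := by
  have h1 := b2_fst (r := r) hσ (hV a p)
  have h2 := fderiv_gl (r := r) (u := fun p : T × Ma r => σ p.1) hl h1.1 (hV a p)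
  have h3 := fderiv_pair h1.1 h2.1 (hV a p)
  have h4 : (hS l σ : T × Ma r → T × Ma r) =
      fun p => (σ p.1, - mm p.2 (l p.1 (σ p.1))) := rfl
  rw [VectorField.lieBracket, fderiv_hV, h4, h3, h1.2, h2.2, h1.2]
  have h5 : (hV a p).1 = 0 := rfl
  rw [h5, map_zero, map_zero, ContinuousLinearMap.zero_apply]
  have h0 : mm p.2 (0 : Ma r) = 0 := by
    have := mm_smul (0 : ℂ) p.2 (0 : Ma r)
    simpa using this
  rw [map_zero, h0, add_zero, add_zero]
  have h6 : (hV a p).2 = fun i j => if i = a.1 then p.2 a.2 j else 0 := rfl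
  rw [h6, b2_mm]
  refine Prod.ext ?_ ?_
  · simp [hV]
  · funext i j
    by_cases h : i = a.1
    · simp [hV, h]
    · simp [hV, h]

/-- `[B_i, V_a] = - δ_{i,a.1} B_{a.2}`.  First component: `0 - dv_i (V_a p) = - δ v_{a.2}`
(`fderiv_hv`, `hv_hV`, `(hV a p).1 = 0`).  Second: `E_a (- g ℓ(v_i)) - (- (E_a g) ℓ(v_i) - g ℓ(δ v_{a.2}))
= δ g ℓ(v_{a.2})`. -/
theorem bracket_hB_hV {X : Fin r → T → T} {l : T → T →L[ℂ] Ma r} {p : T × Ma r}
    (hX : ∀ i, DifferentiableAt ℂ (X i) p.1) (hl : DifferentiableAt ℂ l p.1)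
    (i : Fin r) (a : Fin r × Fin r) :
    VectorField.lieBracket ℂ (hB X l i) (hV a) p =
      ∑ j, (if i = a.1 ∧ j = a.2 then (-1 : ℂ) else 0) • hB X l j p := by
  have h1 := fderiv_hv hX i (hV a p)
  have h2 := fderiv_gl (r := r) (u := hv X i) hl h1.1 (hV a p)
  have h3 := fderiv_pair h1.1 h2.1 (hV a p)
  have h4 : (hB X l i : T × Ma r → T × Ma r) =
      fun p => (hv X i p, - mm p.2 (l p.1 (hv X i p))) := rfl
  have h5 : (hV a p).1 = 0 := rfl
  have h7 : fderiv ℂ (hv X i) p (hV a p) = if i = a.1 then hv X a.2 p else 0 := by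
    rw [h1.2, ← hv_hV]
    apply Finset.sum_congr rfl
    intro j _
    rw [h5, map_zero, smul_zero, add_zero]
  have h0 : mm p.2 (0 : Ma r) = 0 := by
    have := mm_smul (0 : ℂ) p.2 (0 : Ma r)
    simpa using this
  rw [VectorField.lieBracket, fderiv_hV, h4, h3, h2.2, h7]
  rw [h5, map_zero, ContinuousLinearMap.zero_apply, h0, add_zero]
  have h6 : (hV a p).2 = fun i j => if i = a.1 then p.2 a.2 j else 0 := rfl
  rw [h6, b2_mm]
  have h8 : ∑ j, (if i = a.1 ∧ j = a.2 then (-1 : ℂ) else 0) • hB X l j p =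
      if i = a.1 then - hB X l a.2 p else 0 := by
    by_cases h : i = a.1
    · simp [h]
    · simp [h]
  rw [h8]
  by_cases h : i = a.1
  · simp only [h, if_true]
    refine Prod.ext ?_ ?_
    · simp [hV, hB]
    · funext i' j'
      by_cases h' : i' = a.1
      · simp [hV, hB, h']
      · simp [hV, hB, h']
  · simp only [h, if_false, map_zero, h0]
    refine Prod.ext ?_ ?_
    · simp [hV]
    · funext i' j'
      by_cases h' : i' = a.1
      · simp [hV, h']
      · simp [hV, h']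

end Pool.Agent.RIG
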