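import Pool.Agent.RIG.B1

/-!
[RIG-B3] The bracket of the lift of a symmetry with the horizontal fields.
-/

namespace Pool.Agent.RIG

open Filter Topology

variable {T : Type*} [NormedAddCommGroup T] [NormedSpace ℂ T] {r : ℕ}

/-- First component: `dv_i (σ̃) - dσ (v_i) = ∑ j (- g ℓ(σ))_ij X_j + ∑ j g_ij (dX_j (σ) - dσ (X_j))
= - ∑ j (g ℓ(σ))_ij X_j + ∑ j g_ij (lam X_j + ∑ m ℓ(σ)_jm X_m) = lam v_i`. -/
theorem bracket_first {X : Fin r → T → T} {l : T → T →L[ℂ] Ma r} {σ : T → T} {lam : T → ℂ}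
    {p : T × Ma r} (hX : ∀ i, DifferentiableAt ℂ (X i) p.1) (hσ : DifferentiableAt ℂ σ p.1)
    (h : ∀ i, VectorField.lieBracket ℂ σ (X i) p.1 =
      lam p.1 • X i p.1 + ∑ j, l p.1 (σ p.1) i j • X j p.1) (i : Fin r) :
    fderiv ℂ (hv X i) p (hS l σ p) - fderiv ℂ σ p.1 (hv X i p) = lam p.1 • hv X i p := by
  rw [(fderiv_hv hX i _).2]
  have e0 : fderiv ℂ σ p.1 (hv X i p) = ∑ j, p.2 i j • fderiv ℂ σ p.1 (X j p.1) := by
    unfold hv
    rw [map_sum]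
    exact Finset.sum_congr rfl fun j _ => map_smul _ _ _
  rw [e0, ← Finset.sum_sub_distrib]
  have e1 : ∀ j, (hS l σ p).2 i j • X j p.1 + p.2 i j • fderiv ℂ (X j) p.1 (hS l σ p).1 -
      p.2 i j • fderiv ℂ σ p.1 (X j p.1) =
      lam p.1 • (p.2 i j • X j p.1) + (p.2 i j • (∑ m, l p.1 (σ p.1) j m • X m p.1) -
        mm p.2 (l p.1 (σ p.1)) i j • X j p.1) := by
    intro j
    have h1 := h j
    rw [VectorField.lieBracket_eq] at h1
    have h2 : fderiv ℂ (X j) p.1 (σ p.1) = lam p.1 • X j p.1 + ∑ m, l p.1 (σ p.1) j m • X m p.1 +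
        fderiv ℂ σ p.1 (X j p.1) := by
      rw [← h1]
      simp
    have h3 : (hS l σ p).1 = σ p.1 := rfl
    have h4 : (hS l σ p).2 i j = - mm p.2 (l p.1 (σ p.1)) i j := rfl
    rw [h3, h4, h2, smul_add, smul_add, neg_smul, smul_comm (lam p.1) (p.2 i j)]
    abel
  rw [Finset.sum_congr rfl fun j _ => e1 j, Finset.sum_add_distrib, ← Finset.smul_sum]
  have e2 : ∑ j, (p.2 i j • (∑ m, l p.1 (σ p.1) j m • X m p.1) -
        mm p.2 (l p.1 (σ p.1)) i j • X j p.1) = 0 := by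
    rw [Finset.sum_sub_distrib, sub_eq_zero]
    simp only [Finset.smul_sum, smul_smul]
    rw [Finset.sum_comm]
    refine Finset.sum_congr rfl fun m _ => ?_
    rw [mm, Finset.sum_smul]
  rw [e2, add_zero]
  rfl

/-- `[σ̃, B_i] = lam B_i + (0, - g R(σ, v_i))`, `lieBracket V W p = dW_p (V p) - dV_p (W p)`.
Second component, with `v = v_i`, `s = σ`, `g = p.2`, `ℓ = l p.1`, using `fderiv_gl` for
`dB_i (σ̃)` (`q = σ̃ p = (s, - g ℓ(s))`) and for `dσ̃ (B_i)` (`q = B_i p = (v, - g ℓ(v))`, `u p = σ p.1`):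
`- [(- g ℓ(s)) ℓ(v) + g (dℓ(s) v) + g ℓ(dv_i (σ̃))] + [(- g ℓ(v)) ℓ(s) + g (dℓ(v) s) + g ℓ(dσ (v))]`
`= g ℓ(s) ℓ(v) - g ℓ(v) ℓ(s) - g (dℓ(s) v - dℓ(v) s) - g ℓ(dv_i (σ̃) - dσ (v))`, and
`dv_i (σ̃) - dσ (v) = lam v` by `bracket_first`. -/
theorem bracket_hS_hB {X : Fin r → T → T} {l : T → T →L[ℂ] Ma r} {σ : T → T} {lam : T → ℂ}
    {p : T × Ma r} (hX : ∀ i, DifferentiableAt ℂ (X i) p.1) (hl : DifferentiableAt ℂ l p.1)
    (hσ : DifferentiableAt ℂ σ p.1)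
    (h : ∀ i, VectorField.lieBracket ℂ σ (X i) p.1 =
      lam p.1 • X i p.1 + ∑ j, l p.1 (σ p.1) i j • X j p.1) (i : Fin r) :
    VectorField.lieBracket ℂ (hS l σ) (hB X l i) p =
      lam p.1 • hB X l i p + ((0 : T), - mm p.2 (curv l p.1 (σ p.1) (hv X i p))) := by
  set g : Ma r := p.2 with hg
  set s : T := σ p.1 with hs
  set v : T := hv X i p with hv'
  have hvd : DifferentiableAt ℂ (hv X i) p := (fderiv_hv hX i p).1
  have hsd : DifferentiableAt ℂ (fun p : T × Ma r => σ p.1) p :=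
    hσ.comp p differentiableAt_fst
  have hsf : ∀ q : T × Ma r, fderiv ℂ (fun p : T × Ma r => σ p.1) p q = fderiv ℂ σ p.1 q.1 := by
    intro q
    have h1 : HasFDerivAt (fun p : T × Ma r => σ p.1)
        ((fderiv ℂ σ p.1).comp (ContinuousLinearMap.fst ℂ T (Ma r))) p :=
      hσ.hasFDerivAt.comp p hasFDerivAt_fst
    rw [h1.fderiv]
    rfl
  have hB1 : ∀ q : T × Ma r, fderiv ℂ (hB X l i) p q = (fderiv ℂ (hv X i) p q,
      - (mm q.2 (l p.1 v) + mm g (fderiv ℂ l p.1 q.1 v) + mm g (l p.1 (fderiv ℂ (hv X i) p q)))) := by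
    intro q
    have h1 := fderiv_gl (l := l) (u := hv X i) (p := p) hl hvd q
    have h2 := fderiv_pair (u := hv X i) (w := fun p : T × Ma r => mm p.2 (l p.1 (hv X i p)))
      (p := p) hvd h1.1 q
    rw [h1.2] at h2
    exact h2
  have hS1 : ∀ q : T × Ma r, fderiv ℂ (hS l σ) p q = (fderiv ℂ σ p.1 q.1,
      - (mm q.2 (l p.1 s) + mm g (fderiv ℂ l p.1 q.1 s) + mm g (l p.1 (fderiv ℂ σ p.1 q.1)))) := by
    intro q
    have h1 := fderiv_gl (l := l) (u := fun p : T × Ma r => σ p.1) (p := p) hl hsd q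
    have h2 := fderiv_pair (u := fun p : T × Ma r => σ p.1)
      (w := fun p : T × Ma r => mm p.2 (l p.1 (σ p.1))) (p := p) hsd h1.1 q
    rw [h1.2, hsf q] at h2
    exact h2
  have hfirst := bracket_first (l := l) (lam := lam) hX hσ h i
  have hd : fderiv ℂ (hv X i) p (hS l σ p) = lam p.1 • v + fderiv ℂ σ p.1 v := by
    rw [← hfirst]
    abel
  rw [VectorField.lieBracket_eq]
  simp only
  rw [hB1, hS1, hd]
  have hSp1 : (hS l σ p).1 = s := rfl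
  have hSp2 : (hS l σ p).2 = - mm g (l p.1 s) := rfl
  have hBp1 : (hB X l i p).1 = v := rfl
  have hBp2 : (hB X l i p).2 = - mm g (l p.1 v) := rfl
  rw [hSp1, hSp2, hBp1, hBp2]
  refine Prod.ext ?_ ?_
  · change lam p.1 • v + fderiv ℂ σ p.1 v - fderiv ℂ σ p.1 v = lam p.1 • v + 0
    abel
  · change - (mm (- mm g (l p.1 s)) (l p.1 v) + mm g (fderiv ℂ l p.1 s v) +
        mm g (l p.1 (lam p.1 • v + fderiv ℂ σ p.1 v))) -
      - (mm (- mm g (l p.1 v)) (l p.1 s) + mm g (fderiv ℂ l p.1 v s) +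
        mm g (l p.1 (fderiv ℂ σ p.1 v))) =
      lam p.1 • (- mm g (l p.1 v)) + - mm g (curv l p.1 s v)
    unfold curv
    simp only [map_add, map_smul, sub_eq_add_neg, mm_add, neg_mm, mm_neg, mm_smul, mm_assoc, smul_neg]
    abel

end Pool.Agent.RIG
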