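import Pool.Agent.RIG.B1

/-!
[RIG-B4] The forms `θ_{i,a}`, the inverse matrix, and independence at the base point.
-/

namespace Pool.Agent.RIG

open Filter Topology

variable {T : Type*} [NormedAddCommGroup T] [NormedSpace ℂ T] {r : ℕ}

theorem b4_an_det {E : Type*} [NormedAddCommGroup E] [NormedSpace ℂ E] {P : E}
    {M : E → Matrix (Fin r) (Fin r) ℂ} (h : ∀ i j, AnalyticAt ℂ (fun p => M p i j) P) :
    AnalyticAt ℂ (fun p => (M p).det) P := by
  have h1 : (fun p => (M p).det) = fun p => ∑ σ : Equiv.Perm (Fin r),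
      ((Equiv.Perm.sign σ : ℤ) : ℂ) * ∏ i, M p (σ i) i := by
    funext p
    rw [Matrix.det_apply']
  rw [h1]
  refine Finset.analyticAt_fun_sum _ fun σ _ => ?_
  exact analyticAt_const.mul (Finset.analyticAt_fun_prod _ fun i _ => h (σ i) i)

theorem b4_coord (i j : Fin r) (P : T × Ma r) : AnalyticAt ℂ (fun p : T × Ma r => p.2 i j) P :=
  ((ContinuousLinearMap.proj (R := ℂ) (φ := fun _ : Fin r => ℂ) j).comp
    ((ContinuousLinearMap.proj (R := ℂ) (φ := fun _ : Fin r => Fin r → ℂ) i).comp
      (ContinuousLinearMap.snd ℂ T (Ma r)))).analyticAt P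

theorem b4_one : (Matrix.of (oneMa r) : Matrix (Fin r) (Fin r) ℂ) = 1 := by
  ext i j
  rw [Matrix.of_apply, Matrix.one_apply]
  rfl

theorem b4_an_det2 (P : T × Ma r) :
    AnalyticAt ℂ (fun p : T × Ma r => (Matrix.of p.2 : Matrix (Fin r) (Fin r) ℂ).det) P :=
  b4_an_det fun i j => b4_coord i j P

/-- `g ↦ g⁻¹` is analytic at `g = 1` (e.g. `g⁻¹ = (det g)⁻¹ adj g`, polynomials and the inverse of a
function not vanishing at the point; or `analyticAt_inverse`). -/
theorem an_ginv (x : T) : AnalyticAt ℂ (ginv (T := T) (r := r)) (x, oneMa r) := by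
  rw [analyticAt_pi_iff]
  intro i
  rw [analyticAt_pi_iff]
  intro j
  have h1 : (fun p : T × Ma r => ginv p i j) = fun p =>
      ((Matrix.of p.2 : Matrix (Fin r) (Fin r) ℂ).det)⁻¹ *
        ((Matrix.of p.2 : Matrix (Fin r) (Fin r) ℂ).updateRow j (Pi.single i 1)).det := by
    funext p
    unfold ginv
    rw [Matrix.inv_def, Matrix.smul_apply, Matrix.adjugate_apply, Ring.inverse_eq_inv', smul_eq_mul]
  rw [h1]
  refine AnalyticAt.mul (AnalyticAt.inv (b4_an_det2 _) ?_) (b4_an_det fun k l => ?_)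
  · change (Matrix.of (oneMa r) : Matrix (Fin r) (Fin r) ℂ).det ≠ 0
    rw [b4_one, Matrix.det_one]
    exact one_ne_zero
  · by_cases hk : k = j
    · have h2 : (fun p : T × Ma r =>
          (Matrix.of p.2 : Matrix (Fin r) (Fin r) ℂ).updateRow j (Pi.single i 1) k l) =
          fun _ => (Pi.single i 1 : Fin r → ℂ) l := by
        funext p
        rw [hk, Matrix.updateRow_self]
      rw [h2]
      exact analyticAt_const
    · have h2 : (fun p : T × Ma r =>
          (Matrix.of p.2 : Matrix (Fin r) (Fin r) ℂ).updateRow j (Pi.single i 1) k l) =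
          fun p => p.2 k l := by
        funext p
        rw [Matrix.updateRow_ne hk]
        rfl
      rw [h2]
      exact b4_coord k l _

/-- `det g ≠ 0` near `g = 1`. -/
theorem ginv_spec (x : T) : ∀ᶠ p in 𝓝 (x, oneMa r),
    mm (ginv (T := T) p) p.2 = oneMa r ∧ mm p.2 (ginv p) = oneMa r := by
  have h1 : ∀ᶠ p : T × Ma r in 𝓝 (x, oneMa r),
      (Matrix.of p.2 : Matrix (Fin r) (Fin r) ℂ).det ≠ 0 := by
    refine (b4_an_det2 (T := T) (x, oneMa r)).continuousAt.eventually_ne ?_
    change (Matrix.of (oneMa r) : Matrix (Fin r) (Fin r) ℂ).det ≠ 0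
    rw [b4_one, Matrix.det_one]
    exact one_ne_zero
  filter_upwards [h1] with p hp
  have hu : IsUnit (Matrix.of p.2 : Matrix (Fin r) (Fin r) ℂ).det := isUnit_iff_ne_zero.2 hp
  constructor
  · funext i j
    have h2 := congrFun (congrFun (Matrix.nonsing_inv_mul _ hu) i) j
    rw [Matrix.mul_apply, Matrix.one_apply] at h2
    exact h2
  · funext i j
    have h2 := congrFun (congrFun (Matrix.mul_nonsing_inv _ hu) i) j
    rw [Matrix.mul_apply, Matrix.one_apply] at h2
    exact h2

theorem b4_curv_add (l : T → T →L[ℂ] Ma r) (y u u' v : T) :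
    curv l y (u + u') v = curv l y u v + curv l y u' v := by
  unfold curv
  rw [map_add, map_add, map_add, ContinuousLinearMap.add_apply, add_mm, mm_add]
  abel

theorem b4_curv_smul (l : T → T →L[ℂ] Ma r) (y u v : T) (t : ℂ) :
    curv l y (t • u) v = t • curv l y u v := by
  unfold curv
  rw [map_smul, map_smul, map_smul, ContinuousLinearMap.smul_apply, smul_mm, mm_smul]
  module

theorem b4_an_curv [FiniteDimensional ℂ T] {X : Fin r → T → T} {l : T → T →L[ℂ] Ma r}
    {P : T × Ma r} (hX : ∀ i, AnalyticAt ℂ (X i) P.1) (hl : AnalyticAt ℂ l P.1) (i : Fin r)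
    (u : T) : AnalyticAt ℂ (fun p : T × Ma r => curv l p.1 u (hv X i p)) P := by
  have hv' : AnalyticAt ℂ (hv X i) P := an_hv hX i
  have hl' : AnalyticAt ℂ (fun p : T × Ma r => l p.1) P := hl.comp' analyticAt_fst
  have hd : AnalyticAt ℂ (fun p : T × Ma r => fderiv ℂ l p.1) P := hl.fderiv.comp' analyticAt_fst
  have h1 : AnalyticAt ℂ (fun p : T × Ma r => fderiv ℂ l p.1 u (hv X i p)) P :=
    an_clm_apply (an_clm_apply hd analyticAt_const) hv'
  have h2 : AnalyticAt ℂ (fun p : T × Ma r => fderiv ℂ l p.1 (hv X i p) u) P :=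
    an_clm_apply (an_clm_apply hd hv') analyticAt_const
  have h3 : AnalyticAt ℂ (fun p : T × Ma r => l p.1 u) P := an_clm_apply hl' analyticAt_const
  have h4 : AnalyticAt ℂ (fun p : T × Ma r => l p.1 (hv X i p)) P := an_clm_apply hl' hv'
  exact ((h1.sub h2).sub (an_mm h3 h4)).add (an_mm h4 h3)

/-- `θ_{i,a} (u, h) = - (g R(u, v_i) g⁻¹)_a`, a continuous linear form on `T × Ma r`, analytic in
the point.  It is `(y, g) ↦` the composition of `Prod.fst` with the linear form
`u ↦ - (mm (mm g (curv l y u (v_i))) (ginv p)) a.1 a.2`; here `u ↦ curv l y u v` is the continuous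
linear map `(dℓ_y · v) - (dℓ_y v ·) - ...`.  Any construction is fine: existence statement. -/
theorem exists_theta [FiniteDimensional ℂ T] {X : Fin r → T → T} {l : T → T →L[ℂ] Ma r} {x : T}
    (hX : ∀ i, AnalyticAt ℂ (X i) x) (hl : AnalyticAt ℂ l x) :
    ∃ θ : Fin r → Fin r × Fin r → T × Ma r → (T × Ma r →L[ℂ] ℂ),
      (∀ i a, AnalyticAt ℂ (θ i a) (x, oneMa r)) ∧
      ∀ i a p q, θ i a p q =
        - mm (mm p.2 (curv l p.1 q.1 (hv X i p))) (ginv p) a.1 a.2 := by
  refine ⟨fun i a p => LinearMap.toContinuousLinearMap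
    { toFun := fun q => - mm (mm p.2 (curv l p.1 q.1 (hv X i p))) (ginv p) a.1 a.2
      map_add' := fun q q' => by
        rw [Prod.fst_add, b4_curv_add, mm_add, add_mm, Pi.add_apply, Pi.add_apply, neg_add]
      map_smul' := fun t q => by
        rw [Prod.smul_fst, b4_curv_smul, mm_smul, smul_mm, Pi.smul_apply, Pi.smul_apply,
          RingHom.id_apply, smul_neg] }, fun i a => ?_, fun i a p q => rfl⟩
  refine an_clm_of_apply fun q => ?_
  have h1 : AnalyticAt ℂ (fun p : T × Ma r => mm (mm p.2 (curv l p.1 q.1 (hv X i p))) (ginv p))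
      (x, oneMa r) :=
    an_mm (an_mm analyticAt_snd (b4_an_curv (P := (x, oneMa r)) hX hl i q.1)) (an_ginv x)
  exact ((analyticAt_pi_iff.1 ((analyticAt_pi_iff.1 h1) a.1)) a.2).neg

/-- `curv` is alternating. -/
theorem curv_self (l : T → T →L[ℂ] Ma r) (y u : T) : curv l y u u = 0 := by
  unfold curv
  abel

/-- `(0, m) = ∑ a, (m g⁻¹)_a • V_a`: the vertical fields at `p` are `(0, E_a g)` and
`∑ a, t a • E_a g = t g`. -/
theorem sum_hV (p : T × Ma r) (hp : mm (ginv p) p.2 = oneMa r) (m : Ma r) :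
    ((0 : T), m) = ∑ a : Fin r × Fin r, (mm m (ginv p) a.1 a.2) • hV (T := T) a p := by
  have hm : mm (mm m (ginv p)) p.2 = m := by
    rw [mm_assoc, hp, mm_one]
  refine Prod.ext ?_ ?_
  · rw [Prod.fst_sum]
    simp [hV]
  · rw [Prod.snd_sum]
    funext i j
    have h1 : m i j = ∑ k, mm m (ginv p) i k * p.2 k j := by
      conv_lhs => rw [← hm]
      rfl
    have h2 : (∑ a : Fin r × Fin r, ((mm m (ginv p) a.1 a.2) • hV (T := T) a p).2) i j =
        ∑ k, mm m (ginv p) i k * p.2 k j := by
      rw [Finset.sum_apply, Finset.sum_apply, Fintype.sum_prod_type, Finset.sum_eq_single i]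
      · refine Finset.sum_congr rfl fun k _ => ?_
        simp [hV]
      · intro b _ hb
        refine Finset.sum_eq_zero fun k _ => ?_
        simp [hV, Ne.symm hb]
      · intro hi
        exact absurd (Finset.mem_univ i) hi
    rw [h2]
    exact h1

/-- At `(x, 1)`: `B_i = (X_i x, _)` with `X_i x` independent, `V_a = (0, E_a)`. -/
theorem indep_base {X : Fin r → T → T} {l : T → T →L[ℂ] Ma r} {x : T}
    (hind : LinearIndependent ℂ (fun i => X i x)) :
    LinearIndependent ℂ (Sum.elim (fun i => hB X l i (x, oneMa r))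
      (fun a => hV (T := T) a (x, oneMa r))) := by
  rw [Fintype.linearIndependent_iff]
  intro c hc
  rw [Fintype.sum_sum_type] at hc
  simp only [Sum.elim_inl, Sum.elim_inr] at hc
  have hv1 : ∀ i, hv X i (x, oneMa r) = X i x := by
    intro i
    unfold hv oneMa
    rw [Finset.sum_eq_single i]
    · simp
    · intro b _ hb
      simp [Ne.symm hb]
    · intro hi
      exact absurd (Finset.mem_univ i) hi
  have h1 : ∑ i, c (Sum.inl i) • X i x = 0 := by
    have := congrArg Prod.fst hc
    rw [Prod.fst_add, Prod.fst_sum, Prod.fst_sum] at this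
    simpa [hB, hV, hv1] using this
  have h2 : ∀ i, c (Sum.inl i) = 0 := Fintype.linearIndependent_iff.1 hind _ h1
  have h3 : ∀ a, c (Sum.inr a) = 0 := by
    rintro ⟨i, j⟩
    have := congrArg Prod.snd hc
    rw [Prod.snd_add, Prod.snd_sum, Prod.snd_sum] at this
    have := congrFun (congrFun this i) j
    simp only [h2, Prod.smul_snd, zero_smul, Finset.sum_const_zero, Prod.snd_zero, Pi.zero_apply,
      zero_add, Finset.sum_apply, Pi.add_apply, Pi.smul_apply] at this
    rw [Fintype.sum_prod_type, Finset.sum_eq_single i, Finset.sum_eq_single j] at this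
    · simpa [hV, oneMa] using this
    · intro b _ hb
      simp [hV, oneMa, hb]
    · intro hi
      exact absurd (Finset.mem_univ j) hi
    · intro b _ hb
      refine Finset.sum_eq_zero fun k _ => ?_
      simp [hV, Ne.symm hb]
    · intro hi
      exact absurd (Finset.mem_univ i) hi
  rintro (i | a)
  · exact h2 i
  · exact h3 a

end Pool.Agent.RIG
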