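import Pool.Agent.RIG.S4

/-!
[RIG-S5] All words in the `D_{y i}` annihilate the components of `sg` at the point.
-/

namespace Pool.Agent.RIG

open PowerSeries

universe u

/-- By induction on the word, for all fields `K : Type u` and all points at once.  Empty word:
`Pt.sg0`.  Word `i :: w`: let `ev'` be the point of `next_point` (for the direction `i`; there is
`j ≠ i` since `2 ≤ r`), over `L = FractionRing K⟦X⟧ : Type u`, of characteristic `0`
(`charZero_frac`).  By induction `ev' (wd w (sg b)) = 0`, so (injectivity of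
`K⟦X⟧ → L`) `Γ(wd w (sg b)) = 0`; by `expHom_eq_zero_iff` with `m = 1`
`ev (D_{y_i} (wd w (sg b))) = 0`. -/
theorem Sys.words_zero {R : Type*} [CommRing R] {ι A : Type*} [Fintype ι] [Fintype A] {r : ℕ}
    (S : Sys R ι A r) (hr : 2 ≤ r) (w : List (Fin r)) :
    ∀ (K : Type u) [Field K] [CharZero K] (ev : R →+* K), Pt S ev →
      ∀ b, ev (wd (fun i => DD S.pd (S.y i)) w (S.sg b)) = 0 := by
  induction w with
  | nil =>
    intro K _ _ ev P b
    exact P.sg0 b
  | cons i w ih =>
    intro K _ _ ev P b
    have hj : ∃ j, j ≠ i := by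
      have : Nontrivial (Fin r) := Fin.nontrivial_iff_two_le.2 hr
      exact exists_ne i
    have hch := charZero_frac K
    have h1 := ih (FractionRing K⟦X⟧) _ (S.next_point ev P i hj) b
    rw [RingHom.comp_apply] at h1
    have h2 : S.Gam ev i (wd (fun i => DD S.pd (S.y i)) w (S.sg b)) = 0 :=
      (FaithfulSMul.algebraMap_injective K⟦X⟧ (FractionRing K⟦X⟧)) (by rw [h1, map_zero])
    have h3 := (expHom_eq_zero_iff ev (DD S.pd (S.y i)) _).1 h2 1
    rw [Function.iterate_one] at h3
    exact h3

end Pool.Agent.RIG
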