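import Pool.Agent.RIG.R1
import Pool.Agent.RIG.S5

/-!
[RIG-R2] The algebraic theorem for analytic vector fields near a point of a complex vector space.
-/

namespace Pool.Agent.RIG

open Filter Topology

variable {E : Type*} [NormedAddCommGroup E] [NormedSpace ℂ E] [FiniteDimensional ℂ E] {P : E}

theorem wd_add {R : Type*} [CommRing R] {r : ℕ} (D : Fin r → Derivation ℤ R R)
    (w : List (Fin r)) (f g : R) : wd D w (f + g) = wd D w f + wd D w g := by
  induction w with
  | nil => rfl
  | cons j w ih =>
    change D j (wd D w (f + g)) = D j (wd D w f) + D j (wd D w g)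
    rw [ih, map_add]

theorem wd_sum_aux {R : Type*} [CommRing R] {r : ℕ} (D : Fin r → Derivation ℤ R R)
    (w : List (Fin r)) {κ : Type*} (s : Finset κ) (f : κ → R) :
    wd D w (∑ k ∈ s, f k) = ∑ k ∈ s, wd D w (f k) := by
  classical
  induction s using Finset.induction_on with
  | empty =>
    rw [Finset.sum_empty, Finset.sum_empty]
    induction w with
    | nil => rfl
    | cons j w ih =>
      change D j (wd D w 0) = 0
      rw [ih, map_zero]
  | insert a s ha ih => rw [Finset.sum_insert ha, Finset.sum_insert ha, wd_add, ih]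

omit [FiniteDimensional ℂ E] in
theorem dirD_const_aux {Y : E → E} (hY : AnalyticAt ℂ Y P) (c : ℂ) :
    dirD Y hY (mk (fun _ => c) analyticAt_const) = 0 := by
  rw [dirD_mk, mk_zero, mk_eq_mk]
  exact Eventually.of_forall fun y => by simp

omit [FiniteDimensional ℂ E] in
theorem clm_repr_aux {ι : Type*} [Fintype ι] (b : Module.Basis ι ℂ E) (L : E →L[ℂ] ℂ) (v : E) :
    L v = ∑ d, L (b d) * b.repr v d := by
  conv_lhs => rw [← b.sum_repr v, map_sum]
  refine Finset.sum_congr rfl fun d _ => ?_
  rw [map_smul, smul_eq_mul, mul_comm]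

/-- Constants come out of all derivatives. -/
theorem wd_const_mul {r : ℕ} (B : Fin r → E → E) (hB : ∀ i, AnalyticAt ℂ (B i) P)
    (w : List (Fin r)) (c : ℂ) (f : anGerm P) :
    wd (fun i => dirD (B i) (hB i)) w (mk (fun _ => c) analyticAt_const * f) =
      mk (fun _ => c) analyticAt_const * wd (fun i => dirD (B i) (hB i)) w f := by
  induction w with
  | nil => rfl
  | cons j w ih =>
    change dirD (B j) (hB j) (wd (fun i => dirD (B i) (hB i)) w
      (mk (fun _ => c) analyticAt_const * f)) =
      mk (fun _ => c) analyticAt_const * dirD (B j) (hB j) (wd (fun i => dirD (B i) (hB i)) w f)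
    rw [ih, Derivation.leibniz, dirD_const_aux, smul_zero, add_zero, smul_eq_mul]

/-- Proof.  Let `b = Module.finBasis ℂ E` and let `S : Sys (anGerm P) (Fin (finrank ℂ E)) A r` be:
`pd = pdG b`, `sg = cmp b σ`, `lam = mk lam`, `y i = cmp b (B i)`, `V a = cmp b (V a)`,
`th i a d = mk (fun p => θ i a p (b d))`, `ga i a j = mk (γ i a j)`.  The equations `E1`-`E4` are the
coordinates of the hypotheses (`br_cmp`, `cmp_congr`, `mk_sum`, `mk_mul`,
`θ i a p v = ∑ d, θ i a p (b d) * b.repr v d`).  `Pt S (evP P)`: `evP (cmp b Y) = b.repr (Y P)` and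
`b.repr` (followed by the coordinate functions) is injective, so independence is preserved.
`Sys.words_zero` (for `K = ℂ`) gives the claim for the coordinates `b.repr (σ p) d` (with
`DD_cmp` to identify the derivations: rewrite `fun i => DD (pdG b) (cmp b (B i) _)` as
`fun i => dirD (B i) _` by `Derivation.ext`); and
`ξ (σ p) = ∑ d, ξ (b d) * b.repr (σ p) d`, use `wd_add` (for sums) and `wd_const_mul`. -/
theorem core_words {A : Type*} [Fintype A] {r : ℕ} (hr : 2 ≤ r)
    (σ : E → E) (B : Fin r → E → E) (V : A → E → E) (lam : E → ℂ)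
    (θ : Fin r → A → E → E →L[ℂ] ℂ) (γ : Fin r → A → Fin r → E → ℂ)
    (hσ : AnalyticAt ℂ σ P) (hB : ∀ i, AnalyticAt ℂ (B i) P) (hV : ∀ a, AnalyticAt ℂ (V a) P)
    (hlam : AnalyticAt ℂ lam P) (hθ : ∀ i a, AnalyticAt ℂ (θ i a) P)
    (hγ : ∀ i a j, AnalyticAt ℂ (γ i a j) P)
    (E1 : ∀ i, ∀ᶠ p in 𝓝 P, VectorField.lieBracket ℂ σ (B i) p =
      lam p • B i p + ∑ a, θ i a p (σ p) • V a p)
    (E2 : ∀ i a, ∀ᶠ p in 𝓝 P, θ i a p (B i p) = 0)
    (E3 : ∀ a, ∀ᶠ p in 𝓝 P, VectorField.lieBracket ℂ σ (V a) p = 0)
    (E4 : ∀ i a, ∀ᶠ p in 𝓝 P, VectorField.lieBracket ℂ (B i) (V a) p =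
      ∑ j, γ i a j p • B j p)
    (hσ0 : σ P = 0) (hlam0 : lam P = 0)
    (hind : LinearIndependent ℂ (Sum.elim (fun i => B i P) (fun a => V a P)))
    (w : List (Fin r)) (ξ : E →L[ℂ] ℂ) :
    evP P (wd (fun i => dirD (B i) (hB i)) w
      (mk (fun p => ξ (σ p)) ((ξ.analyticAt _).comp hσ))) = 0 := by
  set b := Module.finBasis ℂ E with hb
  have hth : ∀ i a d, AnalyticAt ℂ (fun p => θ i a p (b d)) P := fun i a d =>
    an_clm_apply (hθ i a) analyticAt_const
  let S : Sys (anGerm P) (Fin (Module.finrank ℂ E)) A r :=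
    { pd := pdG b
      comm := fun i j f => pdG_comm b i j f
      sg := cmp b σ hσ
      lam := mk lam hlam
      y := fun i => cmp b (B i) (hB i)
      V := fun a => cmp b (V a) (hV a)
      th := fun i a d => mk (fun p => θ i a p (b d)) (hth i a d)
      ga := fun i a j => mk (γ i a j) (hγ i a j)
      E1 := by
        intro i d
        rw [br_cmp]
        simp only [cmp, mk_mul, mk_sum, mk_add]
        rw [mk_eq_mk]
        filter_upwards [E1 i] with p hp
        rw [hp]
        simp only [map_add, map_smul, map_sum, Finsupp.add_apply, Finsupp.smul_apply,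
          Finsupp.finsetSum_apply, smul_eq_mul]
        congr 1
        refine Finset.sum_congr rfl fun a _ => ?_
        rw [clm_repr_aux b (θ i a p) (σ p)]
      E2 := by
        intro i a
        simp only [cmp, mk_mul, mk_sum, mk_zero]
        rw [mk_eq_mk]
        filter_upwards [E2 i a] with p hp
        rw [← clm_repr_aux b (θ i a p) (B i p), hp]
      E3 := by
        intro a d
        rw [br_cmp]
        simp only [cmp, mk_zero]
        rw [mk_eq_mk]
        filter_upwards [E3 a] with p hp
        rw [hp]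
        simp
      E4 := by
        intro i a d
        rw [br_cmp]
        simp only [cmp, mk_mul, mk_sum]
        rw [mk_eq_mk]
        filter_upwards [E4 i a] with p hp
        rw [hp]
        simp only [map_smul, map_sum, Finsupp.smul_apply, Finsupp.finsetSum_apply, smul_eq_mul] }
  have hPt : Pt S (evP P) :=
    { sg0 := by
        intro d
        change b.repr (σ P) d = 0
        rw [hσ0]
        simp
      lam0 := hlam0
      indep := by
        have h1 := hind.map' b.equivFun.toLinearMap (LinearEquiv.ker _)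
        have h2 : (Sum.elim (fun (i : Fin r) (d : Fin (Module.finrank ℂ E)) => evP P (S.y i d))
            (fun (a : A) (d : Fin (Module.finrank ℂ E)) => evP P (S.V a d))) =
            ⇑b.equivFun.toLinearMap ∘ Sum.elim (fun i => B i P) (fun a => V a P) := by
          funext x
          rcases x with i | a
          · funext d
            rfl
          · funext d
            rfl
        rw [h2]
        exact h1 }
  have hD : (fun i => DD S.pd (S.y i)) = (fun i => dirD (B i) (hB i)) := by
    funext i
    exact Derivation.ext fun a => DD_cmp b (hB i) a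
  have key := Sys.words_zero S hr w ℂ (evP P) hPt
  rw [hD] at key
  have h3 : mk (fun p => ξ (σ p)) ((ξ.analyticAt _).comp hσ) =
      ∑ d, mk (fun _ => ξ (b d)) analyticAt_const * cmp b σ hσ d := by
    simp only [cmp, mk_mul, mk_sum]
    rw [mk_eq_mk]
    exact Eventually.of_forall fun p => clm_repr_aux b ξ (σ p)
  rw [h3, wd_sum_aux, map_sum]
  refine Finset.sum_eq_zero fun d _ => ?_
  rw [wd_const_mul, map_mul]
  rw [show evP P (wd (fun i => dirD (B i) (hB i)) w (cmp b σ hσ d)) = 0 from key d, mul_zero]

end Pool.Agent.RIG
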