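import Pool.Agent.RIG.B2
import Pool.Agent.RIG.B3
import Pool.Agent.RIG.B4
import Pool.Agent.RIG.R2

/-!
[RIG-B5] The algebraic theorem on the frame bundle.
-/

namespace Pool.Agent.RIG

open Filter Topology

variable {T : Type*} [NormedAddCommGroup T] [NormedSpace ℂ T] [FiniteDimensional ℂ T] {r : ℕ}

/-- Apply `core_words` at `P = (x, oneMa r)` with `σ := hS l σ`, `B := hB X l`, `V := hV`,
`A = Fin r × Fin r`, `lam := fun p => lam p.1`, `θ` from `exists_theta`,
`γ i a j p = if i = a.1 ∧ j = a.2 then -1 else 0`.  `E1`: `bracket_hS_hB` at all `p` near `P` (the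
hypotheses hold near `x`, analytic functions are differentiable near `x`; pull back along
`Prod.fst`, `continuousAt_fst.eventually` / `Filter.Eventually.prod_inl_nhds`), and `sum_hV` with
`m = - mm p.2 (curv ..)` (`ginv_spec`, `neg_mm`).  `E2`: `curv_self` (`(hB X l i p).1 = hv X i p`).  `E3`:
`bracket_hS_hV`.  `E4`: `bracket_hB_hV`.  `σ̃ P = 0` since `σ x = 0`.  The functional is
`ξ ∘ Prod.fst`. -/
theorem bundle_words (hr : 2 ≤ r) {X : Fin r → T → T} {l : T → T →L[ℂ] Ma r} {x : T}
    (hX : ∀ i, AnalyticAt ℂ (X i) x) (hl : AnalyticAt ℂ l x)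
    (hind : LinearIndependent ℂ (fun i => X i x))
    {σ : T → T} {lam : T → ℂ} (hσ : AnalyticAt ℂ σ x) (hlam : AnalyticAt ℂ lam x)
    (hσ0 : σ x = 0) (hlam0 : lam x = 0)
    (h : ∀ i, ∀ᶠ y in 𝓝 x, VectorField.lieBracket ℂ σ (X i) y =
      lam y • X i y + ∑ j, l y (σ y) i j • X j y)
    (w : List (Fin r)) (ξ : T →L[ℂ] ℂ)
    (hξ : AnalyticAt ℂ (fun p : T × Ma r => ξ (σ p.1)) (x, oneMa r)) :
    evP (x, oneMa r) (wd (fun i => dirD (hB X l i)
      (an_hB (P := (x, oneMa r)) hX hl i)) w (mk (fun p => ξ (σ p.1)) hξ)) = 0 := by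
  obtain ⟨θ, hθ, hθ'⟩ := exists_theta hX hl
  have hpr : ContinuousAt (Prod.fst : T × Ma r → T) (x, oneMa r) := continuousAt_fst
  have eX : ∀ᶠ p : T × Ma r in 𝓝 (x, oneMa r), ∀ i, DifferentiableAt ℂ (X i) p.1 := by
    rw [Filter.eventually_all]
    intro i
    exact hpr.eventually ((hX i).eventually_analyticAt.mono fun y hy => hy.differentiableAt)
  have el : ∀ᶠ p : T × Ma r in 𝓝 (x, oneMa r), DifferentiableAt ℂ l p.1 :=
    hpr.eventually (hl.eventually_analyticAt.mono fun y hy => hy.differentiableAt)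
  have eσ : ∀ᶠ p : T × Ma r in 𝓝 (x, oneMa r), DifferentiableAt ℂ σ p.1 :=
    hpr.eventually (hσ.eventually_analyticAt.mono fun y hy => hy.differentiableAt)
  have eh : ∀ᶠ p : T × Ma r in 𝓝 (x, oneMa r), ∀ i, VectorField.lieBracket ℂ σ (X i) p.1 =
      lam p.1 • X i p.1 + ∑ j, l p.1 (σ p.1) i j • X j p.1 := by
    rw [Filter.eventually_all]
    intro i
    exact hpr.eventually (h i)
  have hlam' : AnalyticAt ℂ (fun p : T × Ma r => lam p.1) (x, oneMa r) :=
    AnalyticAt.comp (g := lam) (f := Prod.fst) (x := (x, oneMa r)) hlam analyticAt_fst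
  have key := core_words (P := (x, oneMa r)) hr (hS l σ) (hB X l) (hV (T := T))
    (fun p => lam p.1) θ
    (fun i a j _ => if i = a.1 ∧ j = a.2 then (-1 : ℂ) else 0)
    (an_hS (P := (x, oneMa r)) hl hσ) (fun i => an_hB (P := (x, oneMa r)) hX hl i)
    (fun a => an_hV a _) hlam' hθ (fun _ _ _ => analyticAt_const)
    (by
      intro i
      filter_upwards [eX, el, eσ, eh, ginv_spec (T := T) (r := r) x] with p h1 h2 h3 h4 h5
      rw [bracket_hS_hB h1 h2 h3 h4 i, sum_hV p h5.1, neg_mm]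
      refine congrArg _ (Finset.sum_congr rfl fun a _ => ?_)
      rw [hθ' i a p (hS l σ p)]
      rfl)
    (by
      intro i a
      refine Eventually.of_forall fun p => ?_
      rw [hθ' i a p (hB X l i p)]
      have h1 : curv l p.1 (hB X l i p).1 (hv X i p) = 0 := curv_self l p.1 (hv X i p)
      rw [h1]
      simp [mm])
    (by
      intro a
      filter_upwards [el, eσ] with p h1 h2
      exact bracket_hS_hV h1 h2 a)
    (by
      intro i a
      filter_upwards [eX, el] with p h1 h2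
      exact bracket_hB_hV h1 h2 i a)
    (by
      unfold hS
      rw [hσ0, map_zero]
      refine Prod.ext rfl ?_
      funext i j
      simp [mm])
    hlam0 (indep_base hind) w (ξ.comp (ContinuousLinearMap.fst ℂ T (Ma r)))
  exact key

end Pool.Agent.RIG
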