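import Pool.Agent.RIG.Germ

/-!
RIG (MP_d19687_ag): definitions on the frame bundle `T × (Fin r → Fin r → ℂ)`.
-/

namespace Pool.Agent.RIG

open Filter Topology

variable {T : Type*} [NormedAddCommGroup T] [NormedSpace ℂ T] {r : ℕ}

/-- Matrices as functions. -/
abbrev Ma (r : ℕ) : Type := Fin r → Fin r → ℂ

/-- The identity matrix. -/
def oneMa (r : ℕ) : Ma r := fun i j => if i = j then 1 else 0

/-- Matrix product. -/
def mm (a b : Ma r) : Ma r := fun i j => ∑ k, a i k * b k j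

/-- `v_i (y, g) = ∑ j, g_ij X_j (y)`. -/
noncomputable def hv (X : Fin r → T → T) (i : Fin r) (p : T × Ma r) : T :=
  ∑ j, p.2 i j • X j p.1

/-- The standard horizontal fields `B_i = (v_i, - g ℓ(v_i))`. -/
noncomputable def hB (X : Fin r → T → T) (l : T → T →L[ℂ] Ma r) (i : Fin r) (p : T × Ma r) :
    T × Ma r := (hv X i p, - mm p.2 (l p.1 (hv X i p)))

/-- The horizontal lift `(σ, - g ℓ(σ))` of a vector field. -/
noncomputable def hS (l : T → T →L[ℂ] Ma r) (σ : T → T) (p : T × Ma r) : T × Ma r :=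
  (σ p.1, - mm p.2 (l p.1 (σ p.1)))

/-- The vertical fields `V_a = (0, E_a g)`: row `a.1` is row `a.2` of `g`, the other rows are `0`. -/
def hV (a : Fin r × Fin r) (p : T × Ma r) : T × Ma r :=
  (0, fun i j => if i = a.1 then p.2 a.2 j else 0)

/-- The curvature matrix `R(u, v) = dℓ(u)(v) - dℓ(v)(u) - ℓ(u) ℓ(v) + ℓ(v) ℓ(u)`. -/
noncomputable def curv (l : T → T →L[ℂ] Ma r) (y u v : T) : Ma r :=
  fderiv ℂ l y u v - fderiv ℂ l y v u - mm (l y u) (l y v) + mm (l y v) (l y u)

/-- The inverse of the matrix `g`. -/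
noncomputable def ginv (p : T × Ma r) : Ma r := fun i j => (Matrix.of p.2)⁻¹ i j

end Pool.Agent.RIG
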