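import Pool.Agent.RIG.Alg

/-!
RIG (MP_d19687_ag): the data along a curve, before flattening.
-/

namespace Pool.Agent.RIG

open PowerSeries

/-- Data and hypotheses of the linear algebra lemma along a curve (with connection matrix `J`). -/
structure Curved (K : Type*) [Field K] (ι A : Type*) [Fintype ι] [Fintype A] (r : ℕ) where
  i0 : Fin r
  J : ι → ι → K⟦X⟧
  v : Fin r → ι → K⟦X⟧
  u : A → ι → K⟦X⟧
  Q : ι → ι → K⟦X⟧
  th : A → ι → K⟦X⟧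
  mu : ι → K⟦X⟧
  s : K⟦X⟧
  vt : Fin r → A → K⟦X⟧
  g : A → Fin r → K⟦X⟧
  hx : ∀ b, d⁄dX K (v i0 b) = ∑ c, J b c * v i0 c
  hQ' : ∀ b c, d⁄dX K (Q b c) = ∑ e, (J b e * Q e c - Q b e * J e c) - v i0 b * mu c
    - ∑ a, u a b * ∑ d, th a d * Q d c
  hth : ∀ a, ∑ d, th a d * v i0 d = 0
  hQv : ∀ j b, ∑ c, Q b c * v j c =
    s * (d⁄dX K (v j b) - ∑ c, J b c * v j c) + d⁄dX K s * v j b - s * ∑ a, vt j a * u a b
  hvt : ∀ a, vt i0 a = 0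
  hQu : ∀ a b, ∑ c, Q b c * u a c = s * (d⁄dX K (u a b) - ∑ c, J b c * u a c)
  hu : ∀ a b, d⁄dX K (u a b) - ∑ c, J b c * u a c = ∑ j, g a j * v j b
  s0 : coeff 0 s = 0
  s1 : coeff 1 s = 0

end Pool.Agent.RIG
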