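import Pool.Agent.RIG.Alg

/-!
[RIG-F1] The ideal of the elements all of whose word derivatives vanish at a point.
-/

namespace Pool.Agent.RIG

variable {R K : Type*} [CommRing R] [Field K] {r : ℕ} (D : Fin r → Derivation ℤ R R)
  (ev : R →+* K)

theorem wd_append (w : List (Fin r)) (i : Fin r) (f : R) :
    wd D (w ++ [i]) f = wd D w (D i f) := by
  induction w with
  | nil => rfl
  | cons j w ih =>
    change D j (wd D (w ++ [i]) f) = D j (wd D w (D i f))
    rw [ih]

theorem wd_add' (w : List (Fin r)) (f g : R) : wd D w (f + g) = wd D w f + wd D w g := by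
  induction w with
  | nil => rfl
  | cons j w ih =>
    change D j (wd D w (f + g)) = D j (wd D w f) + D j (wd D w g)
    rw [ih, map_add]

theorem wd_zero (w : List (Fin r)) : wd D w 0 = 0 := by
  induction w with
  | nil => rfl
  | cons j w ih =>
    change D j (wd D w 0) = 0
    rw [ih, map_zero]

/-- By induction on the length of `w`, for all `f`, `h` at once (`List.reverseRecOn` or
`List.length`): for `w ++ [i]`, `wd D (w ++ [i]) (h f) = wd D w (D_i (h f)) = wd D w (h D_i f + f D_i h)`,
and both `f` and `D_i f` have all word derivatives zero at the point. -/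
theorem wd_mul_zero (w : List (Fin r)) :
    ∀ (h f : R), (∀ w', ev (wd D w' f) = 0) → ev (wd D w (h * f)) = 0 := by
  induction w using List.reverseRecOn with
  | nil =>
    intro h f hf
    change ev (h * f) = 0
    rw [map_mul, show ev f = 0 from hf [], mul_zero]
  | append_singleton w i ih =>
    intro h f hf
    rw [wd_append, Derivation.leibniz, smul_eq_mul, smul_eq_mul, wd_add', map_add,
      mul_comm f (D i h), ih h (D i f) (fun w' => by rw [← wd_append]; exact hf _),
      ih (D i h) f hf, add_zero]

/-- The ideal of the elements all of whose word derivatives vanish at the point. -/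
def killIdeal : Ideal R where
  carrier := {f | ∀ w, ev (wd D w f) = 0}
  add_mem' := by
    intro f g hf hg w
    rw [wd_add', map_add, hf w, hg w, add_zero]
  zero_mem' := by
    intro w
    rw [wd_zero, map_zero]
  smul_mem' := by
    intro h f hf w
    exact wd_mul_zero D ev w h f hf

theorem mem_killIdeal (f : R) : f ∈ killIdeal D ev ↔ ∀ w, ev (wd D w f) = 0 := Iff.rfl

theorem killIdeal_stable {f : R} (hf : f ∈ killIdeal D ev) (i : Fin r) :
    D i f ∈ killIdeal D ev := by
  intro w
  rw [← wd_append]
  exact hf _

theorem killIdeal_ev {f : R} (hf : f ∈ killIdeal D ev) : ev f = 0 := hf []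

end Pool.Agent.RIG
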