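import Pool.Agent.RIG.F1
import Pool.Agent.RIG.B4

/-!
[RIG-F2] Pulling back germs from `T` to the frame bundle.
-/

namespace Pool.Agent.RIG

open Filter Topology

variable {T : Type*} [NormedAddCommGroup T] [NormedSpace ℂ T] {r : ℕ}

theorem an_pull {x : T} {f : T → ℂ} (hf : AnalyticAt ℂ f x) (g : Ma r) :
    AnalyticAt ℂ (fun p : T × Ma r => f p.1) (x, g) := by
  exact AnalyticAt.comp (g := f) (f := Prod.fst) (x := (x, g)) hf analyticAt_fst

/-- Underlying function of the pull back. -/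
noncomputable def pullFun (x : T) (g : Ma r) (a : anGerm x) : anGerm (x, g) :=
  mk (fun p => rep a p.1) (an_pull (rep_an a) g)

/-- Equality near `x` gives equality near `(x, g)` (`continuousAt_fst.eventually`). -/
theorem pullFun_mk (x : T) (g : Ma r) {f : T → ℂ} (hf : AnalyticAt ℂ f x) :
    pullFun x g (mk f hf) = mk (fun p => f p.1) (an_pull hf g) := by
  unfold pullFun
  rw [mk_eq_mk]
  have h1 : ContinuousAt (Prod.fst : T × Ma r → T) (x, g) := continuousAt_fst
  exact h1.eventually (rep_mk hf)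

/-- The pull back of germs along the projection `T × Ma r → T`. -/
noncomputable def pull (x : T) (g : Ma r) : anGerm x →+* anGerm (x, g) where
  toFun := pullFun x g
  map_one' := by
    rw [mk_one, pullFun_mk]
    rfl
  map_mul' := by
    intro a b
    obtain ⟨f, hf, rfl⟩ := exists_rep a
    obtain ⟨h, hh, rfl⟩ := exists_rep b
    rw [mk_mul, pullFun_mk, pullFun_mk, pullFun_mk, mk_mul]
  map_zero' := by
    rw [mk_zero, pullFun_mk]
    rfl
  map_add' := by
    intro a b
    obtain ⟨f, hf, rfl⟩ := exists_rep a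
    obtain ⟨h, hh, rfl⟩ := exists_rep b
    rw [mk_add, pullFun_mk, pullFun_mk, pullFun_mk, mk_add]

theorem pull_mk (x : T) (g : Ma r) {f : T → ℂ} (hf : AnalyticAt ℂ f x) :
    pull x g (mk f hf) = mk (fun p => f p.1) (an_pull hf g) := pullFun_mk x g hf

theorem evP_pull (x : T) (g : Ma r) (a : anGerm x) : evP (x, g) (pull x g a) = evP x a := by
  obtain ⟨f, hf, rfl⟩ := exists_rep a
  rw [pull_mk, evP_mk, evP_mk]

theorem an_entry (x : T) (g : Ma r) (i j : Fin r) :
    AnalyticAt ℂ (fun p : T × Ma r => p.2 i j) (x, g) := by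
  exact ((ContinuousLinearMap.proj (R := ℂ) (φ := fun _ : Fin r => ℂ) j).comp
    ((ContinuousLinearMap.proj (R := ℂ) (φ := fun _ : Fin r => Fin r → ℂ) i).comp
      (ContinuousLinearMap.snd ℂ T (Ma r)))).analyticAt _

theorem an_ginv_entry (x : T) (i j : Fin r) :
    AnalyticAt ℂ (fun p : T × Ma r => ginv p i j) (x, oneMa r) := by
  have h1 := an_ginv (r := r) x
  have h2 : AnalyticAt ℂ (fun m : Ma r => m i j) (ginv (x, oneMa r)) :=
    ((ContinuousLinearMap.proj (R := ℂ) (φ := fun _ : Fin r => ℂ) j).comp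
      (ContinuousLinearMap.proj (R := ℂ) (φ := fun _ : Fin r => Fin r → ℂ) i)).analyticAt _
  exact h2.comp h1

/-- `B_i (f ∘ pr) = df (v_i) = ∑ j, g_ij (X_j f) ∘ pr`. -/
theorem dirD_hB_pull {X : Fin r → T → T} {l : T → T →L[ℂ] Ma r} {x : T}
    (hX : ∀ i, AnalyticAt ℂ (X i) x) (hl : AnalyticAt ℂ l x) (i : Fin r) (a : anGerm x) :
    dirD (hB X l i) (an_hB (P := (x, oneMa r)) hX hl i) (pull x (oneMa r) a) =
      ∑ j, mk (fun p : T × Ma r => p.2 i j) (an_entry x (oneMa r) i j) *
        pull x (oneMa r) (dirD (X j) (hX j) a) := by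
  obtain ⟨f, hf, rfl⟩ := exists_rep a
  rw [pull_mk, dirD_mk]
  have h1 : ∀ j, pull x (oneMa r) (dirD (X j) (hX j) (mk f hf)) =
      mk (fun p : T × Ma r => fderiv ℂ f p.1 (X j p.1)) (an_pull (an_dir hf (hX j)) (oneMa r)) := by
    intro j
    rw [dirD_mk, pull_mk]
  simp only [h1, mk_mul]
  rw [mk_sum, mk_eq_mk]
  have h2 : ContinuousAt (Prod.fst : T × Ma r → T) (x, oneMa r) := continuousAt_fst
  filter_upwards [h2.eventually hf.eventually_analyticAt] with p hp
  have h3 : HasFDerivAt (fun q : T × Ma r => f q.1)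
      ((fderiv ℂ f p.1).comp (ContinuousLinearMap.fst ℂ T (Ma r))) p :=
    hp.differentiableAt.hasFDerivAt.comp p hasFDerivAt_fst
  rw [h3.fderiv]
  simp only [ContinuousLinearMap.comp_apply, ContinuousLinearMap.coe_fst', hB, hv, map_sum,
    map_smul, smul_eq_mul]

/-- Inverting: `(X_k f) ∘ pr = ∑ i, (g⁻¹)_ki B_i (f ∘ pr)` (`ginv_spec`, `dirD_hB_pull`). -/
theorem pull_dirD {X : Fin r → T → T} {l : T → T →L[ℂ] Ma r} {x : T}
    (hX : ∀ i, AnalyticAt ℂ (X i) x) (hl : AnalyticAt ℂ l x) (k : Fin r) (a : anGerm x) :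
    pull x (oneMa r) (dirD (X k) (hX k) a) =
      ∑ i, mk (fun p : T × Ma r => ginv p k i) (an_ginv_entry x k i) *
        dirD (hB X l i) (an_hB (P := (x, oneMa r)) hX hl i) (pull x (oneMa r) a) := by
  simp only [dirD_hB_pull hX hl, Finset.mul_sum]
  rw [Finset.sum_comm]
  have h1 : ∀ j, ∑ i, mk (fun p : T × Ma r => ginv p k i) (an_ginv_entry x k i) *
      (mk (fun p : T × Ma r => p.2 i j) (an_entry x (oneMa r) i j) *
        pull x (oneMa r) (dirD (X j) (hX j) a)) =
      (if j = k then 1 else 0) * pull x (oneMa r) (dirD (X j) (hX j) a) := by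
    intro j
    have h2 : ∑ i, mk (fun p : T × Ma r => ginv p k i) (an_ginv_entry x k i) *
        mk (fun p : T × Ma r => p.2 i j) (an_entry x (oneMa r) i j) = if j = k then 1 else 0 := by
      simp only [mk_mul]
      rw [mk_sum]
      by_cases hjk : j = k
      · rw [if_pos hjk, mk_one, mk_eq_mk]
        filter_upwards [ginv_spec (T := T) (r := r) x] with p hp
        have h3 := congrFun (congrFun hp.1 k) j
        simp only [mm, oneMa] at h3
        rw [h3, if_pos hjk.symm]
      · rw [if_neg hjk, mk_zero, mk_eq_mk]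
        filter_upwards [ginv_spec (T := T) (r := r) x] with p hp
        have h3 := congrFun (congrFun hp.1 k) j
        simp only [mm, oneMa] at h3
        rw [h3, if_neg (fun h => hjk h.symm)]
    rw [← h2, Finset.sum_mul]
    exact Finset.sum_congr rfl fun i _ => (mul_assoc _ _ _).symm
  rw [Finset.sum_congr rfl fun j _ => h1 j]
  simp

/-- The ideal `I` of the germs `f` at `x` such that all `B`-words of `f ∘ pr` vanish at `(x, 1)`. -/
noncomputable def IT {X : Fin r → T → T} {l : T → T →L[ℂ] Ma r} {x : T}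
    (hX : ∀ i, AnalyticAt ℂ (X i) x) (hl : AnalyticAt ℂ l x) : Ideal (anGerm x) :=
  (killIdeal (fun i => dirD (hB X l i) (an_hB (P := (x, oneMa r)) hX hl i))
    (evP (x, oneMa r))).comap (pull x (oneMa r))

/-- From `pull_dirD` and `killIdeal_stable`. -/
theorem IT_stable {X : Fin r → T → T} {l : T → T →L[ℂ] Ma r} {x : T}
    (hX : ∀ i, AnalyticAt ℂ (X i) x) (hl : AnalyticAt ℂ l x) (k : Fin r) (a : anGerm x)
    (ha : a ∈ IT hX hl) : dirD (X k) (hX k) a ∈ IT hX hl := by
  have ha' : pull x (oneMa r) a ∈ killIdeal (fun i => dirD (hB X l i)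
      (an_hB (P := (x, oneMa r)) hX hl i)) (evP (x, oneMa r)) := ha
  change pull x (oneMa r) (dirD (X k) (hX k) a) ∈ killIdeal (fun i => dirD (hB X l i)
      (an_hB (P := (x, oneMa r)) hX hl i)) (evP (x, oneMa r))
  rw [pull_dirD hX hl]
  exact Ideal.sum_mem _ fun i _ => Ideal.mul_mem_left _ _ (killIdeal_stable _ _ ha' i)

theorem IT_ev {X : Fin r → T → T} {l : T → T →L[ℂ] Ma r} {x : T}
    (hX : ∀ i, AnalyticAt ℂ (X i) x) (hl : AnalyticAt ℂ l x) (a : anGerm x)
    (ha : a ∈ IT hX hl) : evP x a = 0 := by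
  have ha' : pull x (oneMa r) a ∈ killIdeal (fun i => dirD (hB X l i)
      (an_hB (P := (x, oneMa r)) hX hl i)) (evP (x, oneMa r)) := ha
  rw [← evP_pull x (oneMa r) a]
  exact killIdeal_ev _ _ ha'

end Pool.Agent.RIG
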