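import Mathlib

/-!
[RIG-G0] Analytic left inverses of analytic families of injective linear maps.
-/

namespace Pool.Agent.RIG

open Filter Topology

variable {T F W : Type*} [NormedAddCommGroup T] [NormedSpace ℂ T]
  [NormedAddCommGroup F] [NormedSpace ℂ F] [FiniteDimensional ℂ F]
  [NormedAddCommGroup W] [NormedSpace ℂ W] [FiniteDimensional ℂ W]

/-- Proof.  Choose a linear (hence continuous) left inverse `L₀ : W → F` of `M x`
(`LinearMap.exists_leftInverse_of_injective`).  `A y = L₀.comp (M y)` is analytic at `x` with values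
in the Banach algebra `F →L[ℂ] F` (complete: `FiniteDimensional.complete`) and `A x = 1`.  By
`analyticAt_inverse` and composition `y ↦ Ring.inverse (A y)` is analytic at `x`; units are open
(`Units.isOpen`, `Units.nhds`) so `A y` is a unit for `y` near `x` and
`Ring.inverse (A y) * A y = 1`.  Put `L y = (Ring.inverse (A y)).comp L₀`. -/
theorem exists_left_inverse (M : T → F →L[ℂ] W) (x : T) (hM : AnalyticAt ℂ M x)
    (hinj : Function.Injective (M x)) :
    ∃ L : T → W →L[ℂ] F, AnalyticAt ℂ L x ∧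
      ∀ᶠ y in 𝓝 x, ∀ c : F, L y (M y c) = c := by
  have : CompleteSpace F := FiniteDimensional.complete ℂ F
  obtain ⟨g, hg⟩ := LinearMap.exists_leftInverse_of_injective (M x : F →ₗ[ℂ] W)
    (LinearMap.ker_eq_bot.2 hinj)
  set L₀ : W →L[ℂ] F := LinearMap.toContinuousLinearMap g with hL₀
  have hL₀x : L₀.comp (M x) = 1 := by
    ext c
    exact congrArg (fun f : F →ₗ[ℂ] F => f c) hg
  set A : T → F →L[ℂ] F := fun y => L₀.comp (M y) with hA
  have hAan : AnalyticAt ℂ A x :=
    ((ContinuousLinearMap.compL ℂ F W F L₀).analyticAt (M x)).comp hM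
  have hinv : AnalyticAt ℂ (fun y => Ring.inverse (A y)) x := by
    have h1 : AnalyticAt ℂ (Ring.inverse : (F →L[ℂ] F) → F →L[ℂ] F) (A x) := by
      have h2 : A x = ((1 : (F →L[ℂ] F)ˣ) : F →L[ℂ] F) := by
        rw [Units.val_one]
        exact hL₀x
      rw [h2]
      exact analyticAt_inverse (𝕜 := ℂ) (1 : (F →L[ℂ] F)ˣ)
    exact AnalyticAt.comp h1 hAan
  refine ⟨fun y => (Ring.inverse (A y)).comp L₀, ?_, ?_⟩
  · exact (((ContinuousLinearMap.compL ℂ W F F).flip L₀).analyticAt _).comp hinv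
  · have hun : ∀ᶠ y in 𝓝 x, IsUnit (A y) := by
      refine hAan.continuousAt.eventually (Units.isOpen.mem_nhds ?_)
      change IsUnit (A x)
      rw [show A x = 1 from hL₀x]
      exact isUnit_one
    filter_upwards [hun] with y hy c
    have h1 := congrArg (fun f : F →L[ℂ] F => f c) (Ring.inverse_mul_cancel (A y) hy)
    exact h1

/-- Apply `exists_left_inverse` and put `N y = id - (M y).comp (L y)`: `N y (M y ς) = 0` near `x`,
and `N x ω = 0` gives `ω = M x (L x ω)`. -/
theorem exists_annihilator (M : T → F →L[ℂ] W) (x : T) (hM : AnalyticAt ℂ M x)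
    (hinj : Function.Injective (M x)) :
    ∃ N : T → W →L[ℂ] W, AnalyticAt ℂ N x ∧ (∀ᶠ y in 𝓝 x, ∀ c : F, N y (M y c) = 0) ∧
      ∀ w : W, N x w = 0 → ∃ c : F, w = M x c := by
  obtain ⟨L, hL, hLM⟩ := exists_left_inverse M x hM hinj
  refine ⟨fun y => ContinuousLinearMap.id ℂ W - (M y).comp (L y), ?_, ?_, ?_⟩
  · have h1 : AnalyticAt ℂ (fun y => (M y).comp (L y)) x :=
      AnalyticAt.comp₂ (h := fun p : (F →L[ℂ] W) × (W →L[ℂ] F) =>
        ContinuousLinearMap.compL ℂ W F W p.1 p.2)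
        ((ContinuousLinearMap.compL ℂ W F W).analyticAt_bilinear (M x, L x)) hM hL
    exact analyticAt_const.sub h1
  · filter_upwards [hLM] with y hy c
    change M y c - M y (L y (M y c)) = 0
    rw [hy c, sub_self]
  · intro w hw
    refine ⟨L x w, ?_⟩
    exact sub_eq_zero.1 hw

/-- Coordinates in an analytic frame: apply `exists_left_inverse` to
`M y = ∑ i, (proj i).smulRight (X i y) : (Fin r → ℂ) →L[ℂ] W`, i.e. `c ↦ ∑ i, c i • X i y`, which is
injective at `x` by independence. -/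
theorem exists_frame_coords {r : ℕ} (X : Fin r → T → W) (x : T)
    (hX : ∀ i, AnalyticAt ℂ (X i) x) (hind : LinearIndependent ℂ (fun i => X i x)) :
    ∃ ρ : T → W →L[ℂ] (Fin r → ℂ), AnalyticAt ℂ ρ x ∧
      ∀ᶠ y in 𝓝 x, ∀ c : Fin r → ℂ, ρ y (∑ i, c i • X i y) = c := by
  set M : T → (Fin r → ℂ) →L[ℂ] W := fun y =>
    ∑ i, (ContinuousLinearMap.proj i : (Fin r → ℂ) →L[ℂ] ℂ).smulRight (X i y) with hM
  have hMapp : ∀ y c, M y c = ∑ i, c i • X i y := by
    intro y c
    rw [hM]
    simp only [ContinuousLinearMap.sum_apply, ContinuousLinearMap.smulRight_apply,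
      ContinuousLinearMap.proj_apply]
  have hMan : AnalyticAt ℂ M x := by
    refine Finset.analyticAt_fun_sum _ fun i _ => ?_
    exact ((ContinuousLinearMap.smulRightL ℂ (Fin r → ℂ) W
      (ContinuousLinearMap.proj i : (Fin r → ℂ) →L[ℂ] ℂ)).analyticAt (X i x)).comp (hX i)
  have hinj : Function.Injective (M x) := by
    rw [injective_iff_map_eq_zero]
    intro c hc
    rw [hMapp] at hc
    funext i
    exact Fintype.linearIndependent_iff.1 hind c hc i
  obtain ⟨L, hL, hLM⟩ := exists_left_inverse M x hMan hinj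
  refine ⟨L, hL, ?_⟩
  filter_upwards [hLM] with y hy c
  rw [← hMapp]
  exact hy c

/-- Independence of the `X i y` for `y` near `x` (from `exists_frame_coords`). -/
theorem frame_indep_eventually {r : ℕ} (X : Fin r → T → W) (x : T)
    (hX : ∀ i, AnalyticAt ℂ (X i) x) (hind : LinearIndependent ℂ (fun i => X i x)) :
    ∀ᶠ y in 𝓝 x, LinearIndependent ℂ (fun i => X i y) := by
  obtain ⟨ρ, -, hρ⟩ := exists_frame_coords X x hX hind
  filter_upwards [hρ] with y hy
  rw [Fintype.linearIndependent_iff]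
  intro c hc i
  have h1 := hy c
  rw [hc, map_zero] at h1
  rw [← h1]
  rfl

/-- Vectors in the span of the frame are reproduced: `w = ∑ i, (ρ y w) i • X i y`. -/
theorem frame_coords_mem {r : ℕ} (X : Fin r → T → W) (x : T) (ρ : T → W →L[ℂ] (Fin r → ℂ))
    (h : ∀ᶠ y in 𝓝 x, ∀ c : Fin r → ℂ, ρ y (∑ i, c i • X i y) = c) :
    ∀ᶠ y in 𝓝 x, ∀ w ∈ Submodule.span ℂ (Set.range fun i => X i y),
      w = ∑ i, (ρ y w) i • X i y := by
  filter_upwards [h] with y hy w hw
  obtain ⟨c, rfl⟩ := (Submodule.mem_span_range_iff_exists_fun ℂ).1 hw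
  rw [hy c]

end Pool.Agent.RIG
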