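import Pool.Agent.RIG.R1
import Pool.Agent.RIG.G0
import Pool.Agent.MP_d19687_ag.Defs

/-!
[RIG-F3] An ideal of germs stable under a frame of a bracket-generating distribution is stable
under all partial derivatives.
-/

namespace Pool.Agent.RIG

open Filter Topology Pool.Agent.MP_d19687_ag

variable {T : Type*} [NormedAddCommGroup T] [NormedSpace ℂ T] [FiniteDimensional ℂ T] {r : ℕ}

/-- By induction (`IterBracket`, `an_lieBracket`). -/
theorem IterBracket.an {C : Set (T × T)} {x : T} {Y : T → T} (hY : IterBracket C x Y) :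
    AnalyticAt ℂ Y x := by
  induction hY with
  | base X hX hD => exact hX
  | bracket X Y hX hY ihX ihY => exact an_lieBracket ihX ihY

/-- A section `Y` of the distribution is `∑ k, f_k X_k` near `x` with `f_k` analytic:
`f_k y = ρ y (Y y) k` (`exists_frame_coords`, `frame_coords_mem`). -/
theorem section_eq {C : Set (T × T)} {x : T} {X : Fin r → T → T}
    (hX : ∀ i, AnalyticAt ℂ (X i) x) (hind : LinearIndependent ℂ (fun i => X i x))
    (hspan : ∀ᶠ y in 𝓝 x, Submodule.span ℂ (Set.range fun i => X i y) = fibreSpan C y)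
    {Y : T → T} (hY : AnalyticAt ℂ Y x) (hD : ∀ᶠ y in 𝓝 x, Y y ∈ fibreSpan C y) :
    ∃ f : Fin r → T → ℂ, (∀ k, AnalyticAt ℂ (f k) x) ∧
      ∀ᶠ y in 𝓝 x, Y y = ∑ k, f k y • X k y := by
  obtain ⟨ρ, hρ, hρ'⟩ := exists_frame_coords X x hX hind
  refine ⟨fun k y => ρ y (Y y) k, fun k => ?_, ?_⟩
  · have h1 : AnalyticAt ℂ (fun y => ρ y (Y y)) x := an_clm_apply hρ hY
    have h2 : AnalyticAt ℂ (fun m : Fin r → ℂ => m k) (ρ x (Y x)) :=
      (ContinuousLinearMap.proj (R := ℂ) (φ := fun _ : Fin r => ℂ) k).analyticAt _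
    exact AnalyticAt.comp (g := fun m : Fin r → ℂ => m k) (f := fun y => ρ y (Y y)) h2 h1
  · filter_upwards [frame_coords_mem X x ρ hρ', hD, hspan] with y h1 h2 h3
    exact h1 (Y y) (by rw [h3]; exact h2)

/-- By induction on `IterBracket`: `base`: `section_eq`, `dirD_congr`, `dirD_sum_smul` and `I` is an
ideal; `bracket`: `dirD_lieBracket`. -/
theorem iterBracket_stable {C : Set (T × T)} {x : T} {X : Fin r → T → T}
    (hX : ∀ i, AnalyticAt ℂ (X i) x) (hind : LinearIndependent ℂ (fun i => X i x))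
    (hspan : ∀ᶠ y in 𝓝 x, Submodule.span ℂ (Set.range fun i => X i y) = fibreSpan C y)
    (I : Ideal (anGerm x)) (hI : ∀ k, ∀ a ∈ I, dirD (X k) (hX k) a ∈ I)
    {Y : T → T} (hY : IterBracket C x Y) (hYa : AnalyticAt ℂ Y x) :
    ∀ a ∈ I, dirD Y hYa a ∈ I := by
  induction hY with
  | base Y hY hD =>
    intro a ha
    obtain ⟨f, hf, hf'⟩ := section_eq hX hind hspan hY hD
    rw [dirD_congr hYa (an_sum_smul hf hX) hf' a, dirD_sum_smul hf hX a]
    exact Ideal.sum_mem _ fun k _ => Ideal.mul_mem_left _ _ (hI k a ha)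
  | bracket Y Z hY hZ ihY ihZ =>
    intro a ha
    have hYn : AnalyticAt ℂ Y x := IterBracket.an hY
    have hZn : AnalyticAt ℂ Z x := IterBracket.an hZ
    have h1 := dirD_lieBracket hYn hZn a
    rw [h1]
    exact Ideal.sub_mem _ (ihY hYn _ (ihZ hZn a ha)) (ihZ hZn _ (ihY hYn a ha))

/-- The values at `x` of the fields `Y` with `IterBracket C x Y` span `T`, so there are such fields
`Y_1, …, Y_n` with `Y_a x` a basis of `T` (`n = dim T`).  By `exists_frame_coords` (with
`X := Y`), `v = ∑ a, (ρ y v) a • Y_a y` near `x` (`frame_coords_mem`, `frame_indep_eventually`: `n`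
independent vectors span `T`), so `D_v = ∑ a, h_a D_{Y_a}` (`dirD_congr`, `dirD_sum_smul`) and
`iterBracket_stable` gives the claim. -/
theorem const_stable {U : Set T} {C : Set (T × T)} (hbr : IsBracketGenerating U C) {x : T}
    (hx : x ∈ regularLocus U C) {X : Fin r → T → T}
    (hX : ∀ i, AnalyticAt ℂ (X i) x) (hind : LinearIndependent ℂ (fun i => X i x))
    (hspan : ∀ᶠ y in 𝓝 x, Submodule.span ℂ (Set.range fun i => X i y) = fibreSpan C y)
    (I : Ideal (anGerm x)) (hI : ∀ k, ∀ a ∈ I, dirD (X k) (hX k) a ∈ I) (v : T) :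
    ∀ a ∈ I, dirD (fun _ => v) analyticAt_const a ∈ I := by
  intro a ha
  have hsp := hbr x hx
  let b0 := Module.Basis.ofSpan (K := ℂ) (V := T) hsp.ge
  have : Finite _ := Module.Finite.finite_basis b0
  have := Fintype.ofFinite ((linearIndepOn_empty ℂ id).extend
    (Set.empty_subset {v : T | ∃ X, IterBracket C x X ∧ X x = v}))
  let b := b0.reindex (Fintype.equivFin _)
  have hb : ∀ i, ∃ Y, IterBracket C x Y ∧ Y x = b i := by
    intro i
    have h1 : b i ∈ Set.range b0 := by
      rw [Module.Basis.reindex_apply]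
      exact ⟨_, rfl⟩
    exact Module.Basis.ofSpan_subset hsp.ge h1
  choose Y hY hYx using hb
  have hYan : ∀ i, AnalyticAt ℂ (Y i) x := fun i => IterBracket.an (hY i)
  have hYind : LinearIndependent ℂ (fun i => Y i x) := by
    simp only [hYx]
    exact b.linearIndependent
  obtain ⟨ρ, hρ, hρ'⟩ := exists_frame_coords Y x hYan hYind
  have hf : ∀ i, AnalyticAt ℂ (fun y => ρ y v i) x := by
    intro i
    have h1 : AnalyticAt ℂ (fun y => ρ y ((fun _ : T => v) y)) x :=
      an_clm_apply hρ analyticAt_const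
    have h2 : AnalyticAt ℂ (fun m => m i : (Fin _ → ℂ) → ℂ) (ρ x v) :=
      (ContinuousLinearMap.proj (R := ℂ) (φ := fun _ => ℂ) i).analyticAt _
    exact AnalyticAt.comp (g := fun m => m i) (f := fun y => ρ y v) h2 h1
  have hv : ∀ᶠ y in 𝓝 x, v = ∑ i, (ρ y v i) • Y i y := by
    filter_upwards [frame_coords_mem Y x ρ hρ', frame_indep_eventually Y x hYan hYind]
      with y h1 h2
    refine h1 v ?_
    have h3 : Submodule.span ℂ (Set.range fun i => Y i y) = ⊤ := by
      refine h2.span_eq_top_of_card_eq_finrank' ?_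
      rw [Module.finrank_eq_card_basis b]
    rw [h3]
    exact Submodule.mem_top
  rw [dirD_congr analyticAt_const (an_sum_smul hf hYan) hv a, dirD_sum_smul hf hYan a]
  exact Ideal.sum_mem _ fun i _ => Ideal.mul_mem_left _ _
    (iterBracket_stable hX hind hspan I hI (hY i) (hYan i) a ha)

end Pool.Agent.RIG
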