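import Pool.Agent.RIG.Germ

/-!
[RIG-F4] A germ all of whose iterated derivatives vanish at the point is zero.
-/

namespace Pool.Agent.RIG

open Filter Topology

variable {T : Type*} [NormedAddCommGroup T] [NormedSpace ℂ T]

theorem f4_line (x v : T) (t : ℂ) : HasDerivAt (fun t : ℂ => x + t • v) v t := by
  have h1 := ((hasDerivAt_id t).smul_const v).const_add x
  rwa [one_smul] at h1

theorem f4_analytic (x v : T) (t : ℂ) : AnalyticAt ℂ (fun t : ℂ => x + t • v) t :=
  analyticAt_const.add (analyticAt_id.smul analyticAt_const)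

theorem f4_iter {x : T} (I : Ideal (anGerm x))
    (hI : ∀ v : T, ∀ a ∈ I, dirD (fun _ => v) analyticAt_const a ∈ I)
    (hev : ∀ a ∈ I, evP x a = 0) (v : T) (n : ℕ) : ∀ (f : T → ℂ) (hf : AnalyticAt ℂ f x),
      mk f hf ∈ I → iteratedDeriv n (fun t : ℂ => f (x + t • v)) 0 = 0 := by
  induction n with
  | zero =>
    intro f hf hmem
    rw [iteratedDeriv_zero, zero_smul, add_zero, ← evP_mk hf]
    exact hev _ hmem
  | succ n ih =>
    intro f hf hmem
    rw [iteratedDeriv_succ']
    have h1 : deriv (fun t : ℂ => f (x + t • v)) =ᶠ[𝓝 0] fun t : ℂ => fderiv ℂ f (x + t • v) v := by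
      have h2 : Tendsto (fun t : ℂ => x + t • v) (𝓝 0) (𝓝 x) := by
        have h3 : Tendsto (fun t : ℂ => x + t • v) (𝓝 0) (𝓝 (x + (0 : ℂ) • v)) :=
          (f4_line x v 0).continuousAt
        rwa [zero_smul, add_zero] at h3
      filter_upwards [h2.eventually hf.eventually_analyticAt] with t ht
      exact (ht.differentiableAt.hasFDerivAt.comp_hasDerivAt t (f4_line x v t)).deriv
    rw [h1.iteratedDeriv_eq n]
    have h4 := hI v _ hmem
    rw [dirD_mk] at h4
    exact ih _ _ h4

/-- Proof.  Let `a = mk f`, `f` analytic on a ball `B = ball x R` (`AnalyticAt.exists_ball_analyticOnNhd`).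
Let `y ∈ B`, `v = y - x`, and `g t = f (x + t • v)`, analytic on the convex open set
`{t : ℂ | x + t • v ∈ B} ∋ 0, 1`.  The iterated derivatives of `g` at `0` are
`(D_v^m f) x`: by induction on `m`, for all germs `a = mk f` in `I`: `deriv^[m] g 0 = evP (D_v^m a)`,
since `deriv g t = fderiv ℂ f (x + t • v) v` near `0` is `g` for the germ `D_v a ∈ I`.
They all vanish, so `g = 0` near `0` (`AnalyticAt.eventually_eq_zero_or_eventually_ne_zero` /
`analyticOrderAt`, or the power series of `g` at `0` has zero coefficients), so `g = 0` on the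
preconnected set (`AnalyticOnNhd.eqOn_zero_of_preconnected_of_eventuallyEq_zero`) and
`f y = g 1 = 0`.  So `f = 0` near `x`. -/
theorem eq_zero_of_stable {x : T} (I : Ideal (anGerm x))
    (hI : ∀ v : T, ∀ a ∈ I, dirD (fun _ => v) analyticAt_const a ∈ I)
    (hev : ∀ a ∈ I, evP x a = 0) : ∀ a ∈ I, a = 0 := by
  intro a ha
  obtain ⟨f, hf, rfl⟩ := exists_rep a
  obtain ⟨R, hR, hball⟩ := hf.exists_ball_analyticOnNhd
  rw [mk_zero, mk_eq_mk]
  filter_upwards [Metric.ball_mem_nhds x hR] with y hy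
  by_cases hv : y = x
  · rw [hv, ← evP_mk hf]
    exact hev _ ha
  have hv0 : 0 < ‖y - x‖ := norm_pos_iff.2 (sub_ne_zero.2 hv)
  have hvR : ‖y - x‖ < R := by rwa [Metric.mem_ball, dist_eq_norm] at hy
  have hρ : 1 < R / ‖y - x‖ := (one_lt_div hv0).2 hvR
  have hg : AnalyticOnNhd ℂ (fun t : ℂ => f (x + t • (y - x))) (Metric.ball 0 (R / ‖y - x‖)) := by
    intro t ht
    have h1 : x + t • (y - x) ∈ Metric.ball x R := by
      rw [Metric.mem_ball, dist_eq_norm, add_sub_cancel_left, norm_smul]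
      rw [Metric.mem_ball, dist_zero_right] at ht
      exact (lt_div_iff₀ hv0).1 ht
    exact AnalyticAt.comp (g := f) (hball _ h1) (f4_analytic x (y - x) t)
  have hpos : (0 : ℂ) ∈ Metric.ball (0 : ℂ) (R / ‖y - x‖) :=
    Metric.mem_ball_self (by linarith)
  have h0 : (fun t : ℂ => f (x + t • (y - x))) =ᶠ[𝓝 0] 0 := by
    have h1 : analyticOrderAt (fun t : ℂ => f (x + t • (y - x))) 0 = ⊤ := by
      rw [ENat.eq_top_iff_forall_ge]
      intro n
      rw [natCast_le_analyticOrderAt_iff_iteratedDeriv_eq_zero (hg 0 hpos)]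
      exact fun i _ => f4_iter I hI hev (y - x) i f hf ha
    exact analyticOrderAt_eq_top.1 h1
  have h1 := hg.eqOn_zero_of_preconnected_of_eventuallyEq_zero
    (convex_ball (0 : ℂ) (R / ‖y - x‖)).isPreconnected hpos h0
    (x := 1) (by rw [Metric.mem_ball, dist_zero_right, norm_one]; exact hρ)
  simpa using h1

end Pool.Agent.RIG
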