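import Pool.Agent.RIG.G3

/-!
[RIG-G5] Finitely many points of the fibre detect the scalars.
-/

namespace Pool.Agent.RIG

open Filter Topology Asymptotics Pool.Agent.MP_d19687_ag

variable {T : Type*} [NormedAddCommGroup T] [NormedSpace ℂ T] [FiniteDimensional ℂ T]

/-- In a finite-dimensional space every intersection of subspaces is a finite intersection.
Proof: choose a finite set `s` with `finrank (⨅ i ∈ s, W i)` minimal; then
`⨅ i ∈ s, W i ≤ W j` for all `j` by minimality.  -/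
theorem exists_finset_iInf {E : Type*} [AddCommGroup E] [Module ℂ E] [FiniteDimensional ℂ E]
    {I : Type*} (W : I → Submodule ℂ E) :
    ∃ s : Finset I, ∀ a ∈ (⨅ i ∈ s, W i : Submodule ℂ E), ∀ j, a ∈ W j := by
  classical
  let f : Finset I → ℕ := fun s => Module.finrank ℂ (⨅ i ∈ s, W i : Submodule ℂ E)
  obtain ⟨s, hs⟩ : ∃ s : Finset I, ∀ s', f s ≤ f s' := by
    have hne : (Set.range f).Nonempty := ⟨f ∅, ∅, rfl⟩
    obtain ⟨s, hs⟩ := Nat.sInf_mem hne
    exact ⟨s, fun s' => by rw [hs]; exact Nat.sInf_le ⟨s', rfl⟩⟩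
  refine ⟨s, fun a ha j => ?_⟩
  have hle : (⨅ i ∈ insert j s, W i : Submodule ℂ E) ≤ (⨅ i ∈ s, W i : Submodule ℂ E) := by
    rw [Finset.iInf_insert]
    exact inf_le_right
  have heq : (⨅ i ∈ insert j s, W i : Submodule ℂ E) = (⨅ i ∈ s, W i : Submodule ℂ E) :=
    Submodule.eq_of_le_of_finrank_le hle (hs (insert j s))
  rw [← heq, Finset.iInf_insert] at ha
  exact ha.1

/-- Proof.  Choose for every `v ∈ C_x` a chart `φ_v` at `(x, v)` (`exists_chart`).  Apply
`exists_finset_iInf` to the subspaces `W v = {A : T →ₗ T | A v ∈ range (vert φ_v x)}` of the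
finite-dimensional space `T →ₗ[ℂ] T`; enumerate the finite set (`Finset.equivFin`).  If
`A (v k) ∈ range` for all `k` then `A v ∈ range (vert φ_v x)` for all `v ∈ C_x`, so
`IsTangent C_x v (A v)` (`isTangent_fibre`), and `RigidFibre` applies. -/
theorem finite_detect {U : Set T} {C : Set (T × T)} (hC : IsConeStructure U C) {x : T}
    (hrig : RigidFibre C x) :
    ∃ (K : ℕ) (v : Fin K → T) (d : Fin K → ℕ) (φ : ∀ k, T × (Fin (d k) → ℂ) → T),
      (∀ k, IsChart C x (v k) (d k) (φ k)) ∧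
      ∀ A : T →ₗ[ℂ] T, (∀ k, ∃ s, A (v k) = vert (φ k) x s) →
        ∃ c : ℂ, ∀ w ∈ fibreSpan C x, A w = c • w := by
  classical
  have hch : ∀ v : {v : T // (x, v) ∈ C}, ∃ (d : ℕ) (φ : T × (Fin d → ℂ) → T),
      IsChart C x v.1 d φ := fun v => exists_chart hC v.2
  choose d φ hφ using hch
  let W : {v : T // (x, v) ∈ C} → Submodule ℂ (T →ₗ[ℂ] T) := fun v =>
    (LinearMap.range (vert (φ v) x).toLinearMap).comap (LinearMap.applyₗ v.1)
  have hW : ∀ (v : {v : T // (x, v) ∈ C}) (A : T →ₗ[ℂ] T),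
      A ∈ W v ↔ ∃ s, vert (φ v) x s = A v.1 := by
    intro v A
    simp [W, LinearMap.mem_range]
  obtain ⟨s, hs⟩ := exists_finset_iInf W
  let e := s.equivFin
  refine ⟨s.card, fun k => ((e.symm k : s) : {v : T // (x, v) ∈ C}).1,
    fun k => d (e.symm k : s).1, fun k => φ (e.symm k : s).1, fun k => hφ _, fun A hA => ?_⟩
  have hmem : A ∈ (⨅ i ∈ s, W i : Submodule ℂ (T →ₗ[ℂ] T)) := by
    simp only [Submodule.mem_iInf]
    intro i hi
    rw [hW]
    let P : s → Prop := fun w => ∃ t, vert (φ w.1) x t = A w.1.1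
    have hP : P (e.symm (e ⟨i, hi⟩)) := by
      obtain ⟨t, ht⟩ := hA (e ⟨i, hi⟩)
      exact ⟨t, ht.symm⟩
    rw [Equiv.symm_apply_apply] at hP
    exact hP
  have hall := hs A hmem
  refine hrig A fun v hv => ?_
  obtain ⟨t, ht⟩ := (hW ⟨v, hv⟩ A).1 (hall ⟨v, hv⟩)
  simp only at ht
  rw [← ht]
  exact (hφ ⟨v, hv⟩).isTangent_fibre t

end Pool.Agent.RIG
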