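import Pool.Agent.RIG.G0

/-!
[RIG-G6] Solving an analytic family of linear systems with kernel the scalar matrices.
-/

namespace Pool.Agent.RIG

open Filter Topology

/-- The identity matrix as an element of `Fin r → Fin r → ℂ`. -/
def oneM (r : ℕ) : Fin r → Fin r → ℂ := fun i j => if i = j then 1 else 0

/-- Composition of analytic families of continuous linear maps. -/
theorem g6_comp {T A B C : Type*} [NormedAddCommGroup T] [NormedSpace ℂ T]
    [NormedAddCommGroup A] [NormedSpace ℂ A] [NormedAddCommGroup B] [NormedSpace ℂ B]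
    [NormedAddCommGroup C] [NormedSpace ℂ C] {f : T → B →L[ℂ] C} {g : T → A →L[ℂ] B} {x : T}
    (hf : AnalyticAt ℂ f x) (hg : AnalyticAt ℂ g x) :
    AnalyticAt ℂ (fun y => (f y).comp (g y)) x := by
  have hb : AnalyticAt ℂ (fun p : (B →L[ℂ] C) × (A →L[ℂ] B) =>
      ContinuousLinearMap.compL ℂ A B C p.1 p.2) ((fun y => (f y, g y)) x) :=
    (ContinuousLinearMap.compL ℂ A B C).analyticAt_bilinear _
  exact AnalyticAt.fun_comp (f := fun y => (f y, g y)) hb (hf.prod hg)

/-- Proof.  Let `Z ≤ (Fin r → Fin r → ℂ)` be the subspace of trace zero matrices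
(`∑ k, a k k = 0`).  `M y = (Lm y).comp Z.subtypeL : Z →L[ℂ] W` is analytic at `x` and `M x` is injective:
`Lm x a = 0` gives `a = c • 1`, and `r c = 0`, `c = 0`.  Let `L` be as in `exists_left_inverse`, and
`ℓ y = - (Z.subtypeL).comp ((L y).comp (Dm y))`.  If `Lm y a = - Dm y η`, put `t = (∑ k, a k k) / r`;
then `a - t • 1 ∈ Z` and `Lm y (a - t • 1) = - Dm y η` (by `h1`), so
`a - t • 1 = L y (- Dm y η) = ℓ y η`. -/
theorem solve_mod_scalars {r : ℕ} (hr : 0 < r) {T W : Type*}
    [NormedAddCommGroup T] [NormedSpace ℂ T] [NormedAddCommGroup W] [NormedSpace ℂ W]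
    [FiniteDimensional ℂ W] (x : T)
    (Lm : T → (Fin r → Fin r → ℂ) →L[ℂ] W) (Dm : T → T →L[ℂ] W)
    (hL : AnalyticAt ℂ Lm x) (hD : AnalyticAt ℂ Dm x)
    (hker : ∀ a, Lm x a = 0 → ∃ c : ℂ, a = c • oneM r)
    (h1 : ∀ᶠ y in 𝓝 x, Lm y (oneM r) = 0) :
    ∃ l : T → T →L[ℂ] (Fin r → Fin r → ℂ), AnalyticAt ℂ l x ∧
      ∀ᶠ y in 𝓝 x, ∀ (a : Fin r → Fin r → ℂ) (η : T), Lm y a = - Dm y η →
        a = ((∑ k, a k k) / r) • oneM r + l y η := by
  classical
  let tr : (Fin r → Fin r → ℂ) →ₗ[ℂ] ℂ :=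
    { toFun := fun a => ∑ k, a k k
      map_add' := fun a b => by simp [Finset.sum_add_distrib]
      map_smul' := fun c a => by simp [Finset.mul_sum] }
  let Z : Submodule ℂ (Fin r → Fin r → ℂ) := LinearMap.ker tr
  have htr1 : ∑ k, oneM r k k = (r : ℂ) := by simp [oneM]
  have hrne : (r : ℂ) ≠ 0 := by exact_mod_cast hr.ne'
  have hMan : AnalyticAt ℂ (fun y => (Lm y).comp Z.subtypeL) x :=
    g6_comp hL analyticAt_const
  have hinj : Function.Injective ((Lm x).comp Z.subtypeL) := by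
    rw [injective_iff_map_eq_zero]
    intro a ha
    have ha' : Lm x (a : Fin r → Fin r → ℂ) = 0 := ha
    obtain ⟨c, hc⟩ := hker _ ha'
    have hz : ∑ k, (a : Fin r → Fin r → ℂ) k k = 0 := LinearMap.mem_ker.mp a.2
    have h2 : c * r = 0 := by
      rw [← hz, hc, ← htr1, Finset.mul_sum]
      rfl
    have hc0 : c = 0 := by
      rcases mul_eq_zero.mp h2 with h | h
      · exact h
      · exact absurd h hrne
    apply Subtype.ext
    rw [hc, hc0, zero_smul]
    rfl
  obtain ⟨L, hLan, hLinv⟩ := exists_left_inverse (fun y => (Lm y).comp Z.subtypeL) x hMan hinj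
  refine ⟨fun y => - (Z.subtypeL).comp ((L y).comp (Dm y)), ?_, ?_⟩
  · exact (g6_comp analyticAt_const (g6_comp hLan hD)).neg
  · filter_upwards [hLinv, h1] with y hy h1y a η hη
    set t : ℂ := (∑ k, a k k) / r with ht
    have hmem : a - t • oneM r ∈ Z := by
      have : tr (a - t • oneM r) = 0 := by
        rw [map_sub, map_smul]
        show (∑ k, a k k) - t • (∑ k, oneM r k k) = 0
        rw [htr1, ht, smul_eq_mul, div_mul_cancel₀ _ hrne, sub_self]
      exact LinearMap.mem_ker.mpr this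
    have hc := hy ⟨a - t • oneM r, hmem⟩
    have hval : ((Lm y).comp Z.subtypeL) ⟨a - t • oneM r, hmem⟩ = - Dm y η := by
      show Lm y (a - t • oneM r) = - Dm y η
      rw [map_sub, map_smul, h1y, smul_zero, sub_zero, hη]
    rw [hval] at hc
    have hc2 : ((L y (- Dm y η) : Z) : Fin r → Fin r → ℂ) = a - t • oneM r := by
      rw [hc]
    have hl : (- (Z.subtypeL).comp ((L y).comp (Dm y))) η = a - t • oneM r := by
      rw [← hc2, map_neg]
      rfl
    rw [hl]
    abel

end Pool.Agent.RIG
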