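import Pool.Agent.RIG.G3
import Pool.Agent.RIG.G6

/-!
[RIG-G7] The linear equations coming from one chart.
-/

namespace Pool.Agent.RIG

open Filter Topology Asymptotics Pool.Agent.MP_d19687_ag

variable {T : Type*} [NormedAddCommGroup T] [NormedSpace ℂ T] [FiniteDimensional ℂ T]

/-- The Lie bracket at a point. -/
theorem g7_lb (V W : T → T) (y : T) : VectorField.lieBracket ℂ V W y =
    fderiv ℂ W y (V y) - fderiv ℂ V y (W y) := rfl

theorem g7_app {E F : Type*} [NormedAddCommGroup E] [NormedSpace ℂ E] [NormedAddCommGroup F]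
    [NormedSpace ℂ F] {G : T → E →L[ℂ] F} {u : T → E} {x : T} (hG : AnalyticAt ℂ G x)
    (hu : AnalyticAt ℂ u x) : AnalyticAt ℂ (fun y => G y (u y)) x := by
  have h1 := (ContinuousLinearMap.id ℂ (E →L[ℂ] F)).analyticAt_bilinear (G x, u x)
  exact AnalyticAt.comp₂ h1 hG hu

theorem g7_comp {E F G : Type*} [NormedAddCommGroup E] [NormedSpace ℂ E] [NormedAddCommGroup F]
    [NormedSpace ℂ F] [NormedAddCommGroup G] [NormedSpace ℂ G] {A : T → F →L[ℂ] G}
    {B : T → E →L[ℂ] F} {x : T} (hA : AnalyticAt ℂ A x) (hB : AnalyticAt ℂ B x) :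
    AnalyticAt ℂ (fun y => (A y).comp (B y)) x := by
  have h1 : AnalyticAt ℂ (fun p : (F →L[ℂ] G) × (E →L[ℂ] F) => p.1.comp p.2) (A x, B x) :=
    ContinuousLinearMap.analyticAt_bilinear (ContinuousLinearMap.compL ℂ E F G) (A x, B x)
  exact AnalyticAt.comp₂ h1 hA hB

/-- Leibniz rule for the bracket with a combination of frame fields:
`[σ, ∑ c_i X_i] = ∑ (dc_i(σ) X_i + c_i [σ, X_i])`.
(`VectorField.lieBracket_eq` and `fderiv` of a sum of `smul`s.) -/
theorem lieBracket_sum {r : ℕ} (X : Fin r → T → T) (c : Fin r → T → ℂ) (σ : T → T) (y : T)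
    (hX : ∀ i, DifferentiableAt ℂ (X i) y) (hc : ∀ i, DifferentiableAt ℂ (c i) y)
    (hσ : DifferentiableAt ℂ σ y) :
    VectorField.lieBracket ℂ σ (fun y => ∑ i, c i y • X i y) y =
      ∑ i, (fderiv ℂ (c i) y (σ y) • X i y + c i y • VectorField.lieBracket ℂ σ (X i) y) := by
  have h : HasFDerivAt (fun y => ∑ i, c i y • X i y)
      (∑ i, (c i y • fderiv ℂ (X i) y + (fderiv ℂ (c i) y).smulRight (X i y))) y :=
    HasFDerivAt.fun_sum fun i _ => (hc i).hasFDerivAt.smul (hX i).hasFDerivAt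
  rw [g7_lb, h.fderiv, sum_apply, map_sum, ← Finset.sum_sub_distrib]
  refine Finset.sum_congr rfl fun i _ => ?_
  rw [g7_lb, add_apply, smul_apply, ContinuousLinearMap.smulRight_apply, map_smul, smul_sub]
  abel

/-- Let `X i` be an analytic frame of `D` near `x` and `φ` a chart at `(x, v)`.
Proof.  `ρ` := `exists_frame_coords`; `c i y = ρ y (φ (y, 0)) i`, analytic; near `x`,
`φ (y, 0) = ∑ i, c i y • X i y` (`frame_coords_mem`, `sec_mem`).  `N` := `exists_annihilator (vert φ)`.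
Put `Lm y a = N y (∑ i, ∑ j, (c i y * a i j) • X j y)` and `Dm y η = N y (∑ i, (fderiv ℂ (c i) y η) • X i y)`
(both analytic in `y` at `x`).
(1) `Lm x a = 0` gives, by the property of `N x`, an `s` with
`∑ i, ∑ j, (c i x * a i j) • X j x = vert φ x s`; and `v = φ (x, 0) = ∑ i, c i x • X i x`; if `A` is a
linear map with `A (X i x) = ∑ j, a i j • X j x` then `A v` is this vector.
(2) `Lm y 1 = N y (∑ i, c i y • X i y) = N y (φ (y, 0)) = 0` by `vert_self`.
(3) If `lieBracket σ (X i) y = ∑ j, a y i j • X j y` for `y` near `x` then by `lieBracket_sum` and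
`lieBracket_mem` (note that `φ (y, 0) = ∑ i, c i y • X i y` holds on a neighbourhood of `x`, so the
brackets with `σ` agree there: `Filter.EventuallyEq.lieBracket_vectorField` or `fderiv_eq`)
`N y (∑ i, (dc_i(σ) X_i + c_i ∑ j, a i j • X j)) = N y (vert φ y s) = 0`, i.e.
`Lm y (a y) = - Dm y (σ y)`. -/
theorem chart_equations {U : Set T} {C : Set (T × T)} (hC : IsConeStructure U C) {x v : T}
    {r : ℕ} (X : Fin r → T → T) (hX : ∀ i, AnalyticAt ℂ (X i) x)
    (hind : LinearIndependent ℂ (fun i => X i x))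
    (hspan : ∀ᶠ y in 𝓝 x, Submodule.span ℂ (Set.range fun i => X i y) = fibreSpan C y)
    {d : ℕ} {φ : T × (Fin d → ℂ) → T} (h : IsChart C x v d φ) :
    ∃ (Lm : T → (Fin r → Fin r → ℂ) →L[ℂ] T) (Dm : T → T →L[ℂ] T),
      AnalyticAt ℂ Lm x ∧ AnalyticAt ℂ Dm x ∧
      (∀ a, Lm x a = 0 → ∀ A : T →ₗ[ℂ] T, (∀ i, A (X i x) = ∑ j, a i j • X j x) →
        ∃ s, A v = vert φ x s) ∧
      (∀ᶠ y in 𝓝 x, Lm y (oneM r) = 0) ∧
      ∀ σ : T → T, Preserves C x σ → ∀ a : T → Fin r → Fin r → ℂ,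
        (∀ i, ∀ᶠ y in 𝓝 x, VectorField.lieBracket ℂ σ (X i) y = ∑ j, a y i j • X j y) →
        ∀ᶠ y in 𝓝 x, Lm y (a y) = - Dm y (σ y) := by
  classical
  obtain ⟨ρ, hρ, hρc⟩ := exists_frame_coords X x hX hind
  have hmem := frame_coords_mem X x ρ hρc
  obtain ⟨N, hN, hN0, hNx⟩ := exists_annihilator (vert φ) x h.vert_an h.vert_inj
  have hc : ∀ i, AnalyticAt ℂ (fun y => ρ y (φ (y, 0)) i) x := by
    intro i
    have h1 : AnalyticAt ℂ (fun y => ρ y (φ (y, 0))) x := g7_app hρ h.sec_an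
    exact ((ContinuousLinearMap.proj (R := ℂ) (φ := fun _ : Fin r => ℂ) i).analyticAt _).comp h1
  obtain ⟨c, hcdef⟩ : ∃ c : Fin r → T → ℂ, c = fun i y => ρ y (φ (y, 0)) i := ⟨_, rfl⟩
  have hca : ∀ i, AnalyticAt ℂ (c i) x := by
    intro i
    rw [hcdef]
    exact hc i
  have hsec : ∀ᶠ y in 𝓝 x, φ (y, 0) = ∑ i, c i y • X i y := by
    filter_upwards [hmem, hspan, h.sec_mem] with y h1 h2 h3
    rw [hcdef]
    exact h1 _ (h2 ▸ h3)
  obtain ⟨S, hSdef⟩ : ∃ S : T → (Fin r → Fin r → ℂ) →L[ℂ] T, S = fun y =>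
      ∑ i, ∑ j, c i y • ContinuousLinearMap.smulRightL ℂ (Fin r → Fin r → ℂ) T
        ((ContinuousLinearMap.proj (R := ℂ) (φ := fun _ : Fin r => ℂ) j).comp
          (ContinuousLinearMap.proj (R := ℂ) (φ := fun _ : Fin r => Fin r → ℂ) i)) (X j y) :=
    ⟨_, rfl⟩
  have hSa : AnalyticAt ℂ S x := by
    rw [hSdef]
    refine Finset.analyticAt_fun_sum _ fun i _ => Finset.analyticAt_fun_sum _ fun j _ => ?_
    refine (hca i).smul ?_
    exact ((ContinuousLinearMap.smulRightL ℂ (Fin r → Fin r → ℂ) T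
        ((ContinuousLinearMap.proj (R := ℂ) (φ := fun _ : Fin r => ℂ) j).comp
          (ContinuousLinearMap.proj (R := ℂ) (φ := fun _ : Fin r => Fin r → ℂ) i))).analyticAt
        _).comp (hX j)
  have hSap : ∀ y a, S y a = ∑ i, c i y • ∑ j, a i j • X j y := by
    intro y a
    rw [hSdef]
    simp only [sum_apply, smul_apply, Finset.smul_sum]
    rfl
  obtain ⟨S', hS'def⟩ : ∃ S' : T → T →L[ℂ] T, S' = fun y =>
      ∑ i, ContinuousLinearMap.smulRightL ℂ T T (fderiv ℂ (c i) y) (X i y) := ⟨_, rfl⟩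
  have hS'a : AnalyticAt ℂ S' x := by
    rw [hS'def]
    refine Finset.analyticAt_fun_sum _ fun i _ => ?_
    have h1 : AnalyticAt ℂ (fun y => ContinuousLinearMap.smulRightL ℂ T T (fderiv ℂ (c i) y)) x :=
      ((ContinuousLinearMap.smulRightL ℂ T T).analyticAt _).comp (hca i).fderiv
    exact g7_app h1 (hX i)
  have hS'ap : ∀ y η, S' y η = ∑ i, fderiv ℂ (c i) y η • X i y := by
    intro y η
    rw [hS'def]
    simp only [sum_apply]
    rfl
  refine ⟨fun y => (N y).comp (S y), fun y => (N y).comp (S' y), g7_comp hN hSa, g7_comp hN hS'a,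
    ?_, ?_, ?_⟩
  · intro a ha A hA
    rw [ContinuousLinearMap.comp_apply] at ha
    obtain ⟨s, hs⟩ := hNx _ ha
    refine ⟨s, ?_⟩
    rw [← hs, ← h.map0, hsec.self_of_nhds, map_sum, hSap]
    refine Finset.sum_congr rfl fun i _ => ?_
    rw [map_smul, hA i]
  · filter_upwards [hsec, h.vert_self hC, hN0] with y h1 h2 h3
    rw [ContinuousLinearMap.comp_apply, hSap]
    have h4 : ∑ i, c i y • ∑ j, oneM r i j • X j y = φ (y, 0) := by
      rw [h1]
      refine Finset.sum_congr rfl fun i _ => ?_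
      congr 1
      simp only [oneM, ite_smul, one_smul, zero_smul, Finset.sum_ite_eq, Finset.mem_univ, if_true]
    rw [h4]
    obtain ⟨s, hs⟩ := h2
    rw [hs]
    exact h3 s
  · intro σ hσ a ha
    have hX' : ∀ᶠ y in 𝓝 x, ∀ i, DifferentiableAt ℂ (X i) y := by
      rw [Filter.eventually_all]
      intro i
      filter_upwards [(hX i).eventually_analyticAt] with y hy
      exact hy.differentiableAt
    have hc' : ∀ᶠ y in 𝓝 x, ∀ i, DifferentiableAt ℂ (c i) y := by
      rw [Filter.eventually_all]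
      intro i
      filter_upwards [(hca i).eventually_analyticAt] with y hy
      exact hy.differentiableAt
    have hσ' : ∀ᶠ y in 𝓝 x, DifferentiableAt ℂ σ y := by
      filter_upwards [hσ.1.eventually_analyticAt] with y hy
      exact hy.differentiableAt
    have ha' : ∀ᶠ y in 𝓝 x, ∀ i, VectorField.lieBracket ℂ σ (X i) y = ∑ j, a y i j • X j y := by
      rw [Filter.eventually_all]
      exact ha
    filter_upwards [hsec.eventually_nhds, h.lieBracket_mem hσ, hN0, hX', hc', hσ', ha'] with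
      y h1 h2 h3 h4 h5 h6 h7
    have h8 : VectorField.lieBracket ℂ σ (fun y => φ (y, 0)) y =
        VectorField.lieBracket ℂ σ (fun y => ∑ i, c i y • X i y) y := by
      rw [g7_lb, g7_lb]
      have h9 : (fun y => φ (y, 0)) =ᶠ[𝓝 y] (fun y => ∑ i, c i y • X i y) := h1
      rw [h9.fderiv_eq, h1.self_of_nhds]
    obtain ⟨s, hs⟩ := h2
    rw [h8, lieBracket_sum X c σ y h4 h5 h6] at hs
    have h10 : S' y (σ y) + S y (a y) = vert φ y s := by
      rw [← hs, hS'ap, hSap, ← Finset.sum_add_distrib]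
      refine Finset.sum_congr rfl fun i _ => ?_
      rw [h7 i]
    have h11 := h3 s
    rw [← h10, map_add] at h11
    rw [ContinuousLinearMap.comp_apply, ContinuousLinearMap.comp_apply]
    exact eq_neg_of_add_eq_zero_right h11

end Pool.Agent.RIG
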