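import Pool.Agent.RIG.G4
import Pool.Agent.RIG.G5
import Pool.Agent.RIG.G7

/-!
[RIG-G8] The connection attached to a cone structure with rigid fibre at `x`.
-/

namespace Pool.Agent.RIG

open Filter Topology Asymptotics Pool.Agent.MP_d19687_ag

variable {T : Type*} [NormedAddCommGroup T] [NormedSpace ℂ T] [FiniteDimensional ℂ T]

theorem g8_clm_apply {E F G : Type*} [NormedAddCommGroup E] [NormedSpace ℂ E]
    [NormedAddCommGroup F] [NormedSpace ℂ F] [NormedAddCommGroup G] [NormedSpace ℂ G]
    {f : E → F →L[ℂ] G} {g : E → F} {x : E} (hf : AnalyticAt ℂ f x) (hg : AnalyticAt ℂ g x) :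
    AnalyticAt ℂ (fun y => f y (g y)) x :=
  (ContinuousLinearMap.analyticAt_bilinear (ContinuousLinearMap.id ℂ (F →L[ℂ] G))
    (f x, g x)).comp₂ hf hg

/-- Proof.  Take the frame `X i y = φ i (y, 0)` of `exists_frame` and the detectors of
`finite_detect`, and for each detector `k` the equations `Lm k`, `Dm k` of `chart_equations`; put
`W = Fin K → T`, `Lm y a = fun k => Lm k y a`, `Dm y η = fun k => Dm k y η`.
`hker`: if `Lm x a = 0` take the linear map `A = ∑ i, (ρ x ·) i • ∑ j, a i j • X j x` (`ρ` from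
`exists_frame_coords`), so `A (X i x) = ∑ j, a i j • X j x`; the detectors give `A w = c • w` on
`D_x`, so `∑ j, a i j • X j x = c • X i x` and `a = c • oneM r` by independence.
Apply `solve_mod_scalars`, which gives `l`.
Let `σ` preserve `C`, `σ x = 0` and `dσ_x = 0` on `D_x`.  Near `x`, `lieBracket σ (X i) y ∈ D_y`
(`lieBracket_mem`, `range_vert_le`), so it is `∑ j, a y i j • X j y` with
`a y i j = ρ y (lieBracket ℂ σ (X i) y) j`, analytic in `y` at `x` (`σ, X i` analytic, `fderiv`
analytic).  By `chart_equations` (3), `Lm y (a y) = - Dm y (σ y)` near `x`, so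
`a y = lam y • oneM r + l y (σ y)` with `lam y = (∑ k, a y k k) / r`, analytic.  At `x`:
`σ x = 0` and `fderiv ℂ σ x = 0` on `D_x`, so `lieBracket ℂ σ (X i) x = 0`, `a x = 0`,
`lam x = 0`. -/
theorem exists_connection {U : Set T} {C : Set (T × T)} (hC : IsConeStructure U C) {x : T}
    (hx : x ∈ regularLocus U C) {r : ℕ} (hr0 : 0 < r)
    (hr : Module.finrank ℂ (fibreSpan C x) = r) (hrig : RigidFibre C x) :
    ∃ (X : Fin r → T → T) (l : T → T →L[ℂ] (Fin r → Fin r → ℂ)),
      (∀ i, AnalyticAt ℂ (X i) x) ∧ LinearIndependent ℂ (fun i => X i x) ∧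
      (∀ᶠ y in 𝓝 x, Submodule.span ℂ (Set.range fun i => X i y) = fibreSpan C y) ∧
      AnalyticAt ℂ l x ∧
      ∀ σ : T → T, Preserves C x σ → σ x = 0 → (∀ v ∈ fibreSpan C x, fderiv ℂ σ x v = 0) →
        ∃ lam : T → ℂ, AnalyticAt ℂ lam x ∧ lam x = 0 ∧
          ∀ i, ∀ᶠ y in 𝓝 x, VectorField.lieBracket ℂ σ (X i) y =
            lam y • X i y + ∑ j, l y (σ y) i j • X j y := by
  classical
  have : CompleteSpace T := FiniteDimensional.complete ℂ T
  obtain ⟨v, d, φ, hφ, hv, hspan⟩ := exists_frame hC hx hr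
  set X : Fin r → T → T := fun i y => φ i (y, 0) with hXdef
  have hX : ∀ i, AnalyticAt ℂ (X i) x := fun i => (hφ i).sec_an
  have hXx : ∀ i, X i x = v i := fun i => (hφ i).map0
  have hind : LinearIndependent ℂ (fun i => X i x) := by
    have e : (fun i => X i x) = v := funext hXx
    rw [e]
    exact hv
  have hspan' : ∀ᶠ y in 𝓝 x, Submodule.span ℂ (Set.range fun i => X i y) = fibreSpan C y := hspan
  obtain ⟨K, w, e, ψ, hψ, hdet⟩ := finite_detect hC hrig
  choose Lm Dm hLa hDa hL0 hL1 hLσ using fun k => chart_equations hC X hX hind hspan' (hψ k)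
  obtain ⟨ρ, hρa, hρ⟩ := exists_frame_coords X x hX hind
  have hcoord := frame_coords_mem X x ρ hρ
  -- the combined system
  set LM : T → (Fin r → Fin r → ℂ) →L[ℂ] (Fin K → T) := fun y =>
    ∑ k, (ContinuousLinearMap.single ℂ (fun _ : Fin K => T) k).comp (Lm k y) with hLM
  set DM : T → T →L[ℂ] (Fin K → T) := fun y =>
    ∑ k, (ContinuousLinearMap.single ℂ (fun _ : Fin K => T) k).comp (Dm k y) with hDM
  have hLMk : ∀ y a k, LM y a k = Lm k y a := by
    intro y a k
    rw [hLM]
    simp only [_root_.sum_apply, Finset.sum_apply, ContinuousLinearMap.comp_apply,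
      ContinuousLinearMap.single_apply]
    rw [Finset.sum_eq_single k]
    · rw [Pi.single_eq_same]
    · intro k' _ hk'
      rw [Pi.single_eq_of_ne (Ne.symm hk')]
    · intro hk'
      exact absurd (Finset.mem_univ k) hk'
  have hDMk : ∀ y a k, DM y a k = Dm k y a := by
    intro y a k
    rw [hDM]
    simp only [_root_.sum_apply, Finset.sum_apply, ContinuousLinearMap.comp_apply,
      ContinuousLinearMap.single_apply]
    rw [Finset.sum_eq_single k]
    · rw [Pi.single_eq_same]
    · intro k' _ hk'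
      rw [Pi.single_eq_of_ne (Ne.symm hk')]
    · intro hk'
      exact absurd (Finset.mem_univ k) hk'
  have hLMa : AnalyticAt ℂ LM x := by
    rw [hLM]
    refine Finset.analyticAt_fun_sum _ fun k _ => ?_
    exact ((ContinuousLinearMap.compL ℂ (Fin r → Fin r → ℂ) T (Fin K → T)
      (ContinuousLinearMap.single ℂ (fun _ : Fin K => T) k)).analyticAt _).fun_comp (hLa k)
  have hDMa : AnalyticAt ℂ DM x := by
    rw [hDM]
    refine Finset.analyticAt_fun_sum _ fun k _ => ?_
    exact ((ContinuousLinearMap.compL ℂ T T (Fin K → T)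
      (ContinuousLinearMap.single ℂ (fun _ : Fin K => T) k)).analyticAt _).fun_comp (hDa k)
  have hρx := hρ.self_of_nhds
  have hspanx := hspan'.self_of_nhds
  have hker : ∀ a, LM x a = 0 → ∃ c : ℂ, a = c • oneM r := by
    intro a ha
    have hak : ∀ k, Lm k x a = 0 := fun k => by
      rw [← hLMk x a k, ha]
      rfl
    set A : T →ₗ[ℂ] T := ∑ i, ((LinearMap.proj i).comp (ρ x : T →ₗ[ℂ] (Fin r → ℂ))).smulRight
      (∑ j, a i j • X j x) with hA
    have hρX : ∀ i, ρ x (X i x) = Pi.single i (1 : ℂ) := by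
      intro i
      have h1 := hρx (Pi.single i (1 : ℂ))
      rw [Finset.sum_eq_single i] at h1
      · rw [Pi.single_eq_same, one_smul] at h1
        exact h1
      · intro j _ hj
        rw [Pi.single_eq_of_ne hj, zero_smul]
      · intro hi
        exact absurd (Finset.mem_univ i) hi
    have hAX : ∀ i, A (X i x) = ∑ j, a i j • X j x := by
      intro i
      rw [hA, LinearMap.sum_apply, Finset.sum_eq_single i]
      · rw [LinearMap.smulRight_apply, LinearMap.comp_apply, LinearMap.proj_apply,
          ContinuousLinearMap.coe_coe, hρX, Pi.single_eq_same, one_smul]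
      · intro j _ hj
        rw [LinearMap.smulRight_apply, LinearMap.comp_apply, LinearMap.proj_apply,
          ContinuousLinearMap.coe_coe, hρX, Pi.single_eq_of_ne hj, zero_smul]
      · intro hi
        exact absurd (Finset.mem_univ i) hi
    obtain ⟨c, hc⟩ := hdet A fun k => hL0 k a (hak k) A hAX
    refine ⟨c, funext fun i => ?_⟩
    have hmem : X i x ∈ fibreSpan C x := by
      rw [← hspanx]
      exact Submodule.subset_span ⟨i, rfl⟩
    have h1 := hc _ hmem
    rw [hAX] at h1
    have h2 := congrArg (ρ x) h1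
    rw [hρx, map_smul, hρX] at h2
    rw [h2]
    funext j
    simp only [Pi.smul_apply, oneM, Pi.single_apply, eq_comm]
  have h1 : ∀ᶠ y in 𝓝 x, LM y (oneM r) = 0 := by
    filter_upwards [Filter.eventually_all.2 hL1] with y hy
    funext k
    rw [hLMk, hy k]
    rfl
  obtain ⟨l, hla, hl⟩ := solve_mod_scalars hr0 x LM DM hLMa hDMa hker h1
  refine ⟨X, l, hX, hind, hspan', hla, ?_⟩
  intro σ hσ hσx hσd
  have hσa : AnalyticAt ℂ σ x := hσ.1
  set a : T → Fin r → Fin r → ℂ := fun y i j => ρ y (VectorField.lieBracket ℂ σ (X i) y) j with ha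
  have Hbr : ∀ i, ∀ᶠ y in 𝓝 x, VectorField.lieBracket ℂ σ (X i) y = ∑ j, a y i j • X j y := by
    intro i
    filter_upwards [(hφ i).lieBracket_mem hσ, (hφ i).range_vert_le, hspan', hcoord]
      with y h2 h3 h4 h5
    obtain ⟨s, hs⟩ := h2
    have h6 : VectorField.lieBracket ℂ σ (X i) y ∈ Submodule.span ℂ (Set.range fun i => X i y) := by
      rw [h4]
      have h7 : VectorField.lieBracket ℂ σ (X i) y = vert (φ i) y s := hs
      rw [h7]
      exact h3 s
    exact h5 _ h6
  have Hall : ∀ᶠ y in 𝓝 x, LM y (a y) = - DM y (σ y) := by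
    filter_upwards [Filter.eventually_all.2 fun k => hLσ k σ hσ a Hbr] with y hy
    funext k
    rw [hLMk, hy k, Pi.neg_apply, hDMk]
  have haan : ∀ i, AnalyticAt ℂ (fun y => ρ y (VectorField.lieBracket ℂ σ (X i) y)) x := by
    intro i
    have h2 : AnalyticAt ℂ (fun y => VectorField.lieBracket ℂ σ (X i) y) x := by
      have h3 : AnalyticAt ℂ (fun y => fderiv ℂ (X i) y (σ y) - fderiv ℂ σ y (X i y)) x :=
        (g8_clm_apply (hX i).fderiv hσa).sub (g8_clm_apply hσa.fderiv (hX i))
      exact h3
    exact g8_clm_apply hρa h2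
  refine ⟨fun y => (∑ k, a y k k) / r, ?_, ?_, ?_⟩
  · have h2 : AnalyticAt ℂ (fun y => ∑ k, a y k k) x := by
      refine Finset.analyticAt_fun_sum _ fun k _ => ?_
      exact ((ContinuousLinearMap.proj (R := ℂ) (φ := fun _ : Fin r => ℂ) k).analyticAt _).fun_comp
        (haan k)
    exact h2.div_const
  · have h2 : ∀ k, a x k k = 0 := by
      intro k
      rw [ha]
      simp only
      rw [VectorField.lieBracket_eq]
      have hmem : X k x ∈ fibreSpan C x := by
        rw [← hspanx]
        exact Submodule.subset_span ⟨k, rfl⟩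
      simp only [hσx, hσd _ hmem, map_zero, sub_zero, Pi.zero_apply]
    simp only [h2, Finset.sum_const_zero, zero_div]
  · intro i
    filter_upwards [Hbr i, Hall, hl] with y h2 h3 h4
    have h5 := h4 (a y) (σ y) h3
    rw [h2]
    have h6 : ∀ j, a y i j = ((∑ k, a y k k) / r) * oneM r i j + l y (σ y) i j := by
      intro j
      have h7 := congrFun (congrFun h5 i) j
      simpa only [Pi.add_apply, Pi.smul_apply, smul_eq_mul] using h7
    have h8 : ∑ j, (((∑ k, a y k k) / r) * oneM r i j) • X j y = ((∑ k, a y k k) / r) • X i y := by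
      rw [Finset.sum_eq_single i]
      · rw [oneM, if_pos rfl, mul_one]
      · intro j _ hj
        rw [oneM, if_neg (Ne.symm hj), mul_zero, zero_smul]
      · intro hi
        exact absurd (Finset.mem_univ i) hi
    calc ∑ j, a y i j • X j y
        = ∑ j, ((((∑ k, a y k k) / r) * oneM r i j) • X j y + l y (σ y) i j • X j y) := by
          refine Finset.sum_congr rfl fun j _ => ?_
          rw [← add_smul, ← h6 j]
      _ = ((∑ k, a y k k) / r) • X i y + ∑ j, l y (σ y) i j • X j y := by
          rw [Finset.sum_add_distrib, h8]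

end Pool.Agent.RIG
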