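import Pool.Agent.RIG.B5
import Pool.Agent.RIG.F2
import Pool.Agent.RIG.F3
import Pool.Agent.RIG.F4
import Pool.Agent.RIG.G8

/-!
[RIG-F5] The rigidity theorem.
-/

namespace Pool.Agent.RIG

open Filter Topology Asymptotics Pool.Agent.MP_d19687_ag

variable {T : Type*} [NormedAddCommGroup T] [NormedSpace ℂ T] [FiniteDimensional ℂ T]

/-- Proof.  Put `r = finrank D_x`.  `exists_connection` gives `X`, `l` and, for `σ`, `lam`;
`Preserves` gives `σ` analytic.
For `ξ : T →L[ℂ] ℂ` the germ of `ξ ∘ σ` lies in the ideal `IT hX hl` (`bundle_words`, `pull_mk`,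
`mem_killIdeal`).  `IT` is stable under the `X_k` (`IT_stable`), hence under all constant fields
(`const_stable`), and `IT_ev`; by `eq_zero_of_stable` `ξ ∘ σ = 0` near `x`, for every `ξ`; take the
finitely many coordinate functions of a basis: `σ = 0` near `x`. -/
theorem rigid_symmetry1 {U : Set T} {C : Set (T × T)} (hC : IsConeStructure U C)
    (hbr : IsBracketGenerating U C) {x : T} (hx : x ∈ regularLocus U C)
    (hr : 2 ≤ Module.finrank ℂ (fibreSpan C x)) (hrig : RigidFibre C x)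
    {σ : T → T} (hσ : Preserves C x σ) (hσ0 : σ x = 0)
    (hσ1 : ∀ v ∈ fibreSpan C x, fderiv ℂ σ x v = 0) :
    ∀ᶠ y in 𝓝 x, σ y = 0 := by
  classical
  obtain ⟨X, l, hX, hind, hspan, hl, hconn⟩ :=
    exists_connection hC hx (r := Module.finrank ℂ (fibreSpan C x)) (by omega) rfl hrig
  obtain ⟨lam, hlam, hlam0, hbrk⟩ := hconn σ hσ hσ0 hσ1
  have hσa : AnalyticAt ℂ σ x := hσ.1
  have key : ∀ ξ : T →L[ℂ] ℂ, ∀ᶠ y in 𝓝 x, ξ (σ y) = 0 := by
    intro ξ
    have hξ : AnalyticAt ℂ (fun y => ξ (σ y)) x :=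
      AnalyticAt.fun_comp (f := σ) (ξ.analyticAt _) hσa
    have hmem : mk (fun y => ξ (σ y)) hξ ∈ IT hX hl := by
      change pull x (oneMa _) (mk _ hξ) ∈ killIdeal _ _
      rw [pull_mk, mem_killIdeal]
      intro w
      exact bundle_words hr hX hl hind hσa hlam hσ0 hlam0 hbrk w ξ _
    have hz := eq_zero_of_stable (IT hX hl)
      (fun v => const_stable hbr hx hX hind hspan (IT hX hl) (IT_stable hX hl) v)
      (fun a ha => IT_ev hX hl a ha) _ hmem
    rw [mk_zero, mk_eq_mk] at hz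
    exact hz
  let b := Module.finBasis ℂ T
  have hall : ∀ᶠ y in 𝓝 x, ∀ i, (b.coord i).toContinuousLinearMap (σ y) = 0 :=
    eventually_all.2 fun i => key _
  filter_upwards [hall] with y hy
  apply b.ext_elem
  intro i
  have h4 := hy i
  rw [map_zero, Finsupp.zero_apply]
  exact h4

/-- The case of a symmetry vanishing to order at least two. -/
theorem rigid_symmetry {U : Set T} {C : Set (T × T)} (hC : IsConeStructure U C)
    (hbr : IsBracketGenerating U C) {x : T} (hx : x ∈ regularLocus U C)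
    (hr : 2 ≤ Module.finrank ℂ (fibreSpan C x)) (hrig : RigidFibre C x)
    {σ : T → T} (hσ : Preserves C x σ) (h2 : σ =O[𝓝 x] fun y => ‖y - x‖ ^ 2) :
    ∀ᶠ y in 𝓝 x, σ y = 0 := by
  have hσd : fderiv ℂ σ x = 0 := (h2.hasFDerivAt (by norm_num)).fderiv
  refine rigid_symmetry1 hC hbr hx hr hrig hσ ?_ fun v _ => ?_
  · have h3 := h2.eq_zero_imp.self_of_nhds
    exact h3 (by simp)
  · rw [hσd]
    rfl

end Pool.Agent.RIG
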