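import Pool.Agent.RIG.Alg

/-!
RIG (MP_d19687_ag): the data of the linear algebra lemma in flat coordinates.
-/

namespace Pool.Agent.RIG

open PowerSeries

/-- Data and hypotheses of the linear algebra lemma in flat coordinates. -/
structure Flat (K : Type*) [Field K] (ι A : Type*) [Fintype ι] [Fintype A] (r : ℕ) where
  i0 : Fin r
  x : ι → K
  v : Fin r → ι → K⟦X⟧
  u : A → ι → K⟦X⟧
  Q : ι → ι → K⟦X⟧
  th : A → ι → K⟦X⟧
  mu : ι → K⟦X⟧
  s : K⟦X⟧
  vt : Fin r → A → K⟦X⟧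
  g : A → Fin r → K⟦X⟧
  hx : ∀ b, v i0 b = C (x b)
  hQ' : ∀ b c, d⁄dX K (Q b c) = -(C (x b) * mu c) - ∑ a, u a b * ∑ d, th a d * Q d c
  hth : ∀ a, ∑ d, th a d * C (x d) = 0
  hQv : ∀ j b, ∑ c, Q b c * v j c =
    s * d⁄dX K (v j b) + d⁄dX K s * v j b - s * ∑ a, vt j a * u a b
  hvt : ∀ a, vt i0 a = 0
  hQu : ∀ a b, ∑ c, Q b c * u a c = s * d⁄dX K (u a b)
  hu : ∀ a b, d⁄dX K (u a b) = ∑ j, g a j * v j b
  s0 : coeff 0 s = 0
  s1 : coeff 1 s = 0

namespace Flat

variable {K : Type*} [Field K] {ι A : Type*} [Fintype ι] [Fintype A] {r : ℕ}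
  (L : Flat K ι A r)

/-- `m`-th coefficient vector of `v j`. -/
noncomputable def vc (j : Fin r) (m : ℕ) : ι → K := fun b => coeff m (L.v j b)

/-- `m`-th coefficient vector of `u a`. -/
noncomputable def uc (a : A) (m : ℕ) : ι → K := fun b => coeff m (L.u a b)

/-- `i`-th coefficient of `Q`, as a linear map. -/
noncomputable def Qc (i : ℕ) : (ι → K) →ₗ[K] (ι → K) where
  toFun w := fun b => ∑ c, coeff i (L.Q b c) * w c
  map_add' w w' := by
    funext b
    simp [mul_add, Finset.sum_add_distrib]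
  map_smul' t w := by
    funext b
    simp only [Pi.smul_apply, smul_eq_mul, RingHom.id_apply, Finset.mul_sum]
    exact Finset.sum_congr rfl fun c _ => by ring

theorem Qc_apply (i : ℕ) (w : ι → K) (b : ι) :
    L.Qc i w b = ∑ c, coeff i (L.Q b c) * w c := rfl

/-- The filtration `F m = span (x, u_a(0), c_p(v_j) : p < m)`. -/
noncomputable def F (m : ℕ) : Submodule K (ι → K) :=
  Submodule.span K ({L.x} ∪ Set.range (fun a => L.uc a 0) ∪
    {w | ∃ (j : Fin r) (p : ℕ), p < m ∧ w = L.vc j p})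

end Flat

end Pool.Agent.RIG
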