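import Pool.Agent.RIG.Geo
import Pool.Agent.RIG.G0

/-!
[RIG-G1] Elementary properties of charts.
-/

namespace Pool.Agent.RIG

open Filter Topology Asymptotics Pool.Agent.MP_d19687_ag

variable {T : Type*} [NormedAddCommGroup T] [NormedSpace ℂ T] [FiniteDimensional ℂ T]

/-- `y ↦ φ (y, 0)` is analytic at `x` (composition with `y ↦ (y, 0)`). -/
theorem IsChart.sec_an {C : Set (T × T)} {x v : T} {d : ℕ} {φ : T × (Fin d → ℂ) → T}
    (h : IsChart C x v d φ) : AnalyticAt ℂ (fun y => φ (y, 0)) x := by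
  have h1 : AnalyticAt ℂ (fun y : T => (y, (0 : Fin d → ℂ))) x :=
    analyticAt_id.prod analyticAt_const
  exact AnalyticAt.comp (g := φ) (f := fun y : T => (y, (0 : Fin d → ℂ))) h.an h1

/-- `AnalyticAt.fderiv`, composition with `y ↦ (y, 0)` and with the fixed linear map
`L ↦ L.comp inr`. -/
theorem IsChart.vert_an {C : Set (T × T)} {x v : T} {d : ℕ} {φ : T × (Fin d → ℂ) → T}
    (h : IsChart C x v d φ) : AnalyticAt ℂ (vert φ) x := by
  have : CompleteSpace T := FiniteDimensional.complete ℂ T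
  have h1 : AnalyticAt ℂ (fun y : T => (y, (0 : Fin d → ℂ))) x :=
    analyticAt_id.prod analyticAt_const
  have h2 : AnalyticAt ℂ (fderiv ℂ φ) (x, (0 : Fin d → ℂ)) := h.an.fderiv
  have h3 : AnalyticAt ℂ (fun y : T => fderiv ℂ φ (y, (0 : Fin d → ℂ))) x :=
    AnalyticAt.comp (g := fderiv ℂ φ) (f := fun y : T => (y, (0 : Fin d → ℂ))) h2 h1
  let L : ((T × (Fin d → ℂ)) →L[ℂ] T) →L[ℂ] ((Fin d → ℂ) →L[ℂ] T) :=
    (ContinuousLinearMap.compL ℂ (Fin d → ℂ) (T × (Fin d → ℂ)) T).flip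
      (ContinuousLinearMap.inr ℂ T (Fin d → ℂ))
  exact AnalyticAt.comp (g := L) (f := fun y : T => fderiv ℂ φ (y, (0 : Fin d → ℂ)))
    (L.analyticAt _) h3

/-- Chain rule: `vert φ x = fderiv ℂ (fun s => φ (x, s)) 0`. -/
theorem IsChart.vert_inj {C : Set (T × T)} {x v : T} {d : ℕ} {φ : T × (Fin d → ℂ) → T}
    (h : IsChart C x v d φ) : Function.Injective (vert φ x) := by
  have : CompleteSpace T := FiniteDimensional.complete ℂ T
  have h1 : HasFDerivAt φ (fderiv ℂ φ (x, (0 : Fin d → ℂ))) (x, (0 : Fin d → ℂ)) :=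
    h.an.differentiableAt.hasFDerivAt
  have h2 : HasFDerivAt (fun s : Fin d → ℂ => (x, s)) (ContinuousLinearMap.inr ℂ T (Fin d → ℂ)) 0 :=
    hasFDerivAt_prodMk_right x 0
  have h3 : HasFDerivAt (fun s : Fin d → ℂ => φ (x, s)) (vert φ x) 0 :=
    HasFDerivAt.comp (g := φ) (f := fun s : Fin d → ℂ => (x, s)) (0 : Fin d → ℂ) h1 h2
  have h4 := h.inj
  rw [h3.fderiv] at h4
  exact h4

/-- `φ (y, 0) ∈ D_y`, since `(y, φ (y, 0)) ∈ C`. -/
theorem IsChart.sec_mem {C : Set (T × T)} {x v : T} {d : ℕ} {φ : T × (Fin d → ℂ) → T}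
    (h : IsChart C x v d φ) : ∀ᶠ y in 𝓝 x, φ (y, 0) ∈ fibreSpan C y := by
  have h1 : Tendsto (fun y : T => (y, (0 : Fin d → ℂ))) (𝓝 x) (𝓝 (x, (0 : Fin d → ℂ))) := by
    have h2 : Continuous (fun y : T => (y, (0 : Fin d → ℂ))) := by fun_prop
    exact h2.tendsto x
  filter_upwards [h1.eventually h.mem] with y hy
  exact Submodule.subset_span hy

/-- For `y` near `x`, `φ (y, s) ∈ D_y` for `s` near `0` (`Filter.Eventually.curry`), and
`vert φ y ς` is the limit of `t⁻¹ (φ (y, t ς) - φ (y, 0))`, an element of the closed subspace `D_y`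
(`Submodule.closed_of_finiteDimensional`).  Use that `φ` is differentiable at `(y, 0)` for `y`
near `x` (`AnalyticAt.eventually_analyticAt`). -/
theorem IsChart.range_vert_le {C : Set (T × T)} {x v : T} {d : ℕ} {φ : T × (Fin d → ℂ) → T}
    (h : IsChart C x v d φ) : ∀ᶠ y in 𝓝 x, ∀ s : Fin d → ℂ, vert φ y s ∈ fibreSpan C y := by
  have : CompleteSpace T := FiniteDimensional.complete ℂ T
  have h1 : Tendsto (fun y : T => (y, (0 : Fin d → ℂ))) (𝓝 x) (𝓝 (x, (0 : Fin d → ℂ))) := by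
    have h2 : Continuous (fun y : T => (y, (0 : Fin d → ℂ))) := by fun_prop
    exact h2.tendsto x
  have hmem : ∀ᶠ y in 𝓝 x, ∀ᶠ s in 𝓝 (0 : Fin d → ℂ), ((y, s).1, φ (y, s)) ∈ C :=
    h.mem.curry_nhds
  filter_upwards [h1.eventually h.an.eventually_analyticAt, hmem] with y hy hm s
  have g1 : HasFDerivAt φ (fderiv ℂ φ (y, (0 : Fin d → ℂ))) (y, (0 : Fin d → ℂ)) :=
    hy.differentiableAt.hasFDerivAt
  have g2 : HasDerivAt (fun t : ℂ => (y, t • s)) ((0 : T), s) 0 := by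
    have g3 : HasDerivAt (fun t : ℂ => t • s) s 0 := by
      simpa using (hasDerivAt_id (0 : ℂ)).smul_const s
    exact (hasDerivAt_const (0 : ℂ) y).prodMk g3
  have g1' : HasFDerivAt φ (fderiv ℂ φ (y, (0 : Fin d → ℂ))) (y, (0 : ℂ) • s) := by
    simpa using g1
  have g4 : HasDerivAt (fun t : ℂ => φ (y, t • s)) (vert φ y s) 0 :=
    HasFDerivAt.comp_hasDerivAt (l := φ) (f := fun t : ℂ => (y, t • s)) (0 : ℂ) g1' g2
  have g5 := hasDerivAt_iff_tendsto_slope.mp g4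
  have hcl : IsClosed ((fibreSpan C y : Submodule ℂ T) : Set T) :=
    Submodule.closed_of_finiteDimensional _
  have hts : Tendsto (fun t : ℂ => t • s) (𝓝 (0 : ℂ)) (𝓝 (0 : Fin d → ℂ)) := by
    have h2 : Continuous (fun t : ℂ => t • s) := by fun_prop
    simpa using h2.tendsto (0 : ℂ)
  have h0 : φ (y, (0 : ℂ) • s) ∈ fibreSpan C y := by
    have h00 : (y, φ (y, (0 : Fin d → ℂ))) ∈ C := hm.self_of_nhds
    rw [zero_smul]
    exact Submodule.subset_span h00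
  refine hcl.mem_of_tendsto g5 ?_
  have hev : ∀ᶠ t in 𝓝[≠] (0 : ℂ), (y, φ (y, t • s)) ∈ C :=
    (hts.eventually hm).filter_mono nhdsWithin_le_nhds
  filter_upwards [hev] with t ht
  rw [slope_def_module]
  exact Submodule.smul_mem _ _ (Submodule.sub_mem _ (Submodule.subset_span ht) h0)

/-- Uniform immersion bound: for some `c > 0` and `S ∈ 𝓝 (x, 0)`, `c ‖s - s'‖ ≤ ‖φ (y, s) - φ (y, s')‖`
for all `(y, s), (y, s') ∈ S`.  Proof: `φ` has strict derivative `φ'` at `(x, 0)`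
(`AnalyticAt.hasStrictFDerivAt`), so for every `ε > 0`, near `(x, 0)`:
`‖φ (y, s) - φ (y, s') - φ' (0, s - s')‖ ≤ ε ‖s - s'‖`; and `‖φ' (0, ς)‖ ≥ 2 c ‖ς‖` for some `c > 0`
since `ς ↦ φ' (0, ς)` is injective on a finite-dimensional space
(`LinearMap.exists_antilipschitzWith` or `vert_inj`); take `ε = c`. -/
theorem IsChart.immersion_bound {C : Set (T × T)} {x v : T} {d : ℕ} {φ : T × (Fin d → ℂ) → T}
    (h : IsChart C x v d φ) : ∃ c > 0, ∃ S ∈ 𝓝 (x, (0 : Fin d → ℂ)),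
      ∀ (y : T) (s s' : Fin d → ℂ), (y, s) ∈ S → (y, s') ∈ S →
        c * ‖s - s'‖ ≤ ‖φ (y, s) - φ (y, s')‖ := by
  have : CompleteSpace T := FiniteDimensional.complete ℂ T
  have hs : HasStrictFDerivAt φ (fderiv ℂ φ (x, (0 : Fin d → ℂ))) (x, (0 : Fin d → ℂ)) :=
    h.an.hasStrictFDerivAt
  obtain ⟨K, hK, hanti⟩ := LinearMap.exists_antilipschitzWith
    ((vert φ x : (Fin d → ℂ) →L[ℂ] T) : (Fin d → ℂ) →ₗ[ℂ] T)
    (LinearMap.ker_eq_bot.mpr h.vert_inj)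
  have hKr : (0 : ℝ) < K := by exact_mod_cast hK
  have hlow : ∀ u : Fin d → ℂ, (K : ℝ)⁻¹ * ‖u‖ ≤ ‖fderiv ℂ φ (x, (0 : Fin d → ℂ)) (0, u)‖ := by
    intro u
    have h1 : ‖u‖ ≤ K * ‖vert φ x u‖ := by
      have := hanti.le_mul_dist u 0
      simpa [dist_eq_norm] using this
    rw [inv_mul_le_iff₀ hKr]
    exact h1
  have hc : (0 : ℝ) < (K : ℝ)⁻¹ / 2 := by positivity
  obtain ⟨S, hS, hap⟩ := hs.approximates_deriv_on_nhds
    (c := K⁻¹ / 2) (Or.inr (by positivity))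
  refine ⟨(K : ℝ)⁻¹ / 2, hc, S, hS, ?_⟩
  intro y s s' h1 h2
  have h3 := hap _ h1 _ h2
  have h4 : ((y, s) : T × (Fin d → ℂ)) - (y, s') = (0, s - s') := by simp
  rw [h4] at h3
  have h5 : ‖((0 : T), s - s')‖ = ‖s - s'‖ := by simp [Prod.norm_def]
  rw [h5] at h3
  have h6 := hlow (s - s')
  have h7 : ‖fderiv ℂ φ (x, (0 : Fin d → ℂ)) (0, s - s')‖ ≤
      ‖φ (y, s) - φ (y, s') - fderiv ℂ φ (x, (0 : Fin d → ℂ)) (0, s - s')‖ +
        ‖φ (y, s) - φ (y, s')‖ := by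
    have := norm_sub_le (φ (y, s) - φ (y, s'))
      (φ (y, s) - φ (y, s') - fderiv ℂ φ (x, (0 : Fin d → ℂ)) (0, s - s'))
    have h8 : φ (y, s) - φ (y, s') -
        (φ (y, s) - φ (y, s') - fderiv ℂ φ (x, (0 : Fin d → ℂ)) (0, s - s')) =
        fderiv ℂ φ (x, (0 : Fin d → ℂ)) (0, s - s') := by abel
    rw [h8] at this
    linarith
  have h9 : ((K⁻¹ / 2 : NNReal) : ℝ) = (K : ℝ)⁻¹ / 2 := by push_cast; rfl
  rw [h9] at h3
  nlinarith [norm_nonneg (s - s')]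

end Pool.Agent.RIG
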