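import Pool.Agent.RIG.G1

/-!
[RIG-G2] The tangent lemma: tangent vectors of `C` at points of a chart are in the range of the
derivative of the chart.
-/

namespace Pool.Agent.RIG

open Filter Topology Asymptotics Pool.Agent.MP_d19687_ag

variable {T : Type*} [NormedAddCommGroup T] [NormedSpace ℂ T] [FiniteDimensional ℂ T]

/-- Proof.  Let `c`, `S` be as in `immersion_bound` (shrink `S`, it is enough to have a neighbourhood).
By `h.onto S` there is an open set `O ∋ (x, v)` of `T × T` with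
`∀ q ∈ O ∩ C, ∃ a ∈ S, q = (a.1, φ a)`.  For `y` near `x`: `(y, φ (y, 0)) ∈ O` (continuity of
`y ↦ (y, φ (y, 0))` at `x`), `(y, 0) ∈ S`, even `(y', 0) ∈ S` for `y'` near `y` (take `y` in an open
set on which `(·, 0) ∈ S`), `φ` is analytic at `(y, 0)`.  Fix such a `y` and let `γ` be a curve as in
`IsTangent`: analytic at `0`, `γ 0 = (y, φ (y, 0))`, `γ' 0 = (η, ω)`, `γ t ∈ C` for `t` near `0`.
Then `γ t ∈ O ∩ C` for `t` near `0`, so `γ t = (a.1, φ a)` with `a = ((γ t).1, s t) ∈ S`; and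
`c ‖s t‖ ≤ ‖φ ((γ t).1, s t) - φ ((γ t).1, 0)‖ = ‖(γ t).2 - φ ((γ t).1, 0)‖ = O(|t|)` since
`t ↦ (γ t).2 - φ ((γ t).1, 0)` is differentiable at `0` with value `0` at `0`.  So
`‖t⁻¹ • s t‖` is bounded for `t ≠ 0` near `0`; by compactness of closed balls of `Fin d → ℂ` there are
`t_n → 0`, `t_n ≠ 0`, with `t_n⁻¹ • s t_n → ς`.  Since `φ` is differentiable at `(y, 0)` and
`(γ t).1 - y, s t` are `O(t)`,
`(γ t).2 - φ (y, 0) = φ' ((γ t).1 - y, s t) + o(t)`; divide by `t_n`: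
`ω = φ' (η, ς)`. -/
theorem IsChart.tangent {C : Set (T × T)} {x v : T} {d : ℕ} {φ : T × (Fin d → ℂ) → T}
    (h : IsChart C x v d φ) :
    ∀ᶠ y in 𝓝 x, ∀ η ω : T, IsTangent C (y, φ (y, 0)) (η, ω) →
      ∃ s : Fin d → ℂ, ω = fderiv ℂ φ (y, 0) (η, s) := by
  obtain ⟨c, hc, S, hS, himm⟩ := h.immersion_bound
  have hcy : Tendsto (fun y : T => (y, φ (y, 0))) (𝓝 x) (𝓝 (x, v)) := by
    have h0 := h.sec_an.continuousAt.tendsto
    rw [h.map0] at h0
    exact tendsto_id.prodMk_nhds h0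
  have hc0 : Tendsto (fun y : T => (y, (0 : Fin d → ℂ))) (𝓝 x) (𝓝 (x, 0)) :=
    tendsto_id.prodMk_nhds tendsto_const_nhds
  have e1 : ∀ᶠ y in 𝓝 x, ∀ᶠ q in 𝓝 (y, φ (y, 0)), q ∈ C → ∃ a ∈ S, q = (a.1, φ a) :=
    hcy.eventually (eventually_eventually_nhds.2 (eventually_nhdsWithin_iff.1 (h.onto S hS)))
  have e2 : ∀ᶠ y in 𝓝 x, ∀ᶠ y' in 𝓝 y, (y', (0 : Fin d → ℂ)) ∈ S :=
    eventually_eventually_nhds.2 (hc0.eventually hS)
  have e3 : ∀ᶠ y in 𝓝 x, AnalyticAt ℂ φ (y, 0) := hc0.eventually h.an.eventually_analyticAt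
  filter_upwards [e1, e2, e3] with y h1 h2 h3
  rintro η ω ⟨γ, hγan, hγ0, hγd, hγC⟩
  have hγ : HasDerivAt γ (η, ω) 0 := by
    rw [← hγd]
    exact hγan.differentiableAt.hasDerivAt
  have hg1 : HasDerivAt (fun t => (γ t).1) η 0 :=
    (ContinuousLinearMap.fst ℂ T T).hasFDerivAt.comp_hasDerivAt 0 hγ
  have hg2 : HasDerivAt (fun t => (γ t).2) ω 0 :=
    (ContinuousLinearMap.snd ℂ T T).hasFDerivAt.comp_hasDerivAt 0 hγ
  have hγ10 : (γ 0).1 = y := by rw [hγ0]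
  have hγ20 : (γ 0).2 = φ (y, 0) := by rw [hγ0]
  have hex : ∀ᶠ t in 𝓝 (0 : ℂ), ∃ s : Fin d → ℂ,
      ((γ t).1, s) ∈ S ∧ (γ t).2 = φ ((γ t).1, s) := by
    have hcont : Tendsto γ (𝓝 0) (𝓝 (y, φ (y, 0))) := by
      rw [← hγ0]
      exact hγan.continuousAt.tendsto
    filter_upwards [hcont.eventually h1, hγC] with t ht htC
    obtain ⟨a, haS, ha⟩ := ht htC
    refine ⟨a.2, ?_, ?_⟩
    · rw [ha]
      exact haS
    · rw [ha]
  obtain ⟨s, hs⟩ := hex.choice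
  -- the vertical part is `O(t)`
  have hφd : HasFDerivAt φ (fderiv ℂ φ (y, 0)) (y, 0) := h3.differentiableAt.hasFDerivAt
  have hc1 : Tendsto (fun t => (γ t).1) (𝓝 (0 : ℂ)) (𝓝 y) := by
    have := hg1.continuousAt.tendsto
    rwa [hγ10] at this
  have hψ : ∃ ψ' : T, HasDerivAt (fun t => (γ t).2 - φ ((γ t).1, 0)) ψ' 0 := by
    have hin : HasDerivAt (fun t => ((γ t).1, (0 : Fin d → ℂ))) (η, 0) 0 :=
      hg1.prodMk (hasDerivAt_const _ _)
    have hφd' : HasFDerivAt φ (fderiv ℂ φ (y, 0)) ((γ 0).1, (0 : Fin d → ℂ)) := by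
      rw [hγ10]; exact hφd
    exact ⟨_, hg2.sub (hφd'.comp_hasDerivAt 0 hin)⟩
  obtain ⟨ψ', hψ'⟩ := hψ
  have hψO : (fun t => (γ t).2 - φ ((γ t).1, 0)) =O[𝓝 (0 : ℂ)] fun t => t := by
    have h4 := hψ'.hasFDerivAt.isBigO_sub
    have h5 : (γ 0).2 - φ ((γ 0).1, 0) = 0 := by rw [hγ10, hγ20, sub_self]
    simpa only [h5, sub_zero] using h4
  have hsO : s =O[𝓝 (0 : ℂ)] fun t => t := by
    refine IsBigO.trans ?_ hψO
    refine IsBigO.of_bound c⁻¹ ?_
    filter_upwards [hs, hc1.eventually h2] with t ht ht2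
    have h6 := himm (γ t).1 (s t) 0 ht.1 ht2
    rw [sub_zero, ← ht.2] at h6
    rw [inv_mul_eq_div, le_div_iff₀ hc, mul_comm]
    exact h6
  have hs0 : Tendsto s (𝓝 0) (𝓝 0) := by
    have h7 : Tendsto (fun t : ℂ => t) (𝓝 0) (𝓝 0) := tendsto_id
    exact hsO.trans_tendsto h7
  have hq : Tendsto (fun t => ((γ t).1, s t)) (𝓝 (0 : ℂ)) (𝓝 (y, (0 : Fin d → ℂ))) :=
    hc1.prodMk_nhds hs0
  have hg1O : (fun t => (γ t).1 - y) =O[𝓝 (0 : ℂ)] fun t => t := by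
    have h4 := hg1.hasFDerivAt.isBigO_sub
    simpa only [hγ10, sub_zero] using h4
  have hqO : (fun t => (((γ t).1, s t) : T × (Fin d → ℂ)) - (y, 0)) =O[𝓝 (0 : ℂ)]
      fun t => t := by
    have h8 : (fun t => (((γ t).1, s t) : T × (Fin d → ℂ)) - (y, 0)) =
        fun t => ((γ t).1 - y, s t) := by
      funext t
      simp
    rw [h8]
    exact hg1O.prod_left hsO
  -- three error terms
  have b1 : (fun t => φ ((γ t).1, s t) - φ (y, 0) -
      fderiv ℂ φ (y, 0) (((γ t).1, s t) - (y, 0))) =o[𝓝 (0 : ℂ)] fun t => t :=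
    (((hasFDerivAt_iff_isLittleO.1 hφd).comp_tendsto hq)).trans_isBigO hqO
  have b2 : (fun t => (γ t).2 - φ (y, 0) - t • ω) =o[𝓝 (0 : ℂ)] fun t => t := by
    have h9 := hasDerivAt_iff_isLittleO.1 hg2
    simpa only [hγ20, sub_zero] using h9
  have b3 : (fun t => (γ t).1 - y - t • η) =o[𝓝 (0 : ℂ)] fun t => t := by
    have h9 := hasDerivAt_iff_isLittleO.1 hg1
    simpa only [hγ10, sub_zero] using h9
  have b3' : (fun t => fderiv ℂ φ (y, 0) ((γ t).1 - y - t • η, 0)) =o[𝓝 (0 : ℂ)]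
      fun t => t := by
    have h10 : (fun t => fderiv ℂ φ (y, 0) ((γ t).1 - y - t • η, 0)) =
        fun t => ((fderiv ℂ φ (y, 0)).comp (ContinuousLinearMap.inl ℂ T (Fin d → ℂ)))
          ((γ t).1 - y - t • η) := by
      funext t
      simp
    rw [h10]
    exact (ContinuousLinearMap.isBigO_comp _ _ _).trans_isLittleO b3
  have hE : (fun t => vert φ y (s t) - t • (ω - fderiv ℂ φ (y, 0) (η, 0))) =o[𝓝 (0 : ℂ)]
      fun t => t := by
    refine ((b2.sub b1).sub b3').congr' ?_ EventuallyEq.rfl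
    filter_upwards [hs] with t ht
    rw [← ht.2, vert_apply]
    have h11 : (((γ t).1, s t) : T × (Fin d → ℂ)) - (y, 0) =
        (((γ t).1 - y - t • η, 0) + t • (η, 0)) + (0, s t) := by
      ext i <;> simp
    rw [h11, map_add, map_add, map_smul, smul_sub]
    abel
  have hlim : Tendsto (fun t : ℂ => t⁻¹ • vert φ y (s t)) (𝓝[≠] 0)
      (𝓝 (ω - fderiv ℂ φ (y, 0) (η, 0))) := by
    have h12 : Tendsto (fun t : ℂ => t⁻¹ • (vert φ y (s t) -
        t • (ω - fderiv ℂ φ (y, 0) (η, 0)))) (𝓝[≠] 0) (𝓝 0) := by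
      have h13 := (isLittleO_iff_tendsto' (f := fun t : ℂ => ‖vert φ y (s t) -
        t • (ω - fderiv ℂ φ (y, 0) (η, 0))‖) (g := fun t : ℂ => ‖t‖) (l := 𝓝[≠] (0 : ℂ))
        (by
          filter_upwards [self_mem_nhdsWithin] with t ht h0
          exact absurd (norm_eq_zero.1 h0) ht)).1
        ((hE.mono nhdsWithin_le_nhds).norm_norm)
      rw [tendsto_zero_iff_norm_tendsto_zero]
      refine h13.congr fun t => ?_
      rw [norm_smul, norm_inv, inv_mul_eq_div]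
    have h14 := h12.add_const (ω - fderiv ℂ φ (y, 0) (η, 0))
    rw [zero_add] at h14
    refine h14.congr' ?_
    filter_upwards [self_mem_nhdsWithin] with t ht
    have ht0 : t ≠ 0 := ht
    rw [smul_sub, smul_smul, inv_mul_cancel₀ ht0, one_smul, sub_add_cancel]
  have hcl : IsClosed ((LinearMap.range (vert φ y).toLinearMap : Submodule ℂ T) : Set T) :=
    Submodule.closed_of_finiteDimensional _
  have hmem : ω - fderiv ℂ φ (y, 0) (η, 0) ∈ (LinearMap.range (vert φ y).toLinearMap) := by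
    refine hcl.mem_of_tendsto hlim (Eventually.of_forall fun t => ?_)
    refine ⟨t⁻¹ • s t, ?_⟩
    simp
  obtain ⟨w, hw⟩ := hmem
  refine ⟨w, ?_⟩
  have hw' : fderiv ℂ φ (y, 0) (0, w) = ω - fderiv ℂ φ (y, 0) (η, 0) := hw
  have h15 : ((η, w) : T × (Fin d → ℂ)) = (η, 0) + (0, w) := by simp
  rw [h15, map_add, hw']
  abel

end Pool.Agent.RIG
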