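import Pool.Agent.RIG.G2

/-!
[RIG-G3] Consequences of the tangent lemma.
-/

namespace Pool.Agent.RIG

open Filter Topology Asymptotics Pool.Agent.MP_d19687_ag

variable {T : Type*} [NormedAddCommGroup T] [NormedSpace ℂ T] [FiniteDimensional ℂ T]

omit [NormedSpace ℂ T] [FiniteDimensional ℂ T] in
theorem g3_tendsto_sec (x : T) {d : ℕ} :
    Tendsto (fun y : T => (y, (0 : Fin d → ℂ))) (𝓝 x) (𝓝 (x, 0)) :=
  (continuous_id.prodMk continuous_const).tendsto x

/-- The point `(y, φ (y, 0))` of a chart is in `C` for `y` near `x`. -/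
theorem IsChart.g3_sec_mem_cone {C : Set (T × T)} {x v : T} {d : ℕ} {φ : T × (Fin d → ℂ) → T}
    (h : IsChart C x v d φ) : ∀ᶠ y in 𝓝 x, (y, φ (y, 0)) ∈ C :=
  (g3_tendsto_sec x).eventually h.mem

/-- The curve `t ↦ (y, (1 + t) • φ (y, 0))` lies in `C` for `t` near `0` (`smul_mem`), its velocity
at `0` is `(0, φ (y, 0))`; apply `IsChart.tangent`. -/
theorem IsChart.vert_self {U : Set T} {C : Set (T × T)} (hC : IsConeStructure U C) {x v : T}
    {d : ℕ} {φ : T × (Fin d → ℂ) → T} (h : IsChart C x v d φ) :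
    ∀ᶠ y in 𝓝 x, ∃ s : Fin d → ℂ, φ (y, 0) = vert φ y s := by
  filter_upwards [h.tangent, h.g3_sec_mem_cone] with y ht hm
  suffices hT : IsTangent C (y, φ (y, 0)) (0, φ (y, 0)) by
    obtain ⟨s, hs⟩ := ht 0 (φ (y, 0)) hT
    exact ⟨s, hs⟩
  · have hd : HasDerivAt (fun t : ℂ => (1 + t) • φ (y, 0)) (φ (y, 0)) 0 := by
      have := ((hasDerivAt_id (0 : ℂ)).const_add 1).smul_const (φ (y, 0))
      simpa using this
    refine ⟨fun t => (y, (1 + t) • φ (y, 0)), ?_, by simp, ?_, ?_⟩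
    · fun_prop
    · exact ((hasDerivAt_const (0 : ℂ) y).prodMk hd).deriv
    · have hc : Tendsto (fun t : ℂ => 1 + t) (𝓝 0) (𝓝 (1 + 0)) :=
        (continuous_const.add continuous_id).tendsto 0
      have h1 : ∀ᶠ t in 𝓝 (0 : ℂ), 1 + t ≠ 0 := hc.eventually_ne (by simp)
      filter_upwards [h1] with t ht1
      exact hC.smul_mem (y, φ (y, 0)) hm (1 + t) ht1

/-- For `y` near `x`, `(y, φ (y, 0)) ∈ C`, so by `Preserves` and `IsChart.tangent`
`dσ_y (φ (y, 0)) = φ' (σ y, s)` for some `s`, `φ' = fderiv ℂ φ (y, 0)`; the derivative of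
`X y = φ (y, 0)` in the direction `σ y` is `φ' (σ y, 0)`; so
`lieBracket σ X y = dX_y (σ y) - dσ_y (X y) = - φ' (0, s) = vert φ y (-s)`.
(`VectorField.lieBracket_eq`: `lieBracket 𝕜 V W x = fderiv 𝕜 W x (V x) - fderiv 𝕜 V x (W x)`.) -/
theorem IsChart.lieBracket_mem {C : Set (T × T)} {x v : T} {d : ℕ}
    {φ : T × (Fin d → ℂ) → T} (h : IsChart C x v d φ) {σ : T → T} (hσ : Preserves C x σ) :
    ∀ᶠ y in 𝓝 x, ∃ s : Fin d → ℂ,
      VectorField.lieBracket ℂ σ (fun y => φ (y, 0)) y = vert φ y s := by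
  have hφ : ∀ᶠ y in 𝓝 x, AnalyticAt ℂ φ (y, 0) :=
    (g3_tendsto_sec x).eventually h.an.eventually_analyticAt
  filter_upwards [h.tangent, h.g3_sec_mem_cone, hσ.2, hφ] with y ht hm hp hφy
  obtain ⟨s, hs⟩ := ht _ _ (hp _ hm)
  refine ⟨-s, ?_⟩
  have hd : HasFDerivAt (fun y : T => φ (y, 0))
      ((fderiv ℂ φ (y, 0)).comp ((ContinuousLinearMap.id ℂ T).prod (0 : T →L[ℂ] (Fin d → ℂ)))) y := by
    have h1 : HasFDerivAt φ (fderiv ℂ φ (y, 0)) (y, (0 : Fin d → ℂ)) :=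
      hφy.differentiableAt.hasFDerivAt
    have h2 : HasFDerivAt (fun y : T => (y, (0 : Fin d → ℂ)))
        ((ContinuousLinearMap.id ℂ T).prod (0 : T →L[ℂ] (Fin d → ℂ))) y :=
      (hasFDerivAt_id y).prodMk (hasFDerivAt_const _ _)
    exact h1.comp y h2
  rw [VectorField.lieBracket_eq]
  simp only []
  rw [hd.fderiv, vert_apply]
  simp only [ContinuousLinearMap.comp_apply, ContinuousLinearMap.prod_apply,
    ContinuousLinearMap.id_apply, ContinuousLinearMap.zero_apply]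
  rw [hs, ← map_sub]
  congr 1
  simp

/-- The curve `t ↦ φ (x, t • s)`. -/
theorem IsChart.isTangent_fibre {C : Set (T × T)} {x v : T} {d : ℕ}
    {φ : T × (Fin d → ℂ) → T} (h : IsChart C x v d φ) (s : Fin d → ℂ) :
    IsTangent {w : T | (x, w) ∈ C} v (vert φ x s) := by
  have hz : (x, (0 : ℂ) • s) = (x, (0 : Fin d → ℂ)) := by simp
  have hcur : HasDerivAt (fun t : ℂ => (x, t • s)) ((0 : T), s) 0 := by
    have := (hasDerivAt_const (0 : ℂ) x).prodMk ((hasDerivAt_id (0 : ℂ)).smul_const s)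
    simpa using this
  refine ⟨fun t => φ (x, t • s), ?_, ?_, ?_, ?_⟩
  · have h1 : AnalyticAt ℂ φ ((fun t : ℂ => (x, t • s)) 0) := by
      simp only [hz]; exact h.an
    have h2 : AnalyticAt ℂ (fun t : ℂ => (x, t • s)) 0 := by fun_prop
    exact AnalyticAt.fun_comp h1 h2
  · simp only [hz]; exact h.map0
  · have h1 : HasFDerivAt φ (fderiv ℂ φ (x, 0)) ((fun t : ℂ => (x, t • s)) 0) := by
      simp only [hz]; exact h.an.differentiableAt.hasFDerivAt
    exact (h1.comp_hasDerivAt 0 hcur).deriv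
  · have hc : Tendsto (fun t : ℂ => (x, t • s)) (𝓝 0) (𝓝 (x, 0)) := by
      have := hcur.continuousAt.tendsto
      simp only [hz] at this
      exact this
    exact hc.eventually h.mem

end Pool.Agent.RIG
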