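import Pool.Agent.RIG.G1

/-!
[RIG-G4] A frame of the distribution near a regular point, consisting of chart sections.
-/

namespace Pool.Agent.RIG

open Filter Topology Asymptotics Pool.Agent.MP_d19687_ag

variable {T : Type*} [NormedAddCommGroup T] [NormedSpace ℂ T] [FiniteDimensional ℂ T]

/-- Proof.  `C_x = {v | (x, v) ∈ C}` spans `D_x`, so there are `v : Fin r → T`, linearly
independent, `v i ∈ C_x` with span `D_x` (`exists_linearIndependent` / `Submodule.exists_fun_fin_finrank_span_eq`
or similar).  Take charts at the `(x, v i)` (`exists_chart`).  For `y` near `x`, the `φ i (y, 0)` lie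
in `D_y` (`sec_mem`), are independent (`frame_indep_eventually` with `sec_an`) and
`finrank D_y = finrank D_x = r`, so they span `D_y` (`Submodule.eq_of_le_of_finrank_eq`,
`finrank_span_eq_card`). -/
theorem exists_frame {U : Set T} {C : Set (T × T)} (hC : IsConeStructure U C) {x : T}
    (hx : x ∈ regularLocus U C) {r : ℕ} (hr : Module.finrank ℂ (fibreSpan C x) = r) :
    ∃ (v : Fin r → T) (d : Fin r → ℕ) (φ : ∀ i, T × (Fin (d i) → ℂ) → T),
      (∀ i, IsChart C x (v i) (d i) (φ i)) ∧ LinearIndependent ℂ v ∧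
      ∀ᶠ y in 𝓝 x, Submodule.span ℂ (Set.range fun i => φ i (y, 0)) = fibreSpan C y := by
  subst hr
  obtain ⟨v, hvmem, hvspan, hvind⟩ :=
    Submodule.exists_fun_fin_finrank_span_eq ℂ {v : T | (x, v) ∈ C}
  change Fin (Module.finrank ℂ (fibreSpan C x)) → T at v
  have hchart : ∀ i, ∃ (d : ℕ) (φ : T × (Fin d → ℂ) → T), IsChart C x (v i) d φ :=
    fun i => exists_chart hC (hvmem i)
  choose d φ hφ using hchart
  refine ⟨v, d, φ, hφ, hvind, ?_⟩
  have hind : ∀ᶠ y in 𝓝 x, LinearIndependent ℂ (fun i => φ i (y, 0)) := by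
    refine frame_indep_eventually (fun i y => φ i (y, 0)) x (fun i => (hφ i).sec_an) ?_
    have h1 : (fun i => φ i (x, 0)) = v := funext fun i => (hφ i).map0
    rw [h1]
    exact hvind
  have hmem : ∀ᶠ y in 𝓝 x, ∀ i, φ i (y, 0) ∈ fibreSpan C y :=
    Filter.eventually_all.2 fun i => (hφ i).sec_mem
  filter_upwards [hind, hmem, hx.2] with y h1 h2 h3
  refine Submodule.eq_of_le_of_finrank_eq ?_ ?_
  · rw [Submodule.span_le]
    rintro w ⟨i, rfl⟩
    exact h2 i
  · rw [finrank_span_eq_card h1, Fintype.card_fin, h3]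

end Pool.Agent.RIG
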