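import Pool.Agent.MP_d19687_ag.Defs

/-!
RIG (MP_d19687_ag): definitions for the geometric part.
-/

namespace Pool.Agent.RIG

open Filter Topology Asymptotics Pool.Agent.MP_d19687_ag

variable {T : Type*} [NormedAddCommGroup T] [NormedSpace ℂ T]

/-- A local chart of the cone structure at `(x, v)` (as in `IsConeStructure.chart`). -/
structure IsChart (C : Set (T × T)) (x v : T) (d : ℕ) (φ : T × (Fin d → ℂ) → T) : Prop where
  an : AnalyticAt ℂ φ (x, 0)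
  map0 : φ (x, 0) = v
  inj : Function.Injective (fderiv ℂ (fun s : Fin d → ℂ => φ (x, s)) 0)
  mem : ∀ᶠ q in 𝓝 (x, (0 : Fin d → ℂ)), (q.1, φ q) ∈ C
  onto : ∀ S ∈ 𝓝 (x, (0 : Fin d → ℂ)), ∀ᶠ q in 𝓝[C] (x, v), ∃ a ∈ S, q = (a.1, φ a)

/-- The vertical derivative `ς ↦ dφ_{(y,0)} (0, ς)` of a chart. -/
noncomputable def vert {d : ℕ} (φ : T × (Fin d → ℂ) → T) (y : T) : (Fin d → ℂ) →L[ℂ] T :=
  (fderiv ℂ φ (y, 0)).comp (ContinuousLinearMap.inr ℂ T (Fin d → ℂ))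

theorem vert_apply {d : ℕ} (φ : T × (Fin d → ℂ) → T) (y : T) (s : Fin d → ℂ) :
    vert φ y s = fderiv ℂ φ (y, 0) (0, s) := rfl

theorem exists_chart {U : Set T} {C : Set (T × T)} (hC : IsConeStructure U C) {x v : T}
    (h : (x, v) ∈ C) : ∃ (d : ℕ) (φ : T × (Fin d → ℂ) → T), IsChart C x v d φ := by
  obtain ⟨d, φ, h1, h2, h3, h4, h5⟩ := hC.chart _ h
  exact ⟨d, φ, h1, h2, h3, h4, h5⟩

/-- The hypothesis of the theorem: every linear endomorphism of `T` tangent to the fibre at `x`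
acts on the span of the fibre as a scalar. -/
def RigidFibre (C : Set (T × T)) (x : T) : Prop :=
  ∀ A : T →ₗ[ℂ] T, (∀ v : T, (x, v) ∈ C → IsTangent {w : T | (x, w) ∈ C} v (A v)) →
    ∃ c : ℂ, ∀ v ∈ fibreSpan C x, A v = c • v

end Pool.Agent.RIG
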