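import Pool.Agent.RIG.Alg

/-!
RIG (MP_d19687_ag): the ring of germs at `P` of analytic functions.
-/

namespace Pool.Agent.RIG

open Filter Topology

variable {E : Type*} [NormedAddCommGroup E] [NormedSpace ℂ E]

/-- The ring of germs at `P` of analytic functions. -/
def anGerm (P : E) : Subring (Germ (𝓝 P) ℂ) where
  carrier := {g | ∃ f : E → ℂ, AnalyticAt ℂ f P ∧ g = (f : Germ (𝓝 P) ℂ)}
  mul_mem' := by
    rintro _ _ ⟨f, hf, rfl⟩ ⟨g, hg, rfl⟩
    exact ⟨fun y => f y * g y, hf.mul hg, rfl⟩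
  one_mem' := ⟨fun _ => 1, analyticAt_const, rfl⟩
  add_mem' := by
    rintro _ _ ⟨f, hf, rfl⟩ ⟨g, hg, rfl⟩
    exact ⟨fun y => f y + g y, hf.add hg, rfl⟩
  zero_mem' := ⟨fun _ => 0, analyticAt_const, rfl⟩
  neg_mem' := by
    rintro _ ⟨f, hf, rfl⟩
    exact ⟨fun y => - f y, hf.neg, rfl⟩

variable {P : E}

/-- The germ of an analytic function. -/
def mk (f : E → ℂ) (hf : AnalyticAt ℂ f P) : anGerm P := ⟨(f : Germ (𝓝 P) ℂ), f, hf, rfl⟩

theorem mk_eq_mk {f g : E → ℂ} {hf : AnalyticAt ℂ f P} {hg : AnalyticAt ℂ g P} :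
    mk f hf = mk g hg ↔ f =ᶠ[𝓝 P] g := by
  unfold mk
  rw [Subtype.mk.injEq]
  exact Germ.coe_eq

theorem exists_rep (a : anGerm P) : ∃ (f : E → ℂ) (hf : AnalyticAt ℂ f P), a = mk f hf := by
  obtain ⟨g, f, hf, rfl⟩ := a
  exact ⟨f, hf, rfl⟩

theorem mk_add {f g : E → ℂ} (hf : AnalyticAt ℂ f P) (hg : AnalyticAt ℂ g P) :
    mk f hf + mk g hg = mk (fun y => f y + g y) (hf.add hg) := rfl

theorem mk_mul {f g : E → ℂ} (hf : AnalyticAt ℂ f P) (hg : AnalyticAt ℂ g P) :
    mk f hf * mk g hg = mk (fun y => f y * g y) (hf.mul hg) := rfl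

theorem mk_neg {f : E → ℂ} (hf : AnalyticAt ℂ f P) :
    - mk f hf = mk (fun y => - f y) hf.neg := rfl

theorem mk_sub {f g : E → ℂ} (hf : AnalyticAt ℂ f P) (hg : AnalyticAt ℂ g P) :
    mk f hf - mk g hg = mk (fun y => f y - g y) (hf.sub hg) := rfl

theorem mk_zero : (0 : anGerm P) = mk (fun _ => (0 : ℂ)) analyticAt_const := rfl

theorem mk_one : (1 : anGerm P) = mk (fun _ => (1 : ℂ)) analyticAt_const := rfl

theorem an_sum {κ : Type*} (s : Finset κ) {f : κ → E → ℂ} (hf : ∀ k, AnalyticAt ℂ (f k) P) :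
    AnalyticAt ℂ (fun y => ∑ k ∈ s, f k y) P :=
  s.analyticAt_fun_sum fun k _ => hf k

theorem mk_sum {κ : Type*} (s : Finset κ) {f : κ → E → ℂ} (hf : ∀ k, AnalyticAt ℂ (f k) P) :
    ∑ k ∈ s, mk (f k) (hf k) = mk (fun y => ∑ k ∈ s, f k y) (an_sum s hf) := by
  classical
  induction s using Finset.induction_on with
  | empty =>
    rw [Finset.sum_empty, mk_zero, mk_eq_mk]
    exact Eventually.of_forall fun y => by simp
  | insert a s ha ih =>
    rw [Finset.sum_insert ha, ih, mk_add, mk_eq_mk]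
    exact Eventually.of_forall fun y => by simp [Finset.sum_insert ha]

/-- The value at the point. -/
noncomputable def evP (P : E) : anGerm P →+* ℂ where
  toFun a := Germ.value a.1
  map_one' := rfl
  map_mul' := by
    intro a b
    obtain ⟨f, hf, rfl⟩ := exists_rep a
    obtain ⟨g, hg, rfl⟩ := exists_rep b
    rfl
  map_zero' := rfl
  map_add' := by
    intro a b
    obtain ⟨f, hf, rfl⟩ := exists_rep a
    obtain ⟨g, hg, rfl⟩ := exists_rep b
    rfl

theorem evP_mk {f : E → ℂ} (hf : AnalyticAt ℂ f P) : evP P (mk f hf) = f P := rfl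

theorem an_clm_apply {F G : Type*} [NormedAddCommGroup F] [NormedSpace ℂ F]
    [NormedAddCommGroup G] [NormedSpace ℂ G] {L : E → F →L[ℂ] G} {Y : E → F}
    (hL : AnalyticAt ℂ L P) (hY : AnalyticAt ℂ Y P) : AnalyticAt ℂ (fun y => L y (Y y)) P :=
  AnalyticAt.comp₂ (h := fun q : (F →L[ℂ] G) × F => q.1 q.2)
    ((ContinuousLinearMap.id ℂ (F →L[ℂ] G)).analyticAt_bilinear _) hL hY

/-- Analyticity of a family of linear maps on a finite-dimensional space is pointwise. -/
theorem an_clm_of_apply {F G : Type*} [NormedAddCommGroup F] [NormedSpace ℂ F]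
    [FiniteDimensional ℂ F] [NormedAddCommGroup G] [NormedSpace ℂ G] {L : E → F →L[ℂ] G}
    (h : ∀ v, AnalyticAt ℂ (fun y => L y v) P) : AnalyticAt ℂ L P := by
  let b := Module.finBasis ℂ F
  have h1 : L = fun y => ∑ i, (ContinuousLinearMap.smulRightL ℂ F G
      (b.coord i).toContinuousLinearMap) (L y (b i)) := by
    funext y
    ext v
    rw [ContinuousLinearMap.sum_apply]
    conv_lhs => rw [← b.sum_repr v, map_sum]
    refine Finset.sum_congr rfl fun i _ => ?_
    rw [map_smul]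
    rfl
  rw [h1]
  refine Finset.analyticAt_fun_sum _ fun i _ => ?_
  exact (ContinuousLinearMap.analyticAt _ _).comp (h (b i))

theorem an_dir {f : E → ℂ} (hf : AnalyticAt ℂ f P) {Y : E → E} (hY : AnalyticAt ℂ Y P) :
    AnalyticAt ℂ (fun y => fderiv ℂ f y (Y y)) P :=
  an_clm_apply hf.fderiv hY

/-- A representative of a germ. -/
noncomputable def rep (a : anGerm P) : E → ℂ := Classical.choose (exists_rep a)

theorem rep_an (a : anGerm P) : AnalyticAt ℂ (rep a) P :=
  Classical.choose (Classical.choose_spec (exists_rep a))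

theorem mk_rep (a : anGerm P) : mk (rep a) (rep_an a) = a :=
  (Classical.choose_spec (Classical.choose_spec (exists_rep a))).symm

theorem rep_mk {f : E → ℂ} (hf : AnalyticAt ℂ f P) : rep (mk f hf) =ᶠ[𝓝 P] f :=
  mk_eq_mk.1 (mk_rep (mk f hf))

/-- The derivative of a germ along an analytic vector field. -/
noncomputable def dirFun (Y : E → E) (hY : AnalyticAt ℂ Y P) (a : anGerm P) : anGerm P :=
  mk (fun y => fderiv ℂ (rep a) y (Y y)) (an_dir (rep_an a) hY)

theorem dirFun_mk {Y : E → E} (hY : AnalyticAt ℂ Y P) {f : E → ℂ} (hf : AnalyticAt ℂ f P) :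
    dirFun Y hY (mk f hf) = mk (fun y => fderiv ℂ f y (Y y)) (an_dir hf hY) := by
  unfold dirFun
  rw [mk_eq_mk]
  filter_upwards [(rep_mk hf).fderiv (𝕜 := ℂ)] with y hy
  rw [hy]

/-- The derivation `D_Y` of the ring of germs. -/
noncomputable def dirD (Y : E → E) (hY : AnalyticAt ℂ Y P) : Derivation ℤ (anGerm P) (anGerm P) :=
  Derivation.mk'
    (AddMonoidHom.toIntLinearMap
      { toFun := dirFun Y hY
        map_zero' := by
          rw [mk_zero, dirFun_mk, mk_eq_mk]
          exact Eventually.of_forall fun y => by simp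
        map_add' := by
          intro a b
          obtain ⟨f, hf, rfl⟩ := exists_rep a
          obtain ⟨g, hg, rfl⟩ := exists_rep b
          rw [mk_add, dirFun_mk, dirFun_mk, dirFun_mk, mk_add, mk_eq_mk]
          filter_upwards [hf.eventually_analyticAt, hg.eventually_analyticAt] with y h1 h2
          rw [fderiv_fun_add h1.differentiableAt h2.differentiableAt]
          rfl })
    (by
      intro a b
      obtain ⟨f, hf, rfl⟩ := exists_rep a
      obtain ⟨g, hg, rfl⟩ := exists_rep b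
      change dirFun Y hY (mk f hf * mk g hg) = mk f hf • dirFun Y hY (mk g hg)
        + mk g hg • dirFun Y hY (mk f hf)
      rw [mk_mul, dirFun_mk, dirFun_mk, dirFun_mk, smul_eq_mul, smul_eq_mul, mk_mul, mk_mul,
        mk_add, mk_eq_mk]
      filter_upwards [hf.eventually_analyticAt, hg.eventually_analyticAt] with y h1 h2
      rw [fderiv_fun_mul h1.differentiableAt h2.differentiableAt]
      rfl)

theorem dirD_mk {Y : E → E} (hY : AnalyticAt ℂ Y P) {f : E → ℂ} (hf : AnalyticAt ℂ f P) :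
    dirD Y hY (mk f hf) = mk (fun y => fderiv ℂ f y (Y y)) (an_dir hf hY) := dirFun_mk hY hf

end Pool.Agent.RIG
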