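import Pool.Agent.RIG.JDefs

/-!
[RIG-J1] Taylor expansion in one of the variables.
-/

namespace Pool.Agent.RIG

open Filter Topology Asymptotics Pool.Agent.MP_d19687_ag

variable {S W : Type*} [NormedAddCommGroup S] [NormedSpace ℂ S]
  [NormedAddCommGroup W] [NormedSpace ℂ W] [CompleteSpace W]

theorem an_dt {F : ℂ × S → W} {q : ℂ × S} (hF : AnalyticAt ℂ F q) : AnalyticAt ℂ (dt F) q :=
  ((ContinuousLinearMap.apply ℂ W ((1 : ℂ), (0 : S))).analyticAt _).fun_comp hF.fderiv

theorem an_dt_iter {F : ℂ × S → W} {q : ℂ × S} (hF : AnalyticAt ℂ F q) (k : ℕ) :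
    AnalyticAt ℂ (dt^[k] F) q := by
  induction k with
  | zero => exact hF
  | succ k ih =>
    rw [Function.iterate_succ_apply']
    exact an_dt ih

/-- Functions which agree near a point have the same iterated `dt` near this point. -/
theorem dt_iter_congr {F G : ℂ × S → W} {q : ℂ × S} (h : F =ᶠ[𝓝 q] G) (k : ℕ) :
    dt^[k] F =ᶠ[𝓝 q] dt^[k] G := by
  induction k with
  | zero => exact h
  | succ k ih =>
    rw [Function.iterate_succ_apply', Function.iterate_succ_apply']
    filter_upwards [ih.fderiv (𝕜 := ℂ)] with x hx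
    exact congrArg (fun L : ℂ × S →L[ℂ] W => L (1, 0)) hx

/-- For `s` fixed, the derivative of `t ↦ F (t, s)` is `dt F (t, s)`. -/
theorem hasDerivAt_slice {F : ℂ × S → W} {t : ℂ} {s : S} (hF : DifferentiableAt ℂ F (t, s)) :
    HasDerivAt (fun t => F (t, s)) (dt F (t, s)) t :=
  hF.hasFDerivAt.comp_hasDerivAt t ((hasDerivAt_id t).prodMk (hasDerivAt_const t s))

/-- Translation in `s`. -/
theorem dt_iter_shift (F : ℂ × S → W) (s₀ : S) (k : ℕ) (q : ℂ × S) :
    (dt^[k] (fun q => F (q.1, q.2 + s₀))) q = (dt^[k] F) (q.1, q.2 + s₀) := by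
  induction k generalizing F with
  | zero => rfl
  | succ k ih =>
    rw [Function.iterate_succ_apply, Function.iterate_succ_apply]
    have e : ∀ p : ℂ × S, (p.1, p.2 + s₀) = p + ((0 : ℂ), s₀) := fun p =>
      Prod.ext (add_zero p.1).symm rfl
    have h : dt (fun q => F (q.1, q.2 + s₀)) = fun q => dt F (q.1, q.2 + s₀) := by
      funext p
      simp only [dt, e]
      rw [fderiv_comp_add_right]
    rw [h, ih]

/-- By induction on `k`, for all `F`.  `k = 0`: continuity.  `k + 1`: put `F₁ = dt F`,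
`A = dt^[k+1] F (0,0) = dt^[k] F₁ (0,0)` and `g (t, s) = F (t, s) - t^(k+1)/(k+1)! • A`.  Then
`dt g = F₁ - t^k/k! • A` near `(0,0)`, which is `o(|t|^k)` by induction (`dt^[j] F₁ = dt^[j+1] F`), and
`g (0, s) = F (0, s) = 0` for `s` near `0`.  Given `ε`, take a ball around `(0,0)` on which
`‖dt g‖ ≤ ε |t|^k`, `F` is differentiable and `F (0, s) = 0`; by the mean value inequality on the
segment from `(0, s)` to `(t, s)`: `‖g (t, s)‖ ≤ ε |t|^k |t|`. -/
theorem taylor_o (k : ℕ) : ∀ (F : ℂ × S → W), AnalyticAt ℂ F (0, 0) →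
    (∀ j < k, ∀ᶠ s in 𝓝 (0 : S), (dt^[j] F) (0, s) = 0) →
    (fun q : ℂ × S => F q - (q.1 ^ k * ((k.factorial : ℂ))⁻¹) • (dt^[k] F) (0, 0))
      =o[𝓝 ((0 : ℂ), (0 : S))] fun q => ‖q.1‖ ^ k := by
  induction k with
  | zero =>
    intro F hF _
    simp only [pow_zero, Nat.factorial_zero, Nat.cast_one, inv_one, mul_one, one_smul,
      Function.iterate_zero, id_eq]
    rw [isLittleO_one_iff]
    have h := hF.continuousAt.tendsto.sub_const (F (0, 0))
    rw [sub_self] at h
    exact h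
  | succ k ih =>
    intro F hF hz
    have hF1 := ih (dt F) (an_dt hF) (fun j hj => by
      have h := hz (j + 1) (by omega)
      simp only [Function.iterate_succ_apply] at h
      exact h)
    rw [← Function.iterate_succ_apply] at hF1
    set A : W := (dt^[k + 1] F) (0, 0) with hA
    rw [isLittleO_iff] at hF1 ⊢
    intro ε hε
    have h0 : ∀ᶠ q : ℂ × S in 𝓝 ((0 : ℂ), (0 : S)), F (0, q.2) = 0 := by
      have h : ∀ᶠ s in 𝓝 (0 : S), F (0, s) = 0 := hz 0 (by omega)
      have hc : Tendsto (fun q : ℂ × S => q.2) (𝓝 ((0 : ℂ), (0 : S))) (𝓝 (0 : S)) :=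
        continuous_snd.tendsto ((0 : ℂ), (0 : S))
      exact hc.eventually h
    have hall := (hF1 hε).and (hF.eventually_analyticAt.and h0)
    rw [Metric.eventually_nhds_iff] at hall
    obtain ⟨δ, hδ, hball⟩ := hall
    rw [Metric.eventually_nhds_iff]
    refine ⟨δ, hδ, ?_⟩
    rintro ⟨t, s⟩ hq
    have hmem : ∀ τ ∈ Metric.closedBall (0 : ℂ) ‖t‖, dist (τ, s) ((0 : ℂ), (0 : S)) < δ := by
      intro τ hτ
      rw [Prod.dist_eq] at hq ⊢
      simp only at hq ⊢
      rw [Metric.mem_closedBall] at hτ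
      rw [max_lt_iff] at hq ⊢
      refine ⟨lt_of_le_of_lt hτ ?_, hq.2⟩
      rw [← dist_zero_right]
      exact hq.1
    have hder : ∀ τ ∈ Metric.closedBall (0 : ℂ) ‖t‖,
        HasDerivWithinAt (fun τ => F (τ, s) - (τ ^ (k + 1) * (((k + 1).factorial : ℂ))⁻¹) • A)
          (dt F (τ, s) - (τ ^ k * ((k.factorial : ℂ))⁻¹) • A) (Metric.closedBall (0 : ℂ) ‖t‖) τ := by
      intro τ hτ
      have h1 := hasDerivAt_slice (hball (hmem τ hτ)).2.1.differentiableAt
      have h2 : HasDerivAt (fun τ : ℂ => τ ^ (k + 1) * (((k + 1).factorial : ℂ))⁻¹)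
          (τ ^ k * ((k.factorial : ℂ))⁻¹) τ := by
        have h3 := (hasDerivAt_pow (k + 1) τ).mul_const ((((k + 1).factorial : ℂ))⁻¹)
        have e : ((k + 1 : ℕ) : ℂ) * τ ^ (k + 1 - 1) * (((k + 1).factorial : ℂ))⁻¹ =
            τ ^ k * ((k.factorial : ℂ))⁻¹ := by
          rw [Nat.factorial_succ, Nat.add_sub_cancel]
          have hk : ((k + 1 : ℕ) : ℂ) ≠ 0 := Nat.cast_ne_zero.2 (Nat.succ_ne_zero k)
          rw [Nat.cast_mul, mul_inv]
          field_simp
        rw [e] at h3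
        exact h3
      exact (h1.sub (h2.smul_const A)).hasDerivWithinAt
    have hbound : ∀ τ ∈ Metric.closedBall (0 : ℂ) ‖t‖,
        ‖dt F (τ, s) - (τ ^ k * ((k.factorial : ℂ))⁻¹) • A‖ ≤ ε * ‖t‖ ^ k := by
      intro τ hτ
      refine (hball (hmem τ hτ)).1.trans ?_
      simp only [norm_pow, norm_norm]
      have h4 : ‖τ‖ ≤ ‖t‖ := by
        rw [Metric.mem_closedBall, dist_zero_right] at hτ
        exact hτ
      exact mul_le_mul_of_nonneg_left (pow_le_pow_left₀ (norm_nonneg _) h4 k) hε.le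
    have hmv := Convex.norm_image_sub_le_of_norm_hasDerivWithin_le hder hbound
      (convex_closedBall (0 : ℂ) ‖t‖) (Metric.mem_closedBall_self (norm_nonneg t))
      (y := t) (by rw [Metric.mem_closedBall, dist_zero_right])
    have hF0 : F (0, s) = 0 := (hball (hmem 0 (Metric.mem_closedBall_self (norm_nonneg t)))).2.2
    simp only [hF0, sub_zero, zero_pow (Nat.succ_ne_zero k), zero_mul, zero_smul] at hmv
    refine hmv.trans (le_of_eq ?_)
    simp only [norm_pow, norm_norm]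
    ring

/-- If `F (t, s) = 0` for all `t` near `0` then all `dt^[k] F (0, s) = 0`; in the form needed:
a function of one variable `G : ℂ → W`, analytic at `0`, with `G t = o(|t|^k)` for all `k` vanishes
near `0` (`AnalyticAt.eventually_eq_zero_or_eventually_ne_zero` and `AnalyticAt.exists_eventuallyEq_pow_smul_nonzero_iff`
or `analyticOrderAt`: if `G` is not `0` near `0` then `G t = t^n g t`, `g 0 ≠ 0`). -/
theorem eventually_zero_of_flat {G : ℂ → W} (hG : AnalyticAt ℂ G 0)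
    (h : ∀ k : ℕ, Tendsto (fun t : ℂ => (t ^ k)⁻¹ • G t) (𝓝[≠] 0) (𝓝 0)) :
    ∀ᶠ t in 𝓝 (0 : ℂ), G t = 0 := by
  by_contra hcon
  obtain ⟨n, g, hg, hg0, hev⟩ := hG.exists_eventuallyEq_pow_smul_nonzero_iff.2 hcon
  have h1 : Tendsto g (𝓝[≠] 0) (𝓝 (g 0)) := hg.continuousAt.tendsto.mono_left nhdsWithin_le_nhds
  have h2 : (fun t : ℂ => (t ^ n)⁻¹ • G t) =ᶠ[𝓝[≠] 0] g := by
    filter_upwards [nhdsWithin_le_nhds hev, self_mem_nhdsWithin] with t ht ht0
    have ht0' : t ^ n ≠ 0 := pow_ne_zero n ht0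
    rw [ht, sub_zero, smul_smul, inv_mul_cancel₀ ht0', one_smul]
  exact hg0 (tendsto_nhds_unique (h1.congr' h2.symm) (h n))

end Pool.Agent.RIG
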