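import Pool.Agent.RIG.J1
import Pool.Agent.RIG.Germ

/-!
[RIG-J2] The limits of `t^{-k} P_{x + t η} w`.
-/

namespace Pool.Agent.RIG

open Filter Topology Asymptotics Pool.Agent.MP_d19687_ag

variable {T : Type*} [NormedAddCommGroup T] [NormedSpace ℂ T] [FiniteDimensional ℂ T]

/-- the point `(t, s) ↦ (x + t η, s)` -/
theorem j2_an_pt (x η : T) (d : ℕ) (q : ℂ × (Fin d → ℂ)) :
    AnalyticAt ℂ (fun q : ℂ × (Fin d → ℂ) => (x + q.1 • η, q.2)) q := by
  have h1 : AnalyticAt ℂ (fun q : ℂ × (Fin d → ℂ) => x + q.1 • η) q :=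
    analyticAt_const.add (analyticAt_fst.smul analyticAt_const)
  exact h1.prod analyticAt_snd

theorem j2_lim {α W : Type*} [NormedAddCommGroup W] [NormedSpace ℂ W] {l : Filter α} {u : α → ℂ}
    (hu : ∀ᶠ q in l, u q ≠ 0) {G : α → W} {A : W} {c : ℂ} {k : ℕ}
    (h : (fun q => G q - (u q ^ k * c) • A) =o[l] fun q => ‖u q‖ ^ k) :
    Tendsto (fun q => (u q ^ k)⁻¹ • G q) l (𝓝 (c • A)) := by
  have h1 : (fun q => G q - (u q ^ k * c) • A) =o[l] fun q => u q ^ k := by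
    rw [← isLittleO_norm_right]
    simpa only [norm_pow] using h
  have h2 := h1.tendsto_inv_smul_nhds_zero
  rw [← tendsto_sub_nhds_zero_iff]
  refine h2.congr' ?_
  filter_upwards [hu] with q hq
  have h3 : u q ^ k ≠ 0 := pow_ne_zero _ hq
  rw [smul_sub, smul_smul, ← mul_assoc, inv_mul_cancel₀ h3, one_mul]

/-- the map `(t, w) ↦ (x + t η, w)` from `EF C x η v` -/
theorem j2_EF_map (C : Set (T × T)) (x η v : T) :
    Tendsto (fun q : ℂ × T => (x + q.1 • η, q.2)) (EF C x η v) (𝓝[C] (x, v)) := by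
  unfold EF
  rw [tendsto_nhdsWithin_iff]
  constructor
  · have hc : Continuous (fun q : ℂ × T => (x + q.1 • η, q.2)) := by fun_prop
    have h1 := hc.tendsto ((0 : ℂ), v)
    simp only [zero_smul, add_zero] at h1
    exact h1.mono_left nhdsWithin_le_nhds
  · filter_upwards [self_mem_nhdsWithin] with q hq
    exact hq.2

theorem j2_EF_ne (C : Set (T × T)) (x η v : T) : ∀ᶠ q : ℂ × T in EF C x η v, q.1 ≠ 0 := by
  unfold EF
  filter_upwards [self_mem_nhdsWithin] with q hq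
  exact hq.1

theorem j2_EF_fst (C : Set (T × T)) (x η v : T) :
    Tendsto (fun q : ℂ × T => q.1) (EF C x η v) (𝓝 0) := by
  unfold EF
  have hc : Continuous (fun q : ℂ × T => q.1) := continuous_fst
  exact (hc.tendsto ((0 : ℂ), v)).mono_left nhdsWithin_le_nhds

theorem an_FF {C : Set (T × T)} {P : T → T →L[ℂ] T} {x v : T} (η : T) {d : ℕ}
    {φ : T × (Fin d → ℂ) → T} (h : IsChart C x v d φ) (hP : AnalyticAt ℂ P x) :
    AnalyticAt ℂ (FF P x η φ) (0, 0) := by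
  have h0 : (fun q : ℂ × (Fin d → ℂ) => (x + q.1 • η, q.2)) (0, 0) = (x, 0) := by simp
  have h1 : AnalyticAt ℂ (fun q : ℂ × (Fin d → ℂ) => P (x + q.1 • η)) (0, 0) := by
    have h2 : AnalyticAt ℂ (fun q : ℂ × (Fin d → ℂ) => x + q.1 • η) (0, 0) :=
      analyticAt_const.add (analyticAt_fst.smul analyticAt_const)
    exact hP.fun_comp_of_eq h2 (by simp)
  have h3 : AnalyticAt ℂ (fun q : ℂ × (Fin d → ℂ) => φ (x + q.1 • η, q.2)) (0, 0) := by
    exact h.an.fun_comp_of_eq (j2_an_pt x η d _) h0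
  exact an_clm_apply h1 h3

/-- For a point `q` near `(0, v)` with `(x + q.1 η, q.2) ∈ C` (close to `(x, v)`), `h.onto` gives
`a ∈ S`, `(x + q.1 η, q.2) = (a.1, φ a)`, so `q.2 = φ (x + q.1 η, a.2)` with `a.2` as small as
we like, and `P (x + q.1 η) q.2 = FF P x η φ (q.1, a.2)`; `taylor_o` says
`‖t^{-k} FF (t, s) - A / k!‖ ≤ ε` for `(t, s)` near `(0,0)`, `t ≠ 0`. -/
theorem tendsto_EF {C : Set (T × T)} {P : T → T →L[ℂ] T} {x v : T} (η : T) {d : ℕ}
    {φ : T × (Fin d → ℂ) → T} (h : IsChart C x v d φ) (hP : AnalyticAt ℂ P x) (k : ℕ)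
    (hvan : ∀ j < k, ∀ᶠ s in 𝓝 (0 : Fin d → ℂ), (dt^[j] (FF P x η φ)) (0, s) = 0) :
    Tendsto (fun q : ℂ × T => (q.1 ^ k)⁻¹ • P (x + q.1 • η) q.2) (EF C x η v)
      (𝓝 (((k.factorial : ℂ))⁻¹ • (dt^[k] (FF P x η φ)) (0, 0))) := by
  refine j2_lim (j2_EF_ne C x η v) ?_
  have h1 := taylor_o k (FF P x η φ) (an_FF η h hP) hvan
  rw [isLittleO_iff] at h1 ⊢
  intro c hc
  have h2 := h1 hc
  rw [nhds_prod_eq, eventually_prod_iff] at h2
  obtain ⟨pa, hpa, pb, hpb, h3⟩ := h2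
  have h4 : {p : T × (Fin d → ℂ) | pb p.2} ∈ 𝓝 (x, (0 : Fin d → ℂ)) :=
    (continuous_snd.tendsto (x, (0 : Fin d → ℂ))).eventually hpb
  have h5 := (j2_EF_map C x η v).eventually (h.onto _ h4)
  have h6 := (j2_EF_fst C x η v).eventually hpa
  filter_upwards [h5, h6] with q hq1 hq2
  obtain ⟨a, ha, he⟩ := hq1
  have e1 : a.1 = x + q.1 • η := (congrArg Prod.fst he).symm
  have e2 : q.2 = φ a := congrArg Prod.snd he
  have e3 : P (x + q.1 • η) q.2 = FF P x η φ (q.1, a.2) := by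
    unfold FF
    simp only
    rw [e2, ← e1]
  have h7 := h3 hq2 ha
  rw [e3]
  exact h7

/-- The curves `t ↦ (t, φ (x + t η, s))`, for `s` near `0` (`h.mem`, continuity of `φ` near `(x, 0)`). -/
theorem tendsto_curve {C : Set (T × T)} {x v : T} (η : T) {d : ℕ}
    {φ : T × (Fin d → ℂ) → T} (h : IsChart C x v d φ) :
    ∀ᶠ s in 𝓝 (0 : Fin d → ℂ), Tendsto (fun t : ℂ => (t, φ (x + t • η, s))) (𝓝[≠] 0)
      (EF C x η (φ (x, s))) := by
  have h1 := h.mem.eventually_nhds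
  have h2 := h.an.eventually_analyticAt
  have hc : Tendsto (fun s : Fin d → ℂ => (x, s)) (𝓝 0) (𝓝 (x, (0 : Fin d → ℂ))) :=
    (Continuous.prodMk_right x).tendsto 0
  filter_upwards [hc.eventually h1, hc.eventually h2] with s hs1 hs2
  have hc2 : Tendsto (fun t : ℂ => (x + t • η, s)) (𝓝 0) (𝓝 (x, s)) := by
    have hcc : Continuous (fun t : ℂ => (x + t • η, s)) := by fun_prop
    have := hcc.tendsto 0
    simpa using this
  unfold EF
  rw [tendsto_nhdsWithin_iff]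
  constructor
  · have h3 : Tendsto (fun t : ℂ => φ (x + t • η, s)) (𝓝 0) (𝓝 (φ (x, s))) :=
      hs2.continuousAt.tendsto.comp hc2
    exact (tendsto_id.prodMk_nhds h3).mono_left nhdsWithin_le_nhds
  · have h4 := (hc2.eventually hs1)
    have h5 : ∀ᶠ t : ℂ in 𝓝[≠] 0, (x + t • η, φ (x + t • η, s)) ∈ C :=
      h4.filter_mono nhdsWithin_le_nhds
    filter_upwards [h5, self_mem_nhdsWithin] with t ht1 ht2
    exact ⟨ht2, ht1⟩

/-- Along these curves: apply `taylor_o` to `F (t, s' + s)` (`dt_iter_shift`; for `s` near `0` the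
hypothesis holds near `s`: `Filter.Eventually.eventually_nhds`) at `s' = 0`. -/
theorem tendsto_along {C : Set (T × T)} {P : T → T →L[ℂ] T} {x v : T} (η : T) {d : ℕ}
    {φ : T × (Fin d → ℂ) → T} (h : IsChart C x v d φ) (hP : AnalyticAt ℂ P x) (k : ℕ)
    (hvan : ∀ j < k, ∀ᶠ s in 𝓝 (0 : Fin d → ℂ), (dt^[j] (FF P x η φ)) (0, s) = 0) :
    ∀ᶠ s in 𝓝 (0 : Fin d → ℂ),
      Tendsto (fun t : ℂ => (t ^ k)⁻¹ • P (x + t • η) (φ (x + t • η, s))) (𝓝[≠] 0)
        (𝓝 (((k.factorial : ℂ))⁻¹ • (dt^[k] (FF P x η φ)) (0, s))) := by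
  have han := (an_FF η h hP).eventually_analyticAt
  have hc : Tendsto (fun s : Fin d → ℂ => ((0 : ℂ), s)) (𝓝 0) (𝓝 ((0 : ℂ), (0 : Fin d → ℂ))) :=
    (Continuous.prodMk_right (0 : ℂ)).tendsto 0
  have hvan' : ∀ᶠ s in 𝓝 (0 : Fin d → ℂ), ∀ j < k, ∀ᶠ s' in 𝓝 s, (dt^[j] (FF P x η φ)) (0, s') = 0 := by
    have h1 : ∀ j ∈ Finset.range k, ∀ᶠ s in 𝓝 (0 : Fin d → ℂ), ∀ᶠ s' in 𝓝 s,
        (dt^[j] (FF P x η φ)) (0, s') = 0 := fun j hj =>
      (hvan j (Finset.mem_range.1 hj)).eventually_nhds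
    have h2 := (Filter.eventually_all_finset (Finset.range k)).2 h1
    filter_upwards [h2] with s hs j hj
    exact hs j (Finset.mem_range.2 hj)
  filter_upwards [hc.eventually han, hvan'] with s hs1 hs2
  have hF : AnalyticAt ℂ (fun q : ℂ × (Fin d → ℂ) => FF P x η φ (q.1, q.2 + s)) (0, 0) := by
    exact hs1.fun_comp_of_eq (analyticAt_fst.prod (analyticAt_snd.add analyticAt_const)) (by simp)
  have hsh : ∀ j < k, ∀ᶠ s' in 𝓝 (0 : Fin d → ℂ),
      (dt^[j] (fun q : ℂ × (Fin d → ℂ) => FF P x η φ (q.1, q.2 + s))) (0, s') = 0 := by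
    intro j hj
    have h4 : Tendsto (fun s' : Fin d → ℂ => s' + s) (𝓝 0) (𝓝 s) := by
      have hcc : Continuous (fun s' : Fin d → ℂ => s' + s) := by fun_prop
      have := hcc.tendsto 0
      simpa using this
    filter_upwards [h4.eventually (hs2 j hj)] with s' hs'
    rw [dt_iter_shift]
    exact hs'
  have ht := taylor_o k _ hF hsh
  have hc3 : Tendsto (fun t : ℂ => (t, (0 : Fin d → ℂ))) (𝓝[≠] 0) (𝓝 ((0 : ℂ), (0 : Fin d → ℂ))) :=
    (((Continuous.prodMk_left (0 : Fin d → ℂ)).tendsto (0 : ℂ))).mono_left nhdsWithin_le_nhds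
  have ht2 := ht.comp_tendsto hc3
  have h5 : (dt^[k] (fun q : ℂ × (Fin d → ℂ) => FF P x η φ (q.1, q.2 + s))) (0, 0) =
      (dt^[k] (FF P x η φ)) (0, s) := by
    rw [dt_iter_shift, zero_add]
  rw [h5] at ht2
  refine j2_lim (u := fun t : ℂ => t) ?_ ?_
  · filter_upwards [self_mem_nhdsWithin] with t ht0
    exact ht0
  · refine ht2.congr (fun t => ?_) (fun t => rfl)
    simp only [Function.comp, FF, zero_add]

/-- `EF C x η v` is a proper filter for `(x, v) ∈ C` (a chart exists and `tendsto_curve` at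
`s = 0`; `Filter.Tendsto.neBot`?). -/
theorem EF_neBot {U : Set T} {C : Set (T × T)} (hC : IsConeStructure U C) {x v : T} (η : T)
    (hv : (x, v) ∈ C) : (EF C x η v).NeBot := by
  obtain ⟨d, φ, h⟩ := exists_chart hC hv
  have h1 := (tendsto_curve η h).self_of_nhds
  rw [h.map0] at h1
  exact h1.neBot

end Pool.Agent.RIG
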