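import Pool.Agent.RIG.J2

/-!
[RIG-J3] Properties of the function `H_k` on the fibre.
-/

namespace Pool.Agent.RIG

open Filter Topology Asymptotics Pool.Agent.MP_d19687_ag

variable {T : Type*} [NormedAddCommGroup T] [NormedSpace ℂ T] [FiniteDimensional ℂ T]
  {U : Set T} {C : Set (T × T)} {P : T → T →L[ℂ] T} {x : T}

/-- From `tendsto_EF` for the chosen chart. -/
theorem Hk_tendsto (hC : IsConeStructure U C) (hP : AnalyticAt ℂ P x) (η : T) (k : ℕ)
    (hvan : Van C P x η k) {v : T} (hv : (x, v) ∈ C) :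
    Tendsto (fun q : ℂ × T => (q.1 ^ k)⁻¹ • P (x + q.1 • η) q.2) (EF C x η v)
      (𝓝 (Hk C P x η k v)) := by
  have hch := exists_chart hC hv
  have h := hch.choose_spec.choose_spec
  unfold Hk
  rw [dif_pos hch]
  exact tendsto_EF η h hP k (hvan v hv _ _ h)

/-- the point of the chart is in the cone -/
theorem j3_mem {v : T} {d : ℕ} {φ : T × (Fin d → ℂ) → T} (h : IsChart C x v d φ) : (x, v) ∈ C := by
  have h1 := h.mem.self_of_nhds
  simp only [h.map0] at h1
  exact h1

/-- near `0` the points of the chart in the fibre are in the cone -/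
theorem j3_mem_fibre {v : T} {d : ℕ} {φ : T × (Fin d → ℂ) → T} (h : IsChart C x v d φ) :
    ∀ᶠ s in 𝓝 (0 : Fin d → ℂ), (x, φ (x, s)) ∈ C := by
  have hc : Tendsto (fun s : Fin d → ℂ => (x, s)) (𝓝 0) (𝓝 (x, (0 : Fin d → ℂ))) :=
    (Continuous.prodMk_right x).tendsto 0
  exact hc.eventually h.mem

/-- For `s` near `0`, `v' = φ (x, s)` satisfies `(x, v') ∈ C`; by `Hk_tendsto` at `v'`, `tendsto_curve`,
`tendsto_along` and uniqueness of limits (`tendsto_nhds_unique`). -/
theorem Hk_chart (hC : IsConeStructure U C) (hP : AnalyticAt ℂ P x) (η : T) (k : ℕ)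
    (hvan : Van C P x η k) {v : T} {d : ℕ} {φ : T × (Fin d → ℂ) → T} (h : IsChart C x v d φ) :
    ∀ᶠ s in 𝓝 (0 : Fin d → ℂ), Hk C P x η k (φ (x, s)) =
      ((k.factorial : ℂ))⁻¹ • (dt^[k] (FF P x η φ)) (0, s) := by
  have hv := j3_mem h
  filter_upwards [j3_mem_fibre h, tendsto_curve η h, tendsto_along η h hP k (hvan v hv d φ h)] with
    s hs1 hs2 hs3
  have h1 := (Hk_tendsto hC hP η k hvan hs1).comp hs2
  exact tendsto_nhds_unique h1 hs3

/-- `(t, w) ↦ (t, c w)` maps `EF v` to `EF (c v)` (`smul_mem`); uniqueness of limits (`EF_neBot`). -/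
theorem Hk_smul (hC : IsConeStructure U C) (hP : AnalyticAt ℂ P x) (η : T) (k : ℕ)
    (hvan : Van C P x η k) {v : T} (hv : (x, v) ∈ C) {c : ℂ} (hc : c ≠ 0) :
    Hk C P x η k (c • v) = c • Hk C P x η k v := by
  have hcv : (x, c • v) ∈ C := hC.smul_mem _ hv c hc
  have h1 : Tendsto (fun q : ℂ × T => (q.1, c • q.2)) (EF C x η v) (EF C x η (c • v)) := by
    unfold EF
    rw [tendsto_nhdsWithin_iff]
    constructor
    · have hcc : Continuous (fun q : ℂ × T => (q.1, c • q.2)) := by fun_prop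
      have := hcc.tendsto ((0 : ℂ), v)
      exact this.mono_left nhdsWithin_le_nhds
    · filter_upwards [self_mem_nhdsWithin] with q hq
      exact ⟨hq.1, hC.smul_mem _ hq.2 c hc⟩
  have h2 := (Hk_tendsto hC hP η k hvan hcv).comp h1
  have h3 := (Hk_tendsto hC hP η k hvan hv).const_smul c
  have h4 : ((fun q : ℂ × T => (q.1 ^ k)⁻¹ • P (x + q.1 • η) q.2) ∘ fun q : ℂ × T => (q.1, c • q.2)) =
      fun q : ℂ × T => c • ((q.1 ^ k)⁻¹ • P (x + q.1 • η) q.2) := by
    funext q
    simp only [Function.comp, map_smul]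
    rw [smul_comm]
  rw [h4] at h2
  haveI := EF_neBot hC η hv
  exact tendsto_nhds_unique h2 h3

/-- Along the curve `t ↦ (t, φ (x + t η, 0))` the function is `0` for small `t`. -/
theorem Hk_frame (hC : IsConeStructure U C) (hP : AnalyticAt ℂ P x) (η : T) (k : ℕ)
    (hvan : Van C P x η k) {v : T} {d : ℕ} {φ : T × (Fin d → ℂ) → T} (h : IsChart C x v d φ)
    (h0 : ∀ᶠ y in 𝓝 x, P y (φ (y, 0)) = 0) : Hk C P x η k v = 0 := by
  have hv := j3_mem h
  have h1 := (tendsto_curve η h).self_of_nhds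
  rw [h.map0] at h1
  have h2 := (Hk_tendsto hC hP η k hvan hv).comp h1
  have hc2 : Tendsto (fun t : ℂ => x + t • η) (𝓝[≠] 0) (𝓝 x) := by
    have hcc : Continuous (fun t : ℂ => x + t • η) := by fun_prop
    have := hcc.tendsto 0
    simp only [zero_smul, add_zero] at this
    exact this.mono_left nhdsWithin_le_nhds
  have h3 : Tendsto (fun _ : ℂ => (0 : T)) (𝓝[≠] (0 : ℂ)) (𝓝 (Hk C P x η k v)) := by
    refine h2.congr' ?_
    filter_upwards [hc2.eventually h0] with t ht
    simp only [Function.comp]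
    rw [ht, smul_zero]
  exact (tendsto_nhds_unique h3 tendsto_const_nhds)

/-- `ξ ∘ H_k` is holomorphic on the fibre, in the charts `s ↦ φ (x, s)` (`Hk_chart`, `an_dt_iter`,
`an_FF`). -/
theorem Hk_holOn (hC : IsConeStructure U C) (hP : AnalyticAt ℂ P x) (η : T) (k : ℕ)
    (hvan : Van C P x η k) (ξ : T →L[ℂ] ℂ) :
    HolOn {v : T | (x, v) ∈ C} (fun v => ξ (Hk C P x η k v)) := by
  intro v hv
  obtain ⟨d, φ, h⟩ := exists_chart hC hv
  refine ⟨d, fun s => φ (x, s), ⟨?_, h.map0, h.inj, j3_mem_fibre h, ?_⟩, ?_⟩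
  · exact h.an.fun_comp_of_eq (analyticAt_const.prod analyticAt_id) rfl
  · intro S hS
    have h4 : {p : T × (Fin d → ℂ) | p.2 ∈ S} ∈ 𝓝 (x, (0 : Fin d → ℂ)) :=
      (continuous_snd.tendsto (x, (0 : Fin d → ℂ))) hS
    have h5 : Tendsto (fun w : T => (x, w)) (𝓝[{v : T | (x, v) ∈ C}] v) (𝓝[C] (x, v)) := by
      rw [tendsto_nhdsWithin_iff]
      constructor
      · exact ((Continuous.prodMk_right x).tendsto v).mono_left nhdsWithin_le_nhds
      · filter_upwards [self_mem_nhdsWithin] with w hw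
        exact hw
    filter_upwards [h5.eventually (h.onto _ h4)] with w hw
    obtain ⟨a, ha, he⟩ := hw
    have e1 : a.1 = x := (congrArg Prod.fst he).symm
    have e2 : w = φ a := congrArg Prod.snd he
    refine ⟨a.2, ha, ?_⟩
    simp only
    rw [e2, ← e1]
  · have h6 : (fun s : Fin d → ℂ => ξ (((k.factorial : ℂ))⁻¹ • (dt^[k] (FF P x η φ)) (0, s))) =ᶠ[𝓝 0]
        fun s => ξ (Hk C P x η k (φ (x, s))) := by
      filter_upwards [Hk_chart hC hP η k hvan h] with s hs
      rw [hs]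
    refine AnalyticAt.congr ?_ h6
    have h7 : AnalyticAt ℂ (fun s : Fin d → ℂ => (dt^[k] (FF P x η φ)) (0, s)) 0 :=
      (an_dt_iter (an_FF η h hP) k).fun_comp_of_eq (analyticAt_const.prod analyticAt_id) rfl
    exact (ξ.analyticAt _).comp (analyticAt_const.smul h7)

end Pool.Agent.RIG
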