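import Pool.Agent.RIG.J3
import Pool.Agent.RIG.G1

/-!
[RIG-J4] If the fibre at `x` is linearly normal then everything vanishes to infinite order.
-/

namespace Pool.Agent.RIG

open Filter Topology Asymptotics Pool.Agent.MP_d19687_ag

variable {T : Type*} [NormedAddCommGroup T] [NormedSpace ℂ T] [FiniteDimensional ℂ T]
  {U : Set T} {C : Set (T × T)}

/-- The frame through `x` and the projection along it (no regularity of `x` needed).
Proof: as in `exists_frame` choose `v : Fin r → T` in the fibre, independent with span `D_x`, and charts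
`φ i` at the `(x, v i)`; `X i y = φ i (y, 0)` are analytic, independent near `x`; `ρ` from
`exists_frame_coords`; `P y w = w - ∑ i, (ρ y w) i • X i y`. -/
theorem exists_proj (hC : IsConeStructure U C) (x : T) :
    ∃ (r : ℕ) (v : Fin r → T) (d : Fin r → ℕ) (φ : ∀ i, T × (Fin (d i) → ℂ) → T)
      (P : T → T →L[ℂ] T),
      (∀ i, IsChart C x (v i) (d i) (φ i)) ∧
      Submodule.span ℂ (Set.range v) = fibreSpan C x ∧
      Module.finrank ℂ (fibreSpan C x) = r ∧
      AnalyticAt ℂ P x ∧
      (∀ i, ∀ᶠ y in 𝓝 x, P y (φ i (y, 0)) = 0) ∧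
      (∀ᶠ y in 𝓝 x, ∀ w : T, P y w = 0 →
        w ∈ Submodule.span ℂ (Set.range fun i => φ i (y, 0))) ∧
      (∀ᶠ y in 𝓝 x, LinearIndependent ℂ fun i => φ i (y, 0)) := by
  obtain ⟨v, hvmem, hvspan, hvind⟩ :=
    Submodule.exists_fun_fin_finrank_span_eq ℂ {v : T | (x, v) ∈ C}
  change Fin (Module.finrank ℂ (fibreSpan C x)) → T at v
  have hchart : ∀ i, ∃ (d : ℕ) (φ : T × (Fin d → ℂ) → T), IsChart C x (v i) d φ :=
    fun i => exists_chart hC (hvmem i)
  choose d φ hφ using hchart
  have hXx : LinearIndependent ℂ (fun i => φ i (x, 0)) := by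
    have h1 : (fun i => φ i (x, 0)) = v := funext fun i => (hφ i).map0
    rw [h1]
    exact hvind
  have hXan : ∀ i, AnalyticAt ℂ (fun y => φ i (y, 0)) x := fun i => (hφ i).sec_an
  obtain ⟨ρ, hρan, hρ⟩ := exists_frame_coords (fun i y => φ i (y, 0)) x hXan hXx
  have hmem := frame_coords_mem (fun i y => φ i (y, 0)) x ρ hρ
  refine ⟨Module.finrank ℂ (fibreSpan C x), v, d, φ,
    fun y => ContinuousLinearMap.id ℂ T - ∑ i, ((ContinuousLinearMap.proj i :
      (Fin (Module.finrank ℂ (fibreSpan C x)) → ℂ) →L[ℂ] ℂ).comp (ρ y)).smulRight (φ i (y, 0)),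
    hφ, hvspan, rfl, ?_, ?_, ?_, frame_indep_eventually (fun i y => φ i (y, 0)) x hXan hXx⟩
  · refine analyticAt_const.sub (Finset.analyticAt_fun_sum _ fun i _ => ?_)
    have h1 : AnalyticAt ℂ (fun y => (ContinuousLinearMap.proj i :
        (Fin (Module.finrank ℂ (fibreSpan C x)) → ℂ) →L[ℂ] ℂ).comp (ρ y)) x :=
      ((ContinuousLinearMap.compL ℂ T (Fin (Module.finrank ℂ (fibreSpan C x)) → ℂ) ℂ
        (ContinuousLinearMap.proj i)).analyticAt _).comp hρan
    exact AnalyticAt.comp₂ (h := fun p : (T →L[ℂ] ℂ) × T =>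
        ContinuousLinearMap.smulRightL ℂ T T p.1 p.2)
        ((ContinuousLinearMap.smulRightL ℂ T T).analyticAt_bilinear (_, _)) h1 (hXan i)
  · intro i
    filter_upwards [hmem] with y hy
    have h1 := hy (φ i (y, 0)) (Submodule.subset_span ⟨i, rfl⟩)
    simp only [ContinuousLinearMap.sub_apply, ContinuousLinearMap.id_apply,
      ContinuousLinearMap.sum_apply, ContinuousLinearMap.smulRight_apply,
      ContinuousLinearMap.comp_apply, ContinuousLinearMap.proj_apply]
    exact sub_eq_zero.2 h1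
  · refine Filter.Eventually.of_forall fun y w hw => ?_
    simp only [ContinuousLinearMap.sub_apply, ContinuousLinearMap.id_apply,
      ContinuousLinearMap.sum_apply, ContinuousLinearMap.smulRight_apply,
      ContinuousLinearMap.comp_apply, ContinuousLinearMap.proj_apply] at hw
    rw [sub_eq_zero.1 hw]
    exact Submodule.sum_mem _ fun i _ => Submodule.smul_mem _ _ (Submodule.subset_span ⟨i, rfl⟩)

/-- By induction on `k`.  `Van 0` is trivial.  Let `Van k` hold.  For every linear form `ξ` the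
function `ξ ∘ H_k` is holomorphic on the fibre (`Hk_holOn`), homogeneous (`Hk_smul`), hence the
restriction of a linear form `ζ`; `ζ (v i) = ξ (H_k (v i)) = 0` (`Hk_frame`), and the `v i` span `D_x`
which contains the fibre, so `ξ (H_k v) = ζ v = 0` for all `v` in the fibre; so `H_k = 0` on the
fibre (linear forms separate points).  By `Hk_chart` `dt^[k] (FF φ) (0, s) = 0` for `s` near `0` for
every chart (`(x, φ (x, s)) ∈ C` for `s` near `0`), which is `Van (k + 1)`. -/
theorem van_all (hC : IsConeStructure U C) {x : T}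
    (hLN : LinearlyNormal {v : T | (x, v) ∈ C}) {P : T → T →L[ℂ] T} (hP : AnalyticAt ℂ P x)
    {r : ℕ} (v : Fin r → T) (d : Fin r → ℕ) (φ : ∀ i, T × (Fin (d i) → ℂ) → T)
    (hφ : ∀ i, IsChart C x (v i) (d i) (φ i))
    (hspan : Submodule.span ℂ (Set.range v) = fibreSpan C x)
    (hPφ : ∀ i, ∀ᶠ y in 𝓝 x, P y (φ i (y, 0)) = 0) (η : T) (k : ℕ) : Van C P x η k := by
  have hmemx : ∀ (w : T) (d : ℕ) (φ : T × (Fin d → ℂ) → T), IsChart C x w d φ → (x, w) ∈ C := by
    intro w d φ h
    have h1 := h.mem.self_of_nhds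
    simp only [h.map0] at h1
    exact h1
  induction k with
  | zero => intro w _ d φ _ j hj; exact absurd hj (Nat.not_lt_zero j)
  | succ k ih =>
    have hH : ∀ w, (x, w) ∈ C → Hk C P x η k w = 0 := by
      intro w hw
      by_contra hne
      obtain ⟨ξ, hξ⟩ := SeparatingDual.exists_ne_zero (R := ℂ) hne
      refine hξ ?_
      obtain ⟨ζ, hζ⟩ := hLN (fun v => ξ (Hk C P x η k v)) (Hk_holOn hC hP η k ih ξ)
        (by
          intro v hv c hc
          show ξ (Hk C P x η k (c • v)) = c * ξ (Hk C P x η k v)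
          rw [Hk_smul hC hP η k ih hv hc, map_smul, smul_eq_mul])
      have hz : ∀ u ∈ fibreSpan C x, ζ u = 0 := by
        intro u hu
        rw [← hspan] at hu
        have hle : Submodule.span ℂ (Set.range v) ≤ LinearMap.ker ζ := by
          rw [Submodule.span_le]
          rintro _ ⟨i, rfl⟩
          show ζ (v i) = 0
          rw [← hζ (v i) (hmemx (v i) (d i) (φ i) (hφ i)),
            Hk_frame hC hP η k ih (hφ i) (hPφ i), map_zero]
        exact hle hu
      rw [hζ w hw]
      exact hz w (Submodule.subset_span hw)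
    intro w hw d' φ' h j hj
    rcases Nat.lt_succ_iff_lt_or_eq.1 hj with hj' | rfl
    · exact ih w hw d' φ' h j hj'
    · have h1 := Hk_chart hC hP η j ih h
      have hc : Tendsto (fun s : Fin d' → ℂ => (x, s)) (𝓝 0) (𝓝 (x, (0 : Fin d' → ℂ))) :=
        (Continuous.prodMk_right x).tendsto 0
      have h2 := hc.eventually h.mem
      filter_upwards [h1, h2] with s hs1 hs2
      rw [hH _ hs2] at hs1
      have h3 : ((j.factorial : ℂ))⁻¹ ≠ 0 :=
        inv_ne_zero (Nat.cast_ne_zero.2 (Nat.factorial_ne_zero j))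
      exact (smul_eq_zero.1 hs1.symm).resolve_left h3

end Pool.Agent.RIG
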