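import Pool.Agent.RIG.J4

/-!
[RIG-J5] At a point with linearly normal fibre the rank of the distribution is locally constant.
-/

namespace Pool.Agent.RIG

open Filter Topology Asymptotics Pool.Agent.MP_d19687_ag

variable {T : Type*} [NormedAddCommGroup T] [NormedSpace ℂ T] [FiniteDimensional ℂ T]
  {U : Set T} {C : Set (T × T)}

/-- If the fibres near `x` are not all in the kernel of `P` then, by compactness of the unit sphere,
there is a point `(x, w)` of `C` near which `P` does not vanish on `C`.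
Proof: frequently in `𝓝 x` there is `w` with `(y, w) ∈ C`, `P y w ≠ 0`, and, scaling, `‖w‖ = 1`.
Compactness of `sphere 0 1` in `T` gives a cluster point `(x, w₀)` of such `(y, w)`, `‖w₀‖ = 1`; it
is in `closure C`, so in `C` by `hC.closed` (`x ∈ U`). -/
theorem exists_frequently (hC : IsConeStructure U C) {x : T} (hx : x ∈ U) (P : T → T →L[ℂ] T)
    (h : ∃ᶠ y in 𝓝 x, ∃ w, (y, w) ∈ C ∧ P y w ≠ 0) :
    ∃ w₀, (x, w₀) ∈ C ∧ ∃ᶠ q in 𝓝[C] (x, w₀), P q.1 q.2 ≠ 0 := by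
  by_contra hcon
  have hloc : ∀ w₀ ∈ Metric.sphere (0 : T) 1, ∀ᶠ q : T × T in 𝓝 (x, w₀),
      (q.1, q.2) ∈ C → P q.1 q.2 = 0 := by
    intro w₀ hw₀
    have hw0 : w₀ ≠ 0 := by
      rintro rfl
      simp at hw₀
    by_cases hmem : (x, w₀) ∈ C
    · have h1 : ¬ ∃ᶠ q in 𝓝[C] (x, w₀), P q.1 q.2 ≠ 0 := fun h1 => hcon ⟨w₀, hmem, h1⟩
      rw [not_frequently] at h1
      rw [eventually_nhdsWithin_iff] at h1
      filter_upwards [h1] with q hq hqC
      exact not_not.1 (hq hqC)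
    · have h1 : (x, w₀) ∉ closure C := fun h1 => hmem (hC.closed _ h1 hx hw0)
      have h2 : ∀ᶠ q : T × T in 𝓝 (x, w₀), q ∉ closure C :=
        isClosed_closure.isOpen_compl.mem_nhds h1
      filter_upwards [h2] with q hq hqC
      exact absurd (subset_closure hqC) hq
  have hK : IsCompact (Metric.sphere (0 : T) 1) := by
    have : ProperSpace T := FiniteDimensional.proper ℂ T
    exact isCompact_sphere 0 1
  have h2 : ∀ᶠ y in 𝓝 x, ∀ w ∈ Metric.sphere (0 : T) 1, (y, w) ∈ C → P y w = 0 :=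
    hK.eventually_forall_of_forall_eventually (P := fun y w => (y, w) ∈ C → P y w = 0) hloc
  obtain ⟨y, ⟨w, hw, hPw⟩, hy⟩ := (h.and_eventually h2).exists
  have hw0 : w ≠ 0 := hC.ne_zero _ hw
  have hn : ‖w‖ ≠ 0 := norm_ne_zero_iff.2 hw0
  have hc : ((‖w‖ : ℂ))⁻¹ ≠ 0 := inv_ne_zero (by exact_mod_cast hn)
  have h3 := hy (((‖w‖ : ℂ))⁻¹ • w) (by
    rw [mem_sphere_zero_iff_norm, norm_smul, norm_inv, Complex.norm_real, norm_norm,
      inv_mul_cancel₀ hn]) (hC.smul_mem _ hw _ hc)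
  rw [map_smul] at h3
  exact hPw ((smul_eq_zero.1 h3).resolve_left hc)

theorem j5_app {R E F : Type*} [NormedAddCommGroup R] [NormedSpace ℂ R] [NormedAddCommGroup E]
    [NormedSpace ℂ E] [NormedAddCommGroup F]
    [NormedSpace ℂ F] {G : R → E →L[ℂ] F} {u : R → E} {x : R} (hG : AnalyticAt ℂ G x)
    (hu : AnalyticAt ℂ u x) : AnalyticAt ℂ (fun y => G y (u y)) x := by
  have h1 := (ContinuousLinearMap.id ℂ (E →L[ℂ] F)).analyticAt_bilinear (G x, u x)
  exact AnalyticAt.comp₂ h1 hG hu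

theorem j5_flat {W : Type*} [NormedAddCommGroup W] [NormedSpace ℂ W] {G : ℂ → W} {k : ℕ} {A : W}
    (h : Tendsto (fun t : ℂ => (t ^ (k + 1))⁻¹ • G t) (𝓝[≠] 0) (𝓝 A)) :
    Tendsto (fun t : ℂ => (t ^ k)⁻¹ • G t) (𝓝[≠] 0) (𝓝 0) := by
  have h0 : Tendsto (fun t : ℂ => t) (𝓝[≠] 0) (𝓝 0) := tendsto_id.mono_left nhdsWithin_le_nhds
  have h1 := h0.smul h
  rw [zero_smul] at h1
  refine h1.congr' ?_
  filter_upwards [self_mem_nhdsWithin] with t ht
  have ht' : t ≠ 0 := ht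
  rw [smul_smul]
  congr 1
  rw [pow_succ]
  field_simp

theorem j5_radius {ε a : ℝ} (hε : 0 < ε) (ha : 0 ≤ a) (h : a < ε) : ∃ R : ℝ, 1 < R ∧ R * a < ε := by
  rcases eq_or_lt_of_le ha with h0 | h0
  · exact ⟨2, one_lt_two, by rw [← h0, mul_zero]; exact hε⟩
  · refine ⟨(1 + ε / a) / 2, ?_, ?_⟩
    · have : 1 < ε / a := by rwa [lt_div_iff₀ h0, one_mul]
      linarith
    · have : (1 + ε / a) / 2 * a = (a + ε) / 2 := by
        field_simp
      rw [this]
      linarith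

/-- Proof.  Let `r, v, d, φ, P` be as in `exists_proj`.  Suppose `x ∉ regularLocus`, so frequently
`finrank D_y ≠ r`; for such `y` near `x` some `w` with `(y, w) ∈ C` has `P y w ≠ 0`, otherwise
`D_y ≤ span (φ i (y, 0)) ≤ D_y` has dimension `r`.  Let `w₀` be as in `exists_frequently` and `ψ` a
chart at `(x, w₀)`.  Choose `ε > 0` such that `P` is analytic on `ball x ε`, `ψ` is analytic on
`ball x ε ×ˢ ball 0 ε` with `(y, ψ (y, s)) ∈ C` there.  By `onto` (with `S` this product) and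
`exists_frequently` there are `y₁ ∈ ball x ε`, `s₁ ∈ ball 0 ε` with `P y₁ (ψ (y₁, s₁)) ≠ 0`.  Put
`η = y₁ - x`, `v₁ = ψ (x, s₁)`, `(x, v₁) ∈ C`, `G t = P (x + t η) (ψ (x + t η, s₁))`, analytic on the
open convex set `{t | x + t η ∈ ball x ε} ∋ 0, 1`, `G 1 ≠ 0`.  By `van_all` (for all `k`) and
`Hk_tendsto` at `v₁`, along the curve `t ↦ (t, ψ (x + t η, s₁))`, which tends to `(0, v₁)` in
`EF C x η v₁`, the functions `(t^(k+1))⁻¹ • G t` have the limit `Hk (k+1) v₁`, so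
`(t^k)⁻¹ • G t = t • (t^(k+1))⁻¹ • G t → 0` as `t → 0`, `t ≠ 0`, for all `k`.  By `eventually_zero_of_flat` `G = 0` near `0`, so
`G = 0` on the convex open set (`AnalyticOnNhd.eqOn_zero_of_preconnected_of_eventuallyEq_zero`), a
contradiction with `G 1 ≠ 0`. -/
theorem mem_regularLocus (hC : IsConeStructure U C) {x : T} (hx : x ∈ U)
    (hLN : LinearlyNormal {v : T | (x, v) ∈ C}) : x ∈ regularLocus U C := by
  classical
  have : CompleteSpace T := FiniteDimensional.complete ℂ T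
  obtain ⟨r, v, d, φ, P, hφ, hspan, hr, hP, hPφ, hker, hind⟩ := exists_proj hC x
  refine ⟨hx, ?_⟩
  by_contra hnot
  have hfr0 : ∃ᶠ y in 𝓝 x, ¬ Module.finrank ℂ (fibreSpan C y) = Module.finrank ℂ (fibreSpan C x) :=
    Filter.not_eventually.1 hnot
  have hsec : ∀ᶠ y in 𝓝 x, ∀ i, φ i (y, 0) ∈ fibreSpan C y := by
    rw [Filter.eventually_all]
    exact fun i => (hφ i).sec_mem
  have hfr : ∃ᶠ y in 𝓝 x, ∃ w, (y, w) ∈ C ∧ P y w ≠ 0 := by
    refine (hfr0.and_eventually (hker.and (hind.and hsec))).mono ?_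
    rintro y ⟨h1, h2, h3, h4⟩
    by_contra hno
    push Not at hno
    apply h1
    rw [hr]
    have h5 : fibreSpan C y = Submodule.span ℂ (Set.range fun i => φ i (y, 0)) := by
      apply le_antisymm
      · refine Submodule.span_le.2 ?_
        intro w hw
        exact h2 w (hno w hw)
      · rw [Submodule.span_le]
        rintro _ ⟨i, rfl⟩
        exact h4 i
    rw [h5, finrank_span_eq_card h3, Fintype.card_fin]
  obtain ⟨w₀, hw₀, hfreq⟩ := exists_frequently hC hx P hfr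
  obtain ⟨e, ψ, hψ⟩ := exists_chart hC hw₀
  have hev : ∀ᶠ q in 𝓝 (x, (0 : Fin e → ℂ)), AnalyticAt ℂ ψ q ∧ (q.1, ψ q) ∈ C :=
    hψ.an.eventually_analyticAt.and hψ.mem
  obtain ⟨ε₁, hε₁, h1⟩ := Metric.eventually_nhds_iff_ball.1 hev
  obtain ⟨ε₂, hε₂, h2⟩ := Metric.eventually_nhds_iff_ball.1 hP.eventually_analyticAt
  obtain ⟨ε, hε, hεa, hεb⟩ : ∃ ε > 0, ε ≤ ε₁ ∧ ε ≤ ε₂ :=
    ⟨min ε₁ ε₂, lt_min hε₁ hε₂, min_le_left _ _, min_le_right _ _⟩
  have hS := hψ.onto (Metric.ball (x, (0 : Fin e → ℂ)) ε) (Metric.ball_mem_nhds _ hε)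
  obtain ⟨q, hq1, a, ha, hqa⟩ := (hfreq.and_eventually hS).exists
  obtain ⟨y₁, s₁⟩ := a
  rw [hqa] at hq1
  have hq1' : P y₁ (ψ (y₁, s₁)) ≠ 0 := hq1
  rw [← ball_prod_same, Set.mem_prod] at ha
  obtain ⟨hy₁, hs₁⟩ := ha
  have hys : ∀ y ∈ Metric.ball x ε, (y, s₁) ∈ Metric.ball (x, (0 : Fin e → ℂ)) ε₁ := by
    intro y hy
    have : (y, s₁) ∈ Metric.ball (x, (0 : Fin e → ℂ)) ε := by
      rw [← ball_prod_same, Set.mem_prod]
      exact ⟨hy, hs₁⟩
    exact Metric.ball_subset_ball hεa this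
  obtain ⟨η, hη⟩ : ∃ η, η = y₁ - x := ⟨_, rfl⟩
  have hηn : ‖η‖ < ε := by
    rw [hη, ← dist_eq_norm]
    exact hy₁
  obtain ⟨R, hR1, hR2⟩ := j5_radius hε (norm_nonneg η) hηn
  have hball : ∀ t ∈ Metric.ball (0 : ℂ) R, x + t • η ∈ Metric.ball x ε := by
    intro t ht
    rw [Metric.mem_ball, dist_zero_right] at ht
    rw [Metric.mem_ball, dist_eq_norm, add_sub_cancel_left, norm_smul]
    exact lt_of_le_of_lt (mul_le_mul_of_nonneg_right ht.le (norm_nonneg _)) hR2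
  have haff : ∀ t : ℂ, AnalyticAt ℂ (fun t : ℂ => x + t • η) t := fun t =>
    analyticAt_const.add (analyticAt_id.smul analyticAt_const)
  have hψan : ∀ t ∈ Metric.ball (0 : ℂ) R, AnalyticAt ℂ (fun t : ℂ => ψ (x + t • η, s₁)) t := by
    intro t ht
    exact AnalyticAt.comp₂ (h := ψ) (f := fun t : ℂ => x + t • η) (g := fun _ => s₁)
      (h1 _ (hys _ (hball t ht))).1 (haff t) analyticAt_const
  have hPan : ∀ t ∈ Metric.ball (0 : ℂ) R, AnalyticAt ℂ (fun t : ℂ => P (x + t • η)) t := by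
    intro t ht
    exact AnalyticAt.comp (g := P) (f := fun t : ℂ => x + t • η)
      (h2 _ (Metric.ball_subset_ball hεb (hball t ht))) (haff t)
  obtain ⟨G, hG⟩ : ∃ G : ℂ → T, G = fun t => P (x + t • η) (ψ (x + t • η, s₁)) := ⟨_, rfl⟩
  have hGan : AnalyticOnNhd ℂ G (Metric.ball (0 : ℂ) R) := by
    intro t ht
    rw [hG]
    exact j5_app (hPan t ht) (hψan t ht)
  have h0R : (0 : ℂ) ∈ Metric.ball (0 : ℂ) R := Metric.mem_ball_self (by linarith)
  have hx0 : x + (0 : ℂ) • η = x := by rw [zero_smul, add_zero]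
  have hv₁ : (x, ψ (x, s₁)) ∈ C := (h1 _ (hys x (Metric.mem_ball_self hε))).2
  have hcurve : Tendsto (fun t : ℂ => (t, ψ (x + t • η, s₁))) (𝓝[≠] 0)
      (EF C x η (ψ (x, s₁))) := by
    unfold EF
    rw [tendsto_nhdsWithin_iff]
    constructor
    · have hc : ContinuousAt (fun t : ℂ => (t, ψ (x + t • η, s₁))) 0 :=
        continuousAt_id.prodMk (hψan 0 h0R).continuousAt
      have hc' := hc.tendsto
      simp only [hx0] at hc'
      exact hc'.mono_left nhdsWithin_le_nhds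
    · have h3 : ∀ᶠ t in 𝓝[≠] (0 : ℂ), t ∈ Metric.ball (0 : ℂ) R :=
        nhdsWithin_le_nhds (Metric.ball_mem_nhds _ (by linarith))
      filter_upwards [h3, self_mem_nhdsWithin] with t ht ht'
      exact ⟨ht', (h1 _ (hys _ (hball t ht))).2⟩
  have hflat : ∀ k : ℕ, Tendsto (fun t : ℂ => (t ^ k)⁻¹ • G t) (𝓝[≠] 0) (𝓝 0) := by
    intro k
    have h3 := (Hk_tendsto hC hP η (k + 1)
      (van_all hC hLN hP v d φ hφ hspan hPφ η (k + 1)) hv₁).comp hcurve
    refine j5_flat (A := Hk C P x η (k + 1) (ψ (x, s₁))) ?_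
    rw [hG]
    exact h3
  have hzero := eventually_zero_of_flat (hGan 0 h0R) hflat
  have hEq := hGan.eqOn_zero_of_preconnected_of_eventuallyEq_zero
    (convex_ball (0 : ℂ) R).isPreconnected h0R hzero
  have h1R : (1 : ℂ) ∈ Metric.ball (0 : ℂ) R := by
    rw [Metric.mem_ball, dist_zero_right, norm_one]
    exact hR1
  have h4 := hEq h1R
  apply hq1'
  rw [hG] at h4
  have h5 : x + (1 : ℂ) • η = y₁ := by rw [one_smul, hη, add_sub_cancel]
  simp only [h5] at h4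
  exact h4

/-- If `D_x` is everything then `x` is regular: the rank is lower semicontinuous (`exists_proj`:
near `x` there are `r` independent vectors in `D_y`) and at most `dim T`. -/
theorem mem_regularLocus_of_top (hC : IsConeStructure U C) {x : T} (hx : x ∈ U)
    (h : fibreSpan C x = ⊤) : x ∈ regularLocus U C := by
  obtain ⟨r, v, d, φ, P, hφ, hspan, hr, hP, hPφ, hker, hlin⟩ := exists_proj hC x
  refine ⟨hx, ?_⟩
  have hmem : ∀ᶠ y in 𝓝 x, ∀ i, φ i (y, 0) ∈ fibreSpan C y :=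
    eventually_all.2 fun i => (hφ i).sec_mem
  filter_upwards [hlin, hmem] with y hy1 hy2
  have h1 : Module.finrank ℂ (Submodule.span ℂ (Set.range fun i => φ i (y, 0))) = r := by
    rw [finrank_span_eq_card hy1, Fintype.card_fin]
  have h2 : Submodule.span ℂ (Set.range fun i => φ i (y, 0)) ≤ fibreSpan C y := by
    rw [Submodule.span_le]
    rintro _ ⟨i, rfl⟩
    exact hy2 i
  have h3 := Submodule.finrank_mono h2
  have h4 := Submodule.finrank_le (fibreSpan C y)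
  have h5 : Module.finrank ℂ T = r := by
    rw [← hr, h, finrank_top]
  omega

end Pool.Agent.RIG
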