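import Pool.Agent.RIG.Geo

/-!
RIG (MP_d19687_ag): holomorphic functions on a cone, linear normality, and the definitions used in
the proof that the fibre at a point with a jump of the span is not linearly normal.
-/

namespace Pool.Agent.RIG

open Filter Topology Asymptotics Pool.Agent.MP_d19687_ag

section LN

variable {V : Type*} [NormedAddCommGroup V] [NormedSpace ℂ V]

/-- A local chart of the submanifold `Z` at `v` (as in `IsSmoothCone.chart`). -/
structure IsChartZ (Z : Set V) (v : V) (d : ℕ) (φ : (Fin d → ℂ) → V) : Prop where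
  an : AnalyticAt ℂ φ 0
  map0 : φ 0 = v
  inj : Function.Injective (fderiv ℂ φ 0)
  mem : ∀ᶠ s in 𝓝 (0 : Fin d → ℂ), φ s ∈ Z
  onto : ∀ S ∈ 𝓝 (0 : Fin d → ℂ), ∀ᶠ w in 𝓝[Z] v, w ∈ φ '' S

/-- `h` is a holomorphic function on the submanifold `Z`: it is analytic in a chart around each
point. -/
def HolOn (Z : Set V) (h : V → ℂ) : Prop :=
  ∀ v ∈ Z, ∃ (d : ℕ) (φ : (Fin d → ℂ) → V), IsChartZ Z v d φ ∧ AnalyticAt ℂ (fun s => h (φ s)) 0

/-- Linear normality of the (punctured affine) cone `Z`: every holomorphic function on `Z` which is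
homogeneous of degree one is the restriction of a linear form. -/
def LinearlyNormal (Z : Set V) : Prop :=
  ∀ h : V → ℂ, HolOn Z h → (∀ v ∈ Z, ∀ c : ℂ, c ≠ 0 → h (c • v) = c * h v) →
    ∃ ξ : V →ₗ[ℂ] ℂ, ∀ v ∈ Z, h v = ξ v

/-- The cone `Z` occurs as the fibre, at a point `x` with a nonzero `𝔣²`, of a cone structure as in
the problem. -/
def OccursAt {V : Type} [NormedAddCommGroup V] [NormedSpace ℂ V] (Z : Set V) : Prop :=
  ∃ (T : Type) (_ : NormedAddCommGroup T) (_ : NormedSpace ℂ T) (_ : FiniteDimensional ℂ T)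
    (U : Set T) (C : Set (T × T)),
    IsConeStructure U C ∧ IsBracketGenerating U C ∧
    ∃ x ∈ U, HasNonzeroF2 C x ∧ ∃ L : V ≃ₗ[ℂ] T, {v : T | (x, v) ∈ C} = L '' Z

end LN

section J

variable {S W : Type*} [NormedAddCommGroup S] [NormedSpace ℂ S]
  [NormedAddCommGroup W] [NormedSpace ℂ W]

/-- Derivative with respect to the first variable `t`. -/
noncomputable def dt (F : ℂ × S → W) : ℂ × S → W := fun q => fderiv ℂ F q (1, 0)

variable {T : Type*} [NormedAddCommGroup T] [NormedSpace ℂ T]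

/-- The function `(t, s) ↦ P_{x + t η} φ (x + t η, s)`. -/
noncomputable def FF (P : T → T →L[ℂ] T) (x η : T) {d : ℕ} (φ : T × (Fin d → ℂ) → T)
    (q : ℂ × (Fin d → ℂ)) : T := P (x + q.1 • η) (φ (x + q.1 • η, q.2))

/-- All functions `FF φ` vanish to order `k` in `t` along `t = 0`. -/
def Van (C : Set (T × T)) (P : T → T →L[ℂ] T) (x η : T) (k : ℕ) : Prop :=
  ∀ v, (x, v) ∈ C → ∀ (d : ℕ) (φ : T × (Fin d → ℂ) → T), IsChart C x v d φ →
    ∀ j < k, ∀ᶠ s in 𝓝 (0 : Fin d → ℂ), (dt^[j] (FF P x η φ)) (0, s) = 0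

/-- The filter `(t, w) → (0, v)`, `t ≠ 0`, `w ∈ C_{x + t η}`. -/
noncomputable def EF (C : Set (T × T)) (x η v : T) : Filter (ℂ × T) :=
  𝓝[{q : ℂ × T | q.1 ≠ 0 ∧ (x + q.1 • η, q.2) ∈ C}] ((0 : ℂ), v)

open Classical in
/-- `H_k v = ∂_t^k (FF φ) (0, 0) / k!` for a chosen chart `φ` at `(x, v)`. -/
noncomputable def Hk (C : Set (T × T)) (P : T → T →L[ℂ] T) (x η : T) (k : ℕ) (v : T) : T :=
  if h : ∃ (d : ℕ) (φ : T × (Fin d → ℂ) → T), IsChart C x v d φ then
    ((k.factorial : ℂ))⁻¹ • (dt^[k] (FF P x η h.choose_spec.choose)) (0, 0)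
  else 0

end J

end Pool.Agent.RIG
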