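import Pool.Agent.RIG.JDefs

/-!
[RIG-K1] The graph of a holomorphic function of degree one on a smooth cone.
-/

namespace Pool.Agent.RIG

open Filter Topology Asymptotics Pool.Agent.MP_d19687_ag

variable {V : Type*} [NormedAddCommGroup V] [NormedSpace ℂ V] [FiniteDimensional ℂ V]
  {Z : Set V} {h : V → ℂ}

/-- The graph cone. -/
def graphCone (Z : Set V) (h : V → ℂ) : Set (V × ℂ) := (fun z => (z, h z)) '' Z

/-- In a chart `φ` at `v ∈ Z`, `h ∘ φ` is continuous at `0`, and points of `Z` near `v` are `φ s`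
with `s` in any given neighbourhood of `0` (`onto`). -/
theorem HolOn.continuousOn (hh : HolOn Z h) : ContinuousOn h Z := by
  intro v hv
  obtain ⟨d, φ, H, han⟩ := hh v hv
  intro W hW
  have h0 : h (φ 0) = h v := by rw [H.map0]
  have hS : {s : Fin d → ℂ | h (φ s) ∈ W} ∈ 𝓝 (0 : Fin d → ℂ) := by
    have hc := han.continuousAt
    have hW' : W ∈ 𝓝 (h (φ 0)) := by rw [h0]; exact hW
    exact hc hW'
  show ∀ᶠ w in 𝓝[Z] v, h w ∈ W
  filter_upwards [H.onto _ hS] with w hw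
  obtain ⟨s, hs, rfl⟩ := hw
  exact hs

/-- Immersions: `s = O(φ s - φ 0)` near `0` for a chart. (`HasStrictFDerivAt`,
injectivity of the derivative and finite dimension.) -/
theorem IsChartZ.bound {v : V} {d : ℕ} {φ : (Fin d → ℂ) → V} (H : IsChartZ Z v d φ) :
    (fun s : Fin d → ℂ => s) =O[𝓝 0] fun s => φ s - φ 0 := by
  have h1 := H.an.differentiableAt.hasFDerivAt
  obtain ⟨K, -, hK⟩ := LinearMap.exists_antilipschitzWith
    ((fderiv ℂ φ 0 : (Fin d → ℂ) →L[ℂ] V) : (Fin d → ℂ) →ₗ[ℂ] V)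
    (LinearMap.ker_eq_bot.2 H.inj)
  have h2 := hasFDerivAt_iff_isLittleO.1 h1
  have hK' : ∀ s : Fin d → ℂ, ‖s‖ ≤ K * ‖fderiv ℂ φ 0 s‖ := fun s => by
    simpa using hK.le_mul_dist s 0
  have hK1 : (0 : ℝ) < (2 * ((K : ℝ) + 1))⁻¹ := by positivity
  refine IsBigO.of_bound (2 * (K + 1)) ?_
  filter_upwards [h2.bound hK1] with s hs
  rw [sub_zero] at hs
  have e1 := hK' s
  have e2 : ‖fderiv ℂ φ 0 s‖ ≤ ‖φ s - φ 0‖ + ‖φ s - φ 0 - fderiv ℂ φ 0 s‖ := by
    have := norm_sub_le (φ s - φ 0) (φ s - φ 0 - fderiv ℂ φ 0 s)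
    rwa [sub_sub_cancel] at this
  have hKp : (0 : ℝ) < (K : ℝ) + 1 := by positivity
  have e3 : (K + 1) * ‖φ s - φ 0 - fderiv ℂ φ 0 s‖ ≤ 1 / 2 * ‖s‖ := by
    calc ((K : ℝ) + 1) * ‖φ s - φ 0 - fderiv ℂ φ 0 s‖ ≤
        ((K : ℝ) + 1) * ((2 * ((K : ℝ) + 1))⁻¹ * ‖s‖) :=
          mul_le_mul_of_nonneg_left hs hKp.le
      _ = 1 / 2 * ‖s‖ := by field_simp
  have e4 : (K : ℝ) * ‖fderiv ℂ φ 0 s‖ ≤ (K + 1) * ‖fderiv ℂ φ 0 s‖ := by
    nlinarith [norm_nonneg (fderiv ℂ φ 0 s)]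
  have e5 := mul_le_mul_of_nonneg_left e2 hKp.le
  nlinarith [norm_nonneg s]

theorem k1_isBigO {v : V} (hh : HolOn Z h) (hv : v ∈ Z) :
    (fun w => h w - h v) =O[𝓝[Z] v] fun w => w - v := by
  obtain ⟨d, φ, H, han⟩ := hh v hv
  have h1 := han.differentiableAt.isBigO_sub
  simp only [sub_zero] at h1
  have h2 := h1.trans H.bound
  rw [H.map0] at h2
  obtain ⟨C, hC⟩ := h2.bound
  refine IsBigO.of_bound C ?_
  filter_upwards [H.onto _ hC] with w hw
  obtain ⟨s, hs, rfl⟩ := hw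
  exact hs

theorem k1_bound (hZ : IsSmoothCone Z) (hh : HolOn Z h)
    (hhom : ∀ v ∈ Z, ∀ c : ℂ, c ≠ 0 → h (c • v) = c * h v) :
    ∃ M : ℝ, ∀ v ∈ Z, ‖h v‖ ≤ M * ‖v‖ := by
  have hK : IsCompact (Metric.sphere (0 : V) 1 ∩ (Z ∪ {0})) :=
    (isCompact_sphere (0 : V) 1).inter_right hZ.isClosed
  have hKZ : Metric.sphere (0 : V) 1 ∩ (Z ∪ {0}) ⊆ Z := by
    rintro w ⟨hw1, hw2⟩
    rcases hw2 with hw2 | hw2
    · exact hw2
    · rw [Set.mem_singleton_iff] at hw2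
      rw [hw2, mem_sphere_zero_iff_norm, norm_zero] at hw1
      exact absurd hw1 zero_ne_one
  obtain ⟨M, hM⟩ := hK.exists_bound_of_continuousOn (hh.continuousOn.mono hKZ)
  refine ⟨M, fun v hv => ?_⟩
  have hv0 : ‖v‖ ≠ 0 := norm_ne_zero_iff.2 (hZ.ne_zero v hv)
  have hc0 : ((‖v‖ : ℂ))⁻¹ ≠ 0 := inv_ne_zero (by exact_mod_cast hv0)
  have hw : ((‖v‖ : ℂ))⁻¹ • v ∈ Metric.sphere (0 : V) 1 ∩ (Z ∪ {0}) := by
    refine ⟨?_, Or.inl (hZ.smul_mem v hv _ hc0)⟩
    rw [mem_sphere_zero_iff_norm, norm_smul, norm_inv, Complex.norm_real, norm_norm,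
      inv_mul_cancel₀ hv0]
  have h1 := hM _ hw
  rw [hhom v hv _ hc0, norm_mul, norm_inv, Complex.norm_real, norm_norm] at h1
  have h2 : 0 < ‖v‖ := lt_of_le_of_ne (norm_nonneg v) (Ne.symm hv0)
  rw [inv_mul_le_iff₀ h2] at h1
  linarith [mul_comm M ‖v‖]

theorem k1_closed (hZ : IsSmoothCone Z) (hh : HolOn Z h)
    (hhom : ∀ v ∈ Z, ∀ c : ℂ, c ≠ 0 → h (c • v) = c * h v) :
    IsClosed (graphCone Z h ∪ {0}) := by
  obtain ⟨M, hM⟩ := k1_bound hZ hh hhom
  apply IsSeqClosed.isClosed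
  intro x p hx hp
  have hp1 : Tendsto (fun n => (x n).1) atTop (𝓝 p.1) := (continuous_fst.tendsto p).comp hp
  have hp2 : Tendsto (fun n => (x n).2) atTop (𝓝 p.2) := (continuous_snd.tendsto p).comp hp
  by_cases h0 : p.1 = 0
  · right
    have h1 : ∀ n, ‖(x n).2‖ ≤ M * ‖(x n).1‖ := by
      intro n
      rcases hx n with hn | hn
      · obtain ⟨z, hz, hzn⟩ := hn
        rw [← hzn]
        exact hM z hz
      · rw [Set.mem_singleton_iff] at hn
        rw [hn]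
        simp
    have h2 : ‖p.2‖ ≤ M * ‖p.1‖ :=
      le_of_tendsto_of_tendsto' hp2.norm (hp1.norm.const_mul M) h1
    rw [h0, norm_zero, mul_zero] at h2
    rw [Set.mem_singleton_iff]
    exact Prod.ext h0 (norm_le_zero_iff.1 h2)
  · left
    have h1 : ∀ᶠ n in atTop, (x n).1 ≠ 0 := hp1.eventually_ne h0
    have h2 : ∀ᶠ n in atTop, (x n).1 ∈ Z ∧ (x n).2 = h (x n).1 := by
      filter_upwards [h1] with n hn
      rcases hx n with hn' | hn'
      · obtain ⟨z, hz, hzn⟩ := hn'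
        rw [← hzn]
        exact ⟨hz, rfl⟩
      · rw [Set.mem_singleton_iff] at hn'
        rw [hn'] at hn
        exact absurd rfl hn
    have h3 : p.1 ∈ Z := by
      have h4 : p.1 ∈ Z ∪ {0} :=
        hZ.isClosed.mem_of_tendsto hp1 (h2.mono fun n hn => Or.inl hn.1)
      rcases h4 with h4 | h4
      · exact h4
      · exact absurd h4 h0
    have h5 : Tendsto (fun n => (x n).1) atTop (𝓝[Z] p.1) :=
      tendsto_nhdsWithin_iff.2 ⟨hp1, h2.mono fun n hn => hn.1⟩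
    have h6 : Tendsto (fun n => h (x n).1) atTop (𝓝 (h p.1)) :=
      (hh.continuousOn p.1 h3).tendsto.comp h5
    have h7 : p.2 = h p.1 :=
      tendsto_nhds_unique (hp2.congr' (h2.mono fun n hn => hn.2)) h6
    exact ⟨p.1, h3, Prod.ext rfl h7.symm⟩

/-- `ne_zero`, `smul_mem` are clear.  Closedness of the graph with `0`: let `(z_n, h z_n) → (z, c)`; if
`z ≠ 0` then `z ∈ Z` (`isClosed`) and `c = h z` by continuity on `Z`; if `z = 0` then `c = 0`:
`|h z| ≤ M ‖z‖` on `Z` by homogeneity, where `M` bounds `|h|` on the compact set `Z ∩ sphere 0 1`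
(closed because `Z ∪ {0}` is).  Connected: image of `Z` under a map continuous on `Z`.  Charts:
`s ↦ (φ s, h (φ s))`. -/
theorem isSmoothCone_graph (hZ : IsSmoothCone Z) (hh : HolOn Z h)
    (hhom : ∀ v ∈ Z, ∀ c : ℂ, c ≠ 0 → h (c • v) = c * h v) : IsSmoothCone (graphCone Z h) where
  ne_zero := by
    rintro _ ⟨z, hz, rfl⟩ h0
    exact hZ.ne_zero z hz (congrArg Prod.fst h0)
  smul_mem := by
    rintro _ ⟨z, hz, rfl⟩ c hc
    exact ⟨c • z, hZ.smul_mem z hz c hc, Prod.ext rfl (hhom z hz c hc)⟩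
  isClosed := k1_closed hZ hh hhom
  isConnected := hZ.isConnected.image _ (continuousOn_id.prodMk hh.continuousOn)
  chart := by
    rintro _ ⟨z, hz, rfl⟩
    obtain ⟨d, φ, hφ, hhφ⟩ := hh z hz
    refine ⟨d, fun s => (φ s, h (φ s)), AnalyticAt.prod hφ.an hhφ, ?_, ?_, ?_, ?_⟩
    · show (φ 0, h (φ 0)) = (z, h z)
      rw [hφ.map0]
    · have h1 : HasFDerivAt (fun s => (φ s, h (φ s)))
          ((fderiv ℂ φ 0).prod (fderiv ℂ (fun s => h (φ s)) 0)) 0 :=
        hφ.an.differentiableAt.hasFDerivAt.prodMk hhφ.differentiableAt.hasFDerivAt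
      rw [h1.fderiv]
      intro a b hab
      exact hφ.inj (congrArg Prod.fst hab)
    · filter_upwards [hφ.mem] with s hs
      exact ⟨φ s, hs, rfl⟩
    · intro S hS
      have h6 : Tendsto (fun w : V × ℂ => w.1) (𝓝[graphCone Z h] (z, h z)) (𝓝[Z] z) :=
        (continuous_fst.continuousWithinAt (s := graphCone Z h)
          (x := (z, h z))).tendsto_nhdsWithin (by
            rintro _ ⟨u, hu, rfl⟩
            exact hu)
      filter_upwards [h6.eventually (hφ.onto S hS), self_mem_nhdsWithin] with w hw hw'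
      obtain ⟨s, hs, hsw⟩ := hw
      obtain ⟨u, hu, rfl⟩ := hw'
      refine ⟨s, hs, ?_⟩
      show (φ s, h (φ s)) = (u, h u)
      rw [hsw]

/-- Let `γ = (γ₁, γ₂)` be a curve in the graph with `γ' 0 = (0, 1)`, `γ₁ 0 = v ∈ Z`.  In a chart `φ` at
`v`: for `t` near `0`, `γ₁ t = φ (s t)` with `s t` small (`onto`), `s t = O(γ₁ t - v) = o(t)`
(`IsChartZ.bound`, `γ₁' 0 = 0`), so `γ₂ t - γ₂ 0 = h (φ (s t)) - h (φ 0) = O(s t) = o(t)`, but
`γ₂' 0 = 1`, a contradiction. -/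
theorem not_isTangent_graph (hh : HolOn Z h) :
    ∀ z ∈ graphCone Z h, ¬ IsTangent (graphCone Z h) z ((0 : V), (1 : ℂ)) := by
  rintro z ⟨v, hv, rfl⟩ ⟨γ, han, h0, hd, hmem⟩
  have hD : HasDerivAt γ ((0 : V), (1 : ℂ)) 0 := by
    rw [← hd]; exact han.differentiableAt.hasDerivAt
  have hD1 : HasDerivAt (fun t => (γ t).1) (0 : V) 0 :=
    (ContinuousLinearMap.fst ℂ V ℂ).hasFDerivAt.comp_hasDerivAt (0 : ℂ) hD
  have hD2 : HasDerivAt (fun t => (γ t).2) (1 : ℂ) 0 :=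
    (ContinuousLinearMap.snd ℂ V ℂ).hasFDerivAt.comp_hasDerivAt (0 : ℂ) hD
  have hg : ∀ᶠ t in 𝓝 (0 : ℂ), (γ t).1 ∈ Z ∧ (γ t).2 = h (γ t).1 := by
    filter_upwards [hmem] with t ht
    obtain ⟨w, hw, hwt⟩ := ht
    rw [← hwt]
    exact ⟨hw, rfl⟩
  have h01 : (γ 0).1 = v := by rw [h0]
  have h02 : (γ 0).2 = h v := by rw [h0]
  have ht : Tendsto (fun t => (γ t).1) (𝓝 (0 : ℂ)) (𝓝[Z] v) := by
    refine tendsto_nhdsWithin_iff.2 ⟨?_, hg.mono fun t ht => ht.1⟩
    have := hD1.continuousAt.tendsto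
    rwa [h01] at this
  have hO : (fun t => (γ t).2 - (γ 0).2) =O[𝓝 (0 : ℂ)] fun t => (γ t).1 - (γ 0).1 := by
    have h1 := (k1_isBigO hh hv).comp_tendsto ht
    refine (h1.congr' ?_ ?_)
    · filter_upwards [hg] with t ht
      simp only [Function.comp_apply]
      rw [ht.2, h02]
    · filter_upwards with t
      simp only [Function.comp_apply]
      rw [h01]
  have ho : (fun t => (γ t).1 - (γ 0).1) =o[𝓝 (0 : ℂ)] fun t => t - 0 := by
    have := hasDerivAt_iff_isLittleO.1 hD1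
    simpa using this
  have hD3 : HasDerivAt (fun t => (γ t).2) (0 : ℂ) 0 := by
    rw [hasDerivAt_iff_isLittleO]
    have := hO.trans_isLittleO ho
    simpa using this
  exact one_ne_zero (hD2.unique hD3)

/-- Let `G = span (graphCone Z h)`.  If `(0, 1) ∉ G` then the projection `G → span Z` is injective (its
kernel consists of the `(0, c) ∈ G`), so it has an inverse on its range, which contains `Z`; compose
with the second projection and extend to `V` (`LinearMap.exists_extend`): a linear form equal to `h`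
on `Z`. -/
theorem vert_mem_span_graph (hnot : ¬ ∃ ξ : V →ₗ[ℂ] ℂ, ∀ v ∈ Z, h v = ξ v) :
    ((0 : V), (1 : ℂ)) ∈ Submodule.span ℂ (graphCone Z h) := by
  by_contra hG
  apply hnot
  set G := Submodule.span ℂ (graphCone Z h) with hGdef
  set π : G →ₗ[ℂ] V := (LinearMap.fst ℂ V ℂ) ∘ₗ G.subtype with hπ
  have hker : LinearMap.ker π = ⊥ := by
    rw [LinearMap.ker_eq_bot']
    rintro ⟨⟨a, c⟩, hac⟩ hm
    have ha : a = 0 := hm
    subst ha
    by_cases hc : c = 0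
    · subst hc; rfl
    · exfalso
      apply hG
      have h1 := G.smul_mem c⁻¹ hac
      have h2 : c⁻¹ • ((0 : V), c) = ((0 : V), (1 : ℂ)) := by
        rw [Prod.smul_mk, smul_zero, smul_eq_mul, inv_mul_cancel₀ hc]
      rwa [h2] at h1
  obtain ⟨g, hg⟩ := LinearMap.exists_leftInverse_of_injective π hker
  refine ⟨(LinearMap.snd ℂ V ℂ) ∘ₗ G.subtype ∘ₗ g, ?_⟩
  intro v hv
  have hmem : (v, h v) ∈ G := Submodule.subset_span ⟨v, hv, rfl⟩
  have h1 : g v = ⟨(v, h v), hmem⟩ := by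
    have h2 := LinearMap.congr_fun hg (⟨(v, h v), hmem⟩ : G)
    exact h2
  show h v = ((g v : G) : V × ℂ).2
  rw [h1]

/-- `span (graphCone Z h) ≤ (span Z).prod ⊤`. -/
theorem finrank_span_graph_le :
    Module.finrank ℂ (Submodule.span ℂ (graphCone Z h)) ≤
      Module.finrank ℂ (Submodule.span ℂ Z) + 1 := by
  have h1 : Submodule.span ℂ (graphCone Z h) ≤
      (Submodule.span ℂ Z).map (LinearMap.inl ℂ V ℂ) ⊔
        Submodule.span ℂ {((0 : V), (1 : ℂ))} := by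
    rw [Submodule.span_le]
    rintro _ ⟨z, hz, rfl⟩
    have h2 : (z, h z) = LinearMap.inl ℂ V ℂ z + h z • ((0 : V), (1 : ℂ)) := by
      simp
    show (z, h z) ∈ _
    rw [h2]
    exact Submodule.add_mem_sup (Submodule.mem_map_of_mem (Submodule.subset_span hz))
      (Submodule.smul_mem _ _ (Submodule.mem_span_singleton_self _))
  have h3 := Submodule.finrank_mono h1
  have h4 := Submodule.finrank_add_le_finrank_add_finrank
    ((Submodule.span ℂ Z).map (LinearMap.inl ℂ V ℂ)) (Submodule.span ℂ {((0 : V), (1 : ℂ))})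
  have h5 := Submodule.finrank_map_le (LinearMap.inl ℂ V ℂ) (Submodule.span ℂ Z)
  have h6 : Module.finrank ℂ (Submodule.span ℂ {((0 : V), (1 : ℂ))}) = 1 :=
    finrank_span_singleton (by
      intro h7
      exact one_ne_zero (congrArg Prod.snd h7))
  omega

end Pool.Agent.RIG
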