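import Pool.Agent.MP_d19687_ag.JumpFinal
import Pool.Agent.RIG.JDefs

/-!
RIG (MP_d19687_ag): helper93's jump construction, with the fibre at the point of the symmetry.
-/

namespace Pool.Agent.RIG

open Filter Topology Asymptotics Pool.Agent.MP_d19687_ag

variable {V : Type*} [NormedAddCommGroup V] [NormedSpace ℂ V] [FiniteDimensional ℂ V]

theorem occursAt_of_jump {V₁ : Type} [NormedAddCommGroup V₁] [NormedSpace ℂ V₁]
    [FiniteDimensional ℂ V₁] (Z : Set V) (hZ : IsSmoothCone Z)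
    (p : V) (hp : p ∈ Submodule.span ℂ Z)
    (hsec : ∀ z ∈ Z, ∀ z' ∈ Z, z - z' ≠ p) (htan : ∀ z ∈ Z, ¬ IsTangent Z z p)
    (hdim : Module.finrank ℂ (Submodule.span ℂ Z) ≤ Module.finrank ℂ V₁)
    (f : V →ₗ[ℂ] V₁) (hf : ∀ w ∈ Submodule.span ℂ Z, f w = 0 → ∃ c : ℂ, w = c • p)
    (hfp : f p = 0) : OccursAt (f '' Z) := by
  have h3 := three_le_finrank hZ hp hsec
  obtain ⟨z₀, hz₀⟩ := hZ.isConnected.nonempty
  have hp0 : p ≠ 0 := fun h => hsec z₀ hz₀ z₀ hz₀ (by rw [sub_self, h])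
  obtain ⟨k, hk⟩ : ∃ k, Module.finrank ℂ (Submodule.span ℂ Z) = k + 3 :=
    ⟨Module.finrank ℂ (Submodule.span ℂ Z) - 3, by omega⟩
  obtain ⟨m, hm⟩ : ∃ m, Module.finrank ℂ V₁ = m + k + 3 :=
    ⟨Module.finrank ℂ V₁ - (k + 3), by omega⟩
  obtain ⟨ι, hι, hιp⟩ := exists_coords hk hp hp0
  have hker : ∀ (y : TJ m k), ∀ w ∈ Submodule.span ℂ Z, AJ m ι y w = 0 → ∃ c : ℂ, w = c • p := by
    intro y w hw h
    obtain ⟨c, hc⟩ := AJ_eq_zero' ι h
    refine ⟨c, ?_⟩
    rw [← sub_eq_zero]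
    apply hι.inj _ (Submodule.sub_mem _ hw (Submodule.smul_mem _ _ hp))
    rw [map_sub, map_smul, hc, hιp]
    ext <;> simp
  refine ⟨TJ m k, inferInstance, inferInstance, inferInstance, Set.univ,
    coneOf Set.univ (AJ m ι) Z, ?_, isBracketGenerating_coneJ hι,
    0, Set.mem_univ _, hasNonzeroF2_coneJ, ?_⟩
  · refine isConeStructure_coneOf isOpen_univ isConnected_univ hZ
      (fun y _ => analyticAt_AJ ι y) ?_ ?_
    · intro y _ z hz z' hz' h
      have h1 : AJ m ι y (z - z') = 0 := by rw [map_sub, h, sub_self]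
      obtain ⟨c, hc⟩ := hker y _ (Submodule.sub_mem _ (Submodule.subset_span hz)
        (Submodule.subset_span hz')) h1
      by_cases hc0 : c = 0
      · rw [hc0, zero_smul] at hc
        exact sub_eq_zero.1 hc
      · exfalso
        apply hsec (c⁻¹ • z) (hZ.smul_mem z hz _ (inv_ne_zero hc0)) (c⁻¹ • z')
          (hZ.smul_mem z' hz' _ (inv_ne_zero hc0))
        rw [← smul_sub, hc, smul_smul, inv_mul_cancel₀ hc0, one_smul]
    · intro y _ z hz w hw h
      obtain ⟨c, hc⟩ := hker y w (isTangent_mem_span hw hz) h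
      by_cases hc0 : c = 0
      · rw [hc, hc0, zero_smul]
      · exfalso
        apply htan z hz
        have := isTangent_smul hw c⁻¹
        rwa [hc, smul_smul, inv_mul_cancel₀ hc0, one_smul] at this
  · obtain ⟨L, hL⟩ := exists_equiv_of_ker (Submodule.span ℂ Z) f
      (AJ m ι (0 : TJ m k) : V →ₗ[ℂ] TJ m k) (by
        intro w hw
        constructor
        · intro h
          obtain ⟨c, hc⟩ := hf w hw h
          show AJ m ι (0 : TJ m k) w = 0
          rw [hc, map_smul, AJ_apply, hιp]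
          simp
        · intro h
          obtain ⟨c, hc⟩ := hker 0 w hw h
          rw [hc, map_smul, hfp, smul_zero]) (hm.trans (finrank_TJ m k).symm)
    refine ⟨L, ?_⟩
    rw [fibre_coneOf (Set.mem_univ _), Set.image_image]
    exact Set.image_congr fun z hz => (hL z (Submodule.subset_span hz)).symm

end Pool.Agent.RIG
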