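import Pool.Agent.RIG.K1
import Pool.Agent.RIG.K2

/-!
[RIG-K3] Cones which are not linearly normal occur; transport by linear isomorphisms.
-/

namespace Pool.Agent.RIG

open Filter Topology Asymptotics Pool.Agent.MP_d19687_ag

/-- Take `h` holomorphic of degree one on `Z`, not linear.  Apply `occursAt_of_jump` to
`graphCone Z h ⊆ V × ℂ`, `p = (0, 1)`, `V₁ = V`, `f = LinearMap.fst`: `hp` is `vert_mem_span_graph`; `hsec`:
`(z - z', h z - h z') = (0, 1)` gives `z = z'` and `0 = 1`; `htan` is `not_isTangent_graph`; `hdim`: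
`finrank_span_graph_le` and `finrank (span Z) < finrank V`; the image of the graph is `Z`. -/
theorem occursAt_of_not_linearlyNormal {V : Type} [NormedAddCommGroup V] [NormedSpace ℂ V]
    [FiniteDimensional ℂ V] {Z : Set V} (hZ : IsSmoothCone Z) (hne : Submodule.span ℂ Z ≠ ⊤)
    (hLN : ¬ LinearlyNormal Z) : OccursAt Z := by
  obtain ⟨h, hh, hhom, hnot⟩ : ∃ h : V → ℂ, HolOn Z h ∧
      (∀ v ∈ Z, ∀ c : ℂ, c ≠ 0 → h (c • v) = c * h v) ∧
      ¬ ∃ ξ : V →ₗ[ℂ] ℂ, ∀ v ∈ Z, h v = ξ v := by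
    by_contra hcon
    apply hLN
    intro h h1 h2
    by_contra h3
    exact hcon ⟨h, h1, h2, h3⟩
  have key := occursAt_of_jump (V₁ := V) (graphCone Z h) (isSmoothCone_graph hZ hh hhom)
    ((0 : V), (1 : ℂ)) (vert_mem_span_graph hnot) ?_ (not_isTangent_graph hh) ?_
    (LinearMap.fst ℂ V ℂ) ?_ rfl
  · have himg : (LinearMap.fst ℂ V ℂ) '' graphCone Z h = Z := by
      unfold graphCone
      rw [Set.image_image]
      exact Set.image_id Z
    rwa [himg] at key
  · rintro _ ⟨a, _, rfl⟩ _ ⟨b, _, rfl⟩ hab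
    have h1 : a - b = 0 := congrArg Prod.fst hab
    have h2 : h a - h b = 1 := congrArg Prod.snd hab
    rw [sub_eq_zero.1 h1, sub_self] at h2
    exact zero_ne_one h2
  · have h1 := finrank_span_graph_le (Z := Z) (h := h)
    have h2 := Submodule.finrank_lt hne
    omega
  · intro w _ hw
    refine ⟨w.2, ?_⟩
    have hw1 : w.1 = 0 := hw
    ext
    · rw [hw1]
      simp
    · simp

section Transport

variable {V T : Type*} [NormedAddCommGroup V] [NormedSpace ℂ V] [FiniteDimensional ℂ V]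
  [NormedAddCommGroup T] [NormedSpace ℂ T] [FiniteDimensional ℂ T]

/-- Compose curves with the (continuous) linear map `L.symm`. -/
theorem isTangent_image (L : V ≃ₗ[ℂ] T) {Z : Set V} {z : V} {w : T}
    (h : IsTangent (L '' Z) (L z) w) : IsTangent Z z (L.symm w) := by
  obtain ⟨γ, h1, h2, h3, h4⟩ := h
  let M : T →L[ℂ] V := LinearMap.toContinuousLinearMap (L.symm : T →ₗ[ℂ] V)
  have hM : ∀ t, M t = L.symm t := fun t => rfl
  refine ⟨fun t => M (γ t), (M.analyticAt _).comp h1, ?_, ?_, ?_⟩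
  · show M (γ 0) = z
    rw [h2, hM, LinearEquiv.symm_apply_apply]
  · have h5 : HasDerivAt (fun t => M (γ t)) (M (deriv γ 0)) 0 :=
      M.hasFDerivAt.comp_hasDerivAt (0 : ℂ) h1.differentiableAt.hasDerivAt
    rw [h5.deriv, h3]
    rfl
  · filter_upwards [h4] with t ht
    obtain ⟨v, hv, hvt⟩ := ht
    rw [← hvt, hM, LinearEquiv.symm_apply_apply]
    exact hv

/-- Transport of charts by `L` and of functions by composition with `L`. -/
theorem linearlyNormal_image (L : V ≃ₗ[ℂ] T) {Z : Set V} (h : LinearlyNormal Z) :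
    LinearlyNormal (L '' Z) := by
  intro g hg hhom
  let M : T →L[ℂ] V := LinearMap.toContinuousLinearMap (L.symm : T →ₗ[ℂ] V)
  let N : V →L[ℂ] T := LinearMap.toContinuousLinearMap (L : V →ₗ[ℂ] T)
  have hM : ∀ t, M t = L.symm t := fun t => rfl
  have hN : ∀ v, N v = L v := fun v => rfl
  have hMinj : Function.Injective M := L.symm.injective
  obtain ⟨ξ, hξ⟩ := h (fun v => g (L v)) (by
    intro v hv
    obtain ⟨d, φ, hφ, hgφ⟩ := hg (L v) ⟨v, hv, rfl⟩
    refine ⟨d, fun s => M (φ s), ⟨(M.analyticAt _).comp hφ.an, ?_, ?_, ?_, ?_⟩, ?_⟩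
    · show M (φ 0) = v
      rw [hφ.map0, hM, LinearEquiv.symm_apply_apply]
    · have h5 : HasFDerivAt (fun s => M (φ s)) (M.comp (fderiv ℂ φ 0)) 0 :=
        M.hasFDerivAt.comp (0 : Fin d → ℂ) hφ.an.differentiableAt.hasFDerivAt
      rw [h5.fderiv]
      intro a b hab
      exact hφ.inj (hMinj hab)
    · filter_upwards [hφ.mem] with s hs
      obtain ⟨u, hu, hus⟩ := hs
      rw [← hus, hM, LinearEquiv.symm_apply_apply]
      exact hu
    · intro S hS
      have h6 : Tendsto L (𝓝[Z] v) (𝓝[L '' Z] (L v)) :=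
        (N.continuous.continuousWithinAt (s := Z) (x := v)).tendsto_nhdsWithin
          fun w hw => ⟨w, hw, rfl⟩
      filter_upwards [h6.eventually (hφ.onto S hS)] with w hw
      obtain ⟨s, hs, hsw⟩ := hw
      refine ⟨s, hs, ?_⟩
      show M (φ s) = w
      rw [hsw, hM, LinearEquiv.symm_apply_apply]
    · refine hgφ.congr (Eventually.of_forall fun s => ?_)
      show g (φ s) = g (L (M (φ s)))
      rw [hM, LinearEquiv.apply_symm_apply]) (by
    intro v hv c hc
    show g (L (c • v)) = c * g (L v)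
    rw [map_smul]
    exact hhom (L v) ⟨v, hv, rfl⟩ c hc)
  refine ⟨ξ ∘ₗ (L.symm : T →ₗ[ℂ] V), ?_⟩
  rintro _ ⟨v, hv, rfl⟩
  rw [hξ v hv]
  show ξ v = ξ (L.symm (L v))
  rw [LinearEquiv.symm_apply_apply]

theorem fibreSpan_image (L : V ≃ₗ[ℂ] T) {Z : Set V} {C : Set (T × T)} {x : T}
    (hL : {v : T | (x, v) ∈ C} = L '' Z) :
    fibreSpan C x = (Submodule.span ℂ Z).map (L : V →ₗ[ℂ] T) := by
  unfold fibreSpan
  rw [hL, Submodule.map_span]
  rfl

theorem rigidFibre_of_image (L : V ≃ₗ[ℂ] T) {Z : Set V} {C : Set (T × T)} {x : T}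
    (hL : {v : T | (x, v) ∈ C} = L '' Z)
    (hrig : ∀ A : V →ₗ[ℂ] V, (∀ z ∈ Z, IsTangent Z z (A z)) →
      ∃ c : ℂ, ∀ w ∈ Submodule.span ℂ Z, A w = c • w) : RigidFibre C x := by
  intro A hA
  obtain ⟨c, hc⟩ := hrig ((L.symm : T →ₗ[ℂ] V) ∘ₗ A ∘ₗ (L : V →ₗ[ℂ] T)) (by
    intro z hz
    have h1 : L z ∈ {v : T | (x, v) ∈ C} := by
      rw [hL]
      exact ⟨z, hz, rfl⟩
    have h2 := hA (L z) h1
    rw [hL] at h2
    exact isTangent_image L h2)
  refine ⟨c, ?_⟩
  intro v hv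
  rw [fibreSpan_image L hL] at hv
  obtain ⟨w, hw, rfl⟩ := hv
  have h3 := hc w hw
  have h4 : L (L.symm (A (L w))) = L (c • w) := congrArg L h3
  rw [LinearEquiv.apply_symm_apply, map_smul] at h4
  exact h4

theorem finrank_fibreSpan_image (L : V ≃ₗ[ℂ] T) {Z : Set V} {C : Set (T × T)} {x : T}
    (hL : {v : T | (x, v) ∈ C} = L '' Z) :
    Module.finrank ℂ (fibreSpan C x) = Module.finrank ℂ (Submodule.span ℂ Z) := by
  rw [fibreSpan_image L hL]
  exact LinearEquiv.finrank_map_eq L _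

theorem fibreSpan_eq_top (L : V ≃ₗ[ℂ] T) {Z : Set V} {C : Set (T × T)} {x : T}
    (hL : {v : T | (x, v) ∈ C} = L '' Z) (h : Submodule.span ℂ Z = ⊤) : fibreSpan C x = ⊤ := by
  rw [fibreSpan_image L hL, h, Submodule.map_top]
  exact LinearEquiv.range L

end Transport

end Pool.Agent.RIG
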