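import Pool.Agent.RIG.K3
import Pool.Agent.RIG.J5
import Pool.Agent.RIG.F5

/-!
[RIG-K4] The classification of the rigid fibres at the points with `𝔣² ≠ 0`.
-/

namespace Pool.Agent.RIG

open Filter Topology Asymptotics Pool.Agent.MP_d19687_ag

/-- `←`: `occursAt_of_not_linearlyNormal`.  `→`: let `C, x, L` be as in `OccursAt`.  If `span Z = ⊤`
or `Z` is linearly normal then `x ∈ regularLocus` (`mem_regularLocus_of_top`, `fibreSpan_eq_top`;
`mem_regularLocus`, `linearlyNormal_image`), and `rigid_symmetry` (with `rigidFibre_of_image`,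
`finrank_fibreSpan_image`) shows that a field as in `HasNonzeroF2` vanishes near `x`, a
contradiction (`O(‖y-x‖^3)` implies `O(‖y-x‖^2)` near `x`). -/
theorem occursAt_iff {V : Type} [NormedAddCommGroup V] [NormedSpace ℂ V]
    [FiniteDimensional ℂ V] (Z : Set V) (hZ : IsSmoothCone Z)
    (hdim : 2 ≤ Module.finrank ℂ (Submodule.span ℂ Z))
    (hrig : ∀ A : V →ₗ[ℂ] V, (∀ z ∈ Z, IsTangent Z z (A z)) →
      ∃ c : ℂ, ∀ w ∈ Submodule.span ℂ Z, A w = c • w) :
    OccursAt Z ↔ Submodule.span ℂ Z ≠ ⊤ ∧ ¬ LinearlyNormal Z := by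
  constructor
  · rintro ⟨T, i1, i2, i3, U, C, hC, hbr, x, hx, ⟨σ, hσ, hne, hO⟩, L, hL⟩
    by_contra hcon
    have hor : Submodule.span ℂ Z = ⊤ ∨ LinearlyNormal Z := by
      by_contra h
      rw [not_or] at h
      exact hcon h
    have hreg : x ∈ regularLocus U C := by
      rcases hor with h | h
      · exact mem_regularLocus_of_top hC hx (fibreSpan_eq_top L hL h)
      · exact mem_regularLocus hC hx (by rw [hL]; exact linearlyNormal_image L h)
    have hr : 2 ≤ Module.finrank ℂ (fibreSpan C x) := by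
      rw [finrank_fibreSpan_image L hL]
      exact hdim
    have hO2 : σ =O[𝓝 x] fun y => ‖y - x‖ ^ 2 := by
      refine hO.trans (IsBigO.of_bound 1 ?_)
      filter_upwards [Metric.ball_mem_nhds x one_pos] with y hy
      have h1 : ‖y - x‖ ≤ 1 := by
        rw [Metric.mem_ball, dist_eq_norm] at hy
        exact hy.le
      have h0 : 0 ≤ ‖y - x‖ := norm_nonneg _
      rw [Real.norm_of_nonneg (by positivity), Real.norm_of_nonneg (by positivity), one_mul]
      exact pow_le_pow_of_le_one h0 h1 (by norm_num)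
    exact hne (rigid_symmetry hC hbr hreg hr (rigidFibre_of_image L hL hrig) hσ hO2)
  · rintro ⟨h1, h2⟩
    exact occursAt_of_not_linearlyNormal hZ h1 h2

end Pool.Agent.RIG
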