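import Pool.Agent.RIG.Flat

/-!
[RIG-L1] First properties of the filtration: `c_m(u_a) ∈ F m` and `Q_{i+1} ν ∈ F i`.
-/

namespace Pool.Agent.RIG.Flat

open PowerSeries

variable {K : Type*} [Field K] [CharZero K] {ι A : Type*} [Fintype ι] [Fintype A] {r : ℕ}
  (L : Flat K ι A r)

theorem F_mono {m n : ℕ} (h : m ≤ n) : L.F m ≤ L.F n := by
  unfold F
  refine Submodule.span_mono (Set.union_subset_union_right _ ?_)
  rintro w ⟨j, p, hp, rfl⟩
  exact ⟨j, p, lt_of_lt_of_le hp h, rfl⟩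

theorem x_mem (m : ℕ) : L.x ∈ L.F m :=
  Submodule.subset_span (Or.inl (Or.inl rfl))

theorem span_x_le (m : ℕ) : Submodule.span K {L.x} ≤ L.F m := by
  rw [Submodule.span_singleton_le_iff_mem]
  exact L.x_mem m

theorem vc_mem {j : Fin r} {p m : ℕ} (h : p < m) : L.vc j p ∈ L.F m :=
  Submodule.subset_span (Or.inr ⟨j, p, h, rfl⟩)

/-- By cases on `m`.  `m = 0`: a generator.  `m = n + 1`: by `hu`,
`(n+1) * coeff (n+1) (u a b) = coeff n (d/dX (u a b)) = ∑ j, ∑_{p+q=n} coeff p (g a j) * coeff q (v j b)`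
so `(n+1) • uc a (n+1)` is a linear combination of the `vc j q`, `q ≤ n < n + 1`. -/
theorem uc_mem (a : A) (m : ℕ) : L.uc a m ∈ L.F m := by
  rcases m with _ | n
  · exact Submodule.subset_span (Or.inl (Or.inr ⟨a, rfl⟩))
  · have h3 : ((n + 1 : ℕ) : K) ≠ 0 := Nat.cast_ne_zero.2 (Nat.succ_ne_zero n)
    have h1 : ((n + 1 : ℕ) : K) • L.uc a (n + 1) =
        ∑ j, ∑ p ∈ Finset.HasAntidiagonal.antidiagonal n, coeff p.1 (L.g a j) • L.vc j p.2 := by
      funext b
      have h2 := congrArg (coeff n) (L.hu a b)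
      rw [coeff_derivative, map_sum] at h2
      rw [Pi.smul_apply, smul_eq_mul, Finset.sum_apply]
      unfold uc
      push_cast
      rw [mul_comm, h2]
      refine Finset.sum_congr rfl fun j _ => ?_
      rw [coeff_mul, Finset.sum_apply]
      rfl
    have h4 : L.uc a (n + 1) = ((n + 1 : ℕ) : K)⁻¹ •
        ∑ j, ∑ p ∈ Finset.HasAntidiagonal.antidiagonal n, coeff p.1 (L.g a j) • L.vc j p.2 := by
      rw [← h1, smul_smul, inv_mul_cancel₀ h3, one_smul]
    rw [h4]
    refine Submodule.smul_mem _ _ (Submodule.sum_mem _ fun j _ => Submodule.sum_mem _ fun p hp =>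
      Submodule.smul_mem _ _ (L.vc_mem ?_))
    have := Finset.HasAntidiagonal.mem_antidiagonal.1 hp
    omega

/-- By `hQ'`, `(i+1) * coeff (i+1) (Q b c)
 = - x b * coeff i (mu c) - ∑ a, ∑_{p+q=i} coeff p (u a b) * coeff q (∑ d, th a d * Q d c)`,
so `(i+1) • Qc (i+1) w` is a linear combination of `x` and of the `uc a p`, `p ≤ i`, which lie in
`F p ≤ F i` by `uc_mem`. -/
theorem Qc_succ_mem (i : ℕ) (w : ι → K) : L.Qc (i + 1) w ∈ L.F i := by
  have h3 : ((i + 1 : ℕ) : K) ≠ 0 := Nat.cast_ne_zero.2 (Nat.succ_ne_zero i)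
  have h1 : ((i + 1 : ℕ) : K) • L.Qc (i + 1) w =
      -((∑ c, coeff i (L.mu c) * w c) • L.x) -
        ∑ a, ∑ p ∈ Finset.HasAntidiagonal.antidiagonal i,
          (∑ c, coeff p.2 (∑ d, L.th a d * L.Q d c) * w c) • L.uc a p.1 := by
    funext b
    have h2 : ∀ c, ((i : K) + 1) * coeff (i + 1) (L.Q b c) =
        -(L.x b * coeff i (L.mu c)) - ∑ a, ∑ p ∈ Finset.HasAntidiagonal.antidiagonal i,
          coeff p.1 (L.u a b) * coeff p.2 (∑ d, L.th a d * L.Q d c) := by
      intro c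
      have h5 := congrArg (coeff i) (L.hQ' b c)
      rw [coeff_derivative, map_sub, map_neg, coeff_C_mul, map_sum] at h5
      rw [mul_comm, h5]
      congr 1
      refine Finset.sum_congr rfl fun a _ => ?_
      rw [coeff_mul]
    rw [Pi.smul_apply, smul_eq_mul, Qc_apply, Finset.mul_sum]
    push_cast
    have h6 : ∀ c, ((i : K) + 1) * (coeff (i + 1) (L.Q b c) * w c) =
        -((coeff i (L.mu c) * w c) * L.x b) - ∑ a, ∑ p ∈ Finset.HasAntidiagonal.antidiagonal i,
          (coeff p.2 (∑ d, L.th a d * L.Q d c) * w c) * coeff p.1 (L.u a b) := by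
      intro c
      rw [← mul_assoc, h2 c, sub_mul, Finset.sum_mul]
      congr 1
      · ring
      · refine Finset.sum_congr rfl fun a _ => ?_
        rw [Finset.sum_mul]
        refine Finset.sum_congr rfl fun p _ => ?_
        ring
    rw [Finset.sum_congr rfl fun c _ => h6 c, Finset.sum_sub_distrib, Pi.sub_apply, Pi.neg_apply,
      Pi.smul_apply, smul_eq_mul, Finset.sum_neg_distrib, ← Finset.sum_mul, Finset.sum_apply]
    congr 1
    rw [Finset.sum_comm]
    refine Finset.sum_congr rfl fun a _ => ?_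
    rw [Finset.sum_apply, Finset.sum_comm]
    refine Finset.sum_congr rfl fun p _ => ?_
    rw [Pi.smul_apply, smul_eq_mul, ← Finset.sum_mul]
    rfl
  have h4 : L.Qc (i + 1) w = ((i + 1 : ℕ) : K)⁻¹ • (-((∑ c, coeff i (L.mu c) * w c) • L.x) -
        ∑ a, ∑ p ∈ Finset.HasAntidiagonal.antidiagonal i,
          (∑ c, coeff p.2 (∑ d, L.th a d * L.Q d c) * w c) • L.uc a p.1) := by
    rw [← h1, smul_smul, inv_mul_cancel₀ h3, one_smul]
  rw [h4]
  refine Submodule.smul_mem _ _ (Submodule.sub_mem _ (Submodule.neg_mem _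
    (Submodule.smul_mem _ _ (L.x_mem i))) (Submodule.sum_mem _ fun a _ =>
    Submodule.sum_mem _ fun p hp => Submodule.smul_mem _ _ (L.F_mono ?_ (L.uc_mem a p.1))))
  have := Finset.HasAntidiagonal.mem_antidiagonal.1 hp
  omega

end Pool.Agent.RIG.Flat
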