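import Pool.Agent.RIG.Flat

/-!
[RIG-L2] If `Q_0 w` is a multiple of `x` then so are all `Q_i w`.
-/

namespace Pool.Agent.RIG.Flat

open PowerSeries

variable {K : Type*} [Field K] [CharZero K] {ι A : Type*} [Fintype ι] [Fintype A] {r : ℕ}
  (L : Flat K ι A r)

/-- By strong induction on `i`.  `i = 0`: hypothesis.  For `i + 1`, by `hQ'`,
`(i+1) * coeff (i+1) (Q b c)
 = - x b * coeff i (mu c) - ∑ a, ∑_{p+q=i} coeff p (u a b) * ∑ d, ∑_{p'+q'=q} coeff p' (th a d) * coeff q' (Q d c)`.
Multiply by `w c` and sum over `c`: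
`(i+1) * (Qc (i+1) w) b = - x b * ∑ c, coeff i (mu c) * w c
  - ∑ a, ∑_{p+q=i} coeff p (u a b) * ∑_{p'+q'=q} ∑ d, coeff p' (th a d) * (Qc q' w) d`.
By the induction hypothesis `Qc q' w = t q' • x` for all `q' ≤ i`, and
`∑ d, coeff p' (th a d) * x d = coeff p' (∑ d, th a d * C (x d)) = 0` by `hth`; so the second sum
vanishes and `Qc (i+1) w` is a multiple of `x`. -/
theorem Qc_mem_span_x (w : ι → K) (h : L.Qc 0 w ∈ Submodule.span K {L.x}) (i : ℕ) :
    L.Qc i w ∈ Submodule.span K {L.x} := by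
  induction i using Nat.strong_induction_on with
  | _ i ih =>
  rcases i with _ | i
  · exact h
  -- vanishing of the forms on the lower coefficients
  have hz : ∀ (a : A) (q : ℕ), q ≤ i → ∀ p : ℕ, ∑ d, coeff p (L.th a d) * L.Qc q w d = 0 := by
    intro a q hq p
    obtain ⟨t, ht⟩ := Submodule.mem_span_singleton.1 (ih q (by omega))
    have h1 : ∑ d, coeff p (L.th a d) * L.x d = 0 := by
      have h2 := congrArg (coeff p) (L.hth a)
      rw [map_sum, map_zero] at h2
      rw [← h2]
      refine Finset.sum_congr rfl fun d _ => ?_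
      rw [mul_comm (L.th a d), coeff_C_mul, mul_comm]
    rw [← ht]
    have h3 : ∑ d, coeff p (L.th a d) * (t • L.x) d = t * ∑ d, coeff p (L.th a d) * L.x d := by
      rw [Finset.mul_sum]
      refine Finset.sum_congr rfl fun d _ => ?_
      rw [Pi.smul_apply, smul_eq_mul]
      ring
    rw [h3, h1, mul_zero]
  have hi : ((i : K) + 1) ≠ 0 := by exact_mod_cast Nat.succ_ne_zero i
  have key : ∀ b, ((i : K) + 1) * L.Qc (i + 1) w b = -(∑ c, coeff i (L.mu c) * w c) * L.x b := by
    intro b
    rw [Qc_apply, Finset.mul_sum]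
    have e1 : ∀ c, ((i : K) + 1) * (coeff (i + 1) (L.Q b c) * w c) =
        coeff i (d⁄dX K (L.Q b c)) * w c := by
      intro c
      rw [coeff_derivative]
      ring
    rw [Finset.sum_congr rfl fun c _ => e1 c]
    have e2 : ∀ c, coeff i (d⁄dX K (L.Q b c)) * w c =
        -(L.x b * coeff i (L.mu c)) * w c -
        ∑ a, ∑ pq ∈ Finset.HasAntidiagonal.antidiagonal i, coeff pq.1 (L.u a b) *
          ∑ d, ∑ rs ∈ Finset.HasAntidiagonal.antidiagonal pq.2, coeff rs.1 (L.th a d) *
            (coeff rs.2 (L.Q d c) * w c) := by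
      intro c
      rw [L.hQ' b c, map_sub, map_neg, coeff_C_mul, sub_mul, map_sum, Finset.sum_mul]
      congr 1
      refine Finset.sum_congr rfl fun a _ => ?_
      rw [coeff_mul, Finset.sum_mul]
      refine Finset.sum_congr rfl fun pq _ => ?_
      rw [map_sum, mul_assoc, Finset.sum_mul]
      congr 1
      refine Finset.sum_congr rfl fun d _ => ?_
      rw [coeff_mul, Finset.sum_mul]
      refine Finset.sum_congr rfl fun rs _ => ?_
      ring
    rw [Finset.sum_congr rfl fun c _ => e2 c, Finset.sum_sub_distrib]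
    have e3 : ∑ c, ∑ a, ∑ pq ∈ Finset.HasAntidiagonal.antidiagonal i, coeff pq.1 (L.u a b) *
          ∑ d, ∑ rs ∈ Finset.HasAntidiagonal.antidiagonal pq.2, coeff rs.1 (L.th a d) *
            (coeff rs.2 (L.Q d c) * w c) = 0 := by
      rw [Finset.sum_comm]
      refine Finset.sum_eq_zero fun a _ => ?_
      rw [Finset.sum_comm]
      refine Finset.sum_eq_zero fun pq hpq => ?_
      rw [← Finset.mul_sum, Finset.sum_comm]
      have e4 : ∑ d, ∑ c, ∑ rs ∈ Finset.HasAntidiagonal.antidiagonal pq.2, coeff rs.1 (L.th a d) *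
            (coeff rs.2 (L.Q d c) * w c) =
          ∑ rs ∈ Finset.HasAntidiagonal.antidiagonal pq.2, ∑ d, coeff rs.1 (L.th a d) * L.Qc rs.2 w d := by
        rw [Finset.sum_congr rfl fun d _ => Finset.sum_comm, Finset.sum_comm]
        refine Finset.sum_congr rfl fun rs _ => Finset.sum_congr rfl fun d _ => ?_
        rw [Qc_apply, Finset.mul_sum]
      rw [e4, Finset.sum_eq_zero, mul_zero]
      intro rs hrs
      have h5 : rs.2 ≤ i := by
        have := Finset.HasAntidiagonal.mem_antidiagonal.1 hrs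
        have := Finset.HasAntidiagonal.mem_antidiagonal.1 hpq
        omega
      exact hz a rs.2 h5 rs.1
    rw [e3, sub_zero, ← Finset.sum_neg_distrib, Finset.sum_mul]
    refine Finset.sum_congr rfl fun c _ => ?_
    ring
  rw [Submodule.mem_span_singleton]
  refine ⟨((i : K) + 1)⁻¹ * -(∑ c, coeff i (L.mu c) * w c), funext fun b => ?_⟩
  rw [Pi.smul_apply, smul_eq_mul, mul_assoc, ← key b, ← mul_assoc, inv_mul_cancel₀ hi, one_mul]

end Pool.Agent.RIG.Flat
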