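import Pool.Agent.RIG.L1
import Pool.Agent.RIG.L2

/-!
[RIG-L3] The action of `Q_0` on the coefficients of the `v j`, when the first `k + 1`
coefficients of `s` vanish.
-/

namespace Pool.Agent.RIG.Flat

open PowerSeries

variable {K : Type*} [Field K] [CharZero K] {ι A : Type*} [Fintype ι] [Fintype A] {r : ℕ}
  (L : Flat K ι A r)

/-- Coefficient `m` of `hQv`.  Here `coeff m (s * d⁄dX v) = ∑_{n+q=m} s_n (q+1) v_{q+1}`,
`coeff m (d⁄dX s * v) = ∑_{n+q=m} (n+1) s_{n+1} v_q`; shifting the indices, their sum is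
`∑_{n ≤ m+1} (m+1) s_n v_{m+1-n}`. -/
theorem coeff_hQv (j : Fin r) (m : ℕ) (b : ι) :
    ∑ i ∈ Finset.range (m + 1), L.Qc i (L.vc j (m - i)) b =
      ((m + 1 : ℕ) : K) * ∑ n ∈ Finset.range (m + 2), coeff n L.s * L.vc j (m + 1 - n) b -
      ∑ n ∈ Finset.range (m + 1), coeff n L.s *
        ∑ a, ∑ p ∈ Finset.range (m - n + 1), coeff (m - n - p) (L.vt j a) * L.uc a p b := by
  have h0 : ∑ c, L.Q b c * L.v j c = d⁄dX K (L.s * L.v j b) - L.s * ∑ a, L.u a b * L.vt j a := by
    rw [L.hQv j b, Derivation.leibniz, smul_eq_mul, smul_eq_mul]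
    have h1 : ∑ a, L.vt j a * L.u a b = ∑ a, L.u a b * L.vt j a :=
      Finset.sum_congr rfl fun a _ => mul_comm _ _
    rw [h1]
    ring
  have h1 := congrArg (coeff m) h0
  rw [map_sub, map_sum, coeff_derivative, coeff_mul, coeff_mul,
    Finset.Nat.sum_antidiagonal_eq_sum_range_succ_mk,
    Finset.Nat.sum_antidiagonal_eq_sum_range_succ_mk] at h1
  have h2 : ∑ i ∈ Finset.range (m + 1), L.Qc i (L.vc j (m - i)) b =
      ∑ c, coeff m (L.Q b c * L.v j c) := by
    simp only [Qc_apply]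
    rw [Finset.sum_comm]
    refine Finset.sum_congr rfl fun c _ => ?_
    rw [coeff_mul, Finset.Nat.sum_antidiagonal_eq_sum_range_succ_mk]
    rfl
  rw [h2, h1]
  congr 1
  · rw [mul_comm]
    push_cast
    rfl
  · refine Finset.sum_congr rfl fun n _ => ?_
    congr 1
    rw [map_sum]
    refine Finset.sum_congr rfl fun a _ => ?_
    rw [coeff_mul, Finset.Nat.sum_antidiagonal_eq_sum_range_succ_mk]
    refine Finset.sum_congr rfl fun p _ => ?_
    exact mul_comm _ _

/-- `Q_0 x = 0`: coefficient `0` of `hQv` for `j = i0`, where `v i0 = C x` has derivative `0` and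
`s_0 = s_1 = 0`. -/
theorem Qc_zero_x : L.Qc 0 L.x = 0 := by
  funext b
  have h1 := L.coeff_hQv L.i0 0 b
  have h2 : L.vc L.i0 0 = L.x := by
    funext c
    change coeff 0 (L.v L.i0 c) = L.x c
    rw [L.hx, coeff_zero_C]
  rw [Finset.sum_range_one, Nat.sub_zero, h2] at h1
  rw [h1]
  simp [Finset.sum_range_succ, L.s0, L.s1]

/-- Coefficient `0` of `hQu`, `s_0 = 0`. -/
theorem Qc_zero_uc (a : A) : L.Qc 0 (L.uc a 0) = 0 := by
  funext b
  have h1 := congrArg (coeff 0) (L.hQu a b)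
  rw [map_sum, coeff_mul, Finset.Nat.antidiagonal_zero, Finset.sum_singleton, L.s0, zero_mul] at h1
  rw [Qc_apply, Pi.zero_apply, ← h1]
  refine Finset.sum_congr rfl fun c _ => ?_
  rw [coeff_mul, Finset.Nat.antidiagonal_zero, Finset.sum_singleton]
  rfl

/-- By strong induction on `m`: in `coeff_hQv` the right side is `0` (`s_n = 0` for
`n ≤ m + 1 ≤ k`), so `Q_0 v_m = - ∑_{1 ≤ i ≤ m} Q_i v_{m-i}`, and `Q_0 v_{m-i} ∈ K x` by induction
so `Q_i v_{m-i} ∈ K x` by `Qc_mem_span_x`. -/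
theorem Qc_zero_vc_low (k : ℕ) (hk : ∀ n ≤ k, coeff n L.s = 0) (j : Fin r) (m : ℕ)
    (hm : m < k) : L.Qc 0 (L.vc j m) ∈ Submodule.span K {L.x} := by
  induction m using Nat.strong_induction_on with
  | _ m ih =>
    have h1 : ∑ i ∈ Finset.range (m + 1), L.Qc i (L.vc j (m - i)) = 0 := by
      funext b
      rw [Finset.sum_apply, L.coeff_hQv, Pi.zero_apply]
      rw [Finset.sum_eq_zero, Finset.sum_eq_zero, mul_zero, sub_zero]
      · intro n hn
        rw [Finset.mem_range] at hn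
        rw [hk n (by omega), zero_mul]
      · intro n hn
        rw [Finset.mem_range] at hn
        rw [hk n (by omega), zero_mul]
    rw [Finset.sum_range_succ', Nat.sub_zero] at h1
    rw [eq_neg_of_add_eq_zero_right h1]
    refine Submodule.neg_mem _ (Submodule.sum_mem _ fun i hi => ?_)
    rw [Finset.mem_range] at hi
    exact L.Qc_mem_span_x _ (ih (m - (i + 1)) (by omega) (by omega)) (i + 1)

/-- For `m ≥ k`: in `coeff_hQv` the term `n = k + 1` of the first sum on the right is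
`(m+1) s_{k+1} v_{m-k}`; the terms `n ≥ k + 2` involve `vc j (m+1-n)` with `m + 1 - n < m - k` so lie
in `F (m-k)` (`vc_mem`); in the second sum only `n ≥ k + 1` occur and `p ≤ m - n ≤ m - k` so
`uc a p ∈ F p ≤ F (m-k)` (`uc_mem`, `F_mono`).  On the left, for `i ≥ 1` put `q = m - i`:
if `q < k` then `Q_0 v_q ∈ K x` (`Qc_zero_vc_low`) so `Q_i v_q ∈ K x ≤ F (m-k)`; if `q ≥ k` then
`Q_i v_q ∈ F (i-1) ≤ F (m-k)` by `Qc_succ_mem` since `i ≤ m - k`. -/
theorem Qc_zero_vc_high (k : ℕ) (hk : ∀ n ≤ k, coeff n L.s = 0) (j : Fin r) (m : ℕ)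
    (hm : k ≤ m) :
    L.Qc 0 (L.vc j m) - (((m + 1 : ℕ) : K) * coeff (k + 1) L.s) • L.vc j (m - k) ∈
      L.F (m - k) := by
  have h1 : ∑ i ∈ Finset.range (m + 1), L.Qc i (L.vc j (m - i)) =
      ((m + 1 : ℕ) : K) • ∑ n ∈ Finset.range (m + 2), coeff n L.s • L.vc j (m + 1 - n) -
      ∑ n ∈ Finset.range (m + 1), coeff n L.s •
        ∑ a, ∑ p ∈ Finset.range (m - n + 1), coeff (m - n - p) (L.vt j a) • L.uc a p := by
    funext b
    rw [Finset.sum_apply, L.coeff_hQv]
    simp only [Pi.sub_apply, Pi.smul_apply, Finset.sum_apply, smul_eq_mul]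
  -- the left side
  have h2 : ∑ i ∈ Finset.range m, L.Qc (i + 1) (L.vc j (m - (i + 1))) ∈ L.F (m - k) := by
    refine Submodule.sum_mem _ fun i hi => ?_
    rw [Finset.mem_range] at hi
    by_cases hq : m - (i + 1) < k
    · exact L.span_x_le _ (L.Qc_mem_span_x _ (L.Qc_zero_vc_low k hk j _ hq) (i + 1))
    · exact L.F_mono (by omega) (L.Qc_succ_mem i _)
  -- the first sum on the right
  have h3 : ∑ n ∈ Finset.range (m + 2), coeff n L.s • L.vc j (m + 1 - n) -
      coeff (k + 1) L.s • L.vc j (m - k) ∈ L.F (m - k) := by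
    have hmem : k + 1 ∈ Finset.range (m + 2) := Finset.mem_range.2 (by omega)
    rw [← Finset.add_sum_erase _ _ hmem, show m + 1 - (k + 1) = m - k by omega, add_sub_cancel_left]
    refine Submodule.sum_mem _ fun n hn => ?_
    rw [Finset.mem_erase, Finset.mem_range] at hn
    by_cases hnk : n ≤ k
    · rw [hk n hnk, zero_smul]
      exact Submodule.zero_mem _
    · exact Submodule.smul_mem _ _ (L.vc_mem (by omega))
  -- the second sum on the right
  have h4 : ∑ n ∈ Finset.range (m + 1), coeff n L.s •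
        ∑ a, ∑ p ∈ Finset.range (m - n + 1), coeff (m - n - p) (L.vt j a) • L.uc a p ∈
      L.F (m - k) := by
    refine Submodule.sum_mem _ fun n hn => ?_
    by_cases hnk : n ≤ k
    · rw [hk n hnk, zero_smul]
      exact Submodule.zero_mem _
    · refine Submodule.smul_mem _ _ (Submodule.sum_mem _ fun a _ => Submodule.sum_mem _ fun p hp =>
        Submodule.smul_mem _ _ ?_)
      rw [Finset.mem_range] at hp
      exact L.F_mono (by omega) (L.uc_mem a p)
  rw [Finset.sum_range_succ', Nat.sub_zero] at h1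
  have h5 : L.Qc 0 (L.vc j m) - (((m + 1 : ℕ) : K) * coeff (k + 1) L.s) • L.vc j (m - k) =
      ((m + 1 : ℕ) : K) • (∑ n ∈ Finset.range (m + 2), coeff n L.s • L.vc j (m + 1 - n) -
        coeff (k + 1) L.s • L.vc j (m - k)) -
      ∑ n ∈ Finset.range (m + 1), coeff n L.s •
        ∑ a, ∑ p ∈ Finset.range (m - n + 1), coeff (m - n - p) (L.vt j a) • L.uc a p -
      ∑ i ∈ Finset.range m, L.Qc (i + 1) (L.vc j (m - (i + 1))) := by
    rw [eq_sub_of_add_eq' h1, smul_sub, mul_smul]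
    abel
  rw [h5]
  exact Submodule.sub_mem _ (Submodule.sub_mem _ (Submodule.smul_mem _ _ h3) h4) h2

end Pool.Agent.RIG.Flat
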