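import Pool.Agent.RIG.L3

/-!
[RIG-L4] The linear algebra lemma in flat coordinates: `s = 0`.
-/

namespace Pool.Agent.RIG.Flat

open PowerSeries

variable {K : Type*} [Field K] [CharZero K] {ι A : Type*} [Fintype ι] [Fintype A] {r : ℕ}
  (L : Flat K ι A r)

/-- `F 1 ≠ F 0`: `F 0` is the span of `x = vc i0 0` and of the `uc a 0`, and `vc j 0 ∈ F 1`,
`j ≠ i0`, is not in it by linear independence. -/
theorem F_one_ne (hind : LinearIndependent K (Sum.elim (fun (j : Fin r) => L.vc j 0)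
      (fun (a : A) => L.uc a 0))) (hj : ∃ j, j ≠ L.i0) : L.F 1 ≠ L.F 0 := by
  intro h
  obtain ⟨j, hj⟩ := hj
  have h1 : L.vc j 0 ∈ L.F 0 := by
    rw [← h]
    exact L.vc_mem Nat.zero_lt_one
  have hx : L.vc L.i0 0 = L.x := by
    funext c
    change coeff 0 (L.v L.i0 c) = L.x c
    rw [L.hx, coeff_zero_C]
  have h2 := hind.notMem_span_image (s := {Sum.inl L.i0} ∪ Set.range Sum.inr) (x := Sum.inl j) (by
    rintro (h3 | ⟨a, h3⟩)
    · exact hj (Sum.inl.inj h3)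
    · exact Sum.inr_ne_inl h3)
  refine h2 (Submodule.span_mono ?_ h1)
  rintro w ((hw | ⟨a, rfl⟩) | ⟨l, p, hp, -⟩)
  · refine ⟨Sum.inl L.i0, Or.inl rfl, ?_⟩
    rw [Sum.elim_inl, hx]
    exact hw.symm
  · exact ⟨Sum.inr a, Or.inr ⟨a, rfl⟩, rfl⟩
  · exact absurd hp (Nat.not_lt_zero p)

/-- If `F (m+1) = F m` ... the chain `F` is increasing in a finite-dimensional space and
`F 1 ≠ F 0`, so there is a largest `p` with `F (p+1) ≠ F p`. -/
theorem exists_last (h : L.F 1 ≠ L.F 0) :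
    ∃ p, L.F (p + 1) ≠ L.F p ∧ ∀ q > p, L.F (q + 1) = L.F q := by
  classical
  obtain ⟨n, hn⟩ := monotone_stabilizes_iff_noetherian.2
    (inferInstance : IsNoetherian K (ι → K)) ⟨L.F, fun _ _ h1 => L.F_mono h1⟩
  have hn' : ∀ m, n ≤ m → L.F n = L.F m := hn
  have h0 : 0 < n := by
    rw [Nat.pos_iff_ne_zero]
    rintro rfl
    exact h (hn' 1 (Nat.zero_le 1)).symm
  have hne : ((Finset.range n).filter fun p => L.F (p + 1) ≠ L.F p).Nonempty :=
    ⟨0, Finset.mem_filter.2 ⟨Finset.mem_range.2 h0, h⟩⟩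
  obtain ⟨p, hp, hmax⟩ := Finset.exists_max_image _ (fun p : ℕ => p) hne
  refine ⟨p, (Finset.mem_filter.1 hp).2, fun q hq => ?_⟩
  by_contra hc
  by_cases hqn : q < n
  · exact absurd (hmax q (Finset.mem_filter.2 ⟨Finset.mem_range.2 hqn, hc⟩)) (not_le.2 hq)
  · refine hc ?_
    rw [← hn' q (not_lt.1 hqn), ← hn' (q + 1) (by omega)]

/-- Main lemma.  Suppose `s ≠ 0`; let `k + 1` be its order (`PowerSeries.order` or `Nat.find`),
`k ≥ 1` since `s_0 = s_1 = 0`; so `coeff n s = 0` for `n ≤ k` and `coeff (k+1) s ≠ 0`.  Take `p` from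
`exists_last` and `m = p + k ≥ p + 1`.  Then `vc j m ∈ F (m+1) = F (p+1)` for all `j`.
`Q_0` maps `F (p+1)` into `F p`: check the generators: `Q_0 x = 0`, `Q_0 (uc a 0) = 0`; for
`vc l q`, `q ≤ p`: if `q < k` then `Q_0 (vc l q) ∈ K x ≤ F p` by `Qc_zero_vc_low`; if `q ≥ k` then by
`Qc_zero_vc_high` `Q_0 (vc l q) ∈ K (vc l (q-k)) + F (q-k) ≤ F (q-k+1) ≤ F p` since `k ≥ 1`.
So `Q_0 (vc j m) ∈ F p`, and by `Qc_zero_vc_high` (`m - k = p`) `(m+1) s_{k+1} • vc j p ∈ F p`, so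
`vc j p ∈ F p` for all `j`, hence `F (p+1) ≤ F p` (`F (p+1)` is spanned by the generators of `F p`
and the `vc j p`), a contradiction. -/
theorem s_eq_zero (hind : LinearIndependent K (Sum.elim (fun (j : Fin r) => L.vc j 0)
      (fun (a : A) => L.uc a 0))) (hj : ∃ j, j ≠ L.i0) : L.s = 0 := by
  classical
  by_contra hs
  obtain ⟨p, hp, hlast⟩ := L.exists_last (L.F_one_ne hind hj)
  have hex : ∃ n, coeff n L.s ≠ 0 := by
    by_contra hc
    push Not at hc
    refine hs (PowerSeries.ext fun n => ?_)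
    rw [hc n, map_zero]
  obtain ⟨N, hN, hmin⟩ : ∃ N, coeff N L.s ≠ 0 ∧ ∀ n < N, coeff n L.s = 0 :=
    ⟨Nat.find hex, Nat.find_spec hex, fun n hn => not_not.1 (Nat.find_min hex hn)⟩
  have hN0 : N ≠ 0 := fun h0 => hN (h0 ▸ L.s0)
  have hN1 : N ≠ 1 := fun h1 => hN (h1 ▸ L.s1)
  obtain ⟨k, rfl⟩ : ∃ k, N = k + 1 := ⟨N - 1, by omega⟩
  have hk1 : 1 ≤ k := by omega
  have hk : ∀ n ≤ k, coeff n L.s = 0 := fun n hn => hmin n (by omega)
  -- the chain is constant from `p + 1` on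
  have hconst : ∀ t, L.F (p + 1 + t) = L.F (p + 1) := by
    intro t
    induction t with
    | zero => rfl
    | succ t ih =>
      rw [← add_assoc, hlast (p + 1 + t) (by omega)]
      exact ih
  -- `Q_0` maps `F (p + 1)` into `F p`
  have hmap : L.F (p + 1) ≤ (L.F p).comap (L.Qc 0) := by
    refine Submodule.span_le.2 ?_
    rintro w ((hw | ⟨a, rfl⟩) | ⟨l, q, hq, rfl⟩)
    · rw [SetLike.mem_coe, Submodule.mem_comap, Set.mem_singleton_iff.1 hw, L.Qc_zero_x]
      exact Submodule.zero_mem _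
    · rw [SetLike.mem_coe, Submodule.mem_comap, L.Qc_zero_uc a]
      exact Submodule.zero_mem _
    · rw [SetLike.mem_coe, Submodule.mem_comap]
      by_cases hqk : q < k
      · exact L.span_x_le p (L.Qc_zero_vc_low k hk l q hqk)
      · have h1 := L.F_mono (show q - k ≤ p by omega) (L.Qc_zero_vc_high k hk l q (not_lt.1 hqk))
        have h2 : L.vc l (q - k) ∈ L.F p := L.vc_mem (by omega)
        have h3 := Submodule.add_mem _ h1 (Submodule.smul_mem _
          (((q + 1 : ℕ) : K) * coeff (k + 1) L.s) h2)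
        rwa [sub_add_cancel] at h3
  -- `vc j p ∈ F p`
  have hmem : ∀ j, L.vc j p ∈ L.F p := by
    intro j
    have h1 : L.vc j (p + k) ∈ L.F (p + 1) := by
      rw [← hconst k]
      exact L.vc_mem (by omega)
    have h2 : L.Qc 0 (L.vc j (p + k)) ∈ L.F p := hmap h1
    have h3 := L.Qc_zero_vc_high k hk j (p + k) (by omega)
    rw [Nat.add_sub_cancel] at h3
    have h4 := Submodule.sub_mem _ h2 h3
    rw [sub_sub_cancel] at h4
    exact (Submodule.smul_mem_iff _ (mul_ne_zero (Nat.cast_ne_zero.2 (Nat.succ_ne_zero _)) hN)).1 h4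
  refine hp (le_antisymm (Submodule.span_le.2 ?_) (L.F_mono (Nat.le_succ p)))
  rintro w ((hw | ⟨a, rfl⟩) | ⟨l, q, hq, rfl⟩)
  · rw [SetLike.mem_coe, Set.mem_singleton_iff.1 hw]
    exact L.x_mem p
  · exact L.F_mono (Nat.zero_le p) (L.uc_mem a 0)
  · by_cases hqp : q < p
    · exact L.vc_mem hqp
    · have : q = p := by omega
      rw [this]
      exact hmem l

end Pool.Agent.RIG.Flat
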