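import Pool.Agent.RIG.L4
import Pool.Agent.RIG.Curved
import Pool.Agent.RIG.A2

/-!
[RIG-L5] Flattening: from `Curved` data to `Flat` data by the gauge transformation of
`ode_gauge J`, and the lemma `s = 0` for `Curved` data.
-/

namespace Pool.Agent.RIG.Curved

open PowerSeries

variable {K : Type*} [Field K] [CharZero K] {ι A : Type*} [Fintype ι] [Fintype A] {r : ℕ}
  (L : Curved K ι A r)

/-- entrywise derivative of a vector. -/
noncomputable def l5dv {ι : Type*} (w : ι → K⟦X⟧) : ι → K⟦X⟧ := fun b => d⁄dX K (w b)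

/-- entrywise derivative of a matrix. -/
noncomputable def l5dM {ι : Type*} (w : Matrix ι ι K⟦X⟧) : Matrix ι ι K⟦X⟧ :=
  Matrix.of fun b c => d⁄dX K (w b c)

omit [CharZero K] in
theorem l5_deriv_mul (f g : K⟦X⟧) : d⁄dX K (f * g) = d⁄dX K f * g + f * d⁄dX K g := by
  rw [Derivation.leibniz, smul_eq_mul, smul_eq_mul]
  ring

theorem l5dv_mulVec {ι : Type*} [Fintype ι] (P : Matrix ι ι K⟦X⟧) (w : ι → K⟦X⟧) :
    l5dv (P.mulVec w) = (l5dM P).mulVec w + P.mulVec (l5dv w) := by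
  funext b
  simp only [l5dv, l5dM, Matrix.mulVec, dotProduct, Pi.add_apply, Matrix.of_apply, map_sum,
    l5_deriv_mul, Finset.sum_add_distrib]

theorem l5dM_mul {ι : Type*} [Fintype ι] (P R : Matrix ι ι K⟦X⟧) :
    l5dM (P * R) = l5dM P * R + P * l5dM R := by
  ext1 b c
  simp only [l5dM, Matrix.mul_apply, Matrix.add_apply, Matrix.of_apply, map_sum,
    l5_deriv_mul, Finset.sum_add_distrib]

/-- A power series with derivative `0` is constant. -/
theorem eq_C_of_deriv_zero (f : K⟦X⟧) (h : d⁄dX K f = 0) : f = C (constantCoeff f) := by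
  ext n
  rcases n with _ | n
  · simp
  · have h1 := congrArg (coeff n) h
    rw [coeff_derivative, map_zero] at h1
    have h2 : ((n : K) + 1) ≠ 0 := by exact_mod_cast Nat.succ_ne_zero n
    have h3 : coeff (n + 1) f = 0 := by
      rcases mul_eq_zero.mp h1 with h | h
      · exact h
      · exact absurd h h2
    rw [h3, coeff_C]
    simp

/-- Proof.  Let `Φ, Ψ` be as in `ode_gauge (Matrix.of L.J)` (classical `DecidableEq ι`):
`Φ' = J Φ`, `Ψ' = - Ψ J`, `Ψ Φ = Φ Ψ = 1`, `Ψ(0) = Φ(0) = 1`.  Put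
* `v j = Ψ v j`, i.e. `b ↦ ∑ c, Ψ b c * v j c`, and `u a = Ψ u a`;
* `Q = Ψ Q Φ`; `th a = th a Φ`, i.e. `d ↦ ∑ e, th a e * Φ e d`; `mu = mu Φ`;
* `x b = constantCoeff (v i0 b)` (new `v`), `s, vt, g, i0` unchanged.
Then (with the new data on the left, using `(Ψ w)' = Ψ w' - Ψ J w = Ψ (w' - J w)` for vectors `w`):
* `hx`: `(Ψ v_{i0})' = Ψ (J v_{i0}) - Ψ J v_{i0} = 0`, so it is constant (`eq_C_of_deriv_zero`);
* `hQ'`: `(Ψ Q Φ)' = - Ψ J Q Φ + Ψ Q' Φ + Ψ Q J Φ = Ψ (Q' - J Q + Q J) Φ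
   = - (Ψ v_{i0}) ⊗ (mu Φ) - ∑_a (Ψ u_a) ⊗ (th_a Q Φ)` and
  `th_a Q Φ = (th_a Φ)(Ψ Q Φ)` since `Φ Ψ = 1`;
* `hth`: `(th_a Φ)(Ψ v_{i0}) = th_a v_{i0} = 0`, and `Ψ v_{i0} = C x`;
* `hQv`, `hQu`: `(Ψ Q Φ)(Ψ w) = Ψ Q w` and `(Ψ w)' = Ψ (w' - J w)`;
* `hu`: the same.
The constant terms of `Ψ w` and `w` agree since `Ψ(0) = 1`. -/
theorem exists_flat : ∃ M : Flat K ι A r, M.i0 = L.i0 ∧ M.s = L.s ∧
    (∀ j b, constantCoeff (M.v j b) = constantCoeff (L.v j b)) ∧
    (∀ a b, constantCoeff (M.u a b) = constantCoeff (L.u a b)) := by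
  classical
  obtain ⟨Φ, Ψ, hΦ, hΨ, hΨΦ, hΦΨ, hΦ0, hΨ0⟩ := ode_gauge (K := K) (Matrix.of L.J)
  set J : Matrix ι ι K⟦X⟧ := Matrix.of L.J with hJ
  set Qm : Matrix ι ι K⟦X⟧ := Matrix.of L.Q with hQm
  have dΦ : l5dM Φ = J * Φ := by
    ext1 b c
    exact hΦ b c
  have dΨ : l5dM Ψ = -(Ψ * J) := by
    ext1 b c
    exact hΨ b c
  have key : ∀ w : ι → K⟦X⟧, l5dv (Ψ.mulVec w) = Ψ.mulVec (l5dv w - J.mulVec w) := by
    intro w
    rw [l5dv_mulVec, dΨ, Matrix.neg_mulVec, Matrix.mulVec_sub, ← Matrix.mulVec_mulVec]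
    abel
  have vhx : l5dv (L.v L.i0) = J.mulVec (L.v L.i0) := by
    funext b
    exact L.hx b
  have vhth : ∀ a, dotProduct (L.th a) (L.v L.i0) = 0 := fun a => L.hth a
  have vhQv : ∀ j, Qm.mulVec (L.v j) = L.s • (l5dv (L.v j) - J.mulVec (L.v j)) +
      (d⁄dX K L.s) • L.v j - L.s • ∑ a, L.vt j a • L.u a := by
    intro j
    funext b
    simp only [Pi.add_apply, Pi.sub_apply, Pi.smul_apply, Finset.sum_apply, smul_eq_mul]
    exact L.hQv j b
  have vhQu : ∀ a, Qm.mulVec (L.u a) = L.s • (l5dv (L.u a) - J.mulVec (L.u a)) := by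
    intro a
    funext b
    exact L.hQu a b
  have vhu : ∀ a, l5dv (L.u a) - J.mulVec (L.u a) = ∑ j, L.g a j • L.v j := by
    intro a
    funext b
    simp only [Finset.sum_apply, Pi.smul_apply, smul_eq_mul]
    exact L.hu a b
  have vhQ' : l5dM Qm = J * Qm - Qm * J - Matrix.vecMulVec (L.v L.i0) L.mu -
      ∑ a, Matrix.vecMulVec (L.u a) (Matrix.vecMul (L.th a) Qm) := by
    ext1 b c
    have h := L.hQ' b c
    simp only [l5dM, Matrix.of_apply, Matrix.sub_apply, Matrix.mul_apply, Matrix.vecMulVec_apply,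
      Matrix.sum_apply, Matrix.vecMul, dotProduct, hJ, hQm]
    rw [h, Finset.sum_sub_distrib]
  -- new data
  have nQ' : l5dM (Ψ * Qm * Φ) = -Matrix.vecMulVec (Ψ.mulVec (L.v L.i0)) (Matrix.vecMul L.mu Φ) -
      ∑ a, Matrix.vecMulVec (Ψ.mulVec (L.u a))
        (Matrix.vecMul (Matrix.vecMul (L.th a) Φ) (Ψ * Qm * Φ)) := by
    have h1 : ∀ a, Matrix.vecMul (Matrix.vecMul (L.th a) Φ) (Ψ * Qm * Φ) =
        Matrix.vecMul (Matrix.vecMul (L.th a) Qm) Φ := by
      intro a
      rw [Matrix.vecMul_vecMul, Matrix.vecMul_vecMul, ← Matrix.mul_assoc, ← Matrix.mul_assoc, hΦΨ,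
        Matrix.one_mul]
    have h2 : ∀ w t : ι → K⟦X⟧, Ψ * Matrix.vecMulVec w t * Φ =
        Matrix.vecMulVec (Ψ.mulVec w) (Matrix.vecMul t Φ) := by
      intro w t
      rw [Matrix.mul_vecMulVec, Matrix.vecMulVec_mul]
    simp only [h1]
    rw [l5dM_mul, l5dM_mul, dΦ, dΨ, vhQ']
    simp only [← h2]
    rw [← Finset.sum_mul, ← Finset.mul_sum]
    noncomm_ring
  have nx : ∀ b, Ψ.mulVec (L.v L.i0) b = C (constantCoeff (Ψ.mulVec (L.v L.i0) b)) := by
    intro b
    apply eq_C_of_deriv_zero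
    have h := congrFun (key (L.v L.i0)) b
    rw [vhx, sub_self, Matrix.mulVec_zero] at h
    exact h
  have hcc : ∀ (w : ι → K⟦X⟧) (b : ι), constantCoeff (Ψ.mulVec w b) = constantCoeff (w b) := by
    intro w b
    have h1 : ∀ c, constantCoeff (Ψ b c) = (1 : Matrix ι ι K) b c := by
      intro c
      rw [← hΨ0]
      rfl
    simp only [Matrix.mulVec, dotProduct, map_sum, map_mul, h1]
    simp [Matrix.one_apply]
  have hcomm : ∀ w : ι → K⟦X⟧, (Ψ * Qm * Φ).mulVec (Ψ.mulVec w) = Ψ.mulVec (Qm.mulVec w) := by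
    intro w
    rw [Matrix.mulVec_mulVec, Matrix.mulVec_mulVec, Matrix.mul_assoc, hΦΨ, Matrix.mul_one]
  refine ⟨{ i0 := L.i0
            x := fun b => constantCoeff (Ψ.mulVec (L.v L.i0) b)
            v := fun j => Ψ.mulVec (L.v j)
            u := fun a => Ψ.mulVec (L.u a)
            Q := Ψ * Qm * Φ
            th := fun a => Matrix.vecMul (L.th a) Φ
            mu := Matrix.vecMul L.mu Φ
            s := L.s
            vt := L.vt
            g := L.g
            hx := nx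
            hQ' := ?_
            hth := ?_
            hQv := ?_
            hvt := L.hvt
            hQu := ?_
            hu := ?_
            s0 := L.s0
            s1 := L.s1 }, rfl, rfl, fun j b => hcc _ _, fun a b => hcc _ _⟩
  · intro b c
    have h := congrFun (congrFun nQ' b) c
    rw [← nx b]
    simp only [l5dM, Matrix.of_apply, Matrix.sub_apply, Matrix.neg_apply, Matrix.vecMulVec_apply,
      Matrix.sum_apply] at h
    rw [h]
    rfl
  · intro a
    have h1 : ∑ d, Matrix.vecMul (L.th a) Φ d * C (constantCoeff (Ψ.mulVec (L.v L.i0) d)) =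
        dotProduct (Matrix.vecMul (L.th a) Φ) (Ψ.mulVec (L.v L.i0)) := by
      rw [dotProduct]
      exact Finset.sum_congr rfl fun d _ => by rw [← nx d]
    rw [h1, Matrix.dotProduct_mulVec, Matrix.vecMul_vecMul, hΦΨ, Matrix.vecMul_one]
    exact vhth a
  · intro j b
    have h := congrFun (hcomm (L.v j)) b
    rw [vhQv j, Matrix.mulVec_sub, Matrix.mulVec_add, Matrix.mulVec_smul, Matrix.mulVec_smul,
      Matrix.mulVec_smul, ← key, Matrix.mulVec_sum] at h
    simp only [Matrix.mulVec_smul, Pi.add_apply, Pi.sub_apply, Pi.smul_apply, Finset.sum_apply,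
      smul_eq_mul] at h
    exact h
  · intro a b
    have h := congrFun (hcomm (L.u a)) b
    rw [vhQu a, Matrix.mulVec_smul, ← key] at h
    exact h
  · intro a b
    have h := congrFun (key (L.u a)) b
    rw [vhu a, Matrix.mulVec_sum] at h
    simp only [Matrix.mulVec_smul, Finset.sum_apply, Pi.smul_apply, smul_eq_mul] at h
    exact h

/-- From `exists_flat` and `Flat.s_eq_zero` (`vc j 0 = fun b => coeff 0 (v j b)`,
`coeff_zero_eq_constantCoeff`). -/
theorem s_eq_zero (hind : LinearIndependent K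
      (Sum.elim (fun (j : Fin r) (b : ι) => constantCoeff (L.v j b))
      (fun (a : A) (b : ι) => constantCoeff (L.u a b)))) (hj : ∃ j, j ≠ L.i0) : L.s = 0 := by
  obtain ⟨M, h1, h2, h3, h4⟩ := L.exists_flat
  rw [← h2]
  refine M.s_eq_zero ?_ (by rw [h1]; exact hj)
  have : (Sum.elim (fun (j : Fin r) => M.vc j 0) (fun (a : A) => M.uc a 0)) =
      (Sum.elim (fun (j : Fin r) (b : ι) => constantCoeff (L.v j b))
      (fun (a : A) (b : ι) => constantCoeff (L.u a b))) := by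
    funext i
    rcases i with j | a
    · funext b
      exact (by rw [Sum.elim_inl, Sum.elim_inl, ← h3, Flat.vc, coeff_zero_eq_constantCoeff_apply])
    · funext b
      exact (by rw [Sum.elim_inr, Sum.elim_inr, ← h4, Flat.uc, coeff_zero_eq_constantCoeff_apply])
  rw [this]
  exact hind

end Pool.Agent.RIG.Curved
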