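import Pool.Agent.RIG.Germ

/-!
[RIG-R1] Vector fields and their components in the ring of germs.
-/

namespace Pool.Agent.RIG

open Filter Topology

variable {E : Type*} [NormedAddCommGroup E] [NormedSpace ℂ E] [FiniteDimensional ℂ E] {P : E}
  {ι : Type*} [Fintype ι]

/-- The coordinate `b.repr v i` is a (continuous) linear function of `v`. -/
theorem an_coord (b : Module.Basis ι ℂ E) {Y : E → E} (hY : AnalyticAt ℂ Y P) (i : ι) :
    AnalyticAt ℂ (fun y => b.repr (Y y) i) P :=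
  (ContinuousLinearMap.analyticAt ((b.coord i).toContinuousLinearMap) (Y P)).comp hY

theorem r1_fderiv_coord (b : Module.Basis ι ℂ E) {Y : E → E} {y : E}
    (hY : DifferentiableAt ℂ Y y) (i : ι) (u : E) :
    fderiv ℂ (fun z => b.repr (Y z) i) y u = b.repr (fderiv ℂ Y y u) i := by
  have h := (((b.coord i).toContinuousLinearMap).hasFDerivAt (x := Y y)).comp y
    hY.hasFDerivAt
  have h2 : HasFDerivAt (fun z => b.repr (Y z) i)
      (((b.coord i).toContinuousLinearMap).comp (fderiv ℂ Y y)) y := h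
  rw [h2.fderiv]
  rfl

/-- Components of an analytic vector field in the basis `b`. -/
noncomputable def cmp (b : Module.Basis ι ℂ E) (Y : E → E) (hY : AnalyticAt ℂ Y P) :
    ι → anGerm P := fun i => mk (fun y => b.repr (Y y) i) (an_coord b hY i)

/-- Partial derivatives of germs. -/
noncomputable def pdG (b : Module.Basis ι ℂ E) (i : ι) : Derivation ℤ (anGerm P) (anGerm P) :=
  dirD (fun _ => b i) analyticAt_const

/-- Symmetry of second derivatives of analytic functions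
(`ContDiffAt.isSymmSndFDerivAt`, `AnalyticAt.contDiffAt`; the derivative of
`y ↦ fderiv ℂ f y v` in the direction `w` is `fderiv ℂ (fderiv ℂ f) y w v`). -/
theorem pdG_comm (b : Module.Basis ι ℂ E) (i j : ι) (a : anGerm P) :
    pdG b i (pdG b j a) = pdG b j (pdG b i a) := by
  obtain ⟨f, hf, rfl⟩ := exists_rep a
  unfold pdG
  rw [dirD_mk, dirD_mk, dirD_mk, dirD_mk, mk_eq_mk]
  filter_upwards [hf.eventually_analyticAt] with y hy
  have hd : DifferentiableAt ℂ (fderiv ℂ f) y := hy.fderiv.differentiableAt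
  have h1 : ∀ u v : E, fderiv ℂ (fun z => fderiv ℂ f z u) y v = fderiv ℂ (fderiv ℂ f) y v u := by
    intro u v
    rw [fderiv_clm_apply hd (differentiableAt_const _)]
    simp
  rw [h1, h1]
  have hs : IsSymmSndFDerivAt ℂ f y := by
    have hc : ContDiffAt ℂ (minSmoothness ℂ 2) f y := hy.contDiffAt
    exact hc.isSymmSndFDerivAt le_rfl
  exact hs (b i) (b j)

/-- `fderiv ℂ f y (Y y) = ∑ i, (b.repr (Y y) i) * fderiv ℂ f y (b i)` (`Module.Basis.sum_repr`). -/
theorem DD_cmp (b : Module.Basis ι ℂ E) {Y : E → E} (hY : AnalyticAt ℂ Y P) (a : anGerm P) :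
    DD (pdG b) (cmp b Y hY) a = dirD Y hY a := by
  obtain ⟨f, hf, rfl⟩ := exists_rep a
  rw [DD_apply, dirD_mk]
  have h1 : ∀ i, cmp b Y hY i * pdG b i (mk f hf) =
      mk (fun y => b.repr (Y y) i * fderiv ℂ f y (b i))
        ((an_coord b hY i).mul (an_dir hf analyticAt_const)) := by
    intro i
    unfold cmp pdG
    rw [dirD_mk, mk_mul]
  rw [Finset.sum_congr rfl fun i _ => h1 i, mk_sum, mk_eq_mk]
  refine Eventually.of_forall fun y => ?_
  change ∑ i, b.repr (Y y) i * fderiv ℂ f y (b i) = fderiv ℂ f y (Y y)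
  conv_rhs => rw [← b.sum_repr (Y y), map_sum]
  refine Finset.sum_congr rfl fun i _ => ?_
  rw [map_smul, smul_eq_mul]

theorem an_lieBracket {Y Z : E → E} (hY : AnalyticAt ℂ Y P) (hZ : AnalyticAt ℂ Z P) :
    AnalyticAt ℂ (VectorField.lieBracket ℂ Y Z) P := by
  rw [VectorField.lieBracket_eq]
  exact (an_clm_apply hZ.fderiv hY).sub (an_clm_apply hY.fderiv hZ)

/-- `lieBracket Y Z y = dZ_y (Y y) - dY_y (Z y)` (`VectorField.lieBracket_eq`), and the coordinates
of `dZ_y u` are the derivatives in the direction `u` of the coordinates of `Z`; use `DD_cmp`. -/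
theorem br_cmp (b : Module.Basis ι ℂ E) {Y Z : E → E} (hY : AnalyticAt ℂ Y P)
    (hZ : AnalyticAt ℂ Z P) :
    br (pdG b) (cmp b Y hY) (cmp b Z hZ) =
      cmp b (VectorField.lieBracket ℂ Y Z) (an_lieBracket hY hZ) := by
  funext i
  unfold br
  rw [DD_cmp, DD_cmp]
  unfold cmp
  rw [dirD_mk, dirD_mk, mk_sub, mk_eq_mk]
  filter_upwards [hY.eventually_analyticAt, hZ.eventually_analyticAt] with y h1 h2
  rw [r1_fderiv_coord b h1.differentiableAt, r1_fderiv_coord b h2.differentiableAt,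
    VectorField.lieBracket_eq, map_sub, Finsupp.sub_apply]

theorem cmp_congr (b : Module.Basis ι ℂ E) {Y Z : E → E} (hY : AnalyticAt ℂ Y P)
    (hZ : AnalyticAt ℂ Z P) (h : ∀ᶠ y in 𝓝 P, Y y = Z y) : cmp b Y hY = cmp b Z hZ := by
  funext i
  unfold cmp
  rw [mk_eq_mk]
  filter_upwards [h] with y hy
  rw [hy]

/-- `D_{[Y,Z]} = [D_Y, D_Z]` on germs of analytic functions
(`VectorField.fderiv_apply_lieBracket`, or a direct computation). -/
theorem dirD_lieBracket {Y Z : E → E} (hY : AnalyticAt ℂ Y P) (hZ : AnalyticAt ℂ Z P)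
    (a : anGerm P) :
    dirD (VectorField.lieBracket ℂ Y Z) (an_lieBracket hY hZ) a =
      dirD Y hY (dirD Z hZ a) - dirD Z hZ (dirD Y hY a) := by
  obtain ⟨f, hf, rfl⟩ := exists_rep a
  rw [dirD_mk, dirD_mk, dirD_mk, dirD_mk, dirD_mk, mk_sub, mk_eq_mk]
  filter_upwards [hf.eventually_analyticAt, hY.eventually_analyticAt,
    hZ.eventually_analyticAt] with y h0 h1 h2
  have hd : DifferentiableAt ℂ (fderiv ℂ f) y := h0.fderiv.differentiableAt
  have hs : IsSymmSndFDerivAt ℂ f y := by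
    have hc : ContDiffAt ℂ (minSmoothness ℂ 2) f y := h0.contDiffAt
    exact hc.isSymmSndFDerivAt le_rfl
  rw [fderiv_clm_apply hd h2.differentiableAt, fderiv_clm_apply hd h1.differentiableAt,
    VectorField.lieBracket_eq]
  simp only [ContinuousLinearMap.add_apply, ContinuousLinearMap.comp_apply,
    ContinuousLinearMap.flip_apply, map_sub]
  rw [hs (Y y) (Z y)]
  ring

theorem dirD_congr {Y Z : E → E} (hY : AnalyticAt ℂ Y P) (hZ : AnalyticAt ℂ Z P)
    (h : ∀ᶠ y in 𝓝 P, Y y = Z y) (a : anGerm P) : dirD Y hY a = dirD Z hZ a := by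
  obtain ⟨f, hf, rfl⟩ := exists_rep a
  rw [dirD_mk, dirD_mk, mk_eq_mk]
  filter_upwards [h] with y hy
  rw [hy]

theorem an_sum_smul {κ : Type*} [Fintype κ] {f : κ → E → ℂ} {Y : κ → E → E}
    (hf : ∀ k, AnalyticAt ℂ (f k) P) (hY : ∀ k, AnalyticAt ℂ (Y k) P) :
    AnalyticAt ℂ (fun y => ∑ k, f k y • Y k y) P :=
  Finset.analyticAt_fun_sum _ fun k _ => (hf k).smul (hY k)

/-- `D_{∑ f_k Y_k} = ∑ f_k D_{Y_k}`. -/
theorem dirD_sum_smul {κ : Type*} [Fintype κ] {f : κ → E → ℂ} {Y : κ → E → E}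
    (hf : ∀ k, AnalyticAt ℂ (f k) P) (hY : ∀ k, AnalyticAt ℂ (Y k) P) (a : anGerm P) :
    dirD (fun y => ∑ k, f k y • Y k y) (an_sum_smul hf hY) a =
      ∑ k, mk (f k) (hf k) * dirD (Y k) (hY k) a := by
  obtain ⟨g, hg, rfl⟩ := exists_rep a
  have h1 : ∀ k, mk (f k) (hf k) * dirD (Y k) (hY k) (mk g hg) =
      mk (fun y => f k y * fderiv ℂ g y (Y k y)) ((hf k).mul (an_dir hg (hY k))) := by
    intro k
    rw [dirD_mk, mk_mul]
  rw [Finset.sum_congr rfl fun k _ => h1 k, mk_sum, dirD_mk, mk_eq_mk]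
  refine Eventually.of_forall fun y => ?_
  change fderiv ℂ g y (∑ k, f k y • Y k y) = ∑ k, f k y * fderiv ℂ g y (Y k y)
  rw [map_sum]
  refine Finset.sum_congr rfl fun k _ => ?_
  rw [map_smul, smul_eq_mul]

end Pool.Agent.RIG
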