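import Pool.Agent.RIG.A1
import Pool.Agent.RIG.A2

/-!
[RIG-S1] Along the formal curve in the direction `y i` through `ev` the field `sg` is a multiple
`s` of the velocity, with `s' = - Γ(lam)`.
-/

namespace Pool.Agent.RIG

open PowerSeries

variable {R : Type*} [CommRing R] {ι A : Type*} [Fintype ι] [Fintype A] {r : ℕ}
  (S : Sys R ι A r) {K : Type*} [Field K] [CharZero K] (ev : R →+* K)

/-- The Taylor homomorphism `Γ` along `D_{y i}`. -/
noncomputable def Sys.Gam (i : Fin r) : R →+* K⟦X⟧ := expHom ev (DD S.pd (S.y i))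

theorem Sys.Gam_deriv (i : Fin r) (f : R) :
    d⁄dX K (S.Gam ev i f) = S.Gam ev i (DD S.pd (S.y i) f) := expHom_deriv ev _ f

/-- The connection matrix `J b c = Γ(∂_c y_i^b)`. -/
noncomputable def Sys.J (i : Fin r) (b c : ι) : K⟦X⟧ := S.Gam ev i (S.pd c (S.y i b))

/-- `x' = J x` for `x = Γ(y i)`: `Γ(y_i^b)' = Γ(D_{y_i} y_i^b) = ∑_c Γ(y_i^c) Γ(∂_c y_i^b)`. -/
theorem Sys.x_deriv (i : Fin r) (b : ι) :
    d⁄dX K (S.Gam ev i (S.y i b)) = ∑ c, S.J ev i b c * S.Gam ev i (S.y i c) := by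
  rw [Sys.Gam_deriv, DD_apply, map_sum]
  refine Finset.sum_congr rfl fun c _ => ?_
  rw [map_mul, mul_comm]
  rfl

/-- `s` with `s' = - Γ(lam)`, `s(0) = 0` (choose from `exists_antideriv`). -/
noncomputable def Sys.s (i : Fin r) : K⟦X⟧ :=
  Classical.choose (exists_antideriv (K := K) (-(S.Gam ev i S.lam)))

theorem Sys.s_deriv (i : Fin r) : d⁄dX K (S.s ev i) = -(S.Gam ev i S.lam) :=
  (Classical.choose_spec (exists_antideriv (K := K) (-(S.Gam ev i S.lam)))).1

theorem Sys.s_zero (i : Fin r) : constantCoeff (S.s ev i) = 0 :=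
  (Classical.choose_spec (exists_antideriv (K := K) (-(S.Gam ev i S.lam)))).2

/-- `coeff 1 s = coeff 0 s' = - ev lam = 0`. -/
theorem Sys.s_one (i : Fin r) (h : ev S.lam = 0) : coeff 1 (S.s ev i) = 0 := by
  have h1 := congrArg (coeff 0) (S.s_deriv ev i)
  rw [PowerSeries.coeff_derivative] at h1
  simp only [map_neg, PowerSeries.coeff_zero_eq_constantCoeff_apply] at h1
  rw [show constantCoeff (S.Gam ev i S.lam) = ev S.lam from
    expHom_constantCoeff ev _ S.lam, h] at h1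
  simpa using h1

/-- (S1).  By `E1`, `D_{y_i} sg^b = D_sg y_i^b - lam y_i^b - ∑_a (∑_d th_{iad} sg^d) V_a^b`.
Apply `Γ`: with `S^b = Γ(sg^b)`, `S' = J S - Γ(lam) x - w S`, where
`(w Z)^b = ∑_a Γ(V_a^b) ∑_d Γ(th_{iad}) Z^d` and `x = Γ(y_i)`.  By `E2`, `w x = 0`, and `x' = J x`, so
`(s x)' = - Γ(lam) x + s J x = J (s x) - Γ(lam) x - w (s x)`.  So `Z = S - s x` satisfies
`Z' = (J - w) Z` and `Z(0) = ev sg = 0`; by `ode_unique`, `Z = 0`. -/
theorem Sys.S1 (i : Fin r) (h0 : ∀ b, ev (S.sg b) = 0) (b : ι) :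
    S.Gam ev i (S.sg b) = S.s ev i * S.Gam ev i (S.y i b) := by
  have key := ode_unique (K := K)
    (fun b c => S.J ev i b c - ∑ a, S.Gam ev i (S.V a b) * S.Gam ev i (S.th i a c))
    (fun b => S.Gam ev i (S.sg b) - S.s ev i * S.Gam ev i (S.y i b)) ?_ ?_ b
  · exact sub_eq_zero.1 key
  · intro b
    -- the derivative of `Γ (sg b)`
    have h1 : DD S.pd (S.y i) (S.sg b) = (∑ c, S.sg c * S.pd c (S.y i b)) - S.lam * S.y i b -
        ∑ a, (∑ d, S.th i a d * S.sg d) * S.V a b := by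
      have := S.E1 i b
      simp only [br] at this
      rw [← DD_apply]
      linear_combination -this
    have h2 : d⁄dX K (S.Gam ev i (S.sg b)) =
        (∑ c, S.J ev i b c * S.Gam ev i (S.sg c)) - S.Gam ev i S.lam * S.Gam ev i (S.y i b) -
        ∑ c, (∑ a, S.Gam ev i (S.V a b) * S.Gam ev i (S.th i a c)) * S.Gam ev i (S.sg c) := by
      rw [Sys.Gam_deriv, h1, map_sub, map_sub, map_sum, map_sum, map_mul]
      congr 1
      · congr 1
        refine Finset.sum_congr rfl fun c _ => ?_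
        rw [map_mul, mul_comm]
        rfl
      · simp only [map_mul, map_sum, Finset.sum_mul]
        rw [Finset.sum_comm]
        refine Finset.sum_congr rfl fun c _ => Finset.sum_congr rfl fun a _ => ?_
        ring
    -- `w x = 0`
    have h3 : ∑ c, (∑ a, S.Gam ev i (S.V a b) * S.Gam ev i (S.th i a c)) *
        S.Gam ev i (S.y i c) = 0 := by
      simp only [Finset.sum_mul]
      rw [Finset.sum_comm]
      refine Finset.sum_eq_zero fun a _ => ?_
      have h4 := congrArg (S.Gam ev i) (S.E2 i a)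
      rw [map_sum, map_zero] at h4
      calc ∑ c, S.Gam ev i (S.V a b) * S.Gam ev i (S.th i a c) * S.Gam ev i (S.y i c)
          = S.Gam ev i (S.V a b) * ∑ c, S.Gam ev i (S.th i a c * S.y i c) := by
            rw [Finset.mul_sum]
            exact Finset.sum_congr rfl fun c _ => by rw [map_mul]; ring
        _ = 0 := by rw [h4, mul_zero]
    have h5 : d⁄dX K (S.s ev i * S.Gam ev i (S.y i b)) =
        S.s ev i * (∑ c, S.J ev i b c * S.Gam ev i (S.y i c)) -
          S.Gam ev i S.lam * S.Gam ev i (S.y i b) := by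
      rw [Derivation.leibniz, S.s_deriv, S.x_deriv]
      simp only [smul_eq_mul]
      ring
    rw [map_sub, h2, h5]
    have h6 : ∑ c, (S.J ev i b c - ∑ a, S.Gam ev i (S.V a b) * S.Gam ev i (S.th i a c)) *
        (S.Gam ev i (S.sg c) - S.s ev i * S.Gam ev i (S.y i c)) =
        (∑ c, S.J ev i b c * S.Gam ev i (S.sg c)) -
        (∑ c, (∑ a, S.Gam ev i (S.V a b) * S.Gam ev i (S.th i a c)) * S.Gam ev i (S.sg c)) -
        S.s ev i * (∑ c, S.J ev i b c * S.Gam ev i (S.y i c)) +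
        S.s ev i * (∑ c, (∑ a, S.Gam ev i (S.V a b) * S.Gam ev i (S.th i a c)) *
          S.Gam ev i (S.y i c)) := by
      rw [Finset.mul_sum, Finset.mul_sum, ← Finset.sum_sub_distrib, ← Finset.sum_sub_distrib,
        ← Finset.sum_add_distrib]
      refine Finset.sum_congr rfl fun c _ => ?_
      ring
    rw [h6, h3]
    ring
  · intro b
    rw [map_sub, map_mul, S.s_zero, zero_mul, sub_zero]
    exact (expHom_constantCoeff ev _ _).trans (h0 b)

/-- For every `f`, `Γ(D_sg f) = s (Γ f)'`: `Γ(∑_b sg^b ∂_b f) = s ∑_b Γ(y_i^b) Γ(∂_b f) = s Γ(D_{y_i} f)`. -/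
theorem Sys.Gam_sg (i : Fin r) (h0 : ∀ b, ev (S.sg b) = 0) (f : R) :
    S.Gam ev i (DD S.pd S.sg f) = S.s ev i * d⁄dX K (S.Gam ev i f) := by
  rw [Sys.Gam_deriv, DD_apply, DD_apply, map_sum, map_sum, Finset.mul_sum]
  refine Finset.sum_congr rfl fun c _ => ?_
  rw [map_mul, map_mul, S.S1 ev i h0 c]
  ring

end Pool.Agent.RIG
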