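import Pool.Agent.RIG.S1

/-!
[RIG-S2] The action of `Q = G - s J`, `G b c = Γ(∂_c sg^b)`, on the fields `y j` and `V a`.
-/

namespace Pool.Agent.RIG

open PowerSeries

variable {R : Type*} [CommRing R] {ι A : Type*} [Fintype ι] [Fintype A] {r : ℕ}
  (S : Sys R ι A r) {K : Type*} [Field K] [CharZero K] (ev : R →+* K)

/-- `Q b c = Γ(∂_c sg^b) - s Γ(∂_c y_i^b)`. -/
noncomputable def Sys.Q (i : Fin r) (b c : ι) : K⟦X⟧ :=
  S.Gam ev i (S.pd c (S.sg b)) - S.s ev i * S.J ev i b c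

theorem Sys.s2_DD (i : Fin r) (Z : ι → R) (f : R) :
    S.Gam ev i (DD S.pd Z f) = ∑ c, S.Gam ev i (Z c) * S.Gam ev i (S.pd c f) := by
  rw [DD_apply, map_sum]
  exact Finset.sum_congr rfl (fun c _ => map_mul _ _ _)

/-- For `Z : ι → R`: `∑_c Γ(∂_c sg^b) Γ(Z^c) = Γ(D_Z sg^b) = Γ(D_sg Z^b) - Γ(br sg Z b)
 = s Γ(Z^b)' - Γ(br sg Z b)` (`Gam_sg`), so
`∑_c Q b c Γ(Z^c) = s (Γ(Z^b)' - ∑_c J b c Γ(Z^c)) - Γ(br sg Z b)`. -/
theorem Sys.Q_apply (i : Fin r) (h0 : ∀ b, ev (S.sg b) = 0) (Z : ι → R) (b : ι) :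
    ∑ c, S.Q ev i b c * S.Gam ev i (Z c) =
      S.s ev i * (d⁄dX K (S.Gam ev i (Z b)) - ∑ c, S.J ev i b c * S.Gam ev i (Z c))
      - S.Gam ev i (br S.pd S.sg Z b) := by
  have h1 : S.Gam ev i (DD S.pd Z (S.sg b)) =
      S.s ev i * d⁄dX K (S.Gam ev i (Z b)) - S.Gam ev i (br S.pd S.sg Z b) := by
    rw [← S.Gam_sg ev i h0 (Z b), ← map_sub]
    congr 1
    unfold br
    ring
  have h2 : ∑ c, S.Q ev i b c * S.Gam ev i (Z c) =
      S.Gam ev i (DD S.pd Z (S.sg b)) - S.s ev i * ∑ c, S.J ev i b c * S.Gam ev i (Z c) := by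
    rw [S.s2_DD ev i Z (S.sg b), Finset.mul_sum, ← Finset.sum_sub_distrib]
    refine Finset.sum_congr rfl (fun c _ => ?_)
    unfold Sys.Q
    ring
  rw [h2, h1]
  ring

/-- From `Q_apply` and `E1`: `Γ(br sg (y j) b) = Γ(lam) Γ(y_j^b) + ∑_a (∑_d Γ(th_{jad}) Γ(sg^d)) Γ(V_a^b)`,
`Γ(sg^d) = s Γ(y_i^d)` (`S1`) and `Γ(lam) = - s'`. -/
theorem Sys.Q_y (i : Fin r) (h0 : ∀ b, ev (S.sg b) = 0) (j : Fin r) (b : ι) :
    ∑ c, S.Q ev i b c * S.Gam ev i (S.y j c) =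
      S.s ev i * (d⁄dX K (S.Gam ev i (S.y j b)) - ∑ c, S.J ev i b c * S.Gam ev i (S.y j c))
      + d⁄dX K (S.s ev i) * S.Gam ev i (S.y j b)
      - S.s ev i * ∑ a, (∑ d, S.Gam ev i (S.th j a d) * S.Gam ev i (S.y i d))
        * S.Gam ev i (S.V a b) := by
  have h1 : S.Gam ev i (br S.pd S.sg (S.y j) b) =
      S.Gam ev i S.lam * S.Gam ev i (S.y j b) +
        S.s ev i * ∑ a, (∑ d, S.Gam ev i (S.th j a d) * S.Gam ev i (S.y i d))
          * S.Gam ev i (S.V a b) := by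
    rw [S.E1, map_add, map_mul, map_sum, Finset.mul_sum]
    congr 1
    refine Finset.sum_congr rfl (fun a _ => ?_)
    rw [map_mul, map_sum, ← mul_assoc, Finset.mul_sum]
    congr 1
    refine Finset.sum_congr rfl (fun d _ => ?_)
    rw [map_mul, S.S1 ev i h0 d]
    ring
  rw [S.Q_apply ev i h0 (S.y j) b, h1, S.s_deriv]
  ring

/-- From `Q_apply` and `E3`. -/
theorem Sys.Q_V (i : Fin r) (h0 : ∀ b, ev (S.sg b) = 0) (a : A) (b : ι) :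
    ∑ c, S.Q ev i b c * S.Gam ev i (S.V a c) =
      S.s ev i * (d⁄dX K (S.Gam ev i (S.V a b)) - ∑ c, S.J ev i b c * S.Gam ev i (S.V a c)) := by
  rw [S.Q_apply ev i h0 (S.V a) b, S.E3, map_zero, sub_zero]

/-- From `E4`: `Γ(V_a^b)' - ∑_c J b c Γ(V_a^c) = Γ(D_{y_i} V_a^b - D_{V_a} y_i^b) = Γ(br (y i) (V a) b)`. -/
theorem Sys.V_deriv (i : Fin r) (a : A) (b : ι) :
    d⁄dX K (S.Gam ev i (S.V a b)) - ∑ c, S.J ev i b c * S.Gam ev i (S.V a c) =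
      ∑ j, S.Gam ev i (S.ga i a j) * S.Gam ev i (S.y j b) := by
  have h1 : ∑ c, S.J ev i b c * S.Gam ev i (S.V a c) = S.Gam ev i (DD S.pd (S.V a) (S.y i b)) := by
    rw [S.s2_DD ev i (S.V a) (S.y i b)]
    refine Finset.sum_congr rfl (fun c _ => ?_)
    unfold Sys.J
    exact mul_comm _ _
  have h2 : ∑ j, S.Gam ev i (S.ga i a j) * S.Gam ev i (S.y j b) =
      S.Gam ev i (br S.pd (S.y i) (S.V a) b) := by
    rw [S.E4, map_sum]
    exact Finset.sum_congr rfl (fun j _ => (map_mul _ _ _).symm)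
  rw [S.Gam_deriv, h1, h2, ← map_sub]
  rfl

/-- From `E2`. -/
theorem Sys.th_y (i : Fin r) (a : A) :
    ∑ d, S.Gam ev i (S.th i a d) * S.Gam ev i (S.y i d) = 0 := by
  have h1 : ∑ d, S.Gam ev i (S.th i a d) * S.Gam ev i (S.y i d) =
      S.Gam ev i (∑ d, S.th i a d * S.y i d) := by
    rw [map_sum]
    exact Finset.sum_congr rfl (fun d _ => (map_mul _ _ _).symm)
  rw [h1, S.E2, map_zero]

end Pool.Agent.RIG
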