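import Pool.Agent.RIG.S2

/-!
[RIG-S3] The derivative of `Q`.
-/

namespace Pool.Agent.RIG

open PowerSeries

variable {R : Type*} [CommRing R] {ι A : Type*} [Fintype ι] [Fintype A] {r : ℕ}
  (S : Sys R ι A r) {K : Type*} [Field K] [CharZero K] (ev : R →+* K)

/-- `∂_c D_Y f = ∑_e ∂_c Y^e ∂_e f + D_Y ∂_c f`. -/
theorem Sys.s3_pd_DD (Y : ι → R) (f : R) (c : ι) :
    S.pd c (DD S.pd Y f) = ∑ e, S.pd c (Y e) * S.pd e f + DD S.pd Y (S.pd c f) := by
  rw [DD_apply, DD_apply, map_sum, ← Finset.sum_add_distrib]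
  refine Finset.sum_congr rfl fun e _ => ?_
  rw [Derivation.leibniz, smul_eq_mul, smul_eq_mul, S.comm c e f]
  ring

/-- Apply `∂_c` to `E1`: `∂_c (D_sg y_i^b - D_{y_i} sg^b) = ∂_c (lam y_i^b + ∑_a th_{ia}(sg) V_a^b)`,
where `th_{ia}(sg) = ∑_d th_{iad} sg^d`.  Expanding the left side with
`∂_c D_Y f = ∑_e ∂_c Y^e ∂_e f + D_Y ∂_c f` (commutation of the `∂`'s):
`∑_e ∂_c sg^e ∂_e y_i^b + D_sg ∂_c y_i^b - ∑_e ∂_c y_i^e ∂_e sg^b - D_{y_i} ∂_c sg^b`. -/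
theorem Sys.pd_E1 (i : Fin r) (b c : ι) :
    ∑ e, S.pd c (S.sg e) * S.pd e (S.y i b) + DD S.pd S.sg (S.pd c (S.y i b))
      - ∑ e, S.pd c (S.y i e) * S.pd e (S.sg b) - DD S.pd (S.y i) (S.pd c (S.sg b)) =
    S.pd c S.lam * S.y i b + S.lam * S.pd c (S.y i b)
      + ∑ a, ((∑ d, (S.pd c (S.th i a d) * S.sg d + S.th i a d * S.pd c (S.sg d))) * S.V a b
        + (∑ d, S.th i a d * S.sg d) * S.pd c (S.V a b)) := by
  have h := congrArg (S.pd c) (S.E1 i b)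
  unfold br at h
  rw [map_sub, S.s3_pd_DD, S.s3_pd_DD, map_add, map_sum, Derivation.leibniz] at h
  simp only [smul_eq_mul] at h
  have h2 : ∀ a, S.pd c ((∑ d, S.th i a d * S.sg d) * S.V a b) =
      (∑ d, (S.pd c (S.th i a d) * S.sg d + S.th i a d * S.pd c (S.sg d))) * S.V a b
        + (∑ d, S.th i a d * S.sg d) * S.pd c (S.V a b) := by
    intro a
    have h3 : S.pd c (∑ d, S.th i a d * S.sg d) =
        ∑ d, (S.pd c (S.th i a d) * S.sg d + S.th i a d * S.pd c (S.sg d)) := by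
      rw [map_sum]
      refine Finset.sum_congr rfl fun d _ => ?_
      rw [Derivation.leibniz, smul_eq_mul, smul_eq_mul]
      ring
    rw [Derivation.leibniz, smul_eq_mul, smul_eq_mul, h3]
    ring
  rw [Finset.sum_congr rfl fun a _ => h2 a] at h
  linear_combination h

/-- Apply `∂_c` to `E2`. -/
theorem Sys.pd_E2 (i : Fin r) (a : A) (c : ι) :
    ∑ d, (S.pd c (S.th i a d) * S.y i d + S.th i a d * S.pd c (S.y i d)) = 0 := by
  have h := congrArg (S.pd c) (S.E2 i a)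
  rw [map_sum, map_zero] at h
  rw [← h]
  refine Finset.sum_congr rfl fun d _ => ?_
  rw [Derivation.leibniz, smul_eq_mul, smul_eq_mul]
  ring

/-- (S3).  Apply `Γ` to `pd_E1`.  Write `G b c = Γ(∂_c sg^b)`, `x = Γ(y_i)`, `Γ(sg) = s x` (`S1`),
`Γ(D_sg f) = s Γ(f)'` (`Gam_sg`), `Γ(D_{y_i} f) = Γ(f)'`.  Left side:
`∑_e G e c J b e + s (J b c)' - ∑_e J e c G b e - (G b c)'`.  Right side:
`Γ(∂_c lam) x b + Γ(lam) J b c + ∑_a (s ∑_d Γ(∂_c th_{iad}) x_d + ∑_d Γ(th_{iad}) G d c) Γ(V_a^b)`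
(the last summand is `s (∑_d Γ(th_{iad}) x_d) Γ(∂_c V_a^b) = 0` by `th_y`), and by `pd_E2`
`∑_d Γ(∂_c th_{iad}) x_d = - ∑_d Γ(th_{iad}) J d c`, so the `a`-th bracket is
`∑_d Γ(th_{iad}) (G d c - s J d c) = ∑_d Γ(th_{iad}) Q d c`.
Hence `(G b c)' = ∑_e (J b e G e c - G b e J e c) + s (J b c)' - Γ(∂_c lam) x b - Γ(lam) J b c
  - ∑_a Γ(V_a^b) ∑_d Γ(th_{iad}) Q d c`, and
`(Q b c)' = (G b c)' - s' J b c - s (J b c)'` with `s' = - Γ(lam)`; finally
`J G - G J = J Q - Q J` (`Q = G - s J`). -/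
theorem Sys.Q_deriv (i : Fin r) (h0 : ∀ b, ev (S.sg b) = 0) (b c : ι) :
    d⁄dX K (S.Q ev i b c) =
      ∑ e, (S.J ev i b e * S.Q ev i e c - S.Q ev i b e * S.J ev i e c)
      - S.Gam ev i (S.y i b) * S.Gam ev i (S.pd c S.lam)
      - ∑ a, S.Gam ev i (S.V a b) * ∑ d, S.Gam ev i (S.th i a d) * S.Q ev i d c := by
  have h1 := congrArg (S.Gam ev i) (S.pd_E1 i b c)
  simp only [map_add, map_sub, map_sum, map_mul] at h1
  rw [S.Gam_sg ev i h0, ← S.Gam_deriv ev i (S.pd c (S.sg b))] at h1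
  have hlam : S.Gam ev i S.lam = -(d⁄dX K (S.s ev i)) := by rw [S.s_deriv ev i]; ring
  -- the brackets
  have h2 : ∀ a, (∑ d, (S.Gam ev i (S.pd c (S.th i a d)) * S.Gam ev i (S.sg d) +
        S.Gam ev i (S.th i a d) * S.Gam ev i (S.pd c (S.sg d)))) * S.Gam ev i (S.V a b)
        + (∑ d, S.Gam ev i (S.th i a d) * S.Gam ev i (S.sg d)) * S.Gam ev i (S.pd c (S.V a b)) =
      S.Gam ev i (S.V a b) * ∑ d, S.Gam ev i (S.th i a d) * S.Q ev i d c := by
    intro a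
    have h3 := congrArg (S.Gam ev i) (S.pd_E2 i a c)
    simp only [map_add, map_sum, map_mul, map_zero] at h3
    have h4 := S.th_y ev i a
    have h5 : ∑ d, S.Gam ev i (S.th i a d) * S.Gam ev i (S.sg d) = 0 := by
      have : ∑ d, S.Gam ev i (S.th i a d) * S.Gam ev i (S.sg d) =
          S.s ev i * ∑ d, S.Gam ev i (S.th i a d) * S.Gam ev i (S.y i d) := by
        rw [Finset.mul_sum]
        refine Finset.sum_congr rfl fun d _ => ?_
        rw [S.S1 ev i h0 d]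
        ring
      rw [this, h4, mul_zero]
    have h6 : ∑ d, (S.Gam ev i (S.pd c (S.th i a d)) * S.Gam ev i (S.sg d) +
        S.Gam ev i (S.th i a d) * S.Gam ev i (S.pd c (S.sg d))) =
        (∑ d, S.Gam ev i (S.th i a d) * S.Q ev i d c) +
        S.s ev i * ∑ d, (S.Gam ev i (S.pd c (S.th i a d)) * S.Gam ev i (S.y i d) +
          S.Gam ev i (S.th i a d) * S.Gam ev i (S.pd c (S.y i d))) := by
      rw [Finset.mul_sum, ← Finset.sum_add_distrib]
      refine Finset.sum_congr rfl fun d _ => ?_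
      rw [S.S1 ev i h0 d]
      unfold Sys.Q Sys.J
      ring
    rw [h5, h6, h3]
    ring
  rw [Finset.sum_congr rfl fun a _ => h2 a, hlam] at h1
  have h7 : ∑ e, (S.J ev i b e * S.Q ev i e c - S.Q ev i b e * S.J ev i e c) =
      ∑ e, S.Gam ev i (S.pd c (S.sg e)) * S.Gam ev i (S.pd e (S.y i b)) -
      ∑ e, S.Gam ev i (S.pd c (S.y i e)) * S.Gam ev i (S.pd e (S.sg b)) := by
    rw [← Finset.sum_sub_distrib]
    refine Finset.sum_congr rfl fun e _ => ?_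
    unfold Sys.Q Sys.J
    ring
  have h8 : d⁄dX K (S.Q ev i b c) = d⁄dX K (S.Gam ev i (S.pd c (S.sg b))) -
      (S.s ev i * d⁄dX K (S.Gam ev i (S.pd c (S.y i b))) +
        S.Gam ev i (S.pd c (S.y i b)) * d⁄dX K (S.s ev i)) := by
    unfold Sys.Q Sys.J
    rw [map_sub, Derivation.leibniz, smul_eq_mul, smul_eq_mul]
  rw [h8, h7]
  linear_combination -h1

end Pool.Agent.RIG
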