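import Pool.Agent.RIG.S3
import Pool.Agent.RIG.L5

/-!
[RIG-S4] The one direction theorem and the theorem on words.
-/

namespace Pool.Agent.RIG

open PowerSeries

variable {R : Type*} [CommRing R] {ι A : Type*} [Fintype ι] [Fintype A] {r : ℕ}
  (S : Sys R ι A r) {K : Type*} [Field K] [CharZero K] (ev : R →+* K)

/-- Build a `Curved K ι A r` from `S`: `i0 = i`, `J = S.J ev i`, `v j b = Γ(y_j^b)`,
`u a b = Γ(V_a^b)`, `Q = S.Q ev i`, `th a d = Γ(th_{iad})`, `mu c = Γ(∂_c lam)`, `s = S.s ev i`,
`vt j a = ∑_d Γ(th_{jad}) Γ(y_i^d)`, `g a j = Γ(ga i a j)`; the fields are `x_deriv`, `Q_deriv`,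
`th_y`, `Q_y`, `th_y`, `Q_V`, `V_deriv`, `s_zero`, `s_one`.  `Curved.s_eq_zero` gives `s = 0`
(constant terms of `Γ` are `ev`: `expHom_constantCoeff`). -/
theorem Sys.s_eq_zero (P : Pt S ev) (i : Fin r) (hj : ∃ j, j ≠ i) : S.s ev i = 0 := by
  let L : Curved K ι A r :=
    { i0 := i
      J := S.J ev i
      v := fun j b => S.Gam ev i (S.y j b)
      u := fun a b => S.Gam ev i (S.V a b)
      Q := S.Q ev i
      th := fun a d => S.Gam ev i (S.th i a d)
      mu := fun c => S.Gam ev i (S.pd c S.lam)
      s := S.s ev i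
      vt := fun j a => ∑ d, S.Gam ev i (S.th j a d) * S.Gam ev i (S.y i d)
      g := fun a j => S.Gam ev i (S.ga i a j)
      hx := fun b => S.x_deriv ev i b
      hQ' := fun b c => S.Q_deriv ev i P.sg0 b c
      hth := fun a => S.th_y ev i a
      hQv := fun j b => S.Q_y ev i P.sg0 j b
      hvt := fun a => S.th_y ev i a
      hQu := fun a b => S.Q_V ev i P.sg0 a b
      hu := fun a b => S.V_deriv ev i a b
      s0 := by rw [coeff_zero_eq_constantCoeff]; exact S.s_zero ev i
      s1 := S.s_one ev i P.lam0 }
  have hc : ∀ f : R, constantCoeff (S.Gam ev i f) = ev f := fun f =>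
    expHom_constantCoeff ev (DD S.pd (S.y i)) f
  have hind : LinearIndependent K
      (Sum.elim (fun (j : Fin r) (b : ι) => constantCoeff (L.v j b))
      (fun (a : A) (b : ι) => constantCoeff (L.u a b))) := by
    have h1 : (Sum.elim (fun (j : Fin r) (b : ι) => constantCoeff (L.v j b))
        (fun (a : A) (b : ι) => constantCoeff (L.u a b))) =
        (Sum.elim (fun (j : Fin r) (b : ι) => ev (S.y j b))
        (fun (a : A) (b : ι) => ev (S.V a b))) := by
      funext k b
      rcases k with j | a
      · exact hc (S.y j b)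
      · exact hc (S.V a b)
    rw [h1]
    exact P.indep
  exact L.s_eq_zero hind hj

/-- `s = 0` gives `Γ(sg) = s x = 0` (`S1`) and `Γ(lam) = - s' = 0`. -/
theorem Sys.dir_zero (P : Pt S ev) (i : Fin r) (hj : ∃ j, j ≠ i) :
    (∀ b, S.Gam ev i (S.sg b) = 0) ∧ S.Gam ev i S.lam = 0 := by
  have h0 := S.s_eq_zero ev P i hj
  refine ⟨fun b => ?_, ?_⟩
  · rw [S.S1 ev i P.sg0 b, h0, zero_mul]
  · have h1 := S.s_deriv ev i
    rw [h0, map_zero] at h1
    exact neg_eq_zero.1 h1.symm

/-- Rows over `K⟦X⟧` whose constant terms are linearly independent over `K` are linearly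
independent over the fraction field. -/
theorem rows_indep_frac {K : Type*} [Field K] {ι B : Type*} [Fintype ι] [Fintype B]
    (M : B → ι → K⟦X⟧) (h : LinearIndependent K (fun k b => constantCoeff (M k b)))
    (M' : B → ι → FractionRing K⟦X⟧) (hM : ∀ k b, M' k b = algebraMap _ _ (M k b)) :
    LinearIndependent (FractionRing K⟦X⟧) M' := by
  classical
  -- a right inverse of the matrix of constant terms
  have hinj : Function.Injective (Fintype.linearCombination K
      (fun k b => constantCoeff (M k b))) :=
    linearIndependent_iff_injective_fintypeLinearCombination.1 h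
  obtain ⟨g, hg⟩ := LinearMap.exists_leftInverse_of_injective _ (LinearMap.ker_eq_bot.2 hinj)
  have hgv : ∀ k, g (fun b => constantCoeff (M k b)) = Pi.single k 1 := by
    intro k
    have h1 := LinearMap.congr_fun hg (Pi.single k 1)
    rw [LinearMap.comp_apply, LinearMap.id_apply, Fintype.linearCombination_apply_single,
      one_smul] at h1
    exact h1
  have hN : ∀ k k' : B, ∑ b, constantCoeff (M k b) * g (Pi.single b 1) k' =
      if k = k' then 1 else 0 := by
    intro k k'
    have h2 : (fun b => constantCoeff (M k b)) =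
        ∑ b, constantCoeff (M k b) • (Pi.single b 1 : ι → K) := by
      funext b
      simp [Finset.sum_apply, Pi.single_apply]
    have h3 := hgv k
    rw [h2, map_sum] at h3
    have h4 := congrFun h3 k'
    rw [Finset.sum_apply] at h4
    simp only [map_smul, Pi.smul_apply, smul_eq_mul] at h4
    rw [h4, Pi.single_apply]
    simp only [eq_comm]
  -- the square matrix
  let P : Matrix B B K⟦X⟧ := Matrix.of fun k k' => ∑ b, M k b * C (g (Pi.single b 1) k')
  have hP : constantCoeff P.det = 1 := by
    rw [RingHom.map_det]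
    have h1 : (constantCoeff (R := K)).mapMatrix P = 1 := by
      ext k k'
      rw [RingHom.mapMatrix_apply, Matrix.map_apply, Matrix.one_apply]
      show constantCoeff (∑ b, M k b * C (g (Pi.single b 1) k')) = _
      rw [map_sum]
      simp only [map_mul, constantCoeff_C]
      exact hN k k'
    rw [h1, Matrix.det_one]
  have hP0 : P.det ≠ 0 := by
    intro h0
    rw [h0, map_zero] at hP
    exact zero_ne_one hP
  have hPL : (P.map (algebraMap K⟦X⟧ (FractionRing K⟦X⟧))).det ≠ 0 := by
    have h1 : (P.map (algebraMap K⟦X⟧ (FractionRing K⟦X⟧))).det =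
        algebraMap K⟦X⟧ (FractionRing K⟦X⟧) P.det := by
      rw [RingHom.map_det]; rfl
    rw [h1]
    intro h2
    exact hP0 (IsFractionRing.injective K⟦X⟧ (FractionRing K⟦X⟧) (by rw [h2, map_zero]))
  rw [Fintype.linearIndependent_iff]
  intro c hc
  have hcP : Matrix.vecMul c (P.map (algebraMap K⟦X⟧ (FractionRing K⟦X⟧))) = 0 := by
    funext k'
    rw [Matrix.vecMul, dotProduct, Pi.zero_apply]
    have h1 : ∀ k, c k * (P.map (algebraMap K⟦X⟧ (FractionRing K⟦X⟧))) k k' =
        ∑ b, (c k * M' k b) * algebraMap K⟦X⟧ (FractionRing K⟦X⟧)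
          (C (g (Pi.single b 1) k')) := by
      intro k
      rw [Matrix.map_apply]
      show c k * algebraMap K⟦X⟧ (FractionRing K⟦X⟧)
        (∑ b, M k b * C (g (Pi.single b 1) k')) = _
      rw [map_sum, Finset.mul_sum]
      apply Finset.sum_congr rfl
      intro b _
      rw [map_mul, hM]
      ring
    rw [Finset.sum_congr rfl (fun k _ => h1 k), Finset.sum_comm]
    apply Finset.sum_eq_zero
    intro b _
    rw [← Finset.sum_mul]
    have h2 := congrFun hc b
    rw [Finset.sum_apply] at h2
    simp only [Pi.smul_apply, smul_eq_mul, Pi.zero_apply] at h2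
    rw [h2, zero_mul]
  have h3 := Matrix.eq_zero_of_vecMul_eq_zero hPL hcP
  intro k
  rw [h3]
  rfl

/-- The new point `ev' : R → K⟦X⟧ → L = FractionRing K⟦X⟧` (or `LaurentSeries K`) is again a point.
`ev' (sg b) = 0`, `ev' lam = 0` by `dir_zero`.  Independence over `L`: if the vectors
`(Γ(y_j^b))_b, (Γ(V_a^b))_b` were dependent over `L`, clear denominators and divide by the
largest power of `X` dividing all the coefficients to get a relation with coefficients in `K⟦X⟧`,
not all with zero constant term; taking constant terms contradicts the independence of the vectors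
`ev (y_j^b), ev (V_a^b)` over `K`.  (Alternatively via a nonzero minor: some square submatrix of
the matrix of the vectors has nonzero determinant at `ev`; its determinant under `Γ` has nonzero
constant term.) -/
theorem Sys.next_point (P : Pt S ev) (i : Fin r) (hj : ∃ j, j ≠ i) :
    Pt S ((algebraMap K⟦X⟧ (FractionRing K⟦X⟧)).comp (S.Gam ev i)) := by
  obtain ⟨h1, h2⟩ := S.dir_zero ev P i hj
  have hc : ∀ f : R, constantCoeff (S.Gam ev i f) = ev f := fun f =>
    expHom_constantCoeff ev (DD S.pd (S.y i)) f
  refine ⟨fun b => ?_, ?_, ?_⟩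
  · rw [RingHom.comp_apply, h1 b, map_zero]
  · rw [RingHom.comp_apply, h2, map_zero]
  · refine rows_indep_frac (Sum.elim (fun (j : Fin r) (b : ι) => S.Gam ev i (S.y j b))
      (fun (a : A) (b : ι) => S.Gam ev i (S.V a b))) ?_ _ ?_
    · have h3 : (fun (k : Fin r ⊕ A) (b : ι) => constantCoeff
          (Sum.elim (fun (j : Fin r) (b : ι) => S.Gam ev i (S.y j b))
          (fun (a : A) (b : ι) => S.Gam ev i (S.V a b)) k b)) =
          (Sum.elim (fun (j : Fin r) (b : ι) => ev (S.y j b))
          (fun (a : A) (b : ι) => ev (S.V a b))) := by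
        funext k b
        rcases k with j | a
        · exact hc (S.y j b)
        · exact hc (S.V a b)
      rw [h3]
      exact P.indep
    · intro k b
      rcases k with j | a
      · rfl
      · rfl

theorem charZero_frac (K : Type*) [Field K] [CharZero K] : CharZero (FractionRing K⟦X⟧) := by
  have h1 : Function.Injective (algebraMap K⟦X⟧ (FractionRing K⟦X⟧)) :=
    IsFractionRing.injective _ _
  exact charZero_of_injective_ringHom
    (f := (algebraMap K⟦X⟧ (FractionRing K⟦X⟧)).comp (C : K →+* K⟦X⟧))
    (h1.comp PowerSeries.C_injective)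

end Pool.Agent.RIG
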